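import Pool.Agent.U544.LI.Mult

/-!
# The criterion for the multiset of the ordinates of a family of L-functions, II
-/

set_option autoImplicit false

open Complex Filter Topology Metric Finset MeasureTheory Set
open scoped ComplexConjugate Nat

namespace Pool.Agent.U544.LI

variable {f : ℂ → ℂ} {L : ℕ → ℝ} {δ : ℝ}

lemma Ik_pos (k : ℕ) {x : ℝ} (hx : 0 < x) : 0 < Ik k x := by
  have h := Jk_pos (a := x / 2) (by positivity) k
  rw [Jk_Ik, mul_div_cancel₀ _ two_ne_zero] at h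
  exact h

section gen

variable {ι : Type*}

lemma wgs_pos {γ : ι → ℝ} {a : ι → ℝ} (ha : ∀ i, 0 < a i) (n : Rls γ) : 0 < wgs a n :=
  Finset.prod_pos fun i _ => div_pos (Ik_pos _ (ha i)) (Ik_pos _ (ha i))

/-- a bounded mean value and the finite sums over the relations -/
lemma finite_bound {γ : ι → ℝ} {a : ι → ℝ} (ha : ∀ i, 0 < a i) {M : ℝ → ℝ} {R : Prop} {c : ℝ} (hc : 0 < c)
    (hm : Multipliable fun i => Ik 0 (a i))
    (h2 : R ↔ ∃ C, ∀ᶠ X in atTop, M X ≤ C)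
    (h3 : R → Summable (wgs (γ := γ) a) ∧ Tendsto M atTop (𝓝 (c * (∏' i, Ik 0 (a i)) * ∑' n, wgs (γ := γ) a n)))
    (s : Finset (Rls γ)) {ε : ℝ} (hε : 0 < ε) :
    ∃ᶠ X in atTop, c * (∏' i, Ik 0 (a i)) * ∑ n ∈ s, wgs a n - ε < M X := by
  by_contra hcon
  rw [Filter.not_frequently] at hcon
  have h1 : ∀ᶠ X in atTop, M X ≤ c * (∏' i, Ik 0 (a i)) * ∑ n ∈ s, wgs a n - ε := hcon.mono fun X hX => not_lt.1 hX
  obtain ⟨h4, h5⟩ := h3 (h2.2 ⟨_, h1⟩)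
  have h6 := le_of_tendsto h5 h1
  have h7 : ∑ n ∈ s, wgs a n ≤ ∑' n : Rls γ, wgs a n := h4.sum_le_tsum s fun n _ => (wgs_pos ha n).le
  have h8 : 0 ≤ c * (∏' i, Ik 0 (a i)) := by
    refine mul_nonneg hc.le ?_
    exact ge_of_tendsto' hm.hasProd fun t => Finset.prod_nonneg fun i _ => (Ik_pos 0 (ha i)).le
  have h9 := mul_le_mul_of_nonneg_left h7 h8
  linarith

end gen

section fams

variable {X : Type} {S : Finset X} {P : X → Prop} {Z : X → ℂ → ℂ} {d : X → ℕ}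

/-- the multiset of the positive ordinates of the zeros on the critical line: the pairs of a member of
the family and a zero, listed with multiplicity -/
def GamP (P : X → Prop) (Z : X → ℂ → ℂ) : Type :=
  {p : (X × ℝ) × ℕ // P p.1.1 ∧ 0 < p.1.2 ∧ p.2 < analyticOrderNatAt (Z p.1.1) (1 / 2 + p.1.2 * I)}

/-- **The criterion for a family of L-functions.** -/
theorem crit_familyP (h : LD f L δ) (hP : ∀ χ, P χ ↔ χ ∈ S) (hd : ∀ χ ∈ S, 0 < d χ)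
    (hZ : ∀ χ ∈ S, ∀ s : ℂ, s ≠ 1 → AnalyticAt ℂ (Z χ) s) (h2 : ∀ χ ∈ S, Z χ 2 ≠ 0)
    (hf : ∀ z : ℂ, z ≠ 1 / 2 → f z = (z - 1 / 2) * ∏ χ ∈ S, Z χ (1 / 2 + z) ^ d χ)
    {lam : ℝ} (hl : 0 < lam) {D : ℝ → ℝ} (hD : ∀ x, 0 < x → D x = Dd L δ (Real.log x)) {c : ℝ}
    (hc : c = Real.exp (2 * lam * (∑ χ ∈ S, d χ * analyticOrderNatAt (Z χ) (1 / 2) : ℕ)))
    {a : GamP P Z → ℝ} (ha : ∀ p, a p = 4 * lam * d p.1.1.1 / (1 + p.1.1.2 ^ 2)) :
    (Multipliable fun p => Ik 0 (a p)) ∧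
    ((∀ χ, P χ → RHs (Z χ)) ↔ ∃ C, ∀ᶠ X in atTop, logMean (fun x => Real.exp (lam * D x)) X ≤ C) ∧
    ((∀ χ, P χ → RHs (Z χ)) → (Summable (wgs (γ := fun p : GamP P Z => p.1.1.2) a)) ∧
      Tendsto (logMean fun x => Real.exp (lam * D x)) atTop
        (𝓝 (c * (∏' p, Ik 0 (a p)) * ∑' n, wgs (γ := fun p : GamP P Z => p.1.1.2) a n))) ∧
    (∀ (s : Finset (Rls fun p : GamP P Z => p.1.1.2)) (ε : ℝ), 0 < ε → ∃ᶠ X in atTop,
      c * (∏' p, Ik 0 (a p)) * ∑ n ∈ s, wgs a n - ε < logMean (fun x => Real.exp (lam * D x)) X) ∧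
    ((∀ χ, P χ → RHs (Z χ)) ∧ LinearIndependent ℚ (fun p : GamP P Z => p.1.1.2) ↔
      ∀ ε : ℝ, 0 < ε → ∀ᶠ X in atTop, logMean (fun x => Real.exp (lam * D x)) X < c * (∏' p, Ik 0 (a p)) + ε) := by
  obtain rfl : P = fun χ => χ ∈ S := funext fun χ => propext (hP χ)
  obtain rfl : a = fun p : Gam S Z => p.arg d lam := funext ha
  obtain ⟨c1, c2, c3, -, c5⟩ := crit_family h hd hZ h2 hf hl hD (V := c * ∏' p : Gam S Z, Ik 0 (p.arg d lam)) (by rw [hc])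
  have hap : ∀ p : Gam S Z, 0 < p.arg d lam := fun p => by
    have : (0:ℝ) < d p.1.1.1 := by exact_mod_cast hd _ p.2.1
    unfold Gam.arg
    positivity
  refine ⟨c1, c2, c3, fun s ε hε => ?_, c5⟩
  exact finite_bound (γ := fun p : Gam S Z => p.ord) hap (by rw [hc]; exact Real.exp_pos _) c1 c2 c3 s hε

end fams

end Pool.Agent.U544.LI
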