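import Pool.Agent.U544.LI.Art
import Pool.Agent.U544.LI.Mult2

/-!
# The sum over the ideals of a number field
-/

set_option autoImplicit false
set_option linter.unusedSectionVars false

open Complex Filter Topology Metric Finset MeasureTheory Set NumberField
open scoped ComplexConjugate Nat

namespace Pool.Agent.U544.LI

open Pool.Agent.Y773 Pool.Agent.R362.Near

variable (E : Type) [Field E] [NumberField E]

/-- the smoothed sum as a sum over the ideals -/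
theorem D_ideal {x : ℝ} (hx : 0 < x) : 8 / 3 * √x - ∑' 𝔞 : Ideal (𝓞 E), VM 𝔞 / √(Ideal.absNorm 𝔞) *
    min (Ideal.absNorm 𝔞 / x) (x / Ideal.absNorm 𝔞) = Dd (LE E) 1 (Real.log x) := by
  have h := ld_ded E
  rw [Dd_log h.zero hx, mul_one]
  congr 1
  set F : Ideal (𝓞 E) → ℝ := fun 𝔞 => VM 𝔞 / √(Ideal.absNorm 𝔞) * min (Ideal.absNorm 𝔞 / x) (x / Ideal.absNorm 𝔞) with hF
  have hF0 : ∀ 𝔞, 0 ≤ F 𝔞 := fun 𝔞 => by
    have := Pool.Agent.Y772.DK.VM_nonneg 𝔞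
    rw [hF]
    positivity
  have hfib : ∀ n : ℕ, HasSum (fun 𝔞 : {𝔞 : Ideal (𝓞 E) // Ideal.absNorm 𝔞 = n} => F 𝔞.1)
      (LE E n / √n * min (n / x) (x / n)) := by
    intro n
    have hfin : Finite {𝔞 : Ideal (𝓞 E) // Ideal.absNorm 𝔞 = n} := Pool.Agent.Y772.DK.NN_finite (K := E) n
    have e1 : (fun 𝔞 : {𝔞 : Ideal (𝓞 E) // Ideal.absNorm 𝔞 = n} => F 𝔞.1) =
        fun 𝔞 => VM 𝔞.1 * (1 / √n * min (n / x) (x / n)) := by
      funext 𝔞
      simp only [hF]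
      rw [𝔞.2]
      ring
    have e2 : HasSum (fun 𝔞 : {𝔞 : Ideal (𝓞 E) // Ideal.absNorm 𝔞 = n} => VM 𝔞.1) (LE E n) := by
      have h1 : Summable (fun 𝔞 : {𝔞 : Ideal (𝓞 E) // Ideal.absNorm 𝔞 = n} => VM 𝔞.1) := Summable.of_finite
      have h2 : ∑' 𝔞 : {𝔞 : Ideal (𝓞 E) // Ideal.absNorm 𝔞 = n}, VM 𝔞.1 = LE E n := by
        rw [tsum_eq_finsum (Set.toFinite _)]
        exact finsum_set_coe_eq_finsum_mem (f := fun 𝔞 : Ideal (𝓞 E) => VM 𝔞) {𝔞 : Ideal (𝓞 E) | Ideal.absNorm 𝔞 = n}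
      rw [← h2]
      exact h1.hasSum
    rw [e1]
    have h3 := e2.mul_right (1 / √n * min (n / x) (x / n))
    rwa [show LE E n * (1 / √n * min (n / x) (x / n)) = LE E n / √n * min (n / x) (x / n) by ring] at h3
  have hsn : Summable fun n : ℕ => LE E n / √n * min (n / x) (x / n) := by
    have h1 := S_summ h (Real.log x)
    refine h1.congr fun n => ?_
    rcases Nat.eq_zero_or_pos n with rfl | hn
    · simp [LE_zero]
    · rw [exp_min hn hx]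
  have hsF : Summable F := by
    have key : Summable (fun y : (Σ n : ℕ, {𝔞 : Ideal (𝓞 E) // Ideal.absNorm 𝔞 = n}) => F y.2.1) := by
      rw [summable_sigma_of_nonneg (fun i => hF0 _)]
      exact ⟨fun n => (hfib n).summable, hsn.congr fun n => ((hfib n).tsum_eq).symm⟩
    exact (Equiv.sigmaFiberEquiv (fun 𝔞 : Ideal (𝓞 E) => Ideal.absNorm 𝔞)).summable_iff.1 key
  have key : Summable (fun y : (Σ n : ℕ, {𝔞 : Ideal (𝓞 E) // Ideal.absNorm 𝔞 = n}) => F y.2.1) :=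
    (Equiv.sigmaFiberEquiv (fun 𝔞 : Ideal (𝓞 E) => Ideal.absNorm 𝔞)).summable_iff.2 hsF
  have e0 : ∑' y : (Σ n : ℕ, {𝔞 : Ideal (𝓞 E) // Ideal.absNorm 𝔞 = n}), F y.2.1 = ∑' 𝔞, F 𝔞 :=
    (Equiv.sigmaFiberEquiv (fun 𝔞 : Ideal (𝓞 E) => Ideal.absNorm 𝔞)).tsum_eq F
  rw [← e0, Summable.tsum_sigma key]
  exact tsum_congr fun n => (hfib n).tsum_eq

/-- `Z` is the continuation of the Dedekind zeta function -/
def IsZ (Z : ℂ → ℂ) : Prop := (∀ s : ℂ, s ≠ 1 → AnalyticAt ℂ Z s) ∧ ∀ s : ℂ, 1 < s.re → Z s = dedekindZeta E s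

variable {E}

lemma ZD_eq {Z : ℂ → ℂ} (hZ : IsZ E Z) {s : ℂ} (hs : s ≠ 1) : ZD E s = (s - 1) * Z s := by
  have hpre : IsPreconnected ({1}ᶜ : Set ℂ) :=
    (isConnected_compl_singleton_of_one_lt_rank (rank_real_complex ▸ Nat.one_lt_ofNat) _).isPreconnected
  have hf : AnalyticOnNhd ℂ (ZD E) ({1}ᶜ : Set ℂ) := fun z _ => (ZD_diff E).analyticAt z
  have hg : AnalyticOnNhd ℂ (fun s => (s - 1) * Z s) ({1}ᶜ : Set ℂ) := fun z hz =>
    AnalyticAt.mul (by fun_prop) (hZ.1 z hz)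
  have h2 : ZD E =ᶠ[𝓝 (2 : ℂ)] fun s => (s - 1) * Z s := by
    have h1 : {z : ℂ | 1 < z.re} ∈ 𝓝 (2 : ℂ) :=
      (isOpen_lt continuous_const Complex.continuous_re).mem_nhds (by norm_num)
    filter_upwards [h1] with z hz
    rw [ZD_LI E hz, hZ.2 z hz, LI_zeta hz]
  exact hf.eqOn_of_preconnected_of_eventuallyEq hg hpre (by
    show (2 : ℂ) ≠ 1
    norm_num) h2 hs

variable (E)

lemma exists_Z : ∃ Z : ℂ → ℂ, IsZ E Z := by
  refine ⟨fun s => ZD E s / (s - 1), fun s hs => ?_, fun s hs => ?_⟩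
  · exact ((ZD_diff E).analyticAt s).fun_div (by fun_prop) (sub_ne_zero.2 hs)
  · have hs1 : s ≠ 1 := by rintro rfl; simp at hs
    show ZD E s / (s - 1) = _
    rw [ZD_LI E hs, LI_zeta hs, mul_div_cancel_left₀ _ (sub_ne_zero.2 hs1)]

variable {E}

lemma Z_unique {Z Z' : ℂ → ℂ} (hZ : IsZ E Z) (hZ' : IsZ E Z') {s : ℂ} (hs : s ≠ 1) : Z s = Z' s := by
  have h1 := ZD_eq hZ hs
  rw [ZD_eq hZ' hs] at h1
  exact (mul_left_cancel₀ (sub_ne_zero.2 hs) h1).symm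

lemma Z_pos {Z : ℂ → ℂ} (hZ : IsZ E Z) {s : ℂ} (hs : s ≠ 1) (h0 : Z s = 0) : 0 < analyticOrderNatAt Z s := by
  have h2 : Z 2 ≠ 0 := by
    have h3 := ZD_eq hZ (s := 2) (by norm_num)
    have h4 := ZD_ne E (s := 2) (by norm_num)
    intro h5
    rw [h5, mul_zero] at h3
    exact h4 h3
  exact (Z_ord_pos (S := {()}) (Z := fun _ => Z) (χ := ()) (fun _ _ s hs => hZ.1 s hs) (fun _ _ => h2) (by simp) hs).2 h0

/-- **The criterion for the zeta function of a number field.** -/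
theorem crit_ded {Z : ℂ → ℂ} (hZ : IsZ E Z) {lam : ℝ} (hl : 0 < lam) {D : ℝ → ℝ}
    (hD : ∀ x, 0 < x → D x = Dd (LE E) 1 (Real.log x)) {c : ℝ}
    (hc : c = Real.exp (2 * lam * analyticOrderNatAt Z (1 / 2))) :
    (Multipliable fun g : Ord Z => Ik 0 (ar Z lam g)) ∧
    (RHs Z ↔ ∃ C, ∀ᶠ X in atTop, logMean (fun x => Real.exp (lam * D x)) X ≤ C) ∧
    (RHs Z → (Summable (wgs (γ := fun g : Ord Z => g.1) (ar Z lam))) ∧
      Tendsto (logMean fun x => Real.exp (lam * D x)) atTop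
        (𝓝 (c * (∏' g : Ord Z, Ik 0 (ar Z lam g)) * ∑' n, wgs (γ := fun g : Ord Z => g.1) (ar Z lam) n))) ∧
    (∀ (s : Finset (Rls fun g : Ord Z => g.1)) (ε : ℝ), 0 < ε → ∃ᶠ X in atTop,
      c * (∏' g : Ord Z, Ik 0 (ar Z lam g)) * ∑ n ∈ s, wgs (ar Z lam) n - ε < logMean (fun x => Real.exp (lam * D x)) X) ∧
    (RHs Z ∧ LinearIndependent ℚ (fun g : Ord Z => g.1) ↔
      ∀ ε : ℝ, 0 < ε → ∀ᶠ X in atTop, logMean (fun x => Real.exp (lam * D x)) X <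
        c * (∏' g : Ord Z, Ik 0 (ar Z lam g)) + ε) := by
  have h := ld_ded E
  have hf : ∀ z : ℂ, z ≠ 1 / 2 → (fun z => ZD E (1 / 2 + z)) z = (z - 1 / 2) * Z (1 / 2 + z) := by
    intro z hz
    have h1 : (1 / 2 + z : ℂ) ≠ 1 := fun h => hz (by linear_combination h)
    show ZD E (1 / 2 + z) = _
    rw [ZD_eq hZ h1]
    ring
  obtain ⟨c1, c2, c3, -, c5⟩ := crit_set h hf hl hD (V := c * ∏' g : Ord Z, Ik 0 (ar Z lam g)) (by rw [hc])
  have hap : ∀ g : Ord Z, 0 < ar Z lam g := fun g => by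
    have h1 : (1 / 2 + (g.1:ℂ) * I) ≠ 1 := fun h => ne_half g.1 (by linear_combination h)
    have : (0:ℝ) < analyticOrderNatAt Z (1 / 2 + g.1 * I) := by exact_mod_cast Z_pos hZ h1 g.2.2
    unfold ar
    positivity
  refine ⟨c1, c2, c3, fun s ε hε => ?_, c5⟩
  exact finite_bound (γ := fun g : Ord Z => g.1) hap (by rw [hc]; exact Real.exp_pos _) c1 c2 c3 s hε

end Pool.Agent.U544.LI
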