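import Pool.Agent.U544.LI.Crit

/-!
# The criterion for families of L-functions
-/

set_option autoImplicit false

open Complex Filter Topology Metric Finset MeasureTheory Set
open scoped ComplexConjugate

namespace Pool.Agent.U544.LI

variable {f : ℂ → ℂ} {L : ℕ → ℝ} {δ : ℝ}

lemma ord_prod {ι : Type*} (s : Finset ι) {F : ι → ℂ → ℂ} {z : ℂ} (hd : ∀ i ∈ s, AnalyticAt ℂ (F i) z)
    (ht : ∀ i ∈ s, analyticOrderAt (F i) z ≠ ⊤) :
    analyticOrderAt (fun y => ∏ i ∈ s, F i y) z ≠ ⊤ ∧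
    analyticOrderNatAt (fun y => ∏ i ∈ s, F i y) z = ∑ i ∈ s, analyticOrderNatAt (F i) z := by
  classical
  induction s using Finset.induction_on with
  | empty =>
    have h1 : analyticOrderAt (fun _ : ℂ => (1:ℂ)) z = 0 :=
      (analyticAt_const.analyticOrderAt_eq_zero).2 one_ne_zero
    simp only [Finset.prod_empty, Finset.sum_empty]
    refine ⟨by rw [h1]; exact ENat.zero_ne_top, ?_⟩
    unfold analyticOrderNatAt
    rw [h1]
    rfl
  | insert i s hi ih =>
    obtain ⟨h1, h2⟩ := ih (fun j hj => hd j (Finset.mem_insert_of_mem hj)) (fun j hj => ht j (Finset.mem_insert_of_mem hj))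
    have a1 := hd i (Finset.mem_insert_self _ _)
    have t1 := ht i (Finset.mem_insert_self _ _)
    have a2 : AnalyticAt ℂ (fun y => ∏ i ∈ s, F i y) z :=
      Finset.analyticAt_fun_prod s fun j hj => hd j (Finset.mem_insert_of_mem hj)
    have e : (fun y => ∏ i ∈ insert i s, F i y) = F i * fun y => ∏ i ∈ s, F i y := by
      funext y
      rw [Finset.prod_insert hi]
      rfl
    rw [e, Finset.sum_insert hi]
    refine ⟨?_, ?_⟩
    · rw [analyticOrderAt_mul a1 a2]
      exact WithTop.add_ne_top.2 ⟨t1, h1⟩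
    · rw [analyticOrderNatAt_mul a1 a2 t1 h1, h2]

lemma J0_gt {a : ℝ} (ha : 0 < a) : 0 < Real.log (J0 a) := by
  apply Real.log_pos
  have h1 := (summable_J a).sum_le_tsum (range 2) (fun n _ => by positivity)
  rw [Finset.sum_range_succ, Finset.sum_range_one] at h1
  unfold J0
  have h2 : (0:ℝ) < (a ^ 1 / (Nat.factorial 1)) ^ 2 := by positivity
  have h3 : ((a:ℝ) ^ 0 / (Nat.factorial 0)) ^ 2 = 1 := by simp
  linarith

section pairs

variable {P : Type*} (π : P → Gs f) (m : P → ℕ)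

/-- the index set with multiplicities -/
def Ix : Type _ := Σ p : P, Fin (m p)

lemma tsum_Ix {F : P → ℝ} (hs : Summable fun i : Ix m => F i.1) :
    ∑' i : Ix m, F i.1 = ∑' p, (m p : ℝ) * F p := by
  have : ∑' i : (Σ p : P, Fin (m p)), F i.1 = ∑' (p : P) (_ : Fin (m p)), F p :=
    Summable.tsum_sigma' (fun p => Summable.of_finite) hs
  rw [show (∑' i : Ix m, F i.1) = ∑' i : (Σ p : P, Fin (m p)), F i.1 from rfl, this]
  refine tsum_congr fun p => ?_
  simp

lemma summ_Ix {F : P → ℝ} (h0 : ∀ p, 0 ≤ F p) (hs : Summable fun p => (m p : ℝ) * F p) :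
    Summable fun i : Ix m => F i.1 := by
  have : Summable fun i : (Σ p : P, Fin (m p)) => F i.1 := by
    rw [summable_sigma_of_nonneg (fun i => h0 _)]
    refine ⟨fun g => Summable.of_finite, ?_⟩
    refine hs.congr fun g => ?_
    simp
  exact this

/-- **the criterion for pairs** -/
theorem crit_pairs (h : LD f L δ) {lam : ℝ} (hl : 0 < lam) (hm : ∀ p, 0 < m p)
    (hfin : ∀ g : Gs f, Finite {p // π p = g})
    (hfib : ∀ g : Gs f, ∑' p : {p // π p = g}, (m p : ℝ) = mu f (g.1 * I)) :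
    (Summable fun p => Real.log (J0 (lam * (2 / (1 + (π p).1 ^ 2))))) ∧
    ∀ E, Tendsto (mean fun u => Real.exp (lam * Dd L δ u)) atTop (𝓝 E) →
      Real.exp (2 * lam * mu f 0) * PP (fun p => lam * (2 / (1 + (π p).1 ^ 2))) ≤ E ∧
      (E = Real.exp (2 * lam * mu f 0) * PP (fun p => lam * (2 / (1 + (π p).1 ^ 2))) ↔
        (∀ p, m p = 1) ∧ LinearIndependent ℚ fun p => (π p).1) := by
  classical
  -- summability over the pairs
  have hP : ∀ {G : Gs f → ℝ}, (∀ g, 0 ≤ G g) → (Summable fun g : Gs f => (mu f (g.1 * I) : ℝ) * G g) →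
      Summable fun p => (m p : ℝ) * G (π p) := by
    intro G hG hs
    have key : Summable (fun x : (Σ g : Gs f, {p // π p = g}) => (m x.2.1 : ℝ) * G (π x.2.1)) := by
      rw [summable_sigma_of_nonneg (fun i => mul_nonneg (Nat.cast_nonneg _) (hG _))]
      refine ⟨fun g => ?_, ?_⟩
      · have := hfin g
        exact Summable.of_finite
      · refine hs.congr fun g => ?_
        rw [← hfib g, ← tsum_mul_right]
        refine tsum_congr fun p => ?_
        rw [p.2]
    exact (Equiv.sigmaFiberEquiv π).summable_iff.1 key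
  have hPt : ∀ {G : Gs f → ℝ}, (Summable fun p => (m p : ℝ) * G (π p)) →
      ∑' p, (m p : ℝ) * G (π p) = ∑' g : Gs f, (mu f (g.1 * I) : ℝ) * G g := by
    intro G hs
    have key : Summable (fun x : (Σ g : Gs f, {p // π p = g}) => (m x.2.1 : ℝ) * G (π x.2.1)) :=
      (Equiv.sigmaFiberEquiv π).summable_iff.2 hs
    have e0 : ∑' x : (Σ g : Gs f, {p // π p = g}), (m x.2.1 : ℝ) * G (π x.2.1) = ∑' p, (m p : ℝ) * G (π p) :=
      (Equiv.sigmaFiberEquiv π).tsum_eq (fun p => (m p : ℝ) * G (π p))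
    rw [← e0, Summable.tsum_sigma' (fun g => by have := hfin g; exact Summable.of_finite) key]
    refine tsum_congr fun g => ?_
    rw [← hfib g, ← tsum_mul_right]
    refine tsum_congr fun p => ?_
    rw [p.2]
  have hw := wt_summ h
  have hb1 : Summable fun p => (m p : ℝ) * (2 / (1 + (π p).1 ^ 2)) :=
    hP (G := fun g => 2 / (1 + g.1 ^ 2)) (fun g => by positivity) (hw.congr fun g => rfl)
  have hb : Summable fun i : Ix m => (2:ℝ) / (1 + (π i.1).1 ^ 2) :=
    summ_Ix m (F := fun p => (2:ℝ) / (1 + (π p).1 ^ 2)) (fun p => by positivity) hb1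
  have hpos : ∀ i : Ix m, (0:ℝ) < 2 / (1 + (π i.1).1 ^ 2) := fun i => by positivity
  have hbD : ∀ u, DD (fun i : Ix m => (2:ℝ) / (1 + (π i.1).1 ^ 2)) (fun i => (π i.1).1) u =
      DD (wt f) (fun g : Gs f => g.1) u := by
    intro u
    have hs := summ_D (γ := fun i : Ix m => (π i.1).1) hpos hb u
    unfold DD
    rw [tsum_Ix m (F := fun p => 2 * ((2:ℝ) / (1 + (π p).1 ^ 2)) * Real.cos ((π p).1 * u)) hs]
    have hs2 : Summable fun p => (m p : ℝ) * (2 * ((2:ℝ) / (1 + (π p).1 ^ 2)) * Real.cos ((π p).1 * u)) := by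
      refine Summable.of_norm_bounded (hb1.mul_left 2) fun p => ?_
      rw [norm_mul, norm_mul, Real.norm_natCast, Real.norm_of_nonneg (by positivity)]
      calc (m p : ℝ) * (2 * (2 / (1 + (π p).1 ^ 2)) * ‖Real.cos ((π p).1 * u)‖)
          ≤ (m p : ℝ) * (2 * (2 / (1 + (π p).1 ^ 2)) * 1) := by
            have := Real.abs_cos_le_one ((π p).1 * u)
            rw [← Real.norm_eq_abs] at this
            gcongr
        _ = _ := by ring
    rw [hPt (G := fun g => 2 * ((2:ℝ) / (1 + g.1 ^ 2)) * Real.cos (g.1 * u)) hs2]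
    refine tsum_congr fun g => ?_
    unfold wt
    ring
  obtain ⟨-, c2, c3⟩ := crit h hl (fun i : Ix m => π i.1) (fun i => (2:ℝ) / (1 + (π i.1).1 ^ 2)) hpos hb hbD
  set ℓ : P → ℝ := fun p => Real.log (J0 (lam * (2 / (1 + (π p).1 ^ 2)))) with hℓ
  have hℓ0 : ∀ p, 0 < ℓ p := fun p => J0_gt (by positivity)
  -- the logarithms over the pairs
  have c3' : Summable fun i : (Σ p : P, Fin (m p)) => ℓ i.1 := c3
  have hmℓ : Summable fun p => (m p : ℝ) * ℓ p := by
    have := (summable_sigma_of_nonneg (fun i : (Σ p : P, Fin (m p)) => (hℓ0 i.1).le)).1 c3'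
    refine this.2.congr fun p => ?_
    simp
  have hℓs : Summable ℓ := by
    refine Summable.of_nonneg_of_le (fun p => (hℓ0 p).le) (fun p => ?_) hmℓ
    have : (1:ℝ) ≤ m p := by exact_mod_cast hm p
    nlinarith [hℓ0 p]
  refine ⟨hℓs, fun E hE => ?_⟩
  obtain ⟨d1, d2⟩ := c2 E hE
  have e1 : PP (fun i : Ix m => lam * ((2:ℝ) / (1 + (π i.1).1 ^ 2))) = Real.exp (∑' p, (m p : ℝ) * ℓ p) := by
    unfold PP
    congr 1
    exact tsum_Ix m (F := ℓ) c3
  have e2 : PP (fun p => lam * ((2:ℝ) / (1 + (π p).1 ^ 2))) = Real.exp (∑' p, ℓ p) := rfl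
  have hle : ∑' p, ℓ p ≤ ∑' p, (m p : ℝ) * ℓ p := hℓs.tsum_le_tsum (fun p => by
    have : (1:ℝ) ≤ m p := by exact_mod_cast hm p
    nlinarith [hℓ0 p]) hmℓ
  have hc0 : 0 < Real.exp (2 * lam * mu f 0) := Real.exp_pos _
  have hple : PP (fun p => lam * ((2:ℝ) / (1 + (π p).1 ^ 2))) ≤
      PP (fun i : Ix m => lam * ((2:ℝ) / (1 + (π i.1).1 ^ 2))) := by
    rw [e1, e2]
    exact Real.exp_le_exp.2 hle
  have hple2 := mul_le_mul_of_nonneg_left hple hc0.le
  refine ⟨hple2.trans d1, ?_⟩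
  constructor
  · intro hEq
    have h1 : E = Real.exp (2 * lam * mu f 0) * PP (fun i : Ix m => lam * ((2:ℝ) / (1 + (π i.1).1 ^ 2))) :=
      le_antisymm (by rw [hEq]; exact hple2) d1
    have h2 : PP (fun p => lam * ((2:ℝ) / (1 + (π p).1 ^ 2))) =
        PP (fun i : Ix m => lam * ((2:ℝ) / (1 + (π i.1).1 ^ 2))) :=
      mul_left_cancel₀ hc0.ne' (hEq.symm.trans h1)
    rw [e1, e2, Real.exp_eq_exp] at h2
    refine ⟨fun p0 => ?_, ?_⟩
    · by_contra hne
      have h3 : (2:ℝ) ≤ m p0 := by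
        have := hm p0
        have : 2 ≤ m p0 := by omega
        exact_mod_cast this
      have h4 : ∑' p, ℓ p < ∑' p, (m p : ℝ) * ℓ p :=
        Summable.tsum_lt_tsum (i := p0) (fun p => by
          have : (1:ℝ) ≤ m p := by exact_mod_cast hm p
          nlinarith [hℓ0 p]) (by nlinarith [hℓ0 p0]) hℓs hmℓ
      linarith
    · have h3 := d2.1 h1
      have hinj : Function.Injective fun p : P => (⟨p, ⟨0, hm p⟩⟩ : Ix m) := by
        intro p p' hpp
        exact congrArg Sigma.fst hpp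
      exact h3.comp _ hinj
  · rintro ⟨h1, h2⟩
    have hinj : Function.Injective fun i : Ix m => i.1 := by
      rintro ⟨p, j⟩ ⟨p', j'⟩ hpp
      have hpp : p = p' := hpp
      subst hpp
      have : j = j' := by
        apply Fin.ext
        have a1 := j.2
        have a2 := j'.2
        have a3 := h1 p
        omega
      rw [this]
    have h3 := d2.2 (h2.comp _ hinj)
    rw [h3, e1, e2]
    congr 2
    refine tsum_congr fun p => ?_
    rw [h1 p]
    simp

end pairs

end Pool.Agent.U544.LI
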