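import Pool.Agent.U544.LI.Dir
import Pool.Agent.U544.LI.Crit2

/-!
# The criterion modulo `q`
-/

set_option autoImplicit false

open Complex Filter Topology Metric Finset MeasureTheory Set
open scoped ComplexConjugate
open DirichletCharacter ArithmeticFunction.vonMangoldt

namespace Pool.Agent.U544.LI

variable {q : ℕ} [NeZero q]

lemma L_an (χ : DirichletCharacter ℂ q) {s : ℂ} (hs : s ≠ 1) : AnalyticAt ℂ (LFunction χ) s :=
  H370.DL.analyticAt_L hs

lemma L_top (χ : DirichletCharacter ℂ q) {s : ℂ} (hs : s ≠ 1) : analyticOrderAt (LFunction χ) s ≠ ⊤ := by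
  have hA : AnalyticOnNhd ℂ (LFunction χ) ({1}ᶜ : Set ℂ) := fun z hz => L_an χ hz
  have hpc : IsPreconnected ({1}ᶜ : Set ℂ) :=
    (isConnected_compl_singleton_of_one_lt_rank (by simp) 1).isPreconnected
  have h2 : (2:ℂ) ∈ ({1}ᶜ : Set ℂ) := by simp
  refine hA.analyticOrderAt_ne_top_of_isPreconnected hpc h2 hs ?_
  have h3 : LFunction χ 2 ≠ 0 := LFunction_ne_zero_of_one_le_re χ (Or.inr (by norm_num)) (by norm_num)
  rw [(hA 2 h2).analyticOrderAt_eq_zero.2 h3]
  exact ENat.zero_ne_top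

lemma shift_ord (F : ℂ → ℂ) (z : ℂ) : analyticOrderAt (fun y => F (1 / 2 + y)) z = analyticOrderAt F (1 / 2 + z) := by
  have h1 : AnalyticAt ℂ (fun y : ℂ => 1 / 2 + y) z := by fun_prop
  have h2 : deriv (fun y : ℂ => 1 / 2 + y) z ≠ 0 := by
    rw [deriv_const_add]
    simp
  exact analyticOrderAt_comp_of_deriv_ne_zero (f := F) h1 h2

/-- the order of the product -/
lemma mu_prod (S : Finset (DirichletCharacter ℂ q)) {f : ℂ → ℂ} {z : ℂ} (hz : z ≠ 1 / 2)
    (hf : f =ᶠ[𝓝 z] fun y => (y - 1 / 2) * ∏ χ ∈ S, LFunction χ (1 / 2 + y)) :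
    mu f z = ∑ χ ∈ S, analyticOrderNatAt (LFunction χ) (1 / 2 + z) := by
  have hs : 1 / 2 + z ≠ 1 := by
    intro h
    apply hz
    linear_combination h
  have ha : ∀ χ ∈ S, AnalyticAt ℂ (fun y => LFunction χ (1 / 2 + y)) z := fun χ _ => by
    have h1 := L_an χ hs
    exact h1.comp_of_eq (by fun_prop) rfl
  have ht : ∀ χ ∈ S, analyticOrderAt (fun y => LFunction χ (1 / 2 + y)) z ≠ ⊤ := fun χ _ => by
    rw [shift_ord]
    exact L_top χ hs
  obtain ⟨p1, p2⟩ := ord_prod S ha ht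
  have hl : AnalyticAt ℂ (fun y : ℂ => y - 1 / 2) z := by fun_prop
  have hl0 : analyticOrderAt (fun y : ℂ => y - 1 / 2) z = 0 := hl.analyticOrderAt_eq_zero.2 (sub_ne_zero.2 hz)
  unfold mu
  have e : analyticOrderNatAt f z =
      analyticOrderNatAt ((fun y : ℂ => y - 1 / 2) * fun y => ∏ χ ∈ S, LFunction χ (1 / 2 + y)) z := by
    unfold analyticOrderNatAt
    rw [analyticOrderAt_congr hf]
    rfl
  rw [e, analyticOrderNatAt_mul hl (Finset.analyticAt_fun_prod S ha) (by rw [hl0]; exact ENat.zero_ne_top) p1, p2]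
  have e2 : analyticOrderNatAt (fun y : ℂ => y - 1 / 2) z = 0 := by
    unfold analyticOrderNatAt
    rw [hl0]
    rfl
  rw [e2, zero_add]
  refine Finset.sum_congr rfl fun χ _ => ?_
  unfold analyticOrderNatAt
  rw [shift_ord]

lemma ord_pos_iff (χ : DirichletCharacter ℂ q) {s : ℂ} (hs : s ≠ 1) :
    analyticOrderNatAt (LFunction χ) s ≠ 0 ↔ LFunction χ s = 0 := by
  have h1 := L_top χ hs
  have h2 := (L_an χ hs).analyticOrderAt_ne_zero
  rw [← h2]
  unfold analyticOrderNatAt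
  rw [Ne, ENat.toNat_eq_zero]
  constructor
  · intro h h3
    exact h (Or.inl h3)
  · rintro h (h3 | h3)
    · exact h h3
    · exact h1 h3

lemma simple_iff (χ : DirichletCharacter ℂ q) {s : ℂ} (hs : s ≠ 1) (h0 : LFunction χ s = 0) :
    analyticOrderNatAt (LFunction χ) s = 1 ↔ deriv (LFunction χ) s ≠ 0 := by
  have ha := L_an χ hs
  have h1 := ha.analyticOrderAt_deriv_add_one
  simp only [h0, sub_zero] at h1
  have ht := L_top χ hs
  rw [← ha.deriv.analyticOrderAt_eq_zero]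
  unfold analyticOrderNatAt
  obtain ⟨n, hn⟩ := ENat.ne_top_iff_exists.1 ht
  rw [← hn] at h1 ⊢
  rw [ENat.toNat_natCast]
  constructor
  · rintro rfl
    rcases eq_or_ne (analyticOrderAt (deriv (LFunction χ)) s) ⊤ with h2 | h2
    · rw [h2] at h1
      simp at h1
    · obtain ⟨k, hk⟩ := ENat.ne_top_iff_exists.1 h2
      rw [← hk] at h1 ⊢
      have h3 : k + 1 = 1 := by exact_mod_cast h1
      have h4 : k = 0 := by omega
      rw [h4]
      rfl
  · intro h
    rw [h, zero_add] at h1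
    exact_mod_cast h1.symm

/-- the nontrivial zeros above the real axis, for a set of characters -/
def Prs (S : Finset (DirichletCharacter ℂ q)) : Type :=
  {p : DirichletCharacter ℂ q × ℂ // p.1 ∈ S ∧ 0 < p.2.re ∧ p.2.re < 1 ∧ 0 < p.2.im ∧ LFunction p.1 p.2 = 0}

/-- **The criterion for a family of characters.** -/
theorem crit_fam (S : Finset (DirichletCharacter ℂ q)) {f : ℂ → ℂ} {L : ℕ → ℝ} (h : LD f L 1)
    (hf : ∀ z : ℂ, z ≠ 1 / 2 → f z = (z - 1 / 2) * ∏ χ ∈ S, LFunction χ (1 / 2 + z))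
    {lam : ℝ} (hl : 0 < lam) :
    ((∀ χ ∈ S, ∀ ρ : ℂ, 0 < ρ.re → ρ.re < 1 → LFunction χ ρ = 0 → ρ.re = 1 / 2) ↔
      ∃ E, Tendsto (mean fun u => Real.exp (lam * Dd L 1 u)) atTop (𝓝 E)) ∧
    ((∀ χ ∈ S, ∀ ρ : ℂ, 0 < ρ.re → ρ.re < 1 → LFunction χ ρ = 0 → ρ.re = 1 / 2) →
      Summable fun p : Prs S => Real.log (J0 (lam * (2 / (1 + p.1.2.im ^ 2))))) ∧
    ∀ E, Tendsto (mean fun u => Real.exp (lam * Dd L 1 u)) atTop (𝓝 E) →
      Real.exp (2 * lam * (∑ χ ∈ S, analyticOrderNatAt (LFunction χ) (1 / 2) : ℕ)) *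
        PP (fun p : Prs S => lam * (2 / (1 + p.1.2.im ^ 2))) ≤ E ∧
      (E = Real.exp (2 * lam * (∑ χ ∈ S, analyticOrderNatAt (LFunction χ) (1 / 2) : ℕ)) *
        PP (fun p : Prs S => lam * (2 / (1 + p.1.2.im ^ 2))) ↔
        (∀ χ ∈ S, ∀ ρ : ℂ, 0 < ρ.re → ρ.re < 1 → 0 < ρ.im → LFunction χ ρ = 0 → deriv (LFunction χ) ρ ≠ 0) ∧
        LinearIndependent ℚ fun p : Prs S => p.1.2.im) := by
  classical
  have hfz : ∀ z : ℂ, z ≠ 1 / 2 → (f z = 0 ↔ ∃ χ ∈ S, LFunction χ (1 / 2 + z) = 0) := by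
    intro z hz
    rw [hf z hz, mul_eq_zero, Finset.prod_eq_zero_iff]
    constructor
    · rintro (h1 | h1)
      · exact absurd (sub_eq_zero.1 h1) hz
      · exact h1
    · intro h1
      exact Or.inr h1
  have hRH : (∀ χ ∈ S, ∀ ρ : ℂ, 0 < ρ.re → ρ.re < 1 → LFunction χ ρ = 0 → ρ.re = 1 / 2) ↔ RHf f := by
    constructor
    · intro h1 w hw hw2
      rw [abs_lt] at hw2
      have hwh : w ≠ 1 / 2 := by
        rintro rfl
        norm_num at hw2
      obtain ⟨χ, hχ, h2⟩ := (hfz w hwh).1 hw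
      have := h1 χ hχ (1 / 2 + w) (by simp; linarith) (by simp; linarith) h2
      simp at this
      linarith
    · intro h1 χ hχ ρ h2 h3 h4
      have hwh : ρ - 1 / 2 ≠ 1 / 2 := by
        intro h5
        have : ρ = 1 := by linear_combination h5
        rw [this] at h3
        simp at h3
      have := h1 (ρ - 1 / 2) ((hfz _ hwh).2 ⟨χ, hχ, by rw [add_sub_cancel]; exact h4⟩) (by
        rw [abs_lt]
        constructor <;> simp <;> linarith)
      simp at this
      linarith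
  have hmu : ∀ z : ℂ, z ≠ 1 / 2 → mu f z = ∑ χ ∈ S, analyticOrderNatAt (LFunction χ) (1 / 2 + z) := by
    intro z hz
    refine mu_prod S hz ?_
    filter_upwards [isOpen_ne.mem_nhds hz] with y hy using hf y hy
  have hmu0 : mu f 0 = ∑ χ ∈ S, analyticOrderNatAt (LFunction χ) (1 / 2) := by
    rw [hmu 0 (by norm_num), add_zero]
  have key : RHf f → (Summable fun p : Prs S => Real.log (J0 (lam * (2 / (1 + p.1.2.im ^ 2))))) ∧
      ∀ E, Tendsto (mean fun u => Real.exp (lam * Dd L 1 u)) atTop (𝓝 E) →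
      Real.exp (2 * lam * (∑ χ ∈ S, analyticOrderNatAt (LFunction χ) (1 / 2) : ℕ)) *
        PP (fun p : Prs S => lam * (2 / (1 + p.1.2.im ^ 2))) ≤ E ∧
      (E = Real.exp (2 * lam * (∑ χ ∈ S, analyticOrderNatAt (LFunction χ) (1 / 2) : ℕ)) *
        PP (fun p : Prs S => lam * (2 / (1 + p.1.2.im ^ 2))) ↔
        (∀ χ ∈ S, ∀ ρ : ℂ, 0 < ρ.re → ρ.re < 1 → 0 < ρ.im → LFunction χ ρ = 0 → deriv (LFunction χ) ρ ≠ 0) ∧
        LinearIndependent ℚ fun p : Prs S => p.1.2.im) := by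
    intro hR
    have hG := hRH.2 hR
    -- a zero is on the line
    have hline : ∀ p : Prs S, p.1.2 = 1 / 2 + (p.1.2.im : ℂ) * I := by
      intro p
      have h1 := hG p.1.1 p.2.1 p.1.2 p.2.2.1 p.2.2.2.1 p.2.2.2.2.2
      apply Complex.ext
      · simp [h1]
      · simp
    have hne1 : ∀ g : ℝ, 0 < g → (g:ℂ) * I ≠ 1 / 2 := by
      intro g hg h1
      have := congrArg Complex.re h1
      simp at this
    let π : Prs S → Gs f := fun p => ⟨p.1.2.im, p.2.2.2.2.1, by
      rw [hfz _ (hne1 _ p.2.2.2.2.1)]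
      exact ⟨p.1.1, p.2.1, by rw [← hline p]; exact p.2.2.2.2.2⟩⟩
    let m : Prs S → ℕ := fun p => analyticOrderNatAt (LFunction p.1.1) p.1.2
    have hp1 : ∀ p : Prs S, p.1.2 ≠ 1 := by
      intro p h1
      have := p.2.2.2.1
      rw [h1] at this
      simp at this
    have hm : ∀ p, 0 < m p := fun p => Nat.pos_of_ne_zero ((ord_pos_iff p.1.1 (hp1 p)).2 p.2.2.2.2.2)
    -- the fibres
    let φ : (g : Gs f) → {χ : DirichletCharacter ℂ q // χ ∈ S ∧ LFunction χ (1 / 2 + g.1 * I) = 0} ≃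
        {p : Prs S // π p = g} := fun g =>
      { toFun := fun χ => ⟨⟨(χ.1, 1 / 2 + g.1 * I), χ.2.1, by simp, by simp <;> norm_num, by simpa using g.2.1,
          χ.2.2⟩, by apply Subtype.ext; simp [π]⟩
        invFun := fun p => ⟨p.1.1.1, p.1.2.1, by
          have h1 := hline p.1
          have h2 : (π p.1).1 = g.1 := by rw [p.2]
          have h3 : p.1.1.2.im = g.1 := h2
          rw [← h3, ← h1]
          exact p.1.2.2.2.2.2⟩
        left_inv := fun χ => by rfl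
        right_inv := fun p => by
          apply Subtype.ext
          apply Subtype.ext
          have h1 := hline p.1
          have h2 : (π p.1).1 = g.1 := by rw [p.2]
          have h3 : p.1.1.2.im = g.1 := h2
          rw [h3] at h1
          exact Prod.ext rfl h1.symm }
    have hfin : ∀ g : Gs f, Finite {p : Prs S // π p = g} := fun g => by
      have : Finite {χ : DirichletCharacter ℂ q // χ ∈ S ∧ LFunction χ (1 / 2 + g.1 * I) = 0} :=
        Finite.of_injective (β := {χ : DirichletCharacter ℂ q // χ ∈ S}) (fun χ => ⟨χ.1, χ.2.1⟩) (by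
          intro a b hab
          exact Subtype.ext (by
            have := congrArg (fun x : {χ : DirichletCharacter ℂ q // χ ∈ S} => x.1) hab
            exact this))
      exact Finite.of_equiv _ (φ g)
    have hfib : ∀ g : Gs f, ∑' p : {p : Prs S // π p = g}, (m p.1 : ℝ) = mu f (g.1 * I) := by
      intro g
      have hg1 : 1 / 2 + (g.1:ℂ) * I ≠ 1 := by
        intro h1
        apply hne1 g.1 g.2.1
        linear_combination h1
      rw [← (φ g).tsum_eq, hmu _ (hne1 g.1 g.2.1)]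
      have e1 : ∀ χ : {χ : DirichletCharacter ℂ q // χ ∈ S ∧ LFunction χ (1 / 2 + g.1 * I) = 0},
          (m ((φ g χ).1) : ℝ) = (analyticOrderNatAt (LFunction χ.1) (1 / 2 + g.1 * I) : ℝ) := fun χ => rfl
      simp_rw [e1]
      have e2 := _root_.tsum_subtype {χ : DirichletCharacter ℂ q | χ ∈ S ∧ LFunction χ (1 / 2 + g.1 * I) = 0}
        (fun χ => (analyticOrderNatAt (LFunction χ) (1 / 2 + g.1 * I) : ℝ))
      have e3 : ∑' χ : {χ : DirichletCharacter ℂ q // χ ∈ S ∧ LFunction χ (1 / 2 + g.1 * I) = 0},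
          (analyticOrderNatAt (LFunction χ.1) (1 / 2 + g.1 * I) : ℝ) =
          ∑' χ, ({χ : DirichletCharacter ℂ q | χ ∈ S ∧ LFunction χ (1 / 2 + g.1 * I) = 0}).indicator
            (fun χ => (analyticOrderNatAt (LFunction χ) (1 / 2 + g.1 * I) : ℝ)) χ := e2
      rw [e3, tsum_eq_sum (s := S)]
      · push_cast
        refine Finset.sum_congr rfl fun χ hχ => ?_
        by_cases h0 : LFunction χ (1 / 2 + g.1 * I) = 0
        · rw [indicator_of_mem (show χ ∈ {χ : DirichletCharacter ℂ q | χ ∈ S ∧ LFunction χ (1 / 2 + g.1 * I) = 0} from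
            ⟨hχ, h0⟩)]
        · rw [indicator_of_notMem (fun h1 => h0 h1.2)]
          have : analyticOrderNatAt (LFunction χ) (1 / 2 + g.1 * I) = 0 := by
            by_contra h1
            exact h0 ((ord_pos_iff χ hg1).1 h1)
          rw [this]
          simp
      · intro χ hχ
        exact indicator_of_notMem (fun h1 => hχ h1.1) _
    obtain ⟨c1, c2⟩ := crit_pairs π m h hl hm hfin hfib
    refine ⟨c1, fun E hE => ?_⟩
    obtain ⟨d1, d2⟩ := c2 E hE
    rw [hmu0] at d1 d2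
    refine ⟨d1, ?_⟩
    rw [show (Real.exp (2 * lam * (∑ χ ∈ S, analyticOrderNatAt (LFunction χ) (1 / 2) : ℕ)) *
        PP (fun p : Prs S => lam * (2 / (1 + p.1.2.im ^ 2)))) =
        Real.exp (2 * lam * (∑ χ ∈ S, analyticOrderNatAt (LFunction χ) (1 / 2) : ℕ)) *
        PP (fun p => lam * (2 / (1 + (π p).1 ^ 2))) from rfl, d2]
    refine and_congr ?_ Iff.rfl
    constructor
    · intro h1 χ hχ ρ h2 h3 h4 h5
      have hρ1 : ρ ≠ 1 := by rintro rfl; simp at h3
      exact (simple_iff χ hρ1 h5).1 (h1 ⟨(χ, ρ), hχ, h2, h3, h4, h5⟩)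
    · intro h1 p
      exact (simple_iff p.1.1 (hp1 p) p.2.2.2.2.2).2 (h1 p.1.1 p.2.1 p.1.2 p.2.2.1 p.2.2.2.1 p.2.2.2.2.1 p.2.2.2.2.2)
  refine ⟨?_, fun hG => (key (hRH.1 hG)).1, fun E hE => (key (rh_of_tendsto h hl hE)).2 E hE⟩
  rw [hRH]
  exact (crit h hl (fun g : Gs f => g) (wt f) (fun g => wt_pos h g) (wt_summ h) (fun u => rfl)).1

end Pool.Agent.U544.LI
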