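import Pool.Agent.U544.LI.DedD
import Pool.Agent.U544.LI.Dir2
import Pool.Agent.Helper791_Cyc.E2

/-!
# The zeta function of the rational numbers, and the Artin L-function of the trivial character
-/

set_option autoImplicit false
set_option linter.unusedSectionVars false

open Complex Filter Topology Metric Finset MeasureTheory Set NumberField
open scoped ComplexConjugate Nat

namespace Pool.Agent.U544.LI

lemma absNorm_rat (n : ℕ) : Ideal.absNorm (Ideal.span {(n : 𝓞 ℚ)}) = n := by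
  rw [Ideal.absNorm_span_singleton]
  have h : (n : 𝓞 ℚ) = algebraMap ℤ (𝓞 ℚ) n := by simp
  rw [h, Algebra.norm_algebraMap, RingOfIntegers.rank, Module.finrank_self, pow_one]
  simp

lemma ideal_rat {n : ℕ} (hn : 0 < n) : Nat.card {I : Ideal (𝓞 ℚ) // Ideal.absNorm I = n} = 1 := by
  rw [Nat.card_eq_one_iff_unique]
  refine ⟨⟨fun I J => ?_⟩, ⟨⟨_, absNorm_rat n⟩⟩⟩
  have key : ∀ I : Ideal (𝓞 ℚ), Ideal.absNorm I = n → I = Ideal.span {(n : 𝓞 ℚ)} := by
    intro I hI
    have h1 : (n : 𝓞 ℚ) ∈ I := by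
      rw [← hI]
      exact Ideal.absNorm_mem I
    obtain ⟨J, hJ⟩ := Ideal.dvd_iff_le.2 ((Ideal.span_singleton_le_iff_mem I).2 h1)
    have h2 := congrArg Ideal.absNorm hJ
    rw [map_mul, absNorm_rat, hI] at h2
    have h3 : Ideal.absNorm J = 1 := by
      have : n * Ideal.absNorm J = n * 1 := by rw [← h2, mul_one]
      exact Nat.eq_of_mul_eq_mul_left hn this
    rw [Ideal.absNorm_eq_one_iff] at h3
    rw [hJ, h3, Ideal.mul_top]
  apply Subtype.ext
  rw [key I.1 I.2, key J.1 J.2]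

lemma dedekind_rat {s : ℂ} (hs : 1 < s.re) : dedekindZeta ℚ s = riemannZeta s := by
  rw [← LSeries_one_eq_riemannZeta hs]
  unfold dedekindZeta
  refine LSeries_congr (fun {n} hn => ?_) s
  rw [ideal_rat (Nat.pos_of_ne_zero hn)]
  simp

lemma isZ_rat : IsZ ℚ riemannZeta := by
  refine ⟨fun s hs => ?_, fun s hs => (dedekind_rat hs).symm⟩
  have h2 := L_an (1 : DirichletCharacter ℂ 1) hs
  have h3 : DirichletCharacter.LFunction (1 : DirichletCharacter ℂ 1) = riemannZeta := DirichletCharacter.LFunction_modOne_eq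
  rwa [h3] at h2

section triv

variable {F : Type} [Field F] [NumberField F] [IsGalois ℚ F]

open Pool.Agent.Y773 Pool.Agent.Y772.DK Pool.Agent.R362.Near Pool.Agent.K4H74.SC Pool.Agent.K4H74.ST
  Pool.Agent.H541R3.ART IsDedekindDomain in
lemma art_triv {Λ : ℂ → ℂ} (h : IsArt F (fun _ => 1) Λ) {s : ℂ} (hs : s ≠ 1) : Λ s = riemannZeta s := by
  have h1 : IsZ ℚ Λ := by
    refine ⟨h.1, fun s hs => ?_⟩
    obtain ⟨l, hl, he⟩ := h.2 s hs
    have h2 := hasSum_triv ℚ hs
    have h3 : logTerm ℚ ℚ (fun _ => 1) s = logTerm ℚ F (fun _ => 1) s := by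
      funext x
      have := x.1.isPrime
      unfold logTerm
      rw [frobMean_one ℚ x.1.ne_bot, frobMean_one F x.1.ne_bot]
    rw [h3] at h2
    rw [he, hl.unique h2, ← LI_eq_exp _ triv_norm hs, LI_zeta hs]
  exact Z_unique h1 isZ_rat hs

end triv

lemma zeta_half_ne : riemannZeta (1 / 2) ≠ 0 := by
  have := Pool.Agent.Helper791.Cyc.zeta_real_ne (1 / 2) (by norm_num) (by norm_num)
  push_cast at this
  exact this

end Pool.Agent.U544.LI
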