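import Pool.Agent.U544.LI.SetCrit
import Pool.Agent.U544.LI.Rat

/-!
# The data for the Riemann zeta function
-/

set_option autoImplicit false

open Filter Topology
open scoped Nat

namespace Pool.Agent.U544.LI

lemma ff_zeta (z : ℂ) (hz : z ≠ 1 / 2) : ff 1 z = (z - 1 / 2) * riemannZeta (1 / 2 + z) := by
  classical
  have h1 : (1 / 2 + z : ℂ) ≠ 1 := fun h => hz (by linear_combination h)
  have h2 : ∏ χ : DirichletCharacter ℂ 1, DirichletCharacter.LFunction χ (1 / 2 + z) =
      DirichletCharacter.LFunction (1 : DirichletCharacter ℂ 1) (1 / 2 + z) := by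
    refine Finset.prod_eq_single 1 (fun χ _ hχ => ?_) (fun h => absurd (Finset.mem_univ _) h)
    exact absurd (Subsingleton.elim χ 1) hχ
  unfold ff
  rw [FF_eq h1, h2, DirichletCharacter.LFunction_modOne_eq]
  ring

/-- Mathlib's Riemann hypothesis -/
lemma rh_iff : RiemannHypothesis ↔ RHs riemannZeta := by
  constructor
  · intro h ρ h0 h1 hz
    refine h ρ hz ?_ ?_
    · rintro ⟨n, hn⟩
      rw [hn] at h0
      simp at h0
      have : (0:ℝ) ≤ n := Nat.cast_nonneg n
      linarith
    · rintro rfl
      simp at h1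
  · intro h s hs htriv hs1
    have hre1 : s.re < 1 := by
      by_contra hcon
      push Not at hcon
      exact riemannZeta_ne_zero_of_one_le_re hcon hs
    refine h s ?_ hre1 hs
    by_contra hcon
    push Not at hcon
    -- the functional equation
    have h1 : ∀ n : ℕ, (1 - s) ≠ -n := by
      intro n hn
      have := congrArg Complex.re hn
      simp at this
      have hn0 : (0:ℝ) ≤ n := Nat.cast_nonneg n
      linarith
    by_cases hs0 : s = 0
    · rw [hs0, riemannZeta_zero] at hs
      norm_num at hs
    have h2 : (1 - s) ≠ 1 := by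
      intro h3
      exact hs0 (by linear_combination -h3)
    have h4 := riemannZeta_one_sub h1 h2
    rw [sub_sub_cancel, hs] at h4
    have h5 : riemannZeta (1 - s) ≠ 0 := riemannZeta_ne_zero_of_one_le_re (by simp; linarith)
    have h6 : Complex.Gamma (1 - s) ≠ 0 := Complex.Gamma_ne_zero h1
    have h7 : (2 * (Real.pi : ℂ)) ^ (-(1 - s)) ≠ 0 := by
      rw [Complex.cpow_def_of_ne_zero (by simp [Real.pi_ne_zero])]
      exact Complex.exp_ne_zero _
    have h8 : Complex.cos (Real.pi * (1 - s) / 2) = 0 := by
      have h9 : (2:ℂ) ≠ 0 := two_ne_zero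
      have h10 := h4.symm
      simp only [mul_eq_zero, h9, h7, h6, h5, false_or, or_false] at h10
      exact h10
    rw [Complex.cos_eq_zero_iff] at h8
    obtain ⟨k, hk⟩ := h8
    have hpi : (Real.pi : ℂ) ≠ 0 := by exact_mod_cast Real.pi_ne_zero
    have h11 : s = -(2 * k : ℤ) := by
      have h12 : (Real.pi : ℂ) * (1 - s) = Real.pi * (2 * k + 1) := by linear_combination 2 * hk
      have h13 := mul_left_cancel₀ hpi h12
      push_cast
      linear_combination -h13
    have h14 : (0:ℤ) < k := by
      have h15 := congrArg Complex.re h11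
      simp at h15
      rw [h15] at hcon
      have h16 : (0:ℝ) ≤ k := by linarith
      have h17 : (0:ℤ) ≤ k := by exact_mod_cast h16
      rcases h17.lt_or_eq with h18 | h18
      · exact h18
      · exfalso
        apply hs0
        rw [h11, ← h18]
        simp
    apply htriv
    refine ⟨(k - 1).toNat, ?_⟩
    have h19 : (((k - 1).toNat : ℤ)) = k - 1 := by omega
    have h20 : (((k - 1).toNat : ℕ) : ℂ) = ((k - 1 : ℤ) : ℂ) := by
      rw [← Int.cast_natCast, h19]
    rw [h20, h11]
    push_cast
    ring

lemma zeta_ord0 : analyticOrderNatAt riemannZeta (1 / 2) = 0 := by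
  have h1 : AnalyticAt ℂ riemannZeta (1 / 2) := by
    have h2 := L_an (1 : DirichletCharacter ℂ 1) (s := 1 / 2) (by norm_num)
    rwa [DirichletCharacter.LFunction_modOne_eq] at h2
  have h2 : riemannZeta (1 / 2) ≠ 0 := zeta_half_ne
  unfold analyticOrderNatAt
  rw [h1.analyticOrderAt_eq_zero.2 h2]
  rfl

end Pool.Agent.U544.LI
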