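import Pool.Agent.U544.LI.Mom2
import Pool.Agent.U544.LI.Zeta

/-!
# Complements for the criterion with one moment
-/

set_option autoImplicit false

open Complex Filter Topology Metric Finset MeasureTheory Set
open scoped ComplexConjugate Nat

namespace Pool.Agent.U544.LI

variable {ι : Type*}

lemma fm_apply {k : ℕ} (t : Fin k → ι × ℤˣ) (g : ι) [DecidablePred fun j => (t j).1 = g] :
    fm t g = ∑ j ∈ Finset.univ.filter (fun j => (t j).1 = g), ((t j).2 : ℤ) := by
  classical
  unfold fm
  rw [Finsupp.finset_sum_apply, Finset.sum_filter]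
  refine Finset.sum_congr rfl fun j _ => ?_
  rw [Finsupp.single_apply]

lemma fm_zero_iff {k : ℕ} (t : Fin k → ι × ℤˣ) [∀ g, DecidablePred fun j => (t j).1 = g] :
    fm t = 0 ↔ ∀ g, ∑ j ∈ Finset.univ.filter (fun j => (t j).1 = g), ((t j).2 : ℤ) = 0 := by
  constructor
  · intro h g
    rw [← fm_apply, h]
    rfl
  · intro h
    ext g
    rw [fm_apply, h g]
    rfl

/-- two terms less -/
lemma Ind_two {γ : ι → ℝ} {k : ℕ} (h : Ind γ (k + 2)) : Ind γ k := by
  intro t ht
  rcases Nat.eq_zero_or_pos k with hk | hk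
  · subst hk
    simp [fm]
  · obtain ⟨g⟩ : Nonempty ι := ⟨(t ⟨0, hk⟩).1⟩
    let s : Fin 2 → ι × ℤˣ := ![(g, 1), (g, -1)]
    have hs : fm s = 0 := by
      unfold fm
      rw [Fin.sum_univ_two]
      simp only [s, Matrix.cons_val_zero, Matrix.cons_val_one, Units.val_one, Units.val_neg, Finsupp.single_neg]
      exact add_neg_cancel _
    have h1 : fm (Fin.append t s) = fm t := by rw [fm_append, hs, add_zero]
    have h2 : fr γ (Fin.append t s) = 0 := by rw [← val_fm, h1, val_fm, ht]
    rw [← h1]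
    exact h _ h2

lemma Ind_even {γ : ι → ℝ} {N : ℕ} (h : Ind γ (2 * N)) : ∀ k ≤ N, Ind γ (2 * k) := by
  intro k hk
  obtain ⟨j, rfl⟩ := Nat.exists_eq_add_of_le hk
  clear hk
  induction j with
  | zero => simpa using h
  | succ j ih =>
    refine ih (Ind_two ?_)
    have : 2 * (k + j) + 2 = 2 * (k + (j + 1)) := by ring
    rw [this]
    exact h

end Pool.Agent.U544.LI
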