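import Pool.Agent.U544.LI.MultiAlg

/-!
# Linear independence with a constant and polynomial relations of bounded degree
-/

set_option autoImplicit false

open Finset

namespace Pool.Agent.U544.LI

/-- the family with the constant `1` -/
def with1 {ι : Type*} (γ : ι → ℝ) : ι ⊕ Unit → ℝ := Sum.elim γ fun _ => 1

/-- reindexing -/
def reidx (κ ι : Type*) : κ × (ι ⊕ Unit) ≃ (κ × ι) ⊕ κ :=
  (Equiv.prodSumDistrib κ ι Unit).trans (Equiv.sumCongr (Equiv.refl _) (Equiv.prodPUnit κ))

lemma reidx_fam {κ ι : Type*} (α : κ → ℝ) (γ : ι → ℝ) :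
    (Sum.elim (fun p : κ × ι => α p.1 * γ p.2) α) ∘ reidx κ ι = fun p : κ × (ι ⊕ Unit) => α p.1 * with1 γ p.2 := by
  funext ⟨j, p⟩
  rcases p with i | u
  · rfl
  · show α j = α j * 1
    rw [mul_one]

/-- linear independence of the products with the constant -/
lemma linInd_reidx {κ ι : Type*} (α : κ → ℝ) (γ : ι → ℝ) :
    (LinearIndependent ℚ fun p : κ × (ι ⊕ Unit) => α p.1 * with1 γ p.2) ↔
      LinearIndependent ℚ (Sum.elim (fun p : κ × ι => α p.1 * γ p.2) α) := by
  rw [← reidx_fam, linearIndependent_equiv]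

/-- the value of a formal relation -/
noncomputable def poly {ι : Type*} {A : Finset (ι →₀ ℕ)} (n : (A × ι) ⊕ Unit →₀ ℤ) : MvPolynomial ι ℤ :=
  n.sum fun p k => MvPolynomial.monomial (Sum.elim (fun p : A × ι => p.1.1 + Finsupp.single p.2 1) (fun _ => 0) p) k

lemma poly_val {ι : Type*} {A : Finset (ι →₀ ℕ)} (γ : ι → ℝ) (n : (A × ι) ⊕ Unit →₀ ℤ) :
    MvPolynomial.aeval γ (poly n) =
      n.sum fun p k => (k : ℝ) * Sum.elim (fun p : A × ι => mono γ p.1.1 * γ p.2) (fun _ => 1) p := by
  unfold poly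
  rw [map_finsuppSum]
  refine Finsupp.sum_congr fun p _ => ?_
  rw [MvPolynomial.aeval_monomial]
  rcases p with p | u
  · simp only [Sum.elim_inl]
    rw [← mono_add]
    rfl
  · simp only [Sum.elim_inr]
    rw [Finsupp.prod_zero_index]
    rfl

lemma poly_add {ι : Type*} {A : Finset (ι →₀ ℕ)} (n m : (A × ι) ⊕ Unit →₀ ℤ) : poly (n + m) = poly n + poly m := by
  classical
  unfold poly
  exact Finsupp.sum_add_index' (fun _ => map_zero _) (fun _ _ _ => map_add _ _ _)

lemma poly_sum {ι σ : Type*} {A : Finset (ι →₀ ℕ)} (s : Finset σ) (n : σ → ((A × ι) ⊕ Unit →₀ ℤ)) :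
    poly (∑ i ∈ s, n i) = ∑ i ∈ s, poly (n i) := by
  classical
  induction s using Finset.induction_on with
  | empty => simp [poly]
  | insert a s ha ih => rw [Finset.sum_insert ha, Finset.sum_insert ha, poly_add, ih]

lemma poly_single {ι : Type*} {A : Finset (ι →₀ ℕ)} (p : (A × ι) ⊕ Unit) (k : ℤ) :
    poly (Finsupp.single p k) =
      MvPolynomial.monomial (Sum.elim (fun p : A × ι => p.1.1 + Finsupp.single p.2 1) (fun _ => 0) p) k := by
  unfold poly
  exact Finsupp.sum_single_index (map_zero _)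

/-- every integral polynomial of degree at most `d` is the value of a formal relation -/
lemma poly_surj {ι : Type*} {d : ℕ} (hd : 0 < d) (P : MvPolynomial ι ℤ) (hP : P.totalDegree ≤ d) :
    ∃ A : Finset (ι →₀ ℕ), A.Nonempty ∧ (∀ m ∈ A, m.degree < d) ∧ ∃ n : (A × ι) ⊕ Unit →₀ ℤ, poly n = P := by
  classical
  have hdeg : ∀ m ∈ P.support, m.degree ≤ d := by
    intro m hm
    have := MvPolynomial.le_totalDegree hm
    refine le_trans ?_ (this.trans hP)
    exact le_of_eq rfl
  set A : Finset (ι →₀ ℕ) := insert 0 (P.support.biUnion fun m => m.support.image fun i => m - Finsupp.single i 1) with hA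
  refine ⟨A, ⟨0, Finset.mem_insert_self _ _⟩, ?_, ?_⟩
  · intro m hm
    rw [hA, Finset.mem_insert, Finset.mem_biUnion] at hm
    rcases hm with rfl | ⟨m', hm', hm⟩
    · simpa using hd
    · rw [Finset.mem_image] at hm
      obtain ⟨i, hi, rfl⟩ := hm
      have h1 : m' - Finsupp.single i 1 + Finsupp.single i 1 = m' := by
        refine tsub_add_cancel_of_le ?_
        rw [Finsupp.single_le_iff]
        exact Nat.one_le_iff_ne_zero.2 (Finsupp.mem_support_iff.1 hi)
      have h2 : (m' - Finsupp.single i 1).degree + 1 = m'.degree := by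
        conv_rhs => rw [← h1]
        rw [map_add, Finsupp.degree_single]
      have h3 := hdeg m' hm'
      omega
  · have key : ∀ m ∈ P.support, ∃ p : (A × ι) ⊕ Unit,
        (Sum.elim (fun p : A × ι => p.1.1 + Finsupp.single p.2 1) (fun _ => 0) p : ι →₀ ℕ) = m := by
      intro m hm
      rcases eq_or_ne m 0 with rfl | hm0
      · exact ⟨Sum.inr (), rfl⟩
      · obtain ⟨i, hi⟩ := Finsupp.support_nonempty_iff.2 hm0
        refine ⟨Sum.inl (⟨m - Finsupp.single i 1, ?_⟩, i), ?_⟩
        · rw [hA, Finset.mem_insert, Finset.mem_biUnion]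
          exact Or.inr ⟨m, hm, Finset.mem_image.2 ⟨i, hi, rfl⟩⟩
        · show m - Finsupp.single i 1 + Finsupp.single i 1 = m
          refine tsub_add_cancel_of_le ?_
          rw [Finsupp.single_le_iff]
          exact Nat.one_le_iff_ne_zero.2 (Finsupp.mem_support_iff.1 hi)
    choose! φ hφ using key
    refine ⟨∑ m ∈ P.support, Finsupp.single (φ m) (P.coeff m), ?_⟩
    rw [poly_sum]
    conv_rhs => rw [P.as_sum]
    refine Finset.sum_congr rfl fun m hm => ?_
    rw [poly_single, hφ m hm]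

lemma poly_degree {ι : Type*} {d : ℕ} {A : Finset (ι →₀ ℕ)} (hA : ∀ m ∈ A, m.degree < d)
    (n : (A × ι) ⊕ Unit →₀ ℤ) : (poly n).totalDegree ≤ d := by
  unfold poly
  refine (MvPolynomial.totalDegree_finsetSum _ _).trans ?_
  refine Finset.sup_le fun p _ => ?_
  refine (MvPolynomial.totalDegree_monomial_le _ _).trans ?_
  rcases p with p | u
  · simp only [Sum.elim_inl]
    have h1 := hA _ p.1.2
    have h2 : (p.1.1 + Finsupp.single p.2 1).degree = p.1.1.degree + 1 := by
      rw [map_add, Finsupp.degree_single]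
    have h3 : (p.1.1 + Finsupp.single p.2 1).degree ≤ d := by omega
    exact h3
  · simp

/-- rational and integral polynomials -/
lemma clear {ι : Type*} (P : MvPolynomial ι ℚ) : ∃ (b : ℤ) (Q : MvPolynomial ι ℤ), b ≠ 0 ∧
    MvPolynomial.map (Int.castRingHom ℚ) Q = (b : ℚ) • P ∧ Q.totalDegree ≤ P.totalDegree := by
  classical
  obtain ⟨b, hb⟩ := IsLocalization.exist_integer_multiples_of_finset (nonZeroDivisors ℤ)
    (P.support.image fun m => P.coeff m)
  have hb0 : (b : ℤ) ≠ 0 := nonZeroDivisors.ne_zero b.2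
  have hc : ∀ m : ι →₀ ℕ, ∃ c : ℤ, m ∈ P.support → (c : ℚ) = (b : ℤ) * P.coeff m := by
    intro m
    by_cases hm : m ∈ P.support
    · obtain ⟨c, hc⟩ := hb _ (Finset.mem_image_of_mem _ hm)
      refine ⟨c, fun _ => ?_⟩
      have e : (c : ℚ) = (b : ℤ) • P.coeff m := hc
      rw [e, zsmul_eq_mul]
    · exact ⟨0, fun h => absurd h hm⟩
  choose c hc using hc
  refine ⟨b, ∑ m ∈ P.support, MvPolynomial.monomial m (c m), hb0, ?_, ?_⟩
  · rw [map_sum]
    conv_rhs => rw [P.as_sum, Finset.smul_sum]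
    refine Finset.sum_congr rfl fun m hm => ?_
    rw [MvPolynomial.map_monomial, MvPolynomial.smul_monomial, smul_eq_mul]
    congr 1
    exact hc m hm
  · refine (MvPolynomial.totalDegree_finsetSum _ _).trans ?_
    refine Finset.sup_le fun m hm => ?_
    refine (MvPolynomial.totalDegree_monomial_le _ _).trans ?_
    exact MvPolynomial.le_totalDegree hm

lemma tdeg_map {ι R S : Type*} [CommSemiring R] [CommSemiring S] (φ : R →+* S) (P : MvPolynomial ι R) :
    (MvPolynomial.map φ P).totalDegree ≤ P.totalDegree := by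
  unfold MvPolynomial.totalDegree
  exact Finset.sup_mono (MvPolynomial.support_map_subset _ _)

/-- polynomial relations of degree at most `d` in terms of integral relations -/
theorem degree_iff {ι : Type*} (γ : ι → ℝ) {d : ℕ} (hd : 0 < d) :
    (∀ P : MvPolynomial ι ℚ, P.totalDegree ≤ d → MvPolynomial.aeval γ P = 0 → P = 0) ↔
      ∀ A : Finset (ι →₀ ℕ), A.Nonempty → (∀ m ∈ A, m.degree < d) → ∀ n : (A × ι) ⊕ Unit →₀ ℤ,
        (n.sum fun p k => (k : ℝ) * Sum.elim (fun p : A × ι => mono γ p.1.1 * γ p.2) (fun _ => 1) p) = 0 →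
        poly n = 0 := by
  constructor
  · intro h A _ hA n hn
    rw [← poly_val] at hn
    have h1 := h (MvPolynomial.map (Int.castRingHom ℚ) (poly n)) ?_ ?_
    · exact (MvPolynomial.map_injective _ (Int.cast_injective)) (by rw [h1, map_zero])
    · exact (tdeg_map _ _).trans (poly_degree hA n)
    · rw [← hn]
      exact MvPolynomial.aeval_map_algebraMap ℚ γ (poly n)
  · intro h P hP hP0
    obtain ⟨b, Q, hb, hQ, hQd⟩ := clear P
    obtain ⟨A, hA0, hA, n, hn⟩ := poly_surj hd Q (hQd.trans hP)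
    have h1 : MvPolynomial.aeval γ Q = 0 := by
      have e := MvPolynomial.aeval_map_algebraMap ℚ γ Q
      rw [← e]
      have e2 : MvPolynomial.map (algebraMap ℤ ℚ) Q = (b : ℚ) • P := hQ
      rw [e2, map_smul, hP0, smul_zero]
    have h2 := h A hA0 hA n (by rw [← poly_val, hn, h1])
    rw [hn] at h2
    rw [h2, map_zero] at hQ
    have hb' : (b : ℚ) ≠ 0 := by exact_mod_cast hb
    exact (smul_eq_zero_iff_right hb').1 hQ.symm

/-- algebraic independence -/
theorem algInd_degree {ι : Type*} (γ : ι → ℝ) : AlgebraicIndependent ℚ γ ↔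
    ∀ d : ℕ, 0 < d → ∀ P : MvPolynomial ι ℚ, P.totalDegree ≤ d → MvPolynomial.aeval γ P = 0 → P = 0 := by
  rw [algebraicIndependent_iff]
  constructor
  · intro h d _ P _
    exact h P
  · intro h P
    exact h (P.totalDegree + 1) (Nat.succ_pos _) P (Nat.le_succ _)

end Pool.Agent.U544.LI
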