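import Pool.Agent.U544.LI.InhAlg

/-!
# Transcendental combinations
-/

set_option autoImplicit false

open Finset

namespace Pool.Agent.U544.LI

/-- splitting off the coefficient of the constant -/
lemma split_one {ι R : Type*} [AddCommMonoid R] (l : ι ⊕ Unit →₀ R) :
    l = Finsupp.mapDomain Sum.inl (l.comapDomain Sum.inl Sum.inl_injective.injOn) +
      Finsupp.single (Sum.inr ()) (l (Sum.inr ())) := by
  classical
  ext p
  rcases p with i | u
  · rw [Finsupp.add_apply, Finsupp.mapDomain_apply Sum.inl_injective, Finsupp.comapDomain_apply,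
      Finsupp.single_eq_of_ne (by simp), add_zero]
  · rw [Finsupp.add_apply, Finsupp.mapDomain_of_notMem_range _ _ (by simp), zero_add, Finsupp.single_eq_same]

lemma lc_with1 {ι R : Type*} [CommSemiring R] [Algebra R ℝ] (γ : ι → ℝ) (c : ι →₀ R) (x : R) :
    Finsupp.linearCombination R (with1 γ) (Finsupp.mapDomain Sum.inl c + Finsupp.single (Sum.inr ()) x) =
      (c.sum fun i a => algebraMap R ℝ a * γ i) + algebraMap R ℝ x := by
  rw [map_add, Finsupp.linearCombination_mapDomain, Finsupp.linearCombination_single,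
    Finsupp.linearCombination_apply]
  congr 1
  · refine Finsupp.sum_congr fun i _ => ?_
    rw [Algebra.smul_def]
    rfl
  · rw [Algebra.smul_def]
    exact mul_one _

/-- independence of the family with the constant -/
lemma with1_iff {ι : Type*} (K : IntermediateField ℚ ℝ) (γ : ι → ℝ) :
    LinearIndependent K (with1 γ) ↔
      ∀ c : ι →₀ K, c ≠ 0 → (c.sum fun i a => (a : ℝ) * γ i) ∉ K := by
  classical
  rw [linearIndependent_iff]
  constructor
  · intro h c hc hx
    apply hc
    have h1 := h (Finsupp.mapDomain Sum.inl c + Finsupp.single (Sum.inr ()) (-⟨_, hx⟩)) (by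
      rw [lc_with1]
      have e : algebraMap K ℝ (-⟨(c.sum fun i a => (a : ℝ) * γ i), hx⟩) = -(c.sum fun i a => (a : ℝ) * γ i) := rfl
      rw [e]
      exact add_neg_cancel _)
    ext i
    have h2 := congrArg (fun l => l (Sum.inl i)) h1
    simp only [Finsupp.add_apply, Finsupp.mapDomain_apply Sum.inl_injective, Finsupp.coe_zero, Pi.zero_apply] at h2
    rw [Finsupp.single_eq_of_ne (by simp), add_zero] at h2
    rw [h2]
    rfl
  · intro h l hl
    rw [split_one l, lc_with1] at hl
    set c := l.comapDomain Sum.inl Sum.inl_injective.injOn with hc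
    have hx : (c.sum fun i a => (a : ℝ) * γ i) = -((l (Sum.inr ()) : K) : ℝ) := by
      have : (c.sum fun i a => (a : ℝ) * γ i) + ((l (Sum.inr ()) : K) : ℝ) = 0 := hl
      linarith
    have hc0 : c = 0 := by
      by_contra hc0
      apply h c hc0
      rw [hx]
      exact K.neg_mem (l (Sum.inr ())).2
    rw [hc0, Finsupp.sum_zero_index] at hx
    have hl0 : l (Sum.inr ()) = 0 := Subtype.ext (by
      have h3 : ((l (Sum.inr ()) : K) : ℝ) = 0 := by linarith
      rw [h3]
      rfl)
    rw [split_one l, ← hc, hc0, hl0]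
    simp

/-- independence of the family with the constant over the real algebraic numbers -/
lemma baker_iff {ι : Type*} (γ : ι → ℝ) :
    LinearIndependent (algebraicClosure ℚ ℝ) (with1 γ) ↔
      ∀ c : ι →₀ algebraicClosure ℚ ℝ, c ≠ 0 → Transcendental ℚ (c.sum fun i a => (a : ℝ) * γ i) := by
  rw [with1_iff]
  refine forall_congr' fun c => forall_congr' fun _ => ?_
  rw [mem_algebraicClosure_iff]
  rfl

/-- reindexing of polynomial relations -/
lemma nopoly_equiv {ι ι' : Type*} (e : ι ≃ ι') (γ : ι → ℝ) (γ' : ι' → ℝ) (h : ∀ i, γ' (e i) = γ i) (d : ℕ) :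
    (∀ P : MvPolynomial ι' ℚ, P.totalDegree ≤ d → MvPolynomial.aeval γ' P = 0 → P = 0) ↔
      ∀ P : MvPolynomial ι ℚ, P.totalDegree ≤ d → MvPolynomial.aeval γ P = 0 → P = 0 := by
  have h' : γ' ∘ e = γ := funext h
  have h'' : γ ∘ e.symm = γ' := by
    funext i
    rw [Function.comp_apply, ← h, e.apply_symm_apply]
  constructor
  · intro h1 P hP hP0
    have h2 := h1 (MvPolynomial.rename e P) ((MvPolynomial.totalDegree_rename_le _ _).trans hP) (by
      rw [MvPolynomial.aeval_rename, h', hP0])
    exact MvPolynomial.rename_injective _ e.injective (by rw [h2, map_zero])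
  · intro h1 P hP hP0
    have h2 := h1 (MvPolynomial.rename e.symm P) ((MvPolynomial.totalDegree_rename_le _ _).trans hP) (by
      rw [MvPolynomial.aeval_rename, h'', hP0])
    exact MvPolynomial.rename_injective _ e.symm.injective (by rw [h2, map_zero])

end Pool.Agent.U544.LI
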