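import Mathlib

/-!
# Linear independence over fields, algebraic independence, and integral relations
-/

set_option autoImplicit false

open Finset

namespace Pool.Agent.U544.LI

/-- linear independence over `ℚ` in terms of finitely supported integral relations -/
theorem linInd_sum {ι : Type*} {v : ι → ℝ} :
    LinearIndependent ℚ v ↔ ∀ n : ι →₀ ℤ, (n.sum fun i k => (k : ℝ) * v i) = 0 → n = 0 := by
  rw [← LinearIndependent.iff_fractionRing (R := ℤ) (K := ℚ), linearIndependent_iff]
  refine forall_congr' fun n => ?_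
  rw [Finsupp.linearCombination_apply]
  simp only [zsmul_eq_mul]

/-- expansion in a basis -/
theorem linInd_field {K : IntermediateField ℚ ℝ} {κ ι : Type*} [Fintype κ] (B : Module.Basis κ ℚ K) (γ : ι → ℝ) :
    LinearIndependent K γ ↔ LinearIndependent ℚ fun p : κ × ι => (B p.1 : ℝ) * γ p.2 := by
  constructor
  · intro h
    exact linearIndependent_smul B.linearIndependent h
  · intro h
    rw [linearIndependent_iff'] at h ⊢
    intro s g hg i hi
    have h1 : ∀ i, (g i : ℝ) = ∑ j, ((B.repr (g i) j : ℚ) : ℝ) * (B j : ℝ) := by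
      intro i
      have h2 : ((∑ j, B.repr (g i) j • B j : K) : ℝ) = (g i : ℝ) := by rw [B.sum_repr]
      rw [← h2]
      push_cast
      refine Finset.sum_congr rfl fun j _ => ?_
      rw [Rat.smul_def]
    have h2 := h (univ ×ˢ s) (fun p => B.repr (g p.2) p.1) (by
      rw [Finset.sum_product_right, ← hg]
      refine Finset.sum_congr rfl fun i _ => ?_
      show ∑ j, B.repr (g i) j • ((B j : ℝ) * γ i) = (g i : ℝ) * γ i
      rw [h1 i, Finset.sum_mul]
      refine Finset.sum_congr rfl fun j _ => ?_
      rw [Rat.smul_def]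
      ring)
    have h3 : B.repr (g i) = 0 := by
      ext j
      exact h2 (j, i) (Finset.mem_product.2 ⟨Finset.mem_univ _, hi⟩)
    exact (B.repr.map_eq_zero_iff).1 h3

/-- the real algebraic numbers -/
theorem linInd_alg {ι : Type*} (γ : ι → ℝ) :
    LinearIndependent (algebraicClosure ℚ ℝ) γ ↔ ∀ (k : ℕ) (α : Fin k → ℝ), (∀ j, 0 < α j) →
      (∀ j, IsAlgebraic ℚ (α j)) → LinearIndependent ℚ α →
      LinearIndependent ℚ fun p : Fin k × ι => α p.1 * γ p.2 := by
  classical
  constructor
  · intro h k α _ hα hli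
    have h1 : LinearIndependent ℚ fun j => (⟨α j, mem_algebraicClosure_iff.2 (hα j)⟩ : algebraicClosure ℚ ℝ) := by
      refine LinearIndependent.of_comp (algebraicClosure ℚ ℝ).toSubalgebra.val.toLinearMap ?_
      exact hli
    exact linearIndependent_smul h1 h
  · intro h
    rw [linearIndependent_iff']
    intro s g hg i hi
    set S : Submodule ℚ ℝ := Submodule.span ℚ ((fun i => (g i : ℝ)) '' (s : Set ι)) with hS
    have hfin : FiniteDimensional ℚ S := FiniteDimensional.span_of_finite ℚ (s.finite_toSet.image _)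
    have hSle : ∀ x ∈ S, IsAlgebraic ℚ x := by
      intro x hx
      refine Submodule.span_induction (p := fun x _ => IsAlgebraic ℚ x) ?_ isAlgebraic_zero
        (fun x y _ _ hx hy => hx.add hy) (fun a x _ hx => ?_) hx
      · rintro _ ⟨i, -, rfl⟩
        exact mem_algebraicClosure_iff.1 (g i).2
      · rw [Algebra.smul_def]
        exact (isAlgebraic_algebraMap a).mul hx
    set b := Module.finBasis ℚ S with hb
    set d := Module.finrank ℚ S with hd
    set ε : Fin d → ℚˣ := fun j => if 0 < (b j : ℝ) then 1 else -1 with hε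
    set α : Fin d → ℝ := fun j => |(b j : ℝ)| with hα
    have hbne : ∀ j, (b j : ℝ) ≠ 0 := fun j h0 => b.ne_zero j (Subtype.ext h0)
    have hεα : ∀ j, α j = ((ε j : ℚ) : ℝ) * (b j : ℝ) := by
      intro j
      simp only [hα, hε]
      split_ifs with h0
      · rw [abs_of_pos h0]; simp
      · rw [abs_of_nonpos (not_lt.1 h0)]; simp
    have hεb : ∀ j, (b j : ℝ) = ((ε j : ℚ) : ℝ) * α j := by
      intro j
      rw [hεα]
      simp only [hε]
      split_ifs <;> simp
    have hli0 : LinearIndependent ℚ fun j => (b j : ℝ) := by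
      have := b.linearIndependent.map' S.subtype (Submodule.ker_subtype S)
      exact this
    have hli : LinearIndependent ℚ α := by
      have h1 := hli0.units_smul ε
      have e : ε • (fun j => (b j : ℝ)) = α := by
        funext j
        rw [hεα]
        show ε j • (b j : ℝ) = _
        rw [Units.smul_def, Rat.smul_def]
      rwa [e] at h1
    have h1 := h d α (fun j => abs_pos.2 (hbne j)) (fun j => by
      rw [hεα]
      exact (isAlgebraic_algebraMap (ε j : ℚ)).mul (hSle _ (b j).2)) hli
    rw [linearIndependent_iff'] at h1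
    have hmem : ∀ i ∈ s, (g i : ℝ) ∈ S := fun i hi => Submodule.subset_span ⟨i, hi, rfl⟩
    set c : ι → Fin d → ℚ := fun i j => if hi : i ∈ s then b.repr ⟨g i, hmem i hi⟩ j * ε j else 0 with hc
    have hgc : ∀ i ∈ s, (g i : ℝ) = ∑ j, (c i j : ℝ) * α j := by
      intro i hi
      have h2 : ((∑ j, b.repr ⟨g i, hmem i hi⟩ j • b j : S) : ℝ) = (g i : ℝ) := by rw [b.sum_repr]
      rw [← h2]
      push_cast
      refine Finset.sum_congr rfl fun j _ => ?_
      rw [Rat.smul_def, hc]
      simp only [dif_pos hi]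
      rw [hεb j]
      push_cast
      ring
    have h2 := h1 (univ ×ˢ s) (fun p => c p.2 p.1) (by
      rw [Finset.sum_product_right, ← hg]
      refine Finset.sum_congr rfl fun i hi => ?_
      show ∑ j, c i j • (α j * γ i) = (g i : ℝ) * γ i
      rw [hgc i hi, Finset.sum_mul]
      refine Finset.sum_congr rfl fun j _ => ?_
      rw [Rat.smul_def]
      ring)
    have h3 : (g i : ℝ) = 0 := by
      rw [hgc i hi]
      refine Finset.sum_eq_zero fun j _ => ?_
      rw [h2 (j, i) (Finset.mem_product.2 ⟨Finset.mem_univ _, hi⟩)]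
      simp
    exact Subtype.ext h3

/-- the real algebraic numbers, with at least one scale -/
theorem linInd_alg' {ι : Type*} (γ : ι → ℝ) :
    LinearIndependent (algebraicClosure ℚ ℝ) γ ↔ ∀ (k : ℕ) (α : Fin (k + 1) → ℝ), (∀ j, 0 < α j) →
      (∀ j, IsAlgebraic ℚ (α j)) → LinearIndependent ℚ α →
      LinearIndependent ℚ fun p : Fin (k + 1) × ι => α p.1 * γ p.2 := by
  rw [linInd_alg]
  constructor
  · intro h k
    exact h (k + 1)
  · intro h k
    cases k with
    | zero =>
      intro α _ _ _
      exact linearIndependent_empty_type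
    | succ k => exact h k

/-- the value of a monomial -/
noncomputable def mono {ι : Type*} (γ : ι → ℝ) (m : ι →₀ ℕ) : ℝ := m.prod fun i k => γ i ^ k

lemma mono_add {ι : Type*} (γ : ι → ℝ) (m : ι →₀ ℕ) (i : ι) : mono γ (m + Finsupp.single i 1) = mono γ m * γ i := by
  have h1 : (m + Finsupp.single i 1).prod (fun i k => γ i ^ k) =
      m.prod (fun i k => γ i ^ k) * (Finsupp.single i 1).prod (fun i k => γ i ^ k) :=
    Finsupp.prod_add_index' (fun _ => pow_zero _) (fun _ _ _ => pow_add _ _ _)
  have h2 : (Finsupp.single i 1).prod (fun i k => γ i ^ k) = γ i ^ 1 :=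
    Finsupp.prod_single_index (pow_zero _)
  unfold mono
  rw [h1, h2, pow_one]

lemma sum_single_fam {A ι N : Type*} [Fintype A] [AddCommMonoid N] (i₀ : ι) (c : A → ℤ) (φ : A × ι → ℤ → N)
    (h0 : ∀ a, φ a 0 = 0) (hadd : ∀ a b₁ b₂, φ a (b₁ + b₂) = φ a b₁ + φ a b₂) :
    (∑ m : A, Finsupp.single (m, i₀) (c m)).sum φ = ∑ m : A, φ (m, i₀) (c m) := by
  rw [← Finsupp.sum_finsetSum_index h0 hadd]
  exact Finset.sum_congr rfl fun m _ => Finsupp.sum_single_index (h0 _)

/-- algebraic independence in terms of integral relations between the products of a monomial and a number -/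
theorem algInd_iff {ι : Type*} (γ : ι → ℝ) :
    AlgebraicIndependent ℚ γ ↔ LinearIndependent ℚ γ ∧ ∀ A : Finset (ι →₀ ℕ), ∀ n : A × ι →₀ ℤ,
      (n.sum fun p k => (k : ℝ) * (mono γ p.1.1 * γ p.2)) = 0 →
      (n.sum fun p k => MvPolynomial.monomial (p.1.1 + Finsupp.single p.2 1) k) = (0 : MvPolynomial ι ℤ) := by
  classical
  constructor
  · intro h
    refine ⟨h.linearIndependent, fun A n hn => ?_⟩
    have hZ : AlgebraicIndependent ℤ γ := h.restrictScalars (algebraMap ℤ ℚ).injective_int
    apply hZ
    rw [map_zero, ← hn, map_finsuppSum]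
    refine Finsupp.sum_congr fun p _ => ?_
    rw [MvPolynomial.aeval_monomial, ← mono_add]
    rfl
  · rintro ⟨-, h⟩
    rcases isEmpty_or_nonempty ι with hι | ⟨⟨i₀⟩⟩
    · exact algebraicIndependent_empty_type
    · rw [algebraicIndependent_iff]
      intro P hP
      by_contra hP0
      obtain ⟨b, hb⟩ := IsLocalization.exist_integer_multiples_of_finset (nonZeroDivisors ℤ)
        (P.support.image fun m => P.coeff m)
      have hb0 : (b : ℤ) ≠ 0 := nonZeroDivisors.ne_zero b.2
      have hc : ∀ m : P.support, ∃ c : ℤ, (c : ℚ) = (b : ℤ) * P.coeff m.1 := by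
        intro m
        obtain ⟨c, hc⟩ := hb _ (Finset.mem_image_of_mem _ m.2)
        refine ⟨c, ?_⟩
        have e : (c : ℚ) = (b : ℤ) • P.coeff m.1 := hc
        rw [e, zsmul_eq_mul]
      choose c hc using hc
      set n : P.support × ι →₀ ℤ := ∑ m : P.support, Finsupp.single (m, i₀) (c m) with hn
      have h1 : (n.sum fun p k => (k : ℝ) * (mono γ p.1.1 * γ p.2)) = 0 := by
        rw [hn, sum_single_fam _ _ _ (fun a => by simp) (fun a b₁ b₂ => by push_cast; ring)]
        have e : ∀ m : P.support, (c m : ℝ) * (mono γ m.1 * γ i₀) =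
            ((b : ℤ) : ℝ) * γ i₀ * (((P.coeff m.1 : ℚ) : ℝ) * mono γ m.1) := by
          intro m
          have h2 : ((c m : ℚ) : ℝ) = (((b : ℤ) * P.coeff m.1 : ℚ) : ℝ) := by rw [hc m]
          push_cast at h2
          rw [h2]
          ring
        simp only [e]
        rw [← Finset.mul_sum]
        have e2 : ∑ m : P.support, ((P.coeff m.1 : ℚ) : ℝ) * mono γ m.1 = MvPolynomial.aeval γ P := by
          rw [MvPolynomial.aeval_def, MvPolynomial.eval₂_eq, ← Finset.sum_coe_sort P.support]
          exact Finset.sum_congr rfl fun m _ => rfl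
        rw [e2, hP, mul_zero]
      have h2 := h P.support n h1
      rw [hn, sum_single_fam _ _ _ (fun a => by simp) (fun a b₁ b₂ => by rw [map_add])] at h2
      have hne : P.support.Nonempty := MvPolynomial.support_nonempty.2 hP0
      obtain ⟨m₀, hm₀⟩ := hne
      have h3 := congrArg (MvPolynomial.coeff (m₀ + Finsupp.single i₀ 1)) h2
      rw [MvPolynomial.coeff_sum, MvPolynomial.coeff_zero,
        Finset.sum_eq_single (⟨m₀, hm₀⟩ : P.support) (fun m _ hm => ?_) (fun h => absurd (Finset.mem_univ _) h)] at h3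
      · rw [MvPolynomial.coeff_monomial, if_pos rfl] at h3
        have h4 := hc ⟨m₀, hm₀⟩
        rw [h3, Int.cast_zero] at h4
        have h5 : P.coeff m₀ ≠ 0 := MvPolynomial.mem_support_iff.1 hm₀
        have h6 : ((b : ℤ) : ℚ) ≠ 0 := by exact_mod_cast hb0
        exact mul_ne_zero h6 h5 h4.symm
      · rw [MvPolynomial.coeff_monomial, if_neg]
        intro h4
        exact hm (Subtype.ext (add_right_cancel h4))

/-- algebraic independence in terms of integral relations between the products of a monomial and a number -/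
theorem algInd_iff' {ι : Type*} (γ : ι → ℝ) :
    AlgebraicIndependent ℚ γ ↔ ∀ A : Finset (ι →₀ ℕ), A.Nonempty → ∀ n : A × ι →₀ ℤ,
      (n.sum fun p k => (k : ℝ) * (mono γ p.1.1 * γ p.2)) = 0 →
      (n.sum fun p k => MvPolynomial.monomial (p.1.1 + Finsupp.single p.2 1) k) = (0 : MvPolynomial ι ℤ) := by
  classical
  constructor
  · intro h A _ n hn
    have hZ : AlgebraicIndependent ℤ γ := h.restrictScalars (algebraMap ℤ ℚ).injective_int
    apply hZ
    rw [map_zero, ← hn, map_finsuppSum]
    refine Finsupp.sum_congr fun p _ => ?_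
    rw [MvPolynomial.aeval_monomial, ← mono_add]
    rfl
  · intro h
    rcases isEmpty_or_nonempty ι with hι | ⟨⟨i₀⟩⟩
    · exact algebraicIndependent_empty_type
    · rw [algebraicIndependent_iff]
      intro P hP
      by_contra hP0
      obtain ⟨b, hb⟩ := IsLocalization.exist_integer_multiples_of_finset (nonZeroDivisors ℤ)
        (P.support.image fun m => P.coeff m)
      have hb0 : (b : ℤ) ≠ 0 := nonZeroDivisors.ne_zero b.2
      have hc : ∀ m : P.support, ∃ c : ℤ, (c : ℚ) = (b : ℤ) * P.coeff m.1 := by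
        intro m
        obtain ⟨c, hc⟩ := hb _ (Finset.mem_image_of_mem _ m.2)
        refine ⟨c, ?_⟩
        have e : (c : ℚ) = (b : ℤ) • P.coeff m.1 := hc
        rw [e, zsmul_eq_mul]
      choose c hc using hc
      set n : P.support × ι →₀ ℤ := ∑ m : P.support, Finsupp.single (m, i₀) (c m) with hn
      have h1 : (n.sum fun p k => (k : ℝ) * (mono γ p.1.1 * γ p.2)) = 0 := by
        rw [hn, sum_single_fam _ _ _ (fun a => by simp) (fun a b₁ b₂ => by push_cast; ring)]
        have e : ∀ m : P.support, (c m : ℝ) * (mono γ m.1 * γ i₀) =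
            ((b : ℤ) : ℝ) * γ i₀ * (((P.coeff m.1 : ℚ) : ℝ) * mono γ m.1) := by
          intro m
          have h2 : ((c m : ℚ) : ℝ) = (((b : ℤ) * P.coeff m.1 : ℚ) : ℝ) := by rw [hc m]
          push_cast at h2
          rw [h2]
          ring
        simp only [e]
        rw [← Finset.mul_sum]
        have e2 : ∑ m : P.support, ((P.coeff m.1 : ℚ) : ℝ) * mono γ m.1 = MvPolynomial.aeval γ P := by
          rw [MvPolynomial.aeval_def, MvPolynomial.eval₂_eq, ← Finset.sum_coe_sort P.support]
          exact Finset.sum_congr rfl fun m _ => rfl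
        rw [e2, hP, mul_zero]
      have h2 := h P.support (MvPolynomial.support_nonempty.2 hP0) n h1
      rw [hn, sum_single_fam _ _ _ (fun a => by simp) (fun a b₁ b₂ => by rw [map_add])] at h2
      have hne : P.support.Nonempty := MvPolynomial.support_nonempty.2 hP0
      obtain ⟨m₀, hm₀⟩ := hne
      have h3 := congrArg (MvPolynomial.coeff (m₀ + Finsupp.single i₀ 1)) h2
      rw [MvPolynomial.coeff_sum, MvPolynomial.coeff_zero,
        Finset.sum_eq_single (⟨m₀, hm₀⟩ : P.support) (fun m _ hm => ?_) (fun h => absurd (Finset.mem_univ _) h)] at h3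
      · rw [MvPolynomial.coeff_monomial, if_pos rfl] at h3
        have h4 := hc ⟨m₀, hm₀⟩
        rw [h3, Int.cast_zero] at h4
        have h5 : P.coeff m₀ ≠ 0 := MvPolynomial.mem_support_iff.1 hm₀
        have h6 : ((b : ℤ) : ℚ) ≠ 0 := by exact_mod_cast hb0
        exact mul_ne_zero h6 h5 h4.symm
      · rw [MvPolynomial.coeff_monomial, if_neg]
        intro h4
        exact hm (Subtype.ext (add_right_cancel h4))

end Pool.Agent.U544.LI
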