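import Pool.Agent.U544.LI.SetCrit

/-!
# The criterion for the multiset of the ordinates of a family of L-functions
-/

set_option autoImplicit false

open Complex Filter Topology Metric Finset MeasureTheory Set
open scoped ComplexConjugate Nat

namespace Pool.Agent.U544.LI

variable {f : ℂ → ℂ} {L : ℕ → ℝ} {δ : ℝ}

section gen

variable {ι : Type*}

/-- the integral relations between the members of a family of real numbers -/
def Rls (γ : ι → ℝ) : Type _ := {n : ι →₀ ℤ // (n.sum fun i k => (k : ℝ) * γ i) = 0}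

/-- the weight of a relation -/
noncomputable def wgs {γ : ι → ℝ} (a : ι → ℝ) (n : Rls γ) : ℝ :=
  n.1.prod fun i k => Ik k.natAbs (a i) / Ik 0 (a i)

/-- **The criterion for a family with multiplicities.** -/
theorem crit_mult (h : LD f L δ) {lam : ℝ} (hl : 0 < lam) {D : ℝ → ℝ} (hD : ∀ x, 0 < x → D x = Dd L δ (Real.log x))
    (π : ι → Gs f) (b : ι → ℝ) (hb : ∀ i, 0 < b i)
    (hfib : ∀ g : Gs f, HasSum (fun i : {i // π i = g} => b i) (wt f g)) {V : ℝ}
    (hV : V = Real.exp (2 * lam * mu f 0) * ∏' i, Ik 0 (2 * lam * b i)) :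
    (Multipliable fun i => Ik 0 (2 * lam * b i)) ∧
    (RHf f ↔ ∃ C, ∀ᶠ X in atTop, logMean (fun x => Real.exp (lam * D x)) X ≤ C) ∧
    (RHf f → (Summable (wgs (γ := fun i => (π i).1) fun i => 2 * lam * b i)) ∧
      Tendsto (logMean fun x => Real.exp (lam * D x)) atTop
        (𝓝 (V * ∑' n, wgs (γ := fun i => (π i).1) (fun i => 2 * lam * b i) n))) ∧
    (∀ ε : ℝ, 0 < ε → ∃ᶠ X in atTop, V - ε < logMean (fun x => Real.exp (lam * D x)) X) ∧
    (RHf f ∧ LinearIndependent ℚ (fun i => (π i).1) ↔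
      ∀ ε : ℝ, 0 < ε → ∀ᶠ X in atTop, logMean (fun x => Real.exp (lam * D x)) X < V + ε) := by
  classical
  have hw := wt_summ h
  have hbs : Summable b := by
    have key : Summable (fun x : (Σ g : Gs f, {i // π i = g}) => b x.2.1) := by
      rw [summable_sigma_of_nonneg (fun i => (hb _).le)]
      exact ⟨fun g => (hfib g).summable, hw.congr fun g => ((hfib g).tsum_eq).symm⟩
    exact (Equiv.sigmaFiberEquiv π).summable_iff.1 key
  have hbD : ∀ u, DD b (fun i => (π i).1) u = DD (wt f) (fun g : Gs f => g.1) u := by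
    intro u
    have hs : Summable fun i => 2 * b i * Real.cos ((π i).1 * u) := summ_D (γ := fun i => (π i).1) hb hbs u
    have key : Summable (fun x : (Σ g : Gs f, {i // π i = g}) => 2 * b x.2.1 * Real.cos ((π x.2.1).1 * u)) :=
      (Equiv.sigmaFiberEquiv π).summable_iff.2 hs
    have e0 : ∑' x : (Σ g : Gs f, {i // π i = g}), 2 * b x.2.1 * Real.cos ((π x.2.1).1 * u) =
        ∑' i, 2 * b i * Real.cos ((π i).1 * u) :=
      (Equiv.sigmaFiberEquiv π).tsum_eq (fun i => 2 * b i * Real.cos ((π i).1 * u))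
    unfold DD
    rw [← e0, Summable.tsum_sigma key]
    refine tsum_congr fun g => ?_
    have h1 := ((hfib g).mul_left 2).mul_right (Real.cos (g.1 * u))
    rw [← h1.tsum_eq]
    refine tsum_congr fun i => ?_
    rw [i.2]
  obtain ⟨c1, c2, c3⟩ := crit h hl π b hb hbs hbD
  have har : ∀ i, 2 * (lam * b i) = 2 * lam * b i := fun i => by ring
  have hPP := PP_tprod' c3
  simp only [har] at hPP
  have hV' : V = Real.exp (2 * lam * mu f 0) * PP (fun i => lam * b i) := by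
    rw [hV, hPP.2]
  have hQ : ∀ n : Rls (fun i => (π i).1), QQ (fun i => lam * b i) n.1 = wgs (fun i => 2 * lam * b i) n := by
    intro n
    unfold QQ wgs
    refine Finset.prod_congr rfl fun i _ => ?_
    simp only [qq]
    rw [Jk_Ik, J0_Ik, har]
  have hex : RHf f → (Summable (wgs (γ := fun i => (π i).1) fun i => 2 * lam * b i)) ∧
      Tendsto (mean fun u => Real.exp (lam * Dd L δ u)) atTop
        (𝓝 (V * ∑' n, wgs (γ := fun i => (π i).1) (fun i => 2 * lam * b i) n)) := by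
    intro hR
    obtain ⟨h1, h2⟩ := exact_mean h hl π b hb hbs hbD hR
    have e1 : (∑' n : {n : ι →₀ ℤ // val (fun i => (π i).1) n = 0}, QQ (fun i => lam * b i) n) =
        ∑' n : Rls (fun i => (π i).1), wgs (fun i => 2 * lam * b i) n := tsum_congr fun n => hQ n
    refine ⟨h1.congr fun n => hQ n, ?_⟩
    rw [hV', ← e1, mul_assoc]
    exact h2
  have hbdd : RHf f ↔ ∃ C, ∀ᶠ X in atTop, logMean (fun x => Real.exp (lam * D x)) X ≤ C := by
    constructor
    · intro hR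
      have h2 := (bridge h hD lam _).2 (hex hR).2
      exact ⟨_, (h2.eventually_lt_const (lt_add_one _)).mono fun X hX => hX.le⟩
    · rintro ⟨C, hC⟩
      exact rh_of_bdd h hl ⟨C, (bridge_le h hD lam C).1 hC⟩
  have hlim : ∀ E, Tendsto (logMean fun x => Real.exp (lam * D x)) atTop (𝓝 E) →
      V ≤ E ∧ (E = V ↔ LinearIndependent ℚ (fun i => (π i).1)) := by
    intro E hE
    have h1 := c2 E ((bridge h hD lam E).1 hE)
    rw [← hV'] at h1
    exact h1
  have hconv : RHf f → ∃ E, Tendsto (logMean fun x => Real.exp (lam * D x)) atTop (𝓝 E) := fun hR =>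
    ⟨_, (bridge h hD lam _).2 (hex hR).2⟩
  refine ⟨hPP.1, hbdd, fun hR => ⟨(hex hR).1, (bridge h hD lam _).2 (hex hR).2⟩, ?_, ?_⟩
  · intro ε hε
    by_contra hcon
    rw [Filter.not_frequently] at hcon
    have h1 : ∃ C, ∀ᶠ X in atTop, logMean (fun x => Real.exp (lam * D x)) X ≤ C :=
      ⟨V - ε, hcon.mono fun X hX => not_lt.1 hX⟩
    obtain ⟨E, hE⟩ := hconv (hbdd.2 h1)
    have h2 := (hlim E hE).1
    have h3 : E ≤ V - ε := le_of_tendsto hE (hcon.mono fun X hX => not_lt.1 hX)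
    linarith
  · constructor
    · rintro ⟨hR, hLI⟩ ε hε
      obtain ⟨E, hE⟩ := hconv hR
      have h1 := (hlim E hE).2.2 hLI
      rw [h1] at hE
      exact hE.eventually_lt_const (by linarith)
    · intro h1
      have hR : RHf f := hbdd.2 ⟨V + 1, (h1 1 one_pos).mono fun X hX => hX.le⟩
      obtain ⟨E, hE⟩ := hconv hR
      refine ⟨hR, (hlim E hE).2.1 (le_antisymm ?_ (hlim E hE).1)⟩
      refine le_of_forall_pos_le_add fun ε hε => ?_
      exact le_of_tendsto hE ((h1 ε hε).mono fun X hX => hX.le)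

end gen

/-! ### families of L-functions -/

section fams

variable {X : Type} (S : Finset X) (Z : X → ℂ → ℂ) (d : X → ℕ)

/-- the multiset of the positive ordinates of the zeros on the critical line: the pairs of a member of
the family and a zero, listed with multiplicity -/
def Gam : Type := {p : (X × ℝ) × ℕ // p.1.1 ∈ S ∧ 0 < p.1.2 ∧ p.2 < analyticOrderNatAt (Z p.1.1) (1 / 2 + p.1.2 * I)}

variable {S Z} in
/-- the ordinate -/
def Gam.ord (p : Gam S Z) : ℝ := p.1.1.2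

variable {S Z} in
/-- `4 λ d / (1 + γ²)` -/
noncomputable def Gam.arg (lam : ℝ) (p : Gam S Z) : ℝ := 4 * lam * d p.1.1.1 / (1 + p.1.1.2 ^ 2)

variable {S Z d}

lemma Z_top (hZ : ∀ χ ∈ S, ∀ s : ℂ, s ≠ 1 → AnalyticAt ℂ (Z χ) s) (h2 : ∀ χ ∈ S, Z χ 2 ≠ 0) {χ : X} (hχ : χ ∈ S)
    {s : ℂ} (hs : s ≠ 1) : analyticOrderAt (Z χ) s ≠ ⊤ := by
  have hA : AnalyticOnNhd ℂ (Z χ) ({1}ᶜ : Set ℂ) := fun z hz => hZ χ hχ z hz
  have hpc : IsPreconnected ({1}ᶜ : Set ℂ) :=
    (isConnected_compl_singleton_of_one_lt_rank (by simp) 1).isPreconnected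
  have h3 : (2:ℂ) ∈ ({1}ᶜ : Set ℂ) := by simp
  refine hA.analyticOrderAt_ne_top_of_isPreconnected hpc h3 hs ?_
  rw [(hA 2 h3).analyticOrderAt_eq_zero.2 (h2 χ hχ)]
  exact ENat.zero_ne_top

/-- the order of the product -/
lemma mu_fam (hZ : ∀ χ ∈ S, ∀ s : ℂ, s ≠ 1 → AnalyticAt ℂ (Z χ) s) (h2 : ∀ χ ∈ S, Z χ 2 ≠ 0) {f : ℂ → ℂ} {z : ℂ}
    (hz : z ≠ 1 / 2) (hf : f =ᶠ[𝓝 z] fun y => (y - 1 / 2) * ∏ χ ∈ S, Z χ (1 / 2 + y) ^ d χ) :
    mu f z = ∑ χ ∈ S, d χ * analyticOrderNatAt (Z χ) (1 / 2 + z) := by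
  have hs : 1 / 2 + z ≠ 1 := by
    intro h
    apply hz
    linear_combination h
  have ha0 : ∀ χ ∈ S, AnalyticAt ℂ (fun y => Z χ (1 / 2 + y)) z := fun χ hχ =>
    (hZ χ hχ _ hs).comp_of_eq (by fun_prop) rfl
  have ha : ∀ χ ∈ S, AnalyticAt ℂ (fun y => Z χ (1 / 2 + y) ^ d χ) z := fun χ hχ => (ha0 χ hχ).pow _
  have hord : ∀ χ ∈ S, analyticOrderAt (fun y => Z χ (1 / 2 + y) ^ d χ) z =
      d χ • analyticOrderAt (Z χ) (1 / 2 + z) := fun χ hχ => by
    have h1 := analyticOrderAt_pow (ha0 χ hχ) (d χ)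
    rw [shift_ord] at h1
    exact h1
  have ht : ∀ χ ∈ S, analyticOrderAt (fun y => Z χ (1 / 2 + y) ^ d χ) z ≠ ⊤ := fun χ hχ => by
    rw [hord χ hχ]
    obtain ⟨n, hn⟩ := ENat.ne_top_iff_exists.1 (Z_top hZ h2 hχ hs)
    rw [← hn, nsmul_eq_mul]
    exact WithTop.coe_ne_top (a := d χ * n)
  obtain ⟨p1, p2⟩ := ord_prod S ha ht
  have hl : AnalyticAt ℂ (fun y : ℂ => y - 1 / 2) z := by fun_prop
  have hl0 : analyticOrderAt (fun y : ℂ => y - 1 / 2) z = 0 := hl.analyticOrderAt_eq_zero.2 (sub_ne_zero.2 hz)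
  unfold mu
  have e : analyticOrderNatAt f z =
      analyticOrderNatAt ((fun y : ℂ => y - 1 / 2) * fun y => ∏ χ ∈ S, Z χ (1 / 2 + y) ^ d χ) z := by
    unfold analyticOrderNatAt
    rw [analyticOrderAt_congr hf]
    rfl
  rw [e, analyticOrderNatAt_mul hl (Finset.analyticAt_fun_prod S ha) (by rw [hl0]; exact ENat.zero_ne_top) p1, p2]
  have e2 : analyticOrderNatAt (fun y : ℂ => y - 1 / 2) z = 0 := by
    unfold analyticOrderNatAt
    rw [hl0]
    rfl
  rw [e2, zero_add]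
  refine Finset.sum_congr rfl fun χ hχ => ?_
  unfold analyticOrderNatAt
  rw [hord χ hχ]
  obtain ⟨n, hn⟩ := ENat.ne_top_iff_exists.1 (Z_top hZ h2 hχ hs)
  rw [← hn, nsmul_eq_mul]
  rfl

lemma Z_ord_pos (hZ : ∀ χ ∈ S, ∀ s : ℂ, s ≠ 1 → AnalyticAt ℂ (Z χ) s) (h2 : ∀ χ ∈ S, Z χ 2 ≠ 0) {χ : X} (hχ : χ ∈ S)
    {s : ℂ} (hs : s ≠ 1) : 0 < analyticOrderNatAt (Z χ) s ↔ Z χ s = 0 := by
  have h1 := Z_top hZ h2 hχ hs
  have h3 := (hZ χ hχ s hs).analyticOrderAt_ne_zero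
  rw [← h3, Nat.pos_iff_ne_zero]
  unfold analyticOrderNatAt
  rw [Ne, ENat.toNat_eq_zero]
  constructor
  · intro h h4
    exact h (Or.inl h4)
  · rintro h (h4 | h4)
    · exact h h4
    · exact h1 h4

/-- **The criterion for a family of L-functions.** -/
theorem crit_family (h : LD f L δ) (hd : ∀ χ ∈ S, 0 < d χ)
    (hZ : ∀ χ ∈ S, ∀ s : ℂ, s ≠ 1 → AnalyticAt ℂ (Z χ) s) (h2 : ∀ χ ∈ S, Z χ 2 ≠ 0)
    (hf : ∀ z : ℂ, z ≠ 1 / 2 → f z = (z - 1 / 2) * ∏ χ ∈ S, Z χ (1 / 2 + z) ^ d χ)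
    {lam : ℝ} (hl : 0 < lam) {D : ℝ → ℝ} (hD : ∀ x, 0 < x → D x = Dd L δ (Real.log x)) {V : ℝ}
    (hV : V = Real.exp (2 * lam * (∑ χ ∈ S, d χ * analyticOrderNatAt (Z χ) (1 / 2) : ℕ)) *
      ∏' p : Gam S Z, Ik 0 (p.arg d lam)) :
    (Multipliable fun p : Gam S Z => Ik 0 (p.arg d lam)) ∧
    ((∀ χ ∈ S, RHs (Z χ)) ↔ ∃ C, ∀ᶠ X in atTop, logMean (fun x => Real.exp (lam * D x)) X ≤ C) ∧
    ((∀ χ ∈ S, RHs (Z χ)) → (Summable (wgs (γ := fun p : Gam S Z => p.ord) fun p => p.arg d lam)) ∧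
      Tendsto (logMean fun x => Real.exp (lam * D x)) atTop
        (𝓝 (V * ∑' n, wgs (γ := fun p : Gam S Z => p.ord) (fun p => p.arg d lam) n))) ∧
    (∀ ε : ℝ, 0 < ε → ∃ᶠ X in atTop, V - ε < logMean (fun x => Real.exp (lam * D x)) X) ∧
    ((∀ χ ∈ S, RHs (Z χ)) ∧ LinearIndependent ℚ (fun p : Gam S Z => p.ord) ↔
      ∀ ε : ℝ, 0 < ε → ∀ᶠ X in atTop, logMean (fun x => Real.exp (lam * D x)) X < V + ε) := by
  classical
  have hfz : ∀ z : ℂ, z ≠ 1 / 2 → (f z = 0 ↔ ∃ χ ∈ S, Z χ (1 / 2 + z) = 0) := by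
    intro z hz
    rw [hf z hz, mul_eq_zero, Finset.prod_eq_zero_iff]
    constructor
    · rintro (h1 | ⟨χ, hχ, h1⟩)
      · exact absurd (sub_eq_zero.1 h1) hz
      · exact ⟨χ, hχ, (pow_eq_zero_iff (hd χ hχ).ne').1 h1⟩
    · rintro ⟨χ, hχ, h1⟩
      exact Or.inr ⟨χ, hχ, by rw [h1, zero_pow (hd χ hχ).ne']⟩
  have hRH : (∀ χ ∈ S, RHs (Z χ)) ↔ RHf f := by
    constructor
    · intro h1 w hw hw2
      rw [abs_lt] at hw2
      have hwh : w ≠ 1 / 2 := by
        rintro rfl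
        norm_num at hw2
      obtain ⟨χ, hχ, h3⟩ := (hfz w hwh).1 hw
      have := h1 χ hχ (1 / 2 + w) (by simp; linarith) (by simp; linarith) h3
      simp at this
      linarith
    · intro h1 χ hχ ρ h3 h4 h5
      have hwh : ρ - 1 / 2 ≠ 1 / 2 := by
        intro h5
        have : ρ = 1 := by linear_combination h5
        rw [this] at h4
        simp at h4
      have := h1 (ρ - 1 / 2) ((hfz _ hwh).2 ⟨χ, hχ, by rw [add_sub_cancel]; exact h5⟩) (by
        rw [abs_lt]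
        constructor <;> simp <;> linarith)
      simp at this
      linarith
  have hmu : ∀ z : ℂ, z ≠ 1 / 2 → mu f z = ∑ χ ∈ S, d χ * analyticOrderNatAt (Z χ) (1 / 2 + z) := by
    intro z hz
    refine mu_fam hZ h2 hz ?_
    filter_upwards [isOpen_ne.mem_nhds hz] with y hy using hf y hy
  have hmu0 : mu f 0 = ∑ χ ∈ S, d χ * analyticOrderNatAt (Z χ) (1 / 2) := by
    rw [hmu 0 (by norm_num), add_zero]
  have hne1 : ∀ g : ℝ, (1 / 2 + (g:ℂ) * I) ≠ 1 := by
    intro g h1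
    apply ne_half g
    linear_combination h1
  let π : Gam S Z → Gs f := fun p => ⟨p.1.1.2, p.2.2.1, by
    rw [hfz _ (ne_half _)]
    exact ⟨p.1.1.1, p.2.1, (Z_ord_pos hZ h2 p.2.1 (hne1 _)).1 (by have := p.2.2.2; omega)⟩⟩
  let b : Gam S Z → ℝ := fun p => d p.1.1.1 * (2 / (1 + p.1.1.2 ^ 2))
  have hb : ∀ p, 0 < b p := fun p => by
    have : (0:ℝ) < d p.1.1.1 := by exact_mod_cast hd _ p.2.1
    positivity
  have harg : ∀ p : Gam S Z, 2 * lam * b p = p.arg d lam := by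
    intro p
    simp only [b, Gam.arg]
    ring
  -- the fibres
  have hfib : ∀ g : Gs f, HasSum (fun i : {i // π i = g} => b i) (wt f g) := by
    intro g
    set o : X → ℕ := fun χ => analyticOrderNatAt (Z χ) (1 / 2 + (g.1:ℂ) * I) with ho
    let ee : (Σ χ : {χ // χ ∈ S}, Fin (o χ.1)) ≃ {i : Gam S Z // π i = g} :=
      { toFun := fun x => ⟨⟨((x.1.1, g.1), x.2.1), x.1.2, g.2.1, x.2.2⟩, by apply Subtype.ext; rfl⟩
        invFun := fun p => ⟨⟨p.1.1.1.1, p.1.2.1⟩, ⟨p.1.1.2, by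
          have h1 : p.1.1.1.2 = g.1 := congrArg Subtype.val p.2
          have h3 := p.1.2.2.2
          rw [h1] at h3
          exact h3⟩⟩
        left_inv := fun x => rfl
        right_inv := fun p => by
          apply Subtype.ext
          apply Subtype.ext
          have h1 : p.1.1.1.2 = g.1 := congrArg Subtype.val p.2
          exact Prod.ext (Prod.ext rfl h1.symm) rfl }
    rw [← ee.hasSum_iff]
    have h1 := hasSum_fintype (fun x : (Σ χ : {χ // χ ∈ S}, Fin (o χ.1)) => ((fun i : {i // π i = g} => b i) ∘ ee) x)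
    have h3 : ∑ x : (Σ χ : {χ // χ ∈ S}, Fin (o χ.1)), ((fun i : {i // π i = g} => b i) ∘ ee) x = wt f g := by
      have e1 : ∀ x : (Σ χ : {χ // χ ∈ S}, Fin (o χ.1)), ((fun i : {i // π i = g} => b i) ∘ ee) x =
          d x.1.1 * (2 / (1 + g.1 ^ 2)) := fun x => rfl
      rw [Finset.sum_congr rfl fun x _ => e1 x]
      have e3 : ∑ x : (Σ χ : {χ // χ ∈ S}, Fin (o χ.1)), (d x.1.1 : ℝ) * (2 / (1 + g.1 ^ 2)) =
          ∑ χ : {χ // χ ∈ S}, (o χ.1 : ℝ) * (d χ.1 * (2 / (1 + g.1 ^ 2))) := by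
        rw [Fintype.sum_sigma (fun x : (Σ χ : {χ // χ ∈ S}, Fin (o χ.1)) => (d x.1.1 : ℝ) * (2 / (1 + g.1 ^ 2)))]
        refine Finset.sum_congr rfl fun χ _ => ?_
        simp
      rw [e3]
      have e2 : wt f g = (mu f ((g.1:ℂ) * I) : ℝ) * (2 / (1 + g.1 ^ 2)) := rfl
      rw [e2, hmu _ (ne_half _)]
      push_cast
      rw [Finset.sum_mul, ← Finset.sum_coe_sort S]
      refine Finset.sum_congr rfl fun χ _ => ?_
      ring
    rw [h3] at h1
    exact h1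
  have hV2 : V = Real.exp (2 * lam * mu f 0) * ∏' i, Ik 0 (2 * lam * b i) := by
    rw [hV, hmu0]
    simp only [harg]
  have key := crit_mult h hl hD π b hb hfib hV2
  simp only [harg] at key
  rw [hRH]
  exact key

end fams

end Pool.Agent.U544.LI
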