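import Pool.Agent.U544.LI.Crit3
import Pool.Agent.U544.LI.Dir2

/-!
# The criterion for the set of the ordinates of one zeta function
-/

set_option autoImplicit false

open Complex Filter Topology Metric Finset MeasureTheory Set
open scoped ComplexConjugate Nat

namespace Pool.Agent.U544.LI

variable {f : ℂ → ℂ} {L : ℕ → ℝ} {δ : ℝ}

/-- the positive ordinates of the zeros on the critical line -/
def Ord (Z : ℂ → ℂ) : Type := {g : ℝ // 0 < g ∧ Z (1 / 2 + g * I) = 0}

/-- `4 λ m / (1 + γ²)` -/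
noncomputable def ar (Z : ℂ → ℂ) (lam : ℝ) (g : Ord Z) : ℝ :=
  4 * lam * analyticOrderNatAt Z (1 / 2 + g.1 * I) / (1 + g.1 ^ 2)

/-- the integral relations between the ordinates -/
def Rl (Z : ℂ → ℂ) : Type := {n : Ord Z →₀ ℤ // (n.sum fun g k => (k : ℝ) * g.1) = 0}

/-- the weight of a relation -/
noncomputable def wg (Z : ℂ → ℂ) (lam : ℝ) (n : Rl Z) : ℝ :=
  n.1.prod fun g k => Ik k.natAbs (ar Z lam g) / Ik 0 (ar Z lam g)

/-- the Riemann hypothesis for `Z` -/
def RHs (Z : ℂ → ℂ) : Prop := ∀ ρ : ℂ, 0 < ρ.re → ρ.re < 1 → Z ρ = 0 → ρ.re = 1 / 2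

lemma ne_half (g : ℝ) : (g:ℂ) * I ≠ 1 / 2 := by
  intro h1
  have := congrArg Complex.re h1
  simp at this

lemma ord_eq {Z : ℂ → ℂ} (h : LD f L δ) (hZ : ∀ z : ℂ, z ≠ 1 / 2 → f z = (z - 1 / 2) * Z (1 / 2 + z)) {z : ℂ}
    (hz : z ≠ 1 / 2) : mu f z = analyticOrderNatAt Z (1 / 2 + z) := by
  have hs : 1 / 2 + z ≠ 1 := by
    intro h
    apply hz
    linear_combination h
  -- `Z` near the point
  have e1 : (fun y => Z (1 / 2 + y)) =ᶠ[𝓝 z] fun y => f y / (y - 1 / 2) := by
    filter_upwards [isOpen_ne.mem_nhds hz] with y hy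
    rw [hZ y hy, mul_div_cancel_left₀ _ (sub_ne_zero.2 hy)]
  have ha1 : AnalyticAt ℂ f z := h.diff.analyticAt z
  have hl : AnalyticAt ℂ (fun y : ℂ => y - 1 / 2) z := by fun_prop
  have ha : AnalyticAt ℂ (fun y => Z (1 / 2 + y)) z :=
    (ha1.fun_div hl (sub_ne_zero.2 hz)).congr e1.symm
  have hl0 : analyticOrderAt (fun y : ℂ => y - 1 / 2) z = 0 := hl.analyticOrderAt_eq_zero.2 (sub_ne_zero.2 hz)
  have e2 : analyticOrderAt f z = analyticOrderAt ((fun y : ℂ => y - 1 / 2) * fun y => Z (1 / 2 + y)) z := by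
    refine analyticOrderAt_congr ?_
    filter_upwards [isOpen_ne.mem_nhds hz] with y hy
    exact hZ y hy
  rw [analyticOrderAt_mul hl ha, hl0, zero_add, shift_ord] at e2
  unfold mu analyticOrderNatAt
  rw [e2]

/-- **The criterion for the set of ordinates.** -/
theorem crit_set (h : LD f L δ) {Z : ℂ → ℂ} (hZ : ∀ z : ℂ, z ≠ 1 / 2 → f z = (z - 1 / 2) * Z (1 / 2 + z))
    {lam : ℝ} (hl : 0 < lam) {D : ℝ → ℝ} (hD : ∀ x, 0 < x → D x = Dd L δ (Real.log x)) {V : ℝ}
    (hV : V = Real.exp (2 * lam * analyticOrderNatAt Z (1 / 2)) * ∏' g : Ord Z, Ik 0 (ar Z lam g)) :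
    (Multipliable fun g : Ord Z => Ik 0 (ar Z lam g)) ∧
    (RHs Z ↔ ∃ C, ∀ᶠ X in atTop, logMean (fun x => Real.exp (lam * D x)) X ≤ C) ∧
    (RHs Z → (Summable (wg Z lam)) ∧
      Tendsto (logMean fun x => Real.exp (lam * D x)) atTop (𝓝 (V * ∑' n : Rl Z, wg Z lam n))) ∧
    (∀ ε : ℝ, 0 < ε → ∃ᶠ X in atTop, V - ε < logMean (fun x => Real.exp (lam * D x)) X) ∧
    (RHs Z ∧ LinearIndependent ℚ (fun g : Ord Z => g.1) ↔
      ∀ ε : ℝ, 0 < ε → ∀ᶠ X in atTop, logMean (fun x => Real.exp (lam * D x)) X < V + ε) := by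
  classical
  have hfz : ∀ z : ℂ, z ≠ 1 / 2 → (f z = 0 ↔ Z (1 / 2 + z) = 0) := by
    intro z hz
    rw [hZ z hz, mul_eq_zero]
    constructor
    · rintro (h1 | h1)
      · exact absurd (sub_eq_zero.1 h1) hz
      · exact h1
    · intro h1
      exact Or.inr h1
  have hRH : RHs Z ↔ RHf f := by
    constructor
    · intro h1 w hw hw2
      rw [abs_lt] at hw2
      have hwh : w ≠ 1 / 2 := by
        rintro rfl
        norm_num at hw2
      have := h1 (1 / 2 + w) (by simp; linarith) (by simp; linarith) ((hfz w hwh).1 hw)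
      simp at this
      linarith
    · intro h1 ρ h2 h3 h4
      have hwh : ρ - 1 / 2 ≠ 1 / 2 := by
        intro h5
        have : ρ = 1 := by linear_combination h5
        rw [this] at h3
        simp at h3
      have := h1 (ρ - 1 / 2) ((hfz _ hwh).2 (by rw [add_sub_cancel]; exact h4)) (by
        rw [abs_lt]
        constructor <;> simp <;> linarith)
      simp at this
      linarith
  have hmu0 : mu f 0 = analyticOrderNatAt Z (1 / 2) := by
    rw [ord_eq h hZ (by norm_num), add_zero]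
  let π : Ord Z ≃ Gs f :=
    { toFun := fun g => ⟨g.1, g.2.1, (hfz _ (ne_half _)).2 g.2.2⟩
      invFun := fun g => ⟨g.1, g.2.1, (hfz _ (ne_half _)).1 g.2.2⟩
      left_inv := fun g => rfl
      right_inv := fun g => rfl }
  set b : Ord Z → ℝ := fun g => wt f (π g) with hb
  have hbp : ∀ g, 0 < b g := fun g => wt_pos h _
  have hbs : Summable b := (wt_summ h).comp_injective π.injective
  have hbD : ∀ u, DD b (fun g => (π g).1) u = DD (wt f) (fun g : Gs f => g.1) u := by
    intro u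
    unfold DD
    exact π.tsum_eq (fun g : Gs f => 2 * wt f g * Real.cos (g.1 * u))
  have har : ∀ g, 2 * (lam * b g) = ar Z lam g := by
    intro g
    have e : b g = (mu f ((g.1:ℂ) * I) : ℝ) * (2 / (1 + g.1 ^ 2)) := rfl
    rw [e, ord_eq h hZ (ne_half _)]
    unfold ar
    ring
  obtain ⟨c1, c2, c3⟩ := crit h hl (fun g => π g) b hbp hbs hbD
  have hPP := PP_tprod' c3
  simp only [har] at hPP
  have hV' : V = Real.exp (2 * lam * mu f 0) * PP (fun g => lam * b g) := by
    rw [hV, hmu0, hPP.2]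
  have hV0 : 0 < V := by
    rw [hV']
    exact mul_pos (Real.exp_pos _) (Real.exp_pos _)
  -- the weights
  have hQ : ∀ n : Rl Z, QQ (fun g => lam * b g) n.1 = wg Z lam n := by
    intro n
    unfold QQ wg
    refine Finset.prod_congr rfl fun g _ => ?_
    simp only [qq]
    rw [Jk_Ik, J0_Ik, har]
  have hex : RHf f → (Summable (wg Z lam)) ∧
      Tendsto (mean fun u => Real.exp (lam * Dd L δ u)) atTop (𝓝 (V * ∑' n : Rl Z, wg Z lam n)) := by
    intro hR
    obtain ⟨h1, h2⟩ := exact_mean h hl (fun g => π g) b hbp hbs hbD hR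
    have e1 : (∑' n : {n : Ord Z →₀ ℤ // val (fun g => (π g).1) n = 0}, QQ (fun g => lam * b g) n) =
        ∑' n : Rl Z, wg Z lam n := tsum_congr fun n => hQ n
    refine ⟨h1.congr fun n => hQ n, ?_⟩
    rw [hV', ← e1, mul_assoc]
    exact h2
  have hbdd : RHf f ↔ ∃ C, ∀ᶠ X in atTop, logMean (fun x => Real.exp (lam * D x)) X ≤ C := by
    constructor
    · intro hR
      have h2 := (bridge h hD lam _).2 (hex hR).2
      exact ⟨_, (h2.eventually_lt_const (lt_add_one _)).mono fun X hX => hX.le⟩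
    · rintro ⟨C, hC⟩
      exact rh_of_bdd h hl ⟨C, (bridge_le h hD lam C).1 hC⟩
  -- the limit is at least `V`
  have hlim : ∀ E, Tendsto (logMean fun x => Real.exp (lam * D x)) atTop (𝓝 E) →
      V ≤ E ∧ (E = V ↔ LinearIndependent ℚ (fun g : Ord Z => g.1)) := by
    intro E hE
    have h1 := c2 E ((bridge h hD lam E).1 hE)
    rw [← hV'] at h1
    exact h1
  have hconv : RHf f → ∃ E, Tendsto (logMean fun x => Real.exp (lam * D x)) atTop (𝓝 E) := fun hR =>
    ⟨_, (bridge h hD lam _).2 (hex hR).2⟩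
  refine ⟨hPP.1, ?_, ?_, ?_, ?_⟩
  · rw [hRH]; exact hbdd
  · rw [hRH]
    intro hR
    exact ⟨(hex hR).1, (bridge h hD lam _).2 (hex hR).2⟩
  · intro ε hε
    by_contra hcon
    rw [Filter.not_frequently] at hcon
    have h1 : ∃ C, ∀ᶠ X in atTop, logMean (fun x => Real.exp (lam * D x)) X ≤ C :=
      ⟨V - ε, hcon.mono fun X hX => not_lt.1 hX⟩
    obtain ⟨E, hE⟩ := hconv (hbdd.2 h1)
    have h2 := (hlim E hE).1
    have h3 : E ≤ V - ε := le_of_tendsto hE (hcon.mono fun X hX => not_lt.1 hX)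
    linarith
  · rw [hRH]
    constructor
    · rintro ⟨hR, hLI⟩ ε hε
      obtain ⟨E, hE⟩ := hconv hR
      have h1 := (hlim E hE).2.2 hLI
      rw [h1] at hE
      exact hE.eventually_lt_const (by linarith)
    · intro h1
      have hR : RHf f := hbdd.2 ⟨V + 1, (h1 1 one_pos).mono fun X hX => hX.le⟩
      obtain ⟨E, hE⟩ := hconv hR
      refine ⟨hR, (hlim E hE).2.1 (le_antisymm ?_ (hlim E hE).1)⟩
      refine le_of_forall_pos_le_add fun ε hε => ?_
      exact le_of_tendsto hE ((h1 ε hε).mono fun X hX => hX.le)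

end Pool.Agent.U544.LI
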