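import Pool.Agent.U544.LI.Ded
import Pool.Agent.U544.LI.Mult
import Pool.Agent.K4H74.SC.ArtL
import Pool.Agent.R389.Compl

/-!
# The Artin L-functions of a Galois extension of `ℚ`
-/

set_option autoImplicit false
set_option linter.unusedSectionVars false

open Complex Filter Topology Metric Finset MeasureTheory Set NumberField
open scoped ComplexConjugate Nat

namespace Pool.Agent.U544.LI

open Pool.Agent.Y773 Pool.Agent.Y772.DK Pool.Agent.R362.Near Pool.Agent.K4H74.SC Pool.Agent.K4H74.ST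
  Pool.Agent.H541R3.ART IsDedekindDomain

/-! ### the degrees -/

section deg

variable {G : Type} [Group G] [Finite G]

/-- the degree of a character -/
noncomputable def dg (χ : G → ℂ) : ℕ := ⌊(χ 1).re⌋₊

lemma dg_spec {χ : G → ℂ} (hχ : χ ∈ Irr G) : χ 1 = dg χ ∧ 0 < dg χ := by
  obtain ⟨n, ρ, hρ, rfl⟩ := hχ
  have h1 : ρ.character 1 = (n : ℂ) := by
    rw [Representation.char_one]
    simp
  have h2 : dg ρ.character = n := by
    unfold dg
    rw [h1, Complex.natCast_re, Nat.floor_natCast]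
  refine ⟨by rw [h1, h2], ?_⟩
  rw [h2]
  by_contra h0
  have h3 : n = 0 := by omega
  subst h3
  classical
  have : Fintype G := Fintype.ofFinite G
  have h4 := pair_self (⟨0, ρ, hρ, rfl⟩ : ρ.character ∈ Irr G)
  have h5 : ∀ g, ρ.character g = 0 := by
    intro g
    change LinearMap.trace ℂ (Fin 0 → ℂ) (ρ g) = 0
    have : ρ g = 0 := by
      ext v
      exact Fin.elim0 (by assumption)
    rw [this, map_zero]
  simp only [h5, zero_mul, Finset.sum_const_zero] at h4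
  have h6 : (Nat.card G : ℂ) ≠ 0 := by exact_mod_cast Nat.card_pos.ne'
  exact h6 h4.symm

/-- the regular character -/
lemma reg_decomp [DecidableEq G] (g : G) :
    (if g = 1 then (Nat.card G : ℂ) else 0) = ∑ χ ∈ irrF G, (dg χ : ℂ) * χ g := by
  have h := Pool.Agent.R389.class_expand (f := fun g : G => if g = 1 then (Nat.card G : ℂ) else 0) (by
    intro g x
    have : x * g * x⁻¹ = 1 ↔ g = 1 := by
      constructor
      · intro h
        have h2 := congrArg (fun y => x⁻¹ * y * x) h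
        simpa [mul_assoc] using h2
      · rintro rfl
        simp
    simp only [this]) g
  rw [h]
  refine Finset.sum_congr rfl fun χ hχ => ?_
  congr 1
  rw [← (dg_spec (mem_irrF.1 hχ)).1, Pool.Agent.W446.AS.pr, finsum_eq_single _ 1]
  · rw [if_pos rfl, inv_one, ← mul_assoc, inv_mul_cancel₀ Pool.Agent.W446.AS.card_ne, one_mul]
  · intro y hy
    rw [if_neg hy, zero_mul]

end deg

/-! ### the trivial character over `F` -/

section triv

variable (F : Type) [Field F] [NumberField F]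

lemma nat_pow_cpow (m k : ℕ) (z : ℂ) : ((m ^ k : ℕ) : ℂ) ^ z = ((m : ℂ) ^ z) ^ k := by
  induction k with
  | zero => simp
  | succ k ih =>
    rw [pow_succ, pow_succ, Nat.cast_mul, Complex.natCast_mul_natCast_cpow, ih]

lemma frobMean_one {K : Type} [Field K] [NumberField K] [Algebra K F] [IsGalois K F] {p : Ideal (𝓞 K)} (hp : p ≠ ⊥)
    [p.IsPrime] (n : ℕ) : frobMean K F (fun _ => 1) p n = 1 := by
  classical
  have : Fintype (F ≃ₐ[K] F) := Fintype.ofFinite _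
  have h1 : ((frobSet K F p n).ncard : ℂ) = ∑ᶠ x ∈ frobSet K F p n, (fun _ => (1 : ℂ)) x.2 := by
    rw [frobSet_eq hp n, finsum_mem_coe_finset, Finset.sum_const, nsmul_eq_mul, mul_one,
      Set.ncard_coe_finset]
  rw [frobMean, ← h1]
  refine div_self ?_
  rw [ncard_frob hp n]
  push_cast
  exact mul_ne_zero (by exact_mod_cast pr_ne) (by exact_mod_cast ram_ne (K := K))

/-- **the logarithm of the zeta function of `F`** -/
lemma hasSum_triv {s : ℂ} (hs : 1 < s.re) : HasSum (logTerm F F (fun _ => 1) s) (LA (Pool.Agent.Y772.DK.ee (triv F)) s) := by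
  have hψ := triv_norm (E := F)
  have h1 : HasSum (fun 𝔞 : Ideal (𝓞 F) => Pool.Agent.Y772.DK.ee (triv F) 𝔞 * ((Ideal.absNorm 𝔞 : ℕ) : ℂ) ^ (-s))
      (LA (Pool.Agent.Y772.DK.ee (triv F)) s) := (term_summable (Pool.Agent.Y772.DK.ee_zero _) (Pool.Agent.Y772.DK.ee_le _ hψ) hs).of_norm.hasSum
  let j : HeightOneSpectrum (𝓞 F) × ℕ+ → Ideal (𝓞 F) := fun x => x.1.asIdeal ^ (x.2 : ℕ)
  have hj : Function.Injective j := by
    rintro ⟨p, k⟩ ⟨q, l⟩ h
    have h2 : p.asIdeal ^ (k : ℕ) = q.asIdeal ^ (l : ℕ) := h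
    have hpq : p = q := by
      have h3 : p.asIdeal ∣ q.asIdeal := p.prime.dvd_of_dvd_pow (h2 ▸ dvd_pow_self p.asIdeal k.ne_zero)
      have := (p.prime.dvd_prime_iff_associated q.prime).mp h3
      rw [associated_iff_eq] at this
      exact HeightOneSpectrum.ext this
    subst hpq
    have h4 : (k : ℕ) = l := pow_injective_of_not_isUnit p.prime.not_isUnit p.prime.ne_zero h2
    rw [PNat.eq h4]
  have h2 : HasSum ((fun 𝔞 : Ideal (𝓞 F) => Pool.Agent.Y772.DK.ee (triv F) 𝔞 * ((Ideal.absNorm 𝔞 : ℕ) : ℂ) ^ (-s)) ∘ j)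
      (LA (Pool.Agent.Y772.DK.ee (triv F)) s) := by
    rw [hj.hasSum_iff]
    · exact h1
    · intro 𝔞 h𝔞
      have h3 : ¬ IsPrimePow 𝔞 := by
        rintro ⟨p, k, hp, hk, rfl⟩
        apply h𝔞
        refine ⟨(⟨p, Ideal.isPrime_of_prime hp, hp.ne_zero⟩, ⟨k, hk⟩), rfl⟩
      unfold Pool.Agent.Y772.DK.ee
      rw [VM_of_not h3, zero_div, ofReal_zero, zero_mul, zero_mul]
  refine h2.congr_fun fun x => ?_
  symm
  obtain ⟨P, k⟩ := x
  have hP := P.isPrime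
  have hNlog : Real.log (Ideal.absNorm P.asIdeal) ≠ 0 := by
    have h4 : Ideal.absNorm P.asIdeal ≠ 0 := fun h1 => P.ne_bot (Ideal.absNorm_eq_zero_iff.mp h1)
    have h5 : Ideal.absNorm P.asIdeal ≠ 1 := fun h2 => hP.ne_top (Ideal.absNorm_eq_one_iff.mp h2)
    have : (1 : ℝ) < Ideal.absNorm P.asIdeal := by exact_mod_cast (by omega : 1 < Ideal.absNorm P.asIdeal)
    exact (Real.log_pos this).ne'
  have hk : ((k : ℕ) : ℝ) ≠ 0 := by exact_mod_cast k.ne_zero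
  change Pool.Agent.Y772.DK.ee (triv F) (P.asIdeal ^ (k : ℕ)) * ((Ideal.absNorm (P.asIdeal ^ (k : ℕ)) : ℕ) : ℂ) ^ (-s) = _
  rw [logTerm, frobMean_one F P.ne_bot]
  unfold Pool.Agent.Y772.DK.ee
  have hne : P.asIdeal ^ (k : ℕ) ≠ ⊥ := pow_ne_zero _ P.ne_bot
  rw [VM_pow P.prime k.ne_zero, triv_apply hne, mul_one, map_pow, Nat.cast_pow, Real.log_pow]
  have h6 : (((Ideal.absNorm P.asIdeal ^ (k : ℕ) : ℕ)) : ℂ) ^ (-s) =
      (((Ideal.absNorm P.asIdeal : ℕ) : ℂ) ^ (((k : ℕ) : ℂ) * s))⁻¹ := by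
    rw [nat_pow_cpow, ← Complex.cpow_nat_mul, ← Complex.cpow_neg, mul_neg]
  rw [h6]
  have h7 : (Real.log (Ideal.absNorm P.asIdeal) / (((k : ℕ) : ℝ) * Real.log (Ideal.absNorm P.asIdeal)) : ℝ) =
      1 / ((k : ℕ) : ℝ) := by
    field_simp
  rw [h7]
  push_cast
  rw [one_div, one_div, mul_inv]

end triv

/-! ### linearity -/

section lin

variable {K F : Type} [Field K] [NumberField K] [Field F] [NumberField F] [Algebra K F] [IsGalois K F]

lemma logTerm_sum {X : Type} (S : Finset X) (c : X → ℂ) (χ : X → (F ≃ₐ[K] F) → ℂ) (s : ℂ)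
    (x : HeightOneSpectrum (𝓞 K) × ℕ+) :
    logTerm K F (fun g => ∑ i ∈ S, c i * χ i g) s x = ∑ i ∈ S, c i * logTerm K F (χ i) s x := by
  classical
  have : Fintype (F ≃ₐ[K] F) := Fintype.ofFinite _
  have hp := x.1.isPrime
  have h1 : ∀ f : (F ≃ₐ[K] F) → ℂ, ∑ᶠ y ∈ frobSet K F x.1.asIdeal x.2, f y.2 =
      ∑ P ∈ (pr_finite F x.1.ne_bot).toFinset, frSum f P (Ideal.absNorm x.1.asIdeal ^ (x.2 : ℕ)) :=
    fun f => sum_frob x.1.ne_bot _
  have h2 : ∀ P m, frSum (fun g => ∑ i ∈ S, c i * χ i g) P m = ∑ i ∈ S, c i * frSum (χ i) P m := by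
    intro P m
    unfold frSum
    simp_rw [Finset.mul_sum]
    rw [Finset.sum_comm]
    refine Finset.sum_congr rfl fun g _ => ?_
    split_ifs
    · rfl
    · simp
  have e : ∑ᶠ y ∈ frobSet K F x.1.asIdeal x.2, (∑ i ∈ S, c i * χ i y.2) =
      ∑ i ∈ S, c i * ∑ᶠ y ∈ frobSet K F x.1.asIdeal x.2, χ i y.2 := by
    rw [h1 (fun g => ∑ i ∈ S, c i * χ i g)]
    simp_rw [h1, h2, Finset.mul_sum]
    exact Finset.sum_comm
  unfold logTerm frobMean
  rw [e, Finset.sum_div, Finset.sum_div]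
  refine Finset.sum_congr rfl fun i _ => ?_
  rw [mul_div_assoc, mul_div_assoc]

end lin

section gal

variable (F : Type) [Field F] [NumberField F] [IsGalois ℚ F]

open Classical in
lemma indChar_one (g : F ≃ₐ[ℚ] F) : indChar ℚ F F (fun _ => 1) g =
    if g = 1 then (Nat.card (F ≃ₐ[ℚ] F) : ℂ) else 0 := by
  have hsub : ∀ h : F ≃ₐ[F] F, h = 1 := fun h => by
    ext x
    have := h.commutes x
    simpa using this
  have hc : Nat.card (F ≃ₐ[F] F) = 1 := by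
    rw [Nat.card_eq_one_iff_unique]
    exact ⟨⟨fun a b => by rw [hsub a, hsub b]⟩, ⟨1⟩⟩
  have hr : (1 : F ≃ₐ[F] F).restrictScalars ℚ = 1 := rfl
  have : Fintype (F ≃ₐ[ℚ] F) := Fintype.ofFinite _
  unfold indChar
  rw [hc, Nat.cast_one, inv_one, one_mul]
  have h1 : ∀ x : F ≃ₐ[ℚ] F, (∑ᶠ (h : F ≃ₐ[F] F) (_ : h.restrictScalars ℚ = x⁻¹ * g * x), (1:ℂ)) =
      if g = 1 then 1 else 0 := by
    intro x
    rw [finsum_eq_single _ (1 : F ≃ₐ[F] F) (fun h hh => absurd (hsub h) hh), hr]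
    by_cases hg : g = 1
    · rw [if_pos hg, finsum_eq_single _ (by rw [hg]; group) (fun _ h => absurd rfl h)]
    · rw [if_neg hg]
      refine @finsum_of_isEmpty _ _ _ ⟨fun h => ?_⟩ _
      apply hg
      have h2 := congrArg (fun y => x * y * x⁻¹) h
      simp only [mul_one, mul_inv_cancel] at h2
      rw [show x * (x⁻¹ * g * x) * x⁻¹ = g by group] at h2
      exact h2.symm
  rw [finsum_eq_sum_of_fintype, Finset.sum_congr rfl fun x _ => h1 x, Finset.sum_const, Finset.card_univ,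
    ← Nat.card_eq_fintype_card, nsmul_eq_mul]
  split_ifs <;> simp

/-- `Λ` is the Artin L-function of the character `χ` of `Gal(F/ℚ)`, and it is analytic for `s ≠ 1` -/
def IsArt (χ : (F ≃ₐ[ℚ] F) → ℂ) (Λ : ℂ → ℂ) : Prop :=
  (∀ s : ℂ, s ≠ 1 → AnalyticAt ℂ Λ s) ∧
    ∀ s : ℂ, 1 < s.re → ∃ l : ℂ, HasSum (logTerm ℚ F χ s) l ∧ Λ s = cexp l

variable {F}

lemma art_prod {Z : ((F ≃ₐ[ℚ] F) → ℂ) → ℂ → ℂ} (hZ : ∀ χ ∈ Irr (F ≃ₐ[ℚ] F), IsArt F χ (Z χ)) {s : ℂ} (hs : 1 < s.re) :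
    ∏ χ ∈ irrF (F ≃ₐ[ℚ] F), Z χ s ^ dg χ = LI (triv F) s := by
  classical
  have h1 : ∀ χ ∈ Irr (F ≃ₐ[ℚ] F), ∃ l : ℂ, HasSum (logTerm ℚ F χ s) l ∧ Z χ s = cexp l := fun χ hχ =>
    (hZ χ hχ).2 s hs
  choose! l hl1 hl2 using h1
  have h2 : HasSum (fun x => ∑ χ ∈ irrF (F ≃ₐ[ℚ] F), (dg χ : ℂ) * logTerm ℚ F χ s x)
      (∑ χ ∈ irrF (F ≃ₐ[ℚ] F), (dg χ : ℂ) * l χ) :=
    hasSum_sum fun χ hχ => (hl1 χ (mem_irrF.1 hχ)).mul_left _
  have h3 : HasSum (logTerm ℚ F (indChar ℚ F F (fun _ => 1)) s) (LA (Pool.Agent.Y772.DK.ee (triv F)) s) :=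
    hasSum_ind (K := ℚ) (F := F) (L := F) (hasSum_triv F hs)
  have h4 : (fun x => ∑ χ ∈ irrF (F ≃ₐ[ℚ] F), (dg χ : ℂ) * logTerm ℚ F χ s x) =
      logTerm ℚ F (indChar ℚ F F (fun _ => 1)) s := by
    funext x
    rw [← logTerm_sum (irrF (F ≃ₐ[ℚ] F)) (fun χ => (dg χ : ℂ)) (fun χ => χ) s x]
    congr 1
    funext g
    rw [indChar_one, reg_decomp]
  rw [h4] at h2
  have h5 := h2.unique h3
  rw [LI_eq_exp _ triv_norm hs, ← h5, Complex.exp_sum]
  refine Finset.prod_congr rfl fun χ hχ => ?_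
  rw [hl2 χ (mem_irrF.1 hχ), ← Complex.exp_nat_mul]

lemma art_two {χ : (F ≃ₐ[ℚ] F) → ℂ} {Λ : ℂ → ℂ} (h : IsArt F χ Λ) : Λ 2 ≠ 0 := by
  obtain ⟨l, -, h2⟩ := h.2 2 (by norm_num)
  rw [h2]
  exact Complex.exp_ne_zero _

/-- **the factorization of the zeta function of `F`** -/
theorem art_fact {Z : ((F ≃ₐ[ℚ] F) → ℂ) → ℂ → ℂ} (hZ : ∀ χ ∈ Irr (F ≃ₐ[ℚ] F), IsArt F χ (Z χ)) {s : ℂ} (hs : s ≠ 1) :
    ZD F s = (s - 1) * ∏ χ ∈ irrF (F ≃ₐ[ℚ] F), Z χ s ^ dg χ := by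
  have hU : IsOpen ({1}ᶜ : Set ℂ) := isOpen_compl_singleton
  have hpre : IsPreconnected ({1}ᶜ : Set ℂ) :=
    (isConnected_compl_singleton_of_one_lt_rank (rank_real_complex ▸ Nat.one_lt_ofNat) _).isPreconnected
  have hf : AnalyticOnNhd ℂ (ZD F) ({1}ᶜ : Set ℂ) := fun z _ => (ZD_diff F).analyticAt z
  have hg : AnalyticOnNhd ℂ (fun s => (s - 1) * ∏ χ ∈ irrF (F ≃ₐ[ℚ] F), Z χ s ^ dg χ) ({1}ᶜ : Set ℂ) := by
    intro z hz
    refine AnalyticAt.mul (by fun_prop) ?_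
    exact Finset.analyticAt_fun_prod _ fun χ hχ => ((hZ χ (mem_irrF.1 hχ)).1 z hz).pow _
  have h2 : ZD F =ᶠ[𝓝 (2 : ℂ)] fun s => (s - 1) * ∏ χ ∈ irrF (F ≃ₐ[ℚ] F), Z χ s ^ dg χ := by
    have h1 : {z : ℂ | 1 < z.re} ∈ 𝓝 (2 : ℂ) :=
      (isOpen_lt continuous_const Complex.continuous_re).mem_nhds (by norm_num)
    filter_upwards [h1] with z hz
    rw [ZD_LI F hz, art_prod hZ hz]
  exact hf.eqOn_of_preconnected_of_eventuallyEq hg hpre (by
    show (2 : ℂ) ≠ 1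
    norm_num) h2 hs

end gal

end Pool.Agent.U544.LI
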