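import Pool.Agent.U544.LI.Crit

/-!
# The change of variable `x = e^u`
-/

set_option autoImplicit false

open Filter Topology Finset MeasureTheory Set
open scoped Nat

namespace Pool.Agent.U544.LI

variable {f : ℂ → ℂ} {L : ℕ → ℝ} {δ : ℝ}

/-- the Bessel function `I_0` -/
noncomputable def I0 (x : ℝ) : ℝ := ∑' k : ℕ, ((x / 2) ^ k / (k)!) ^ 2

/-- the logarithmic mean over `[1, X]` -/
noncomputable def logMean (g : ℝ → ℝ) (X : ℝ) : ℝ := (∫ x in (1:ℝ)..X, g x / x) / Real.log X

lemma J0_I0 (a : ℝ) : J0 a = I0 (2 * a) := by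
  unfold J0 I0
  refine tsum_congr fun n => ?_
  rw [mul_div_cancel_left₀ a two_ne_zero]

lemma exp_min {n : ℕ} (hn : 0 < n) {x : ℝ} (hx : 0 < x) :
    Real.exp (-|Real.log x - Real.log n|) = min (n / x) (x / n) := by
  have hn' : (0:ℝ) < n := by exact_mod_cast hn
  have e1 : n / x = Real.exp (-(Real.log x - Real.log n)) := by
    rw [neg_sub, Real.exp_sub, Real.exp_log hn', Real.exp_log hx]
  have e2 : x / n = Real.exp (Real.log x - Real.log n) := by
    rw [Real.exp_sub, Real.exp_log hn', Real.exp_log hx]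
  rw [e1, e2]
  rcases le_total 0 (Real.log x - Real.log n) with h | h
  · rw [abs_of_nonneg h, min_eq_left (Real.exp_le_exp.2 (by linarith))]
  · rw [abs_of_nonpos h, neg_neg, min_eq_right (Real.exp_le_exp.2 (by linarith))]

lemma SS_log (h0 : L 0 = 0) {x : ℝ} (hx : 0 < x) :
    SS L (Real.log x) = ∑' n : ℕ, L n / √n * min (n / x) (x / n) := by
  unfold SS
  refine tsum_congr fun n => ?_
  rcases Nat.eq_zero_or_pos n with rfl | hn
  · simp [h0]
  · rw [exp_min hn hx]

lemma Dd_log (h0 : L 0 = 0) {x : ℝ} (hx : 0 < x) :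
    Dd L δ (Real.log x) = 8 / 3 * δ * √x - ∑' n : ℕ, L n / √n * min (n / x) (x / n) := by
  unfold Dd
  rw [SS_log h0 hx]
  congr 2
  rw [Real.sqrt_eq_rpow, Real.rpow_def_of_pos hx]
  congr 1
  ring

lemma logMean_eq (h : LD f L δ) {D : ℝ → ℝ} (hD : ∀ x, 0 < x → D x = Dd L δ (Real.log x)) (lam : ℝ) {X : ℝ}
    (hX : 1 < X) : logMean (fun x => Real.exp (lam * D x)) X =
      mean (fun u => Real.exp (lam * Dd L δ u)) (Real.log X) := by
  unfold logMean mean
  congr 1
  have hc : Continuous fun u => Real.exp (lam * Dd L δ u) := by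
    have := Dd_cont h
    fun_prop
  have h1 := intervalIntegral.integral_comp_mul_deriv (a := 1) (b := X) (f := Real.log) (f' := fun x => x⁻¹)
    (g := fun u => Real.exp (lam * Dd L δ u)) (fun x hx => by
      rw [uIcc_of_le hX.le] at hx
      exact Real.hasDerivAt_log (by linarith [hx.1])) (by
      refine ContinuousOn.inv₀ continuousOn_id fun x hx => ?_
      rw [uIcc_of_le hX.le] at hx
      exact (show (0:ℝ) < x by linarith [hx.1]).ne') hc
  rw [Real.log_one] at h1
  rw [← h1]
  refine intervalIntegral.integral_congr fun x hx => ?_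
  rw [uIcc_of_le hX.le] at hx
  have hx0 : 0 < x := by linarith [hx.1]
  simp only [Function.comp_apply]
  rw [hD x hx0, div_eq_mul_inv]

/-- the two mean values -/
lemma bridge (h : LD f L δ) {D : ℝ → ℝ} (hD : ∀ x, 0 < x → D x = Dd L δ (Real.log x)) (lam E : ℝ) :
    Tendsto (logMean fun x => Real.exp (lam * D x)) atTop (𝓝 E) ↔
      Tendsto (mean fun u => Real.exp (lam * Dd L δ u)) atTop (𝓝 E) := by
  constructor
  · intro h1
    refine (h1.comp Real.tendsto_exp_atTop).congr' ?_
    filter_upwards [eventually_gt_atTop 0] with U hU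
    rw [Function.comp_apply, logMean_eq h hD lam (Real.one_lt_exp_iff.2 hU), Real.log_exp]
  · intro h1
    refine (h1.comp Real.tendsto_log_atTop).congr' ?_
    filter_upwards [eventually_gt_atTop 1] with X hX
    rw [Function.comp_apply, logMean_eq h hD lam hX]

lemma PP_tprod {ι : Type*} {a : ι → ℝ} (hs : Summable fun i => Real.log (J0 (a i))) :
    (Multipliable fun i => I0 (2 * a i)) ∧ PP a = ∏' i, I0 (2 * a i) := by
  have hpos : ∀ i, 0 < J0 (a i) := fun i => by linarith [one_le_J0 (a i)]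
  have e : (fun i => I0 (2 * a i)) = fun i => J0 (a i) := by
    funext i
    rw [J0_I0]
  rw [e]
  refine ⟨Real.multipliable_of_summable_log hpos hs, ?_⟩
  unfold PP
  rw [Real.rexp_tsum_eq_tprod hpos hs]

end Pool.Agent.U544.LI
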