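import Pool.Agent.U544.LI.Crit

/-!
# Averages over arithmetic progressions
-/

set_option autoImplicit false

open Filter Topology MeasureTheory Finset

namespace Pool.Agent.U544.LI

/-- the average over the points `h, 2h, ..., Kh` -/
noncomputable def comb (f : ℝ → ℝ) (h : ℝ) (K : ℕ) : ℝ := (∑ k ∈ range K, f (h * (k + 1))) / K

lemma comb_add (f g : ℝ → ℝ) (h : ℝ) (K : ℕ) : comb (fun u => f u + g u) h K = comb f h K + comb g h K := by
  unfold comb
  rw [Finset.sum_add_distrib, add_div]

lemma comb_zero {f : ℝ → ℝ} (hf : Tendsto f atTop (𝓝 0)) {h : ℝ} (hh : 0 < h) : Tendsto (comb f h) atTop (𝓝 0) := by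
  have h1 : Tendsto (fun k : ℕ => f (h * (k + 1))) atTop (𝓝 0) := by
    refine hf.comp ?_
    refine Tendsto.const_mul_atTop hh ?_
    exact tendsto_atTop_add_const_right _ _ tendsto_natCast_atTop_atTop
  have h2 := h1.cesaro
  refine h2.congr fun K => ?_
  unfold comb
  rw [div_eq_inv_mul]

/-- `g` is a frequency of the progression of step `h` -/
def InAP (h g : ℝ) : Prop := ∃ m : ℤ, g * h = 2 * Real.pi * m

lemma comb_cos_in {h g : ℝ} (hg : InAP h g) : Tendsto (comb (fun u => Real.cos (g * u)) h) atTop (𝓝 1) := by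
  obtain ⟨m, hm⟩ := hg
  refine tendsto_const_nhds.congr' ?_
  filter_upwards [eventually_gt_atTop 0] with K hK
  unfold comb
  have h1 : ∀ k ∈ range K, Real.cos (g * (h * ((k : ℝ) + 1))) = 1 := by
    intro k _
    rw [← mul_assoc, hm]
    have e : 2 * Real.pi * (m : ℝ) * ((k : ℝ) + 1) = ((m * ((k : ℤ) + 1) : ℤ) : ℝ) * (2 * Real.pi) := by
      push_cast
      ring
    rw [e]
    exact Real.cos_int_mul_two_pi _
  rw [Finset.sum_congr rfl h1, Finset.sum_const, card_range, nsmul_eq_mul, mul_one, div_self]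
  exact_mod_cast hK.ne'

lemma comb_cos_out {h g : ℝ} (hg : ¬InAP h g) : Tendsto (comb (fun u => Real.cos (g * u)) h) atTop (𝓝 0) := by
  have hs : Real.sin (g * h / 2) ≠ 0 := by
    intro h1
    rw [Real.sin_eq_zero_iff] at h1
    obtain ⟨m, hm⟩ := h1
    exact hg ⟨m, by linarith⟩
  have key : ∀ K : ℕ, (∑ k ∈ range K, Real.cos (g * (h * ((k : ℝ) + 1)))) * (2 * Real.sin (g * h / 2)) =
      Real.sin (g * h * (K + 1 / 2)) - Real.sin (g * h / 2) := by
    intro K
    induction K with
    | zero =>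
      have e : g * h * (((0 : ℕ) : ℝ) + 1 / 2) = g * h / 2 := by push_cast; ring
      rw [e]
      simp
    | succ K ih =>
      rw [Finset.sum_range_succ, add_mul, ih]
      have e1 : g * h * (((K + 1 : ℕ) : ℝ) + 1 / 2) = g * (h * ((K : ℝ) + 1)) + g * h / 2 := by push_cast; ring
      have e2 : g * h * ((K : ℝ) + 1 / 2) = g * (h * ((K : ℝ) + 1)) - g * h / 2 := by ring
      rw [e1, e2, Real.sin_add, Real.sin_sub]
      ring
  have hb : ∀ K : ℕ, |∑ k ∈ range K, Real.cos (g * (h * ((k : ℝ) + 1)))| ≤ 1 / |Real.sin (g * h / 2)| := by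
    intro K
    rw [le_div_iff₀ (abs_pos.2 hs)]
    have h1 := congrArg abs (key K)
    rw [abs_mul, abs_mul, abs_two] at h1
    have h2 : |Real.sin (g * h * (K + 1 / 2)) - Real.sin (g * h / 2)| ≤ 2 := by
      refine (abs_sub _ _).trans ?_
      linarith [Real.abs_sin_le_one (g * h * (K + 1 / 2)), Real.abs_sin_le_one (g * h / 2)]
    rw [← h1] at h2
    linarith
  refine squeeze_zero_norm (a := fun K : ℕ => 1 / |Real.sin (g * h / 2)| / K) (fun K => ?_) ?_
  · unfold comb
    rw [norm_div, Real.norm_natCast, Real.norm_eq_abs]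
    exact div_le_div_of_nonneg_right (hb K) (Nat.cast_nonneg _)
  · exact tendsto_const_nhds.div_atTop tendsto_natCast_atTop_atTop

/-- a series of cosines -/
noncomputable def CS {ι : Type*} (c γ : ι → ℝ) (u : ℝ) : ℝ := ∑' i, c i * Real.cos (γ i * u)

section series

variable {ι : Type*} {c γ : ι → ℝ}

lemma CS_summ (hc : Summable fun i => |c i|) (u : ℝ) : Summable fun i => c i * Real.cos (γ i * u) := by
  refine Summable.of_norm_bounded hc fun i => ?_
  rw [norm_mul, Real.norm_eq_abs]
  exact mul_le_of_le_one_right (abs_nonneg _) (Real.abs_cos_le_one _)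

lemma CS_cont (hc : Summable fun i => |c i|) : Continuous (CS c γ) := by
  unfold CS
  refine continuous_tsum (fun i => by fun_prop) hc fun i u => ?_
  rw [norm_mul, Real.norm_eq_abs]
  exact mul_le_of_le_one_right (abs_nonneg _) (Real.abs_cos_le_one _)

open Classical in
/-- the average of a series of cosines over a progression -/
lemma comb_CS (hc : Summable fun i => |c i|) (h : ℝ) :
    Tendsto (comb (CS c γ) h) atTop (𝓝 (∑' i, if InAP h (γ i) then c i else 0)) := by
  have e : ∀ K : ℕ, comb (CS c γ) h K = ∑' i, c i * comb (fun u => Real.cos (γ i * u)) h K := by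
    intro K
    unfold comb CS
    rw [← Summable.tsum_finsetSum fun k _ => CS_summ hc _, ← tsum_div_const]
    refine tsum_congr fun i => ?_
    rw [← Finset.mul_sum, mul_div_assoc]
  have h1 : Tendsto (fun K : ℕ => ∑' i, c i * comb (fun u => Real.cos (γ i * u)) h K) atTop
      (𝓝 (∑' i, if InAP h (γ i) then c i else 0)) := by
    refine tendsto_tsum_of_dominated_convergence (bound := fun i => |c i|) hc (fun i => ?_)
      (Eventually.of_forall fun K i => ?_)
    · by_cases hi : InAP h (γ i)
      · rw [if_pos hi]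
        have := (comb_cos_in hi).const_mul (c i)
        rwa [mul_one] at this
      · rw [if_neg hi]
        have := (comb_cos_out hi).const_mul (c i)
        rwa [mul_zero] at this
    · rw [norm_mul, Real.norm_eq_abs]
      refine mul_le_of_le_one_right (abs_nonneg _) ?_
      unfold comb
      rw [norm_div, Real.norm_natCast]
      refine div_le_one_of_le₀ ?_ (Nat.cast_nonneg _)
      refine (norm_sum_le _ _).trans ?_
      calc ∑ k ∈ range K, ‖Real.cos (γ i * (h * ((k : ℝ) + 1)))‖ ≤ ∑ _k ∈ range K, (1 : ℝ) :=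
            Finset.sum_le_sum fun k _ => Real.abs_cos_le_one _
        _ = K := by simp
  exact h1.congr fun K => (e K).symm

end series

/-- the average over a window of radius `r` -/
noncomputable def Av (r : ℝ) (f : ℝ → ℝ) (u : ℝ) : ℝ := (∫ v in (u - r)..(u + r), f v) / (2 * r)

lemma Av_cont {r : ℝ} {f : ℝ → ℝ} (hf : Continuous f) : Continuous (Av r f) := by
  have h1 : Continuous fun u : ℝ => ∫ v in (0:ℝ)..u, f v :=
    intervalIntegral.continuous_primitive (fun a b => hf.intervalIntegrable a b) 0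
  have e : Av r f = fun u => ((∫ v in (0:ℝ)..(u + r), f v) - ∫ v in (0:ℝ)..(u - r), f v) / (2 * r) := by
    funext u
    unfold Av
    rw [intervalIntegral.integral_interval_sub_left (hf.intervalIntegrable _ _) (hf.intervalIntegrable _ _)]
  rw [e]
  have h2 : Continuous fun u : ℝ => ∫ v in (0:ℝ)..(u + r), f v := h1.comp (by fun_prop)
  have h3 : Continuous fun u : ℝ => ∫ v in (0:ℝ)..(u - r), f v := h1.comp (by fun_prop)
  exact (h2.sub h3).div_const _

lemma Av_sub {r : ℝ} {f g : ℝ → ℝ} (hf : Continuous f) (hg : Continuous g) (u : ℝ) :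
    Av r (fun u => f u - g u) u = Av r f u - Av r g u := by
  unfold Av
  rw [intervalIntegral.integral_sub (hf.intervalIntegrable _ _) (hg.intervalIntegrable _ _), sub_div]

lemma Av_zero {r : ℝ} (hr : 0 < r) {f : ℝ → ℝ} (h0 : Tendsto f atTop (𝓝 0)) :
    Tendsto (Av r f) atTop (𝓝 0) := by
  rw [Metric.tendsto_atTop]
  intro ε hε
  obtain ⟨T, hT⟩ := (Metric.tendsto_atTop.1 h0) (ε / 2) (by positivity)
  refine ⟨T + r, fun u hu => ?_⟩
  rw [Real.dist_eq, sub_zero]
  unfold Av
  have h1 : ‖∫ v in (u - r)..(u + r), f v‖ ≤ ε / 2 * |u + r - (u - r)| := by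
    refine intervalIntegral.norm_integral_le_of_norm_le_const fun v hv => ?_
    rw [Set.uIoc_of_le (by linarith)] at hv
    have := hT v (by linarith [hv.1])
    rw [Real.dist_eq, sub_zero] at this
    exact this.le
  have e : |u + r - (u - r)| = 2 * r := by
    rw [abs_of_pos] <;> linarith
  rw [e] at h1
  rw [abs_div, abs_of_pos (show (0:ℝ) < 2 * r by linarith), div_lt_iff₀ (by linarith)]
  have h2 : |∫ v in (u - r)..(u + r), f v| ≤ ε / 2 * (2 * r) := h1
  nlinarith

lemma Av_cos {r g : ℝ} (hr : 0 < r) (hg : 0 < g) (u : ℝ) :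
    Av r (fun v => Real.cos (g * v)) u = Real.sin (r * g) / (r * g) * Real.cos (g * u) := by
  unfold Av
  rw [intervalIntegral.integral_comp_mul_left (fun x => Real.cos x) hg.ne', integral_cos, smul_eq_mul]
  have e : Real.sin (g * (u + r)) - Real.sin (g * (u - r)) = 2 * Real.sin (r * g) * Real.cos (g * u) := by
    have e1 : g * (u + r) = g * u + r * g := by ring
    have e2 : g * (u - r) = g * u - r * g := by ring
    rw [e1, e2, Real.sin_add, Real.sin_sub]
    ring
  rw [e]
  field_simp

lemma Av_CS {ι : Type*} [Countable ι] {c γ : ι → ℝ} {r : ℝ} (hr : 0 < r) (hγ : ∀ i, 0 < γ i) (hc : Summable fun i => |c i|)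
    (u : ℝ) : Av r (CS c γ) u = CS (fun i => c i * (Real.sin (r * γ i) / (r * γ i))) γ u := by
  have h1 := intervalIntegral.hasSum_integral_of_dominated_convergence (μ := volume) (a := u - r) (b := u + r)
    (F := fun i : ι => fun v : ℝ => c i * Real.cos (γ i * v)) (f := CS c γ)
    (fun i _ => |c i|) (fun i => (Continuous.aestronglyMeasurable (by fun_prop)))
    (fun i => Eventually.of_forall fun v _ => by
      rw [norm_mul, Real.norm_eq_abs]
      exact mul_le_of_le_one_right (abs_nonneg _) (Real.abs_cos_le_one _))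
    (Eventually.of_forall fun v _ => hc)
    (by exact intervalIntegrable_const)
    (Eventually.of_forall fun v _ => (CS_summ hc v).hasSum)
  unfold Av
  rw [← h1.tsum_eq, ← tsum_div_const]
  unfold CS
  refine tsum_congr fun i => ?_
  rw [intervalIntegral.integral_const_mul, mul_div_assoc]
  have h2 := Av_cos hr (hγ i) u
  unfold Av at h2
  rw [h2]
  ring

/-- the iterated averages -/
noncomputable def AvN (r : ℝ) (f : ℝ → ℝ) : ℕ → ℝ → ℝ
  | 0 => f
  | n + 1 => Av r (AvN r f n)

lemma AvN_cont {r : ℝ} {f : ℝ → ℝ} (hf : Continuous f) : ∀ n, Continuous (AvN r f n)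
  | 0 => hf
  | n + 1 => Av_cont (AvN_cont hf n)

lemma sinc_le {x : ℝ} (hx : 0 < x) : |Real.sin x / x| ≤ 1 := by
  rw [abs_div, abs_of_pos hx, div_le_one hx]
  exact Real.abs_sin_le_abs.trans_eq (abs_of_pos hx)

lemma pow_summ {ι : Type*} {c γ : ι → ℝ} {r : ℝ} (hr : 0 < r) (hγ : ∀ i, 0 < γ i) (hc : Summable fun i => |c i|)
    (n : ℕ) : Summable fun i => |c i * (Real.sin (r * γ i) / (r * γ i)) ^ n| := by
  refine Summable.of_norm_bounded hc fun i => ?_
  rw [norm_abs_eq_norm, norm_mul, Real.norm_eq_abs]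
  refine mul_le_of_le_one_right (abs_nonneg _) ?_
  rw [norm_pow]
  exact pow_le_one₀ (norm_nonneg _) (sinc_le (mul_pos hr (hγ i)))

/-- the iterated averages of an asymptotically almost periodic function -/
lemma AvN_asym {ι : Type*} [Countable ι] {c γ : ι → ℝ} {r : ℝ} (hr : 0 < r) (hγ : ∀ i, 0 < γ i) (hc : Summable fun i => |c i|)
    {f : ℝ → ℝ} (hf : Continuous f) (h0 : Tendsto (fun u => f u - CS c γ u) atTop (𝓝 0)) : ∀ n : ℕ,
    Tendsto (fun u => AvN r f n u - CS (fun i => c i * (Real.sin (r * γ i) / (r * γ i)) ^ n) γ u) atTop (𝓝 0)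
  | 0 => by
    refine h0.congr fun u => ?_
    simp [AvN]
  | n + 1 => by
    have h1 := AvN_asym hr hγ hc hf h0 n
    have h2 := Av_zero hr h1
    refine h2.congr fun u => ?_
    rw [Av_sub (AvN_cont hf n) (CS_cont (pow_summ hr hγ hc n)), Av_CS hr hγ (pow_summ hr hγ hc n)]
    show Av r (AvN r f n) u - _ = Av r (AvN r f n) u - _
    congr 1
    unfold CS
    refine tsum_congr fun i => ?_
    simp only [pow_succ]
    ring

open Classical in
/-- **the averages over a progression** -/
theorem comb_AvN {ι : Type*} [Countable ι] {c γ : ι → ℝ} {r : ℝ} (hr : 0 < r) (hγ : ∀ i, 0 < γ i) (hc : Summable fun i => |c i|)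
    {f : ℝ → ℝ} (hf : Continuous f) (h0 : Tendsto (fun u => f u - CS c γ u) atTop (𝓝 0)) (n : ℕ) {h : ℝ}
    (hh : 0 < h) : Tendsto (comb (AvN r f n) h) atTop
      (𝓝 (∑' i, if InAP h (γ i) then c i * (Real.sin (r * γ i) / (r * γ i)) ^ n else 0)) := by
  have h1 := comb_zero (AvN_asym hr hγ hc hf h0 n) hh
  have h2 := comb_CS (γ := γ) (pow_summ hr hγ hc n) h
  have h3 := h1.add h2
  rw [zero_add] at h3
  refine h3.congr fun K => ?_
  rw [← comb_add]
  congr 1
  funext u
  ring

end Pool.Agent.U544.LI
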