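import Pool.Agent.U544.LI.Comb

/-!
# Averages over arithmetic progressions with a phase, and isolating a frequency
-/

set_option autoImplicit false

open Filter Topology MeasureTheory Finset

namespace Pool.Agent.U544.LI

open Classical in
lemma comb_phase (h g φ : ℝ) : Tendsto (comb (fun u => Real.cos (g * u + φ)) h) atTop
    (𝓝 (if InAP h g then Real.cos φ else 0)) := by
  by_cases hg : InAP h g
  · rw [if_pos hg]
    obtain ⟨m, hm⟩ := hg
    refine tendsto_const_nhds.congr' ?_
    filter_upwards [eventually_gt_atTop 0] with K hK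
    unfold comb
    have h1 : ∀ k ∈ range K, Real.cos (g * (h * ((k : ℝ) + 1)) + φ) = Real.cos φ := by
      intro k _
      have e : g * (h * ((k : ℝ) + 1)) + φ = φ + ((m * ((k : ℤ) + 1) : ℤ) : ℝ) * (2 * Real.pi) := by
        push_cast
        linear_combination ((k : ℝ) + 1) * hm
      rw [e, Real.cos_add_int_mul_two_pi]
    rw [Finset.sum_congr rfl h1, Finset.sum_const, card_range, nsmul_eq_mul, mul_div_cancel_left₀]
    exact_mod_cast hK.ne'
  · rw [if_neg hg]
    have hs : Real.sin (g * h / 2) ≠ 0 := by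
      intro h1
      rw [Real.sin_eq_zero_iff] at h1
      obtain ⟨m, hm⟩ := h1
      exact hg ⟨m, by linarith⟩
    have key : ∀ K : ℕ, (∑ k ∈ range K, Real.cos (g * (h * ((k : ℝ) + 1)) + φ)) * (2 * Real.sin (g * h / 2)) =
        Real.sin (g * h * (K + 1 / 2) + φ) - Real.sin (g * h / 2 + φ) := by
      intro K
      induction K with
      | zero =>
        have e : g * h * (((0 : ℕ) : ℝ) + 1 / 2) = g * h / 2 := by push_cast; ring
        rw [e]
        simp
      | succ K ih =>
        rw [Finset.sum_range_succ, add_mul, ih]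
        have e1 : g * h * (((K + 1 : ℕ) : ℝ) + 1 / 2) + φ = (g * (h * ((K : ℝ) + 1)) + φ) + g * h / 2 := by
          push_cast; ring
        have e2 : g * h * ((K : ℝ) + 1 / 2) + φ = (g * (h * ((K : ℝ) + 1)) + φ) - g * h / 2 := by ring
        rw [e1, e2, Real.sin_add (g * (h * ((K : ℝ) + 1)) + φ), Real.sin_sub (g * (h * ((K : ℝ) + 1)) + φ)]
        ring
    have hb : ∀ K : ℕ, |∑ k ∈ range K, Real.cos (g * (h * ((k : ℝ) + 1)) + φ)| ≤ 1 / |Real.sin (g * h / 2)| := by
      intro K
      rw [le_div_iff₀ (abs_pos.2 hs)]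
      have h1 := congrArg abs (key K)
      rw [abs_mul, abs_mul, abs_two] at h1
      have h2 : |Real.sin (g * h * (K + 1 / 2) + φ) - Real.sin (g * h / 2 + φ)| ≤ 2 := by
        refine (abs_sub _ _).trans ?_
        linarith [Real.abs_sin_le_one (g * h * (K + 1 / 2) + φ), Real.abs_sin_le_one (g * h / 2 + φ)]
      rw [← h1] at h2
      linarith
    refine squeeze_zero_norm (a := fun K : ℕ => 1 / |Real.sin (g * h / 2)| / K) (fun K => ?_) ?_
    · unfold comb
      rw [norm_div, Real.norm_natCast, Real.norm_eq_abs]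
      exact div_le_div_of_nonneg_right (hb K) (Nat.cast_nonneg _)
    · exact tendsto_const_nhds.div_atTop tendsto_natCast_atTop_atTop

section

variable {ι : Type*} {c γ : ι → ℝ}

open Classical in
/-- the average of a series of cosines over a shifted progression -/
lemma comb_shift (hc : Summable fun i => |c i|) (h u : ℝ) :
    Tendsto (comb (fun v => CS c γ (u + v)) h) atTop
      (𝓝 (∑' i, if InAP h (γ i) then c i * Real.cos (γ i * u) else 0)) := by
  have e : ∀ K : ℕ, comb (fun v => CS c γ (u + v)) h K =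
      ∑' i, c i * comb (fun v => Real.cos (γ i * v + γ i * u)) h K := by
    intro K
    unfold comb CS
    rw [← Summable.tsum_finsetSum fun k _ => CS_summ hc _, ← tsum_div_const]
    refine tsum_congr fun i => ?_
    rw [← Finset.mul_sum, mul_div_assoc]
    congr 2
    refine Finset.sum_congr rfl fun k _ => ?_
    congr 1
    ring
  have h1 : Tendsto (fun K : ℕ => ∑' i, c i * comb (fun v => Real.cos (γ i * v + γ i * u)) h K) atTop
      (𝓝 (∑' i, if InAP h (γ i) then c i * Real.cos (γ i * u) else 0)) := by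
    refine tendsto_tsum_of_dominated_convergence (bound := fun i => |c i|) hc (fun i => ?_)
      (Eventually.of_forall fun K i => ?_)
    · have h2 := (comb_phase h (γ i) (γ i * u)).const_mul (c i)
      rwa [mul_ite, mul_zero] at h2
    · rw [norm_mul, Real.norm_eq_abs]
      refine mul_le_of_le_one_right (abs_nonneg _) ?_
      unfold comb
      rw [norm_div, Real.norm_natCast]
      refine div_le_one_of_le₀ ?_ (Nat.cast_nonneg _)
      refine (norm_sum_le _ _).trans ?_
      calc ∑ k ∈ range K, ‖Real.cos (γ i * (h * ((k : ℝ) + 1)) + γ i * u)‖ ≤ ∑ _k ∈ range K, (1 : ℝ) :=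
            Finset.sum_le_sum fun k _ => Real.abs_cos_le_one _
        _ = K := by simp
  exact h1.congr fun K => (e K).symm

end

/-- the integral of `cos (ω v)` over `[-r, r]`, divided by `r` -/
noncomputable def Wc (ω r : ℝ) : ℝ := (∫ v in (-r)..r, Real.cos (ω * v)) / r

lemma Wc_zero {r : ℝ} (hr : 0 < r) : Wc 0 r = 2 := by
  unfold Wc
  simp only [zero_mul, Real.cos_zero, intervalIntegral.integral_const, smul_eq_mul, mul_one]
  field_simp
  ring

lemma Wc_ne {ω r : ℝ} (hω : ω ≠ 0) : Wc ω r = 2 * Real.sin (ω * r) / ω / r := by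
  unfold Wc
  rw [intervalIntegral.integral_comp_mul_left (fun x => Real.cos x) hω, integral_cos, smul_eq_mul, mul_neg,
    Real.sin_neg]
  congr 1
  field_simp
  ring

lemma Wc_le {ω r : ℝ} (hr : 0 < r) : |Wc ω r| ≤ 2 := by
  unfold Wc
  rw [abs_div, abs_of_pos hr, div_le_iff₀ hr]
  have h1 : ‖∫ v in (-r)..r, Real.cos (ω * v)‖ ≤ 1 * |r - (-r)| :=
    intervalIntegral.norm_integral_le_of_norm_le_const fun v _ => Real.abs_cos_le_one _
  rw [one_mul, Real.norm_eq_abs] at h1
  have e : |r - (-r)| = 2 * r := by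
    rw [abs_of_pos] <;> linarith
  rwa [e] at h1

lemma Wc_tendsto {ω : ℝ} (hω : ω ≠ 0) : Tendsto (Wc ω) atTop (𝓝 0) := by
  have h1 : Tendsto (fun r : ℝ => 2 / |ω| / r) atTop (𝓝 0) := tendsto_const_nhds.div_atTop tendsto_id
  refine squeeze_zero_norm' ?_ h1
  filter_upwards [eventually_gt_atTop 0] with r hr
  rw [Wc_ne hω, norm_div, norm_div, Real.norm_of_nonneg hr.le, Real.norm_eq_abs, Real.norm_eq_abs, abs_mul, abs_two]
  refine div_le_div_of_nonneg_right (div_le_div_of_nonneg_right ?_ (abs_nonneg _)) hr.le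
  have := Real.abs_sin_le_one (ω * r)
  linarith

/-- the coefficient -/
noncomputable def kap (g r γ : ℝ) : ℝ := (Wc (γ - g) r + Wc (γ + g) r) / 2

lemma kap_le {g r γ : ℝ} (hr : 0 < r) : |kap g r γ| ≤ 2 := by
  unfold kap
  rw [abs_div, abs_two, div_le_iff₀ two_pos]
  have := abs_add_le (Wc (γ - g) r) (Wc (γ + g) r)
  have h1 := Wc_le (ω := γ - g) hr
  have h2 := Wc_le (ω := γ + g) hr
  linarith

lemma kap_ne {g γ : ℝ} (hg : 0 < g) (hγ : 0 < γ) (hne : γ ≠ g) : Tendsto (fun r => kap g r γ) atTop (𝓝 0) := by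
  have h1 := ((Wc_tendsto (sub_ne_zero.2 hne)).add (Wc_tendsto (ω := γ + g) (by positivity))).div_const 2
  simpa [kap] using h1

lemma kap_self {g : ℝ} (hg : 0 < g) : Tendsto (fun r => kap g r g) atTop (𝓝 1) := by
  have h1 : Tendsto (fun r => Wc (g - g) r) atTop (𝓝 2) := by
    refine tendsto_const_nhds.congr' ?_
    filter_upwards [eventually_gt_atTop 0] with r hr
    rw [sub_self, Wc_zero hr]
  have h2 := (h1.add (Wc_tendsto (ω := g + g) (by positivity))).div_const 2
  have e : ((2:ℝ) + 0) / 2 = 1 := by norm_num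
  rwa [e] at h2

/-- the twisted local average -/
noncomputable def Tw (g r : ℝ) (f : ℝ → ℝ) (u : ℝ) : ℝ := (∫ v in (-r)..r, f (u + v) * Real.cos (g * v)) / r

lemma Tw_cos {g r γ : ℝ} (u : ℝ) : Tw g r (fun v => Real.cos (γ * v)) u = kap g r γ * Real.cos (γ * u) := by
  unfold Tw kap Wc
  have h1 : ∀ v : ℝ, Real.cos (γ * (u + v)) * Real.cos (g * v) =
      Real.cos (γ * u) * ((Real.cos ((γ - g) * v) + Real.cos ((γ + g) * v)) / 2) -
      Real.sin (γ * u) * (Real.sin (γ * v) * Real.cos (g * v)) := by
    intro v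
    have e1 : γ * (u + v) = γ * u + γ * v := by ring
    have e2 : (γ - g) * v = γ * v - g * v := by ring
    have e3 : (γ + g) * v = γ * v + g * v := by ring
    rw [e1, e2, e3, Real.cos_add, Real.cos_add, Real.cos_sub]
    ring
  have hodd : ∫ v in (-r)..r, Real.sin (γ * v) * Real.cos (g * v) = 0 := by
    have h2 := intervalIntegral.integral_comp_neg (a := -r) (b := r)
      (fun v => Real.sin (γ * v) * Real.cos (g * v))
    rw [neg_neg] at h2
    have h3 : (∫ v in (-r)..r, Real.sin (γ * -v) * Real.cos (g * -v)) =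
        -∫ v in (-r)..r, Real.sin (γ * v) * Real.cos (g * v) := by
      rw [← intervalIntegral.integral_neg]
      refine intervalIntegral.integral_congr fun v _ => ?_
      simp only [mul_neg, Real.sin_neg, Real.cos_neg]
      ring
    rw [h3] at h2
    linarith
  simp only [h1]
  rw [intervalIntegral.integral_sub (Continuous.intervalIntegrable (by fun_prop) _ _)
    (Continuous.intervalIntegrable (by fun_prop) _ _), intervalIntegral.integral_const_mul,
    intervalIntegral.integral_const_mul, hodd, intervalIntegral.integral_div,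
    intervalIntegral.integral_add (Continuous.intervalIntegrable (by fun_prop) _ _)
    (Continuous.intervalIntegrable (by fun_prop) _ _)]
  ring

lemma Tw_sub {g r : ℝ} {f k : ℝ → ℝ} (hf : Continuous f) (hk : Continuous k) (u : ℝ) :
    Tw g r (fun u => f u - k u) u = Tw g r f u - Tw g r k u := by
  unfold Tw
  simp only [sub_mul]
  rw [intervalIntegral.integral_sub (Continuous.intervalIntegrable (by fun_prop) _ _)
    (Continuous.intervalIntegrable (by fun_prop) _ _), sub_div]

lemma Tw_zero {g r : ℝ} (hr : 0 < r) {f : ℝ → ℝ} (h0 : Tendsto f atTop (𝓝 0)) : Tendsto (Tw g r f) atTop (𝓝 0) := by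
  rw [Metric.tendsto_atTop]
  intro ε hε
  obtain ⟨T, hT⟩ := (Metric.tendsto_atTop.1 h0) (ε / 4) (by positivity)
  refine ⟨T + r, fun u hu => ?_⟩
  rw [Real.dist_eq, sub_zero]
  unfold Tw
  have h1 : ‖∫ v in (-r)..r, f (u + v) * Real.cos (g * v)‖ ≤ ε / 4 * |r - (-r)| := by
    refine intervalIntegral.norm_integral_le_of_norm_le_const fun v hv => ?_
    rw [Set.uIoc_of_le (by linarith)] at hv
    have h2 := hT (u + v) (by linarith [hv.1])
    rw [Real.dist_eq, sub_zero] at h2
    rw [norm_mul]
    exact (mul_le_of_le_one_right (norm_nonneg _) (Real.abs_cos_le_one _)).trans h2.le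
  have e : |r - (-r)| = 2 * r := by
    rw [abs_of_pos] <;> linarith
  rw [e] at h1
  rw [abs_div, abs_of_pos hr, div_lt_iff₀ hr]
  have h2 : |∫ v in (-r)..r, f (u + v) * Real.cos (g * v)| ≤ ε / 4 * (2 * r) := h1
  nlinarith

section

variable {ι : Type*} [Countable ι] {c γ : ι → ℝ}

omit [Countable ι] in
lemma kap_summ {g r : ℝ} (hr : 0 < r) (hc : Summable fun i => |c i|) :
    Summable fun i => |c i * kap g r (γ i)| := by
  refine Summable.of_norm_bounded (hc.mul_left 2) fun i => ?_
  rw [norm_abs_eq_norm, norm_mul, Real.norm_eq_abs, mul_comm]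
  exact mul_le_mul_of_nonneg_right (kap_le hr) (abs_nonneg _)

lemma Tw_CS {g r : ℝ} (hc : Summable fun i => |c i|) (u : ℝ) :
    Tw g r (CS c γ) u = CS (fun i => c i * kap g r (γ i)) γ u := by
  have h1 := intervalIntegral.hasSum_integral_of_dominated_convergence (μ := volume) (a := -r) (b := r)
    (F := fun i : ι => fun v : ℝ => c i * (Real.cos (γ i * (u + v)) * Real.cos (g * v)))
    (f := fun v => CS c γ (u + v) * Real.cos (g * v))
    (fun i _ => |c i|) (fun i => (Continuous.aestronglyMeasurable (by fun_prop)))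
    (fun i => Eventually.of_forall fun v _ => by
      rw [norm_mul, Real.norm_eq_abs, norm_mul]
      refine mul_le_of_le_one_right (abs_nonneg _) ?_
      exact mul_le_one₀ (Real.abs_cos_le_one _) (norm_nonneg _) (Real.abs_cos_le_one _))
    (Eventually.of_forall fun v _ => hc)
    (by exact intervalIntegrable_const)
    (Eventually.of_forall fun v _ => by
      have h2 := (CS_summ (γ := γ) hc (u + v)).hasSum.mul_right (Real.cos (g * v))
      refine h2.congr_fun fun i => ?_
      ring)
  unfold Tw
  rw [← h1.tsum_eq, ← tsum_div_const]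
  unfold CS
  refine tsum_congr fun i => ?_
  rw [intervalIntegral.integral_const_mul, mul_div_assoc]
  have h2 := Tw_cos (g := g) (r := r) (γ := γ i) u
  unfold Tw at h2
  rw [h2]
  ring

open Classical in
/-- the average of the twisted local averages -/
lemma comb_Tw {g r : ℝ} (hr : 0 < r) (hc : Summable fun i => |c i|) {f : ℝ → ℝ} (hf : Continuous f)
    (h0 : Tendsto (fun u => f u - CS c γ u) atTop (𝓝 0)) {h : ℝ} (hh : 0 < h) :
    Tendsto (comb (Tw g r f) h) atTop (𝓝 (∑' i, if InAP h (γ i) then c i * kap g r (γ i) else 0)) := by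
  have h1 := comb_zero (Tw_zero (g := g) hr h0) hh
  have h2 := comb_CS (γ := γ) (kap_summ (γ := γ) (g := g) hr hc) h
  have h3 := h1.add h2
  rw [zero_add] at h3
  refine h3.congr fun K => ?_
  rw [← comb_add]
  congr 1
  funext u
  rw [Tw_sub hf (CS_cont hc), Tw_CS hc]
  ring

open Classical in
/-- **the criterion for one frequency** -/
theorem crit_one (hc0 : ∀ i, 0 < c i) (hc : Summable c) (hγ : ∀ i, 0 < γ i) (hinj : Function.Injective γ) {g t : ℝ}
    (hg : 0 < g) (ht : 0 < t) (hgt : ∀ i, γ i = g → 2 * t ≤ c i) : ∃ R : ℝ, 0 < R ∧ ∀ r, R ≤ r →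
    ∀ f : ℝ → ℝ, Continuous f → Tendsto (fun u => f u - CS c γ u) atTop (𝓝 0) → (∃ i, γ i = g) →
      ∀ h : ℝ, 0 < h → (¬InAP h g ↔ ∀ ε : ℝ, 0 < ε → ∀ᶠ K in atTop, comb (Tw g r f) h K < t + ε) := by
  have hca : Summable fun i => |c i| := hc.congr fun i => (abs_of_pos (hc0 i)).symm
  have h1 : Tendsto (fun r : ℝ => ∑' i, (if γ i ≠ g then c i * |kap g r (γ i)| else 0)) atTop
      (𝓝 (∑' _i : ι, (0:ℝ))) := by
    refine tendsto_tsum_of_dominated_convergence (bound := fun i => 2 * c i) (hc.mul_left 2) (fun i => ?_) ?_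
    · by_cases hi : γ i ≠ g
      · simp only [if_pos hi]
        have := ((kap_ne hg (hγ i) hi).abs).const_mul (c i)
        rwa [abs_zero, mul_zero] at this
      · simp only [if_neg hi]
        exact tendsto_const_nhds
    · filter_upwards [eventually_gt_atTop 0] with r hr i
      by_cases hi : γ i ≠ g
      · rw [if_pos hi, norm_mul, Real.norm_of_nonneg (hc0 i).le, norm_abs_eq_norm, Real.norm_eq_abs, mul_comm]
        exact mul_le_mul_of_nonneg_right (kap_le hr) (hc0 i).le
      · rw [if_neg hi, norm_zero]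
        have := hc0 i
        positivity
  rw [tsum_zero] at h1
  obtain ⟨R, hR⟩ := eventually_atTop.1 ((h1.eventually_lt_const (half_pos ht)).and
    (((kap_self hg).eventually_const_lt (show (7:ℝ) / 8 < 1 by norm_num)).and (eventually_gt_atTop 0)))
  refine ⟨max R 1, by positivity, fun r hr f hf h0 hi h hh => ?_⟩
  obtain ⟨hA, hB, hr0⟩ := hR r ((le_max_left _ _).trans hr)
  obtain ⟨i0, hi0⟩ := hi
  have hlim := comb_Tw (g := g) hr0 hca hf h0 hh
  have hks := kap_summ (γ := γ) (g := g) hr0 hca
  have hsum : Summable fun i => if InAP h (γ i) then c i * kap g r (γ i) else 0 := by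
    refine Summable.of_norm_bounded hks fun i => ?_
    split_ifs
    · rfl
    · rw [norm_zero]
      exact abs_nonneg _
  have hsum2 : Summable fun i => if γ i ≠ g then c i * |kap g r (γ i)| else 0 := by
    refine Summable.of_norm_bounded hks fun i => ?_
    split_ifs
    · rw [norm_mul, abs_mul, norm_abs_eq_norm]
      rfl
    · rw [norm_zero]
      exact abs_nonneg _
  constructor
  · intro hn ε hε
    refine hlim.eventually_lt_const ?_
    have h2 : (∑' i, if InAP h (γ i) then c i * kap g r (γ i) else 0) ≤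
        ∑' i, (if γ i ≠ g then c i * |kap g r (γ i)| else 0) := by
      refine hsum.tsum_le_tsum (fun i => ?_) hsum2
      by_cases hP : InAP h (γ i)
      · rw [if_pos hP, if_pos fun h3 => hn (by rwa [h3] at hP)]
        exact mul_le_mul_of_nonneg_left (le_abs_self _) (hc0 i).le
      · rw [if_neg hP]
        split_ifs
        · exact mul_nonneg (hc0 i).le (abs_nonneg _)
        · exact le_rfl
    linarith
  · intro h2 hP
    have h3 : (∑' i, if InAP h (γ i) then c i * kap g r (γ i) else 0) ≤ t := by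
      refine le_of_forall_pos_le_add fun ε hε => ?_
      exact le_of_tendsto hlim ((h2 ε hε).mono fun K hK => hK.le)
    have hs1 : Summable fun i => if i = i0 then c i0 * kap g r g else 0 :=
      (hasSum_ite_eq i0 (c i0 * kap g r g)).summable
    have h4 : c i0 * kap g r g - ∑' i, (if γ i ≠ g then c i * |kap g r (γ i)| else 0) ≤
        ∑' i, if InAP h (γ i) then c i * kap g r (γ i) else 0 := by
      have e := (hasSum_ite_eq i0 (c i0 * kap g r g)).tsum_eq
      rw [← e, ← hs1.tsum_sub hsum2]
      refine (hs1.sub hsum2).tsum_le_tsum (fun i => ?_) hsum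
      by_cases hi : i = i0
      · rw [hi, if_pos rfl, hi0, if_pos hP, if_neg (fun h => h rfl), sub_zero]
      · have hne : γ i ≠ g := fun h5 => hi (hinj (h5.trans hi0.symm))
        rw [if_neg hi, if_pos hne, zero_sub]
        split_ifs
        · rw [← mul_neg]
          exact mul_le_mul_of_nonneg_left (neg_abs_le _) (hc0 i).le
        · have := mul_nonneg (hc0 i).le (abs_nonneg (kap g r (γ i)))
          linarith
    have h5 := hgt i0 hi0
    have h6 : 2 * t * (7 / 8) ≤ c i0 * kap g r g :=
      mul_le_mul h5 hB.le (by norm_num) (hc0 i0).le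
    linarith

end

end Pool.Agent.U544.LI
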