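import Pool.Agent.U544.LI.Comb3
import Pool.Agent.U544.LI.Mom3

/-!
# Moments along arithmetic progressions
-/

set_option autoImplicit false

open Filter Topology MeasureTheory Finset

namespace Pool.Agent.U544.LI

variable {ι : Type*} {b γ : ι → ℝ}

/-- the sum over the signed tuples with value in the progression -/
noncomputable def AA (b γ : ι → ℝ) (h : ℝ) (k : ℕ) : ℝ := ∑' t : {t : Fin k → ι × ℤˣ // InAP h (fr γ t)}, wp b t.1

/-- all signed sums of `k` terms with value in the progression are formally zero -/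
def IndAP (γ : ι → ℝ) (h : ℝ) (k : ℕ) : Prop := ∀ t : Fin k → ι × ℤˣ, InAP h (fr γ t) → fm t = 0

theorem comb_pow (hb : ∀ i, 0 < b i) (hbs : Summable b) (h : ℝ) (k : ℕ) :
    Tendsto (comb (fun u => DD b γ u ^ k) h) atTop (𝓝 (AA b γ h k)) := by
  classical
  have h1 := (DD_pow (γ := γ) hb hbs k 0).1
  have h1' : Summable fun t : Fin k → ι × ℤˣ => |wp b t| := h1.congr fun t => (abs_of_pos (wp_pos hb t)).symm
  have h2 := comb_CS (γ := fun t : Fin k → ι × ℤˣ => fr γ t) h1' h
  have e1 : (fun u => DD b γ u ^ k) = CS (fun t : Fin k → ι × ℤˣ => wp b t) (fun t => fr γ t) := by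
    funext u
    exact (DD_pow (γ := γ) hb hbs k u).2
  rw [e1]
  convert h2 using 2
  have e2 : AA b γ h k = ∑' t, ({t : Fin k → ι × ℤˣ | InAP h (fr γ t)}).indicator (wp b) t :=
    tsum_subtype {t : Fin k → ι × ℤˣ | InAP h (fr γ t)} (fun t => wp b t)
  rw [e2]
  refine tsum_congr fun t => ?_
  rw [Set.indicator_apply]
  rfl

theorem VV_le_AP (hb : ∀ i, 0 < b i) (hbs : Summable b) (h : ℝ) (k : ℕ) :
    VV b k ≤ AA b γ h k ∧ (AA b γ h k = VV b k ↔ IndAP γ h k) := by
  classical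
  have hw := (DD_pow (γ := fun _ => 0) hb hbs k 0).1
  have e1 : AA b γ h k = ∑' t, ({t : Fin k → ι × ℤˣ | InAP h (fr γ t)}).indicator (wp b) t :=
    tsum_subtype {t : Fin k → ι × ℤˣ | InAP h (fr γ t)} (fun t => wp b t)
  have e2 : VV b k = ∑' t, ({t : Fin k → ι × ℤˣ | fm t = 0}).indicator (wp b) t :=
    tsum_subtype {t : Fin k → ι × ℤˣ | fm t = 0} (fun t => wp b t)
  have hsub : ∀ t : Fin k → ι × ℤˣ, fm t = 0 → InAP h (fr γ t) := by
    intro t ht
    refine ⟨0, ?_⟩
    rw [← val_fm, ht, val_zero]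
    simp
  have hle : ∀ t, ({t : Fin k → ι × ℤˣ | fm t = 0}).indicator (wp b) t ≤
      ({t : Fin k → ι × ℤˣ | InAP h (fr γ t)}).indicator (wp b) t := fun t =>
    Set.indicator_le_indicator_of_subset (fun t ht => hsub t ht) (fun t => (wp_pos hb t).le) t
  have s1 := hw.indicator {t : Fin k → ι × ℤˣ | InAP h (fr γ t)}
  have s2 := hw.indicator {t : Fin k → ι × ℤˣ | fm t = 0}
  refine ⟨by rw [e1, e2]; exact s2.tsum_le_tsum hle s1, ?_⟩
  constructor
  · intro h' t ht
    by_contra hcon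
    have hlt : ({t : Fin k → ι × ℤˣ | fm t = 0}).indicator (wp b) t <
        ({t : Fin k → ι × ℤˣ | InAP h (fr γ t)}).indicator (wp b) t := by
      rw [Set.indicator_of_notMem (show t ∉ {t : Fin k → ι × ℤˣ | fm t = 0} from hcon),
        Set.indicator_of_mem (show t ∈ {t : Fin k → ι × ℤˣ | InAP h (fr γ t)} from ht)]
      exact wp_pos hb t
    have := Summable.tsum_lt_tsum hle hlt s2 s1
    rw [← e1, ← e2, h'] at this
    exact lt_irrefl _ this
  · intro h'
    rw [e1, e2]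
    have e3 : {t : Fin k → ι × ℤˣ | InAP h (fr γ t)} = {t : Fin k → ι × ℤˣ | fm t = 0} :=
      Set.ext fun t => ⟨fun ht => h' t ht, fun ht => hsub t ht⟩
    rw [e3]

/-- comparison of the sums -/
theorem SS2_le_AP (hb : ∀ i, 0 < b i) (hbs : Summable b) {c : ℝ} (hc : 0 < c) (h : ℝ) (m : ℕ) :
    SS2 m c (VV b) ≤ SS2 m c (AA b γ h) ∧ (SS2 m c (AA b γ h) = SS2 m c (VV b) ↔ ∀ k ≤ m, IndAP γ h k) := by
  have hle : ∀ k ∈ Finset.range (m + 1), VV b k * c ^ (m - k) * (m.choose k : ℝ) ≤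
      AA b γ h k * c ^ (m - k) * (m.choose k : ℝ) := fun k _ =>
    mul_le_mul_of_nonneg_right (mul_le_mul_of_nonneg_right (VV_le_AP hb hbs h k).1 (by positivity))
      (Nat.cast_nonneg _)
  refine ⟨Finset.sum_le_sum hle, ?_⟩
  constructor
  · intro h1 k hk
    have h2 := (Finset.sum_eq_sum_iff_of_le hle).1 h1.symm k (Finset.mem_range.2 (Nat.lt_succ_of_le hk))
    have h3 : (0:ℝ) < m.choose k := by exact_mod_cast Nat.choose_pos hk
    have h4 := mul_right_cancel₀ h3.ne' h2
    have h5 := mul_right_cancel₀ (pow_pos hc _).ne' h4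
    exact (VV_le_AP hb hbs h k).2.1 h5.symm
  · intro h1
    unfold SS2
    refine Finset.sum_congr rfl fun k hk => ?_
    rw [(VV_le_AP hb hbs h k).2.2 (h1 k (Nat.le_of_lt_succ (Finset.mem_range.1 hk)))]

/-- the moments of an asymptotically almost periodic function -/
theorem comb_moment (hb : ∀ i, 0 < b i) (hbs : Summable b) {f : ℝ → ℝ}
    (h0 : Tendsto (fun u => f u - DD b γ u) atTop (𝓝 0)) (c : ℝ) (m : ℕ) {h : ℝ} (hh : 0 < h) :
    Tendsto (comb (fun u => (c + f u) ^ m) h) atTop (𝓝 (SS2 m c (AA b γ h))) := by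
  set y : ℝ → ℝ := fun u => c + DD b γ u with hy
  have hyB : ∀ u, |y u| ≤ |c| + 2 * ∑' i, b i := by
    intro u
    refine (abs_add_le _ _).trans ?_
    have := DD_bound (γ := γ) hb hbs u
    linarith
  have hxy : Tendsto (fun u => (c + f u) - y u) atTop (𝓝 0) := by
    refine h0.congr fun u => ?_
    simp only [hy]
    ring
  have h2 : Tendsto (comb (fun u => y u ^ m) h) atTop (𝓝 (SS2 m c (AA b γ h))) := by
    have h3 : ∀ k ∈ Finset.range (m + 1), Tendsto (fun K => comb (fun u => DD b γ u ^ k) h K *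
        c ^ (m - k) * (m.choose k : ℝ)) atTop (𝓝 (AA b γ h k * c ^ (m - k) * (m.choose k : ℝ))) :=
      fun k _ => ((comb_pow hb hbs h k).mul_const _).mul_const _
    refine (tendsto_finsetSum _ h3).congr fun K => ?_
    unfold comb
    have e : ∀ u, y u ^ m = ∑ k ∈ Finset.range (m + 1), DD b γ u ^ k * (c ^ (m - k) * (m.choose k : ℝ)) := by
      intro u
      simp only [hy]
      rw [add_comm, add_pow]
      exact Finset.sum_congr rfl fun k _ => by ring
    simp only [e]
    rw [Finset.sum_comm, Finset.sum_div]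
    refine Finset.sum_congr rfl fun k _ => ?_
    rw [← Finset.sum_mul]
    ring
  have h4 := (comb_zero (pow_diff hyB hxy m) hh).add h2
  rw [zero_add] at h4
  refine h4.congr fun K => ?_
  rw [← comb_add]
  congr 1
  funext u
  ring

/-- **the criterion** -/
theorem crit_AP (hb : ∀ i, 0 < b i) (hbs : Summable b) {f : ℝ → ℝ}
    (h0 : Tendsto (fun u => f u - DD b γ u) atTop (𝓝 0)) {c : ℝ} (hc : 0 < c) (m : ℕ) {h : ℝ} (hh : 0 < h) :
    (∀ k ≤ m, IndAP γ h k) ↔
      ∀ ε : ℝ, 0 < ε → ∀ᶠ K in atTop, comb (fun u => (c + f u) ^ m) h K < SS2 m c (VV b) + ε := by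
  have h1 := comb_moment hb hbs h0 c m hh
  obtain ⟨h2, h3⟩ := SS2_le_AP (γ := γ) hb hbs hc h m
  constructor
  · intro h4 ε hε
    rw [h3.2 h4] at h1
    exact h1.eventually_lt_const (by linarith)
  · intro h4
    refine h3.1 (le_antisymm ?_ h2)
    refine le_of_forall_pos_le_add fun ε hε => ?_
    exact le_of_tendsto h1 ((h4 ε hε).mono fun K hK => hK.le)

end Pool.Agent.U544.LI
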