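import Pool.Agent.U544.LI.Main

/-!
# The criterion, in abstract form, II
-/

set_option autoImplicit false

open Complex Filter Topology Metric Finset MeasureTheory Set
open scoped ComplexConjugate

namespace Pool.Agent.U544.LI

open Pool.Agent.W263.BSD

variable {f : ℂ → ℂ} {L : ℕ → ℝ} {δ : ℝ}

/-- the ordinates of the zeros on the line -/
def Gs (f : ℂ → ℂ) : Type := {g : ℝ // 0 < g ∧ f (g * I) = 0}

/-- the weight of an ordinate -/
noncomputable def wt (f : ℂ → ℂ) (g : Gs f) : ℝ := (mu f (g.1 * I) : ℝ) * (2 / (1 + g.1 ^ 2))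

lemma wt_pos (h : LD f L δ) (g : Gs f) : 0 < wt f g := by
  have hne : ∃ z, f z ≠ 0 := ⟨1, h.ne 1 (by norm_num)⟩
  have := mu_pos h.diff hne g.2.2
  unfold wt
  have : (0:ℝ) < mu f (g.1 * I) := by exact_mod_cast this
  positivity

lemma wt_summ (h : LD f L δ) : Summable (wt f) := by
  have hinj : Function.Injective fun g : Gs f => (⟨g.1 * I, g.2.2⟩ : {w : ℂ // f w = 0}) := by
    intro s t hst
    have h1 := congrArg Subtype.val hst
    have := mul_right_cancel₀ I_ne_zero h1
    exact Subtype.ext (by exact_mod_cast this)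
  refine ((bw_summ h).comp_injective hinj).congr fun g => ?_
  simp only [Function.comp_apply, wt]
  congr 1
  rw [← norm_w2 (by simp), mul_pow, I_sq]
  have : (1:ℂ) - (g.1:ℂ) ^ 2 * -1 = ((1 + g.1 ^ 2 : ℝ) : ℂ) := by push_cast; ring
  rw [this, norm_div, Complex.norm_real, Real.norm_of_nonneg (by positivity), Complex.norm_ofNat]

/-- the asymptotic expansion -/
lemma asym (h : LD f L δ) (hG : ∀ w, f w = 0 → w.re ≤ 0) :
    Tendsto (fun u => Dd L δ u - (2 * (mu f 0 : ℝ) + DD (wt f) (fun g : Gs f => g.1) u)) atTop (𝓝 0) := by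
  refine (asym1 h hG).congr fun u => ?_
  rw [sum_gz h u]
  rfl

lemma ces {g h : ℝ → ℝ} (hg : Continuous g) (hh : Continuous h) (ht : Tendsto (fun u => g u - h u) atTop (𝓝 0)) {E : ℝ}
    (hE : Tendsto (mean h) atTop (𝓝 E)) : Tendsto (mean g) atTop (𝓝 E) := by
  have h1 : Tendsto (fun U => mean g U - mean h U) atTop (𝓝 0) := by
    rw [Metric.tendsto_atTop]
    intro ε hε
    obtain ⟨T, hT⟩ := (Metric.tendsto_atTop.1 ht) (ε / 2) (by positivity)
    set T0 := max T 0 with hT0
    have hT00 : 0 ≤ T0 := le_max_right _ _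
    set C := |∫ u in (0:ℝ)..T0, (g u - h u)| with hC
    have hc : Continuous fun u => g u - h u := hg.sub hh
    have e1 : Tendsto (fun U : ℝ => C / U) atTop (𝓝 0) := tendsto_const_nhds.div_atTop tendsto_id
    obtain ⟨U0, hU0⟩ := (Metric.tendsto_atTop.1 e1) (ε / 2) (by positivity)
    refine ⟨max (max U0 T0) 1, fun U hU => ?_⟩
    have hU1 : U0 ≤ U := (le_max_left _ _).trans ((le_max_left _ _).trans hU)
    have hU2 : T0 ≤ U := (le_max_right _ _).trans ((le_max_left _ _).trans hU)
    have hU3 : 0 < U := lt_of_lt_of_le one_pos ((le_max_right _ _).trans hU)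
    rw [dist_zero_right, Real.norm_eq_abs]
    have e2 : mean g U - mean h U = (∫ u in (0:ℝ)..T0, (g u - h u)) / U + (∫ u in T0..U, (g u - h u)) / U := by
      unfold mean
      rw [← sub_div, ← intervalIntegral.integral_sub (hg.intervalIntegrable _ _) (hh.intervalIntegrable _ _), ← add_div,
        intervalIntegral.integral_add_adjacent_intervals (hc.intervalIntegrable _ _) (hc.intervalIntegrable _ _)]
    have e3 : |∫ u in T0..U, (g u - h u)| ≤ ε / 2 * U := by
      rw [← Real.norm_eq_abs]
      refine (intervalIntegral.norm_integral_le_of_norm_le_const (C := ε / 2) fun u hu => ?_).trans ?_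
      · rw [uIoc_of_le hU2] at hu
        have := hT u ((le_max_left _ _).trans hu.1.le)
        rw [dist_zero_right] at this
        exact this.le
      · rw [abs_of_nonneg (by linarith)]
        refine mul_le_mul_of_nonneg_left (by linarith) (by positivity)
    have e4 := hU0 U hU1
    rw [dist_zero_right, Real.norm_of_nonneg (by positivity)] at e4
    rw [e2]
    refine (abs_add_le _ _).trans_lt ?_
    rw [abs_div, abs_div, abs_of_pos hU3]
    have e5 : |∫ u in T0..U, (g u - h u)| / U ≤ ε / 2 := by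
      rw [div_le_iff₀ hU3]
      exact e3
    linarith
  have h2 := h1.add hE
  rw [zero_add] at h2
  refine h2.congr fun U => by ring

lemma DD_mul {ι : Type*} (a γ : ι → ℝ) (lam u : ℝ) : DD (fun i => lam * a i) γ u = lam * DD a γ u := by
  unfold DD
  rw [← tsum_mul_left]
  exact tsum_congr fun i => by ring

lemma bdd_of_tendsto (h : LD f L δ) {lam E : ℝ}
    (hE : Tendsto (mean fun u => Real.exp (lam * Dd L δ u)) atTop (𝓝 E)) :
    ∃ C : ℝ, ∀ U ≥ (1:ℝ), ∫ u in (0:ℝ)..U, Real.exp (lam * Dd L δ u) ≤ C * U := by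
  have hc : Continuous fun u => Real.exp (lam * Dd L δ u) := by
    have := Dd_cont h
    fun_prop
  obtain ⟨U0, hU0⟩ := eventually_atTop.1 (hE.eventually_lt_const (lt_add_one E))
  set T := max U0 1 with hT
  have hT1 : 1 ≤ T := le_max_right _ _
  set A := ∫ u in (0:ℝ)..T, Real.exp (lam * Dd L δ u) with hA
  have hA0 : 0 ≤ A := intervalIntegral.integral_nonneg (by linarith) fun u _ => (Real.exp_pos _).le
  refine ⟨max (E + 1) A, fun U hU => ?_⟩
  rcases le_total T U with h1 | h1
  · have h2 := hU0 U ((le_max_left _ _).trans h1)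
    unfold mean at h2
    rw [div_lt_iff₀ (by linarith)] at h2
    have : (E + 1) * U ≤ max (E + 1) A * U := mul_le_mul_of_nonneg_right (le_max_left _ _) (by linarith)
    linarith
  · have h2 : ∫ u in (0:ℝ)..U, Real.exp (lam * Dd L δ u) ≤ A := by
      have h3 : A - ∫ u in (0:ℝ)..U, Real.exp (lam * Dd L δ u) = ∫ u in U..T, Real.exp (lam * Dd L δ u) := by
        rw [hA, intervalIntegral.integral_interval_sub_left (hc.intervalIntegrable _ _) (hc.intervalIntegrable _ _)]
      have h4 : 0 ≤ ∫ u in U..T, Real.exp (lam * Dd L δ u) :=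
        intervalIntegral.integral_nonneg h1 fun u _ => (Real.exp_pos _).le
      linarith
    have h5 : A ≤ max (E + 1) A * U := by
      have := le_max_right (E + 1) A
      nlinarith
    linarith

/-- all the zeros in the open strip are on the line -/
def RHf (f : ℂ → ℂ) : Prop := ∀ w, f w = 0 → |w.re| < 1 / 2 → w.re = 0

lemma rh_of_tendsto (h : LD f L δ) {lam E : ℝ} (hl : 0 < lam)
    (hE : Tendsto (mean fun u => Real.exp (lam * Dd L δ u)) atTop (𝓝 E)) : RHf f := by
  obtain ⟨C, hC⟩ := bdd_of_tendsto h hE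
  have h1 : ∀ w, f w = 0 → w.re ≤ 0 := fun w hw => no_pos h (fun w hw => Dp_LInt h hl hC hw) hw
  intro w hw hw2
  have h2 := h1 w hw
  have h3 := h1 (-w) (h.symm w hw hw2)
  rw [Complex.neg_re] at h3
  linarith

lemma nonpos_of_rh (h : LD f L δ) (hR : RHf f) {w : ℂ} (hw : f w = 0) : w.re ≤ 0 := by
  by_contra h1
  push Not at h1
  rcases lt_or_ge w.re (1 / 2) with h2 | h2
  · have := hR w hw (by rw [abs_of_pos h1]; exact h2)
    linarith
  · exact h.ne w h2 hw

/-- **the criterion** -/
theorem crit (h : LD f L δ) {lam : ℝ} (hl : 0 < lam) {ι : Type*} (π : ι → Gs f) (b : ι → ℝ) (hb : ∀ i, 0 < b i)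
    (hbs : Summable b) (hbD : ∀ u, DD b (fun i => (π i).1) u = DD (wt f) (fun g : Gs f => g.1) u) :
    (RHf f ↔ ∃ E, Tendsto (mean fun u => Real.exp (lam * Dd L δ u)) atTop (𝓝 E)) ∧
    (∀ E, Tendsto (mean fun u => Real.exp (lam * Dd L δ u)) atTop (𝓝 E) →
      Real.exp (2 * lam * mu f 0) * PP (fun i => lam * b i) ≤ E ∧
      (E = Real.exp (2 * lam * mu f 0) * PP (fun i => lam * b i) ↔ LinearIndependent ℚ fun i => (π i).1)) ∧
    (Summable fun i => Real.log (J0 (lam * b i))) := by
  obtain ⟨E, hE, hsl, hPE, hiff⟩ := fam (a := fun i => lam * b i) (γ := fun i => (π i).1)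
    (fun i => mul_pos hl (hb i)) (hbs.mul_left lam)
  have hDc := Dd_cont h
  set c0 := Real.exp (2 * lam * mu f 0) with hc0
  have hc0p : 0 < c0 := Real.exp_pos _
  have key : RHf f → Tendsto (mean fun u => Real.exp (lam * Dd L δ u)) atTop (𝓝 (c0 * E)) := by
    intro hR
    have h1 := asym h fun w hw => nonpos_of_rh h hR hw
    have h2 : Tendsto (mean fun u => c0 * Real.exp (DD (fun i => lam * b i) (fun i => (π i).1) u)) atTop
        (𝓝 (c0 * E)) := by
      refine (hE.const_mul c0).congr fun U => ?_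
      unfold mean
      rw [intervalIntegral.integral_const_mul, mul_div_assoc]
    have hcont2 : Continuous fun u => c0 * Real.exp (DD (fun i => lam * b i) (fun i => (π i).1) u) := by
      have := DD_cont (γ := fun i => (π i).1) (fun i => mul_pos hl (hb i)) (hbs.mul_left lam)
      fun_prop
    refine ces (by fun_prop) hcont2 ?_ h2
    -- the difference tends to zero
    set x : ℝ → ℝ := fun u => lam * Dd L δ u with hx
    set y : ℝ → ℝ := fun u => 2 * lam * mu f 0 + DD (fun i => lam * b i) (fun i => (π i).1) u with hy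
    have hxy : Tendsto (fun u => x u - y u) atTop (𝓝 0) := by
      have := h1.const_mul lam
      rw [mul_zero] at this
      refine this.congr fun u => ?_
      simp only [hx, hy]
      rw [DD_mul, hbD]
      ring
    set B := 2 * lam * mu f 0 + 2 * ∑' i, lam * b i with hB
    have hyB : ∀ u, y u ≤ B := by
      intro u
      have := (le_abs_self _).trans (DD_bound (γ := fun i => (π i).1) (fun i => mul_pos hl (hb i)) (hbs.mul_left lam) u)
      simp only [hy, hB]
      linarith
    have h3 : Tendsto (fun u => Real.exp (B + 1) * |x u - y u|) atTop (𝓝 0) := by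
      have := hxy.abs.const_mul (Real.exp (B + 1))
      simpa using this
    refine squeeze_zero_norm' ?_ h3
    have hev : ∀ᶠ u in atTop, x u - y u < 1 := hxy.eventually_lt_const one_pos
    filter_upwards [hev] with u hu
    have e1 : c0 * Real.exp (DD (fun i => lam * b i) (fun i => (π i).1) u) = Real.exp (y u) := by
      rw [hc0, ← Real.exp_add]
    rw [e1, Real.norm_eq_abs]
    have h4 := hyB u
    exact exp_sub_le (by show x u ≤ B + 1; linarith) (by linarith)
  refine ⟨⟨fun hR => ⟨_, key hR⟩, fun ⟨E', hE'⟩ => rh_of_tendsto h hl hE'⟩, fun E' hE' => ?_, hsl⟩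
  have h1 := key (rh_of_tendsto h hl hE')
  have h2 : E' = c0 * E := tendsto_nhds_unique hE' h1
  rw [h2]
  refine ⟨mul_le_mul_of_nonneg_left hPE hc0p.le, ?_⟩
  rw [← hiff]
  constructor
  · intro h3
    exact mul_left_cancel₀ hc0p.ne' h3
  · intro h3
    rw [h3]

/-- the index set of the multiset of ordinates -/
def Gm (f : ℂ → ℂ) : Type := Σ g : Gs f, Fin (mu f (g.1 * I))

lemma gm_pos (i : Gm f) : 0 < (2:ℝ) / (1 + i.1.1 ^ 2) := by positivity

lemma gm_summ (h : LD f L δ) : Summable fun i : Gm f => (2:ℝ) / (1 + i.1.1 ^ 2) := by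
  have : Summable fun i : (Σ g : Gs f, Fin (mu f (g.1 * I))) => (2:ℝ) / (1 + i.1.1 ^ 2) := by
    rw [summable_sigma_of_nonneg (fun i => by positivity)]
    refine ⟨fun g => Summable.of_finite, ?_⟩
    refine (wt_summ h).congr fun g => ?_
    simp [wt]
  exact this

lemma gm_DD (h : LD f L δ) (u : ℝ) : DD (fun i : Gm f => (2:ℝ) / (1 + i.1.1 ^ 2)) (fun i => i.1.1) u =
    DD (wt f) (fun g : Gs f => g.1) u := by
  have hs := summ_D (γ := fun i : Gm f => i.1.1) (fun i => gm_pos i) (gm_summ h) u
  unfold DD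
  have : ∑' i : Gm f, 2 * ((2:ℝ) / (1 + i.1.1 ^ 2)) * Real.cos (i.1.1 * u) =
      ∑' (g : Gs f) (j : Fin (mu f (g.1 * I))), 2 * ((2:ℝ) / (1 + g.1 ^ 2)) * Real.cos (g.1 * u) :=
    Summable.tsum_sigma' (fun g => Summable.of_finite) hs
  rw [this]
  refine tsum_congr fun g => ?_
  simp [wt]
  ring

end Pool.Agent.U544.LI
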