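import Pool.Agent.U544.LI.Rel
import Pool.Agent.U544.LI.Br

/-!
# The exact mean value under the Riemann hypothesis
-/

set_option autoImplicit false

open Complex Filter Topology Metric Finset MeasureTheory Set
open scoped ComplexConjugate Nat

namespace Pool.Agent.U544.LI

open Pool.Agent.W263.BSD

variable {f : ℂ → ℂ} {L : ℕ → ℝ} {δ : ℝ}

lemma mean_transfer (h : LD f L δ) {lam : ℝ} (hl : 0 < lam) {ι : Type*} (π : ι → Gs f) (b : ι → ℝ) (hb : ∀ i, 0 < b i)
    (hbs : Summable b) (hbD : ∀ u, DD b (fun i => (π i).1) u = DD (wt f) (fun g : Gs f => g.1) u) (hR : RHf f)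
    {E : ℝ} (hE : Tendsto (mean fun u => Real.exp (DD (fun i => lam * b i) (fun i => (π i).1) u)) atTop (𝓝 E)) :
    Tendsto (mean fun u => Real.exp (lam * Dd L δ u)) atTop (𝓝 (Real.exp (2 * lam * mu f 0) * E)) := by
  have hDc := Dd_cont h
  set c0 := Real.exp (2 * lam * mu f 0) with hc0
  have hc0p : 0 < c0 := Real.exp_pos _
  have h1 := asym h fun w hw => nonpos_of_rh h hR hw
  have h2 : Tendsto (mean fun u => c0 * Real.exp (DD (fun i => lam * b i) (fun i => (π i).1) u)) atTop
      (𝓝 (c0 * E)) := by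
    refine (hE.const_mul c0).congr fun U => ?_
    unfold mean
    rw [intervalIntegral.integral_const_mul, mul_div_assoc]
  have hcont2 : Continuous fun u => c0 * Real.exp (DD (fun i => lam * b i) (fun i => (π i).1) u) := by
    have := DD_cont (γ := fun i => (π i).1) (fun i => mul_pos hl (hb i)) (hbs.mul_left lam)
    fun_prop
  refine ces (by fun_prop) hcont2 ?_ h2
  set x : ℝ → ℝ := fun u => lam * Dd L δ u with hx
  set y : ℝ → ℝ := fun u => 2 * lam * mu f 0 + DD (fun i => lam * b i) (fun i => (π i).1) u with hy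
  have hxy : Tendsto (fun u => x u - y u) atTop (𝓝 0) := by
    have := h1.const_mul lam
    rw [mul_zero] at this
    refine this.congr fun u => ?_
    simp only [hx, hy]
    rw [DD_mul, hbD]
    ring
  set B := 2 * lam * mu f 0 + 2 * ∑' i, lam * b i with hB
  have hyB : ∀ u, y u ≤ B := by
    intro u
    have := (le_abs_self _).trans (DD_bound (γ := fun i => (π i).1) (fun i => mul_pos hl (hb i)) (hbs.mul_left lam) u)
    simp only [hy, hB]
    linarith
  have h3 : Tendsto (fun u => Real.exp (B + 1) * |x u - y u|) atTop (𝓝 0) := by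
    have := hxy.abs.const_mul (Real.exp (B + 1))
    simpa using this
  refine squeeze_zero_norm' ?_ h3
  have hev : ∀ᶠ u in atTop, x u - y u < 1 := hxy.eventually_lt_const one_pos
  filter_upwards [hev] with u hu
  have e1 : c0 * Real.exp (DD (fun i => lam * b i) (fun i => (π i).1) u) = Real.exp (y u) := by
    rw [hc0, ← Real.exp_add]
  rw [e1, Real.norm_eq_abs]
  have h4 := hyB u
  exact exp_sub_le (by show x u ≤ B + 1; linarith) (by linarith)

/-- **The exact mean value under the Riemann hypothesis.** -/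
theorem exact_mean (h : LD f L δ) {lam : ℝ} (hl : 0 < lam) {ι : Type*} (π : ι → Gs f) (b : ι → ℝ)
    (hb : ∀ i, 0 < b i) (hbs : Summable b)
    (hbD : ∀ u, DD b (fun i => (π i).1) u = DD (wt f) (fun g : Gs f => g.1) u) (hR : RHf f) :
    (Summable fun n : {n : ι →₀ ℤ // val (fun i => (π i).1) n = 0} => QQ (fun i => lam * b i) n) ∧
    Tendsto (mean fun u => Real.exp (lam * Dd L δ u)) atTop (𝓝 (Real.exp (2 * lam * mu f 0) *
      (PP (fun i => lam * b i) * ∑' n : {n : ι →₀ ℤ // val (fun i => (π i).1) n = 0}, QQ (fun i => lam * b i) n))) := by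
  obtain ⟨E, hE, -, -, -⟩ := fam (a := fun i => lam * b i) (γ := fun i => (π i).1)
    (fun i => mul_pos hl (hb i)) (hbs.mul_left lam)
  have h1 := fam' (a := fun i => lam * b i) (γ := fun i => (π i).1) (fun i => mul_pos hl (hb i)) (hbs.mul_left lam) hE
  refine ⟨h1.summable, ?_⟩
  rw [h1.tsum_eq, mul_div_cancel₀ _ (show PP (fun i => lam * b i) ≠ 0 from (Real.exp_pos _).ne')]
  exact mean_transfer h hl π b hb hbs hbD hR hE

/-- boundedness of the mean value implies the Riemann hypothesis -/
theorem rh_of_bdd (h : LD f L δ) {lam : ℝ} (hl : 0 < lam)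
    (hB : ∃ C, ∀ᶠ U in atTop, mean (fun u => Real.exp (lam * Dd L δ u)) U ≤ C) : RHf f := by
  obtain ⟨E, hE⟩ := hB
  have hc : Continuous fun u => Real.exp (lam * Dd L δ u) := by
    have := Dd_cont h
    fun_prop
  obtain ⟨U0, hU0⟩ := eventually_atTop.1 hE
  set T := max U0 1 with hT
  have hT1 : 1 ≤ T := le_max_right _ _
  set A := ∫ u in (0:ℝ)..T, Real.exp (lam * Dd L δ u) with hA
  have hA0 : 0 ≤ A := intervalIntegral.integral_nonneg (by linarith) fun u _ => (Real.exp_pos _).le
  have hC : ∀ U ≥ (1:ℝ), ∫ u in (0:ℝ)..U, Real.exp (lam * Dd L δ u) ≤ max E A * U := by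
    intro U hU
    rcases le_total T U with h1 | h1
    · have h2 := hU0 U ((le_max_left _ _).trans h1)
      unfold mean at h2
      rw [div_le_iff₀ (by linarith)] at h2
      have : E * U ≤ max E A * U := mul_le_mul_of_nonneg_right (le_max_left _ _) (by linarith)
      linarith
    · have h2 : ∫ u in (0:ℝ)..U, Real.exp (lam * Dd L δ u) ≤ A := by
        have h3 : A - ∫ u in (0:ℝ)..U, Real.exp (lam * Dd L δ u) = ∫ u in U..T, Real.exp (lam * Dd L δ u) := by
          rw [hA, intervalIntegral.integral_interval_sub_left (hc.intervalIntegrable _ _) (hc.intervalIntegrable _ _)]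
        have h4 : 0 ≤ ∫ u in U..T, Real.exp (lam * Dd L δ u) :=
          intervalIntegral.integral_nonneg h1 fun u _ => (Real.exp_pos _).le
        linarith
      have h5 : A ≤ max E A * U := by
        have := le_max_right E A
        nlinarith
      linarith
  have h1 : ∀ w, f w = 0 → w.re ≤ 0 := fun w hw => no_pos h (fun w hw => Dp_LInt h hl hC hw) hw
  intro w hw hw2
  have h2 := h1 w hw
  have h3 := h1 (-w) (h.symm w hw hw2)
  rw [Complex.neg_re] at h3
  linarith

/-- the bridge for bounds -/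
lemma bridge_le (h : LD f L δ) {D : ℝ → ℝ} (hD : ∀ x, 0 < x → D x = Dd L δ (Real.log x)) (lam C : ℝ) :
    (∀ᶠ X in atTop, logMean (fun x => Real.exp (lam * D x)) X ≤ C) ↔
      ∀ᶠ U in atTop, mean (fun u => Real.exp (lam * Dd L δ u)) U ≤ C := by
  constructor
  · intro h1
    have h2 := Real.tendsto_exp_atTop.eventually h1
    filter_upwards [h2, eventually_gt_atTop 0] with U hU hU0
    rwa [logMean_eq h hD lam (Real.one_lt_exp_iff.2 hU0), Real.log_exp] at hU
  · intro h1
    have h2 := Real.tendsto_log_atTop.eventually h1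
    filter_upwards [h2, eventually_gt_atTop 1] with X hX hX1
    rwa [logMean_eq h hD lam hX1]

/-- the Bessel function `I_k` -/
noncomputable def Ik (k : ℕ) (x : ℝ) : ℝ := ∑' n : ℕ, (x / 2) ^ (2 * n + k) / ((n)! * (n + k)!)

lemma Jk_Ik (k : ℕ) (a : ℝ) : Jk k a = Ik k (2 * a) := by
  unfold Jk Ik
  refine tsum_congr fun n => ?_
  rw [mul_div_cancel_left₀ a two_ne_zero, pow_add, two_mul, pow_add, pow_add]
  push_cast
  field_simp

lemma J0_Ik (a : ℝ) : J0 a = Ik 0 (2 * a) := by rw [← Jk_zero, Jk_Ik]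

lemma PP_tprod' {ι : Type*} {a : ι → ℝ} (hs : Summable fun i => Real.log (J0 (a i))) :
    (Multipliable fun i => Ik 0 (2 * a i)) ∧ PP a = ∏' i, Ik 0 (2 * a i) := by
  have hpos : ∀ i, 0 < J0 (a i) := fun i => by linarith [one_le_J0 (a i)]
  have e : (fun i => Ik 0 (2 * a i)) = fun i => J0 (a i) := by
    funext i
    rw [J0_Ik]
  rw [e]
  refine ⟨Real.multipliable_of_summable_log hpos hs, ?_⟩
  unfold PP
  rw [Real.rexp_tsum_eq_tprod hpos hs]

end Pool.Agent.U544.LI
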