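import Pool.Agent.U544.LI.Gro

/-!
# Growth of Dirichlet L-functions in the whole plane, II
-/

set_option autoImplicit false

open Complex Filter Topology Metric Finset MeasureTheory Set
open scoped ZMod

namespace Pool.Agent.U544.LI

variable {U V : Set ℂ} {g h : ℂ → ℂ}

lemma pi_ne : (Real.pi : ℂ) ≠ 0 := ofReal_ne_zero.2 Real.pi_ne_zero

lemma gw_pt (g : ℂ → ℂ) (p : ℂ) : Gw ({p} : Set ℂ) g := Gw.of_bdd (C := ‖g p‖) fun s hs => by
  rw [Set.mem_singleton_iff] at hs
  rw [hs]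

lemma gw_even (a : UnitAddCircle) : Gw strip (fun s => (s - 1) * HurwitzZeta.hurwitzZetaEven a s) := by
  -- the regular form
  have h1 : Gw strip (fun s => (s * (s - 1) * HurwitzZeta.completedHurwitzZetaEven₀ a s +
      (-(s - 1) * (if a = 0 then 1 else 0) + s)) * ((Real.pi : ℂ) ^ (1 / 2 * s) * (1 / 2 * (Gamma (1 + 1 / 2 * s))⁻¹))) := by
    have gi : Gw strip (fun s => s) := Gw.id
    have gm : Gw strip (fun s => s - 1) := by
      simpa [sub_eq_add_neg] using gi.add (Gw.const (-1))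
    have g1 := (gi.mul gm).mul (gw_even₀ a)
    have g2 : Gw strip (fun s => -(s - 1) * (if a = 0 then 1 else 0) + s) := by
      have := ((Gw.const (U := strip) (-1)).mul gm).mul (Gw.const (if a = 0 then (1:ℂ) else 0))
      refine (this.add gi).congr fun s _ => by ring
    have g3 : Gw strip (fun s => (Real.pi : ℂ) ^ (1 / 2 * s)) := by
      have := (gw_cpow (U := Set.univ) pi_ne).comp_aff (V := strip) 0 (1 / 2) (fun _ _ => Set.mem_univ _)
      simpa using this
    have g4 : Gw strip (fun s => (Gamma (1 + 1 / 2 * s))⁻¹) :=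
      (gw_rgamma (U := Set.univ)).comp_aff 1 (1 / 2) (fun _ _ => Set.mem_univ _)
    exact (g1.add g2).mul (g3.mul ((Gw.const (1 / 2)).mul g4))
  have h3 : Gw (strip \ {0, 1}) (fun s => (s - 1) * HurwitzZeta.hurwitzZetaEven a s) := by
    refine (h1.mono sdiff_subset).congr fun s hs => ?_
    have hs0 : s ≠ 0 := fun h => hs.2 (by simp [h])
    have hs1 : s ≠ 1 := fun h => hs.2 (by simp [h])
    rw [HurwitzZeta.hurwitzZetaEven_def_of_ne_or_ne (Or.inr hs0), HurwitzZeta.completedHurwitzZetaEven_eq]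
    have e1 : (Gammaℝ s)⁻¹ = s * ((Real.pi : ℂ) ^ (1 / 2 * s) * (1 / 2 * (Gamma (1 + 1 / 2 * s))⁻¹)) := by
      rw [Gammaℝ_def]
      have e2 : Gamma (1 + 1 / 2 * s) = s / 2 * Gamma (s / 2) := by
        rw [show 1 + 1 / 2 * s = s / 2 + 1 by ring, Complex.Gamma_add_one _ (by simpa using hs0)]
      rw [e2, mul_inv, mul_inv, ← Complex.cpow_neg, show -(-s / 2) = 1 / 2 * s by ring]
      field_simp
    rw [div_eq_mul_inv, e1]
    have h1s : 1 - s ≠ 0 := fun h => hs1 (by linear_combination -h)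
    field_simp
    ring
  have h4 := (h3.union (gw_pt _ 0)).union (gw_pt _ 1)
  refine h4.mono ?_
  intro s hs
  by_cases h : s = 0
  · simp [h]
  · by_cases h' : s = 1
    · simp [h']
    · exact Or.inl (Or.inl ⟨hs, by simp [h, h']⟩)

lemma gw_oddz (a : UnitAddCircle) : Gw strip (HurwitzZeta.hurwitzZetaOdd a) := by
  have g3 : Gw strip (fun s => (Real.pi : ℂ) ^ (1 / 2 + 1 / 2 * s)) := by
    exact (gw_cpow (U := Set.univ) pi_ne).comp_aff (V := strip) (1 / 2) (1 / 2) (fun _ _ => Set.mem_univ _)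
  have g4 : Gw strip (fun s => (Gamma (1 / 2 + 1 / 2 * s))⁻¹) :=
    (gw_rgamma (U := Set.univ)).comp_aff (1 / 2) (1 / 2) (fun _ _ => Set.mem_univ _)
  refine ((gw_odd a).mul (g3.mul g4)).congr fun s _ => ?_
  rw [HurwitzZeta.hurwitzZetaOdd, div_eq_mul_inv, Gammaℝ_def, mul_inv, ← Complex.cpow_neg]
  congr 3
  · ring
  · congr 1
    ring

variable {N : ℕ} [NeZero N]

/-- growth in the strip -/
lemma gw_strip (Φ : ZMod N → ℂ) : Gw strip (fun s => (s - 1) * ZMod.LFunction Φ s) := by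
  have hN : (N:ℂ) ≠ 0 := NeZero.ne _
  have gm : Gw strip (fun s => s - 1) := by
    simpa [sub_eq_add_neg] using Gw.id.add (Gw.const (-1))
  have g1 : ∀ j : ZMod N, Gw strip (fun s => Φ j * ((s - 1) * HurwitzZeta.hurwitzZetaEven (ZMod.toAddCircle j) s +
      (s - 1) * HurwitzZeta.hurwitzZetaOdd (ZMod.toAddCircle j) s)) := fun j =>
    (Gw.const _).mul ((gw_even _).add (gm.mul (gw_oddz _)))
  have g2 : Gw strip (fun s => (N:ℂ) ^ (-1 * s)) := by
    have := (gw_cpow (U := Set.univ) hN).comp_aff (V := strip) 0 (-1) (fun _ _ => Set.mem_univ _)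
    simpa using this
  refine (g2.mul (Gw.sum Finset.univ fun j _ => g1 j)).congr fun s _ => ?_
  rw [ZMod.LFunction, Finset.mul_sum, Finset.mul_sum, Finset.mul_sum]
  refine Finset.sum_congr rfl fun j _ => ?_
  rw [HurwitzZeta.hurwitzZeta]
  ring_nf

/-- growth on the right -/
lemma gw_right (Φ : ZMod N → ℂ) : Gw {s : ℂ | 2 ≤ s.re} (ZMod.LFunction Φ) := by
  obtain ⟨M, hM⟩ : ∃ M : ℝ, ∀ j, ‖Φ j‖ ≤ M := ⟨∑ j, ‖Φ j‖, fun j =>
    Finset.single_le_sum (f := fun j => ‖Φ j‖) (fun _ _ => norm_nonneg _) (Finset.mem_univ j)⟩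
  have hM0 : 0 ≤ M := (norm_nonneg _).trans (hM 0)
  have hs2 : Summable fun n : ℕ => M * (1 / (n:ℝ) ^ 2) :=
    (Real.summable_one_div_nat_pow.2 (by norm_num : 1 < 2)).mul_left M
  refine Gw.of_bdd (C := ∑' n : ℕ, M * (1 / (n:ℝ) ^ 2)) fun s hs => ?_
  have hs : 2 ≤ s.re := hs
  rw [ZMod.LFunction_eq_LSeries Φ (by linarith), LSeries]
  refine tsum_of_norm_bounded hs2.hasSum fun n => ?_
  rcases Nat.eq_zero_or_pos n with rfl | hn
  · simp
  rw [LSeries.term_of_ne_zero hn.ne', norm_div, Complex.norm_natCast_cpow_of_pos hn, div_eq_mul_one_div]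
  refine mul_le_mul (hM _) ?_ (by positivity) hM0
  have h1 : (1:ℝ) ≤ n := by exact_mod_cast hn
  refine one_div_le_one_div_of_le (by positivity) ?_
  calc (n:ℝ) ^ 2 = (n:ℝ) ^ (2:ℝ) := by rw [Real.rpow_two]
    _ ≤ (n:ℝ) ^ s.re := Real.rpow_le_rpow_of_exponent_le h1 hs

/-- growth on the left -/
lemma gw_left (Φ : ZMod N → ℂ) : Gw {s : ℂ | s.re ≤ -1} (ZMod.LFunction Φ) := by
  have hN : (N:ℂ) ≠ 0 := NeZero.ne _
  set R : Set ℂ := {s : ℂ | 2 ≤ s.re} with hR
  have g1 : Gw R (fun w => (N:ℂ) ^ (-1 + 1 * w)) :=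
    (gw_cpow (U := Set.univ) hN).comp_aff (-1) 1 (fun _ _ => Set.mem_univ _)
  have h2p : (2 * Real.pi : ℂ) ≠ 0 := mul_ne_zero two_ne_zero pi_ne
  have g2 : Gw R (fun w => (2 * Real.pi : ℂ) ^ (0 + (-1) * w)) :=
    (gw_cpow (U := Set.univ) h2p).comp_aff 0 (-1) (fun _ _ => Set.mem_univ _)
  have g3 : Gw R (fun w => cexp (Real.pi * I / 2 * w)) := Gw.exp_lin _
  have g4 : Gw R (fun w => cexp (-Real.pi * I / 2 * w)) := Gw.exp_lin _
  have g5 := ((g1.mul g2).mul gw_gamma).mul ((g3.mul (gw_right (𝓕 Φ))).add (g4.mul (gw_right (𝓕 fun x => Φ (-x)))))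
  have g6 : Gw R (fun w => ZMod.LFunction Φ (1 - w)) := by
    refine g5.congr fun w hw => ?_
    have hw : 2 ≤ w.re := hw
    rw [ZMod.LFunction_one_sub Φ (s := w) (fun n h => by
      rw [h] at hw
      simp at hw
      have : (0:ℝ) ≤ n := Nat.cast_nonneg n
      linarith) (Or.inr fun h => by
      rw [h] at hw
      simp at hw)]
    rw [show w - 1 = -1 + 1 * w by ring, show -w = 0 + (-1) * w by ring,
      show Real.pi * I * w / 2 = Real.pi * I / 2 * w by ring, show -Real.pi * I * w / 2 = -Real.pi * I / 2 * w by ring]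
  have g7 := g6.comp_aff (V := {s : ℂ | s.re ≤ -1}) 1 (-1) (fun s hs => by
    have hs : s.re ≤ -1 := hs
    show 2 ≤ (1 + -1 * s).re
    simp
    linarith)
  refine g7.congr fun s _ => ?_
  congr 1
  ring

/-- growth in the whole plane -/
theorem gw_LFunction (Φ : ZMod N → ℂ) : Gw Set.univ (fun s => (s - 1) * ZMod.LFunction Φ s) := by
  have gm : ∀ U, Gw U (fun s => s - 1) := fun U => by
    simpa [sub_eq_add_neg] using Gw.id.add (Gw.const (-1))
  have h := ((gw_strip Φ).union ((gm _).mul (gw_right Φ))).union ((gm _).mul (gw_left Φ))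
  refine h.mono fun s _ => ?_
  rcases le_total s.re (-1) with h1 | h1
  · exact Or.inr h1
  · rcases le_total s.re 2 with h2 | h2
    · exact Or.inl (Or.inl ⟨h1, h2⟩)
    · exact Or.inl (Or.inr h2)

/-- removal of the factor `s - 1` -/
lemma gw_div {g : ℂ → ℂ} (hg : Continuous g) (h : Gw Set.univ (fun s => (s - 1) * g s)) : Gw Set.univ g := by
  have h1 : Gw {s : ℂ | 1 ≤ ‖s - 1‖} g := by
    obtain ⟨K, hK, h⟩ := h
    refine ⟨K, hK, fun s hs => ?_⟩
    have hs : 1 ≤ ‖s - 1‖ := hs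
    have := h s (Set.mem_univ _)
    rw [norm_mul] at this
    refine le_trans ?_ this
    exact le_mul_of_one_le_left (norm_nonneg _) hs
  have h2 : Gw (closedBall (1:ℂ) 1) g := by
    obtain ⟨C, hC⟩ := (isCompact_closedBall (1:ℂ) 1).exists_bound_of_continuousOn hg.continuousOn
    exact Gw.of_bdd hC
  refine (h1.union h2).mono fun s _ => ?_
  rcases le_total 1 ‖s - 1‖ with h3 | h3
  · exact Or.inl h3
  · exact Or.inr (by simpa [mem_closedBall, dist_eq_norm] using h3)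

end Pool.Agent.U544.LI
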