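import Mathlib

/-!
# No zeros on the line `Re s = 1`
-/

set_option autoImplicit false

open Complex Filter Topology
open scoped ComplexConjugate

namespace Pool.Agent.U544.LI

/-- the residue of the logarithmic derivative along a horizontal line -/
lemma tend_logDeriv {F : ℂ → ℂ} {x : ℂ} (hF : AnalyticAt ℂ F x) (hne : analyticOrderAt F x ≠ ⊤) :
    Tendsto (fun σ : ℝ => (σ : ℂ) * logDeriv F (x + σ)) (𝓝[>] 0) (𝓝 (analyticOrderNatAt F x : ℂ)) := by
  obtain ⟨g, hg, hg0, he⟩ := (hF.analyticOrderAt_ne_top).1 hne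
  set m := analyticOrderNatAt F x with hm
  have h1 : ∀ᶠ z in 𝓝 x, z ≠ x → logDeriv F z = m / (z - x) + logDeriv g z := by
    have h2 : ∀ᶠ z in 𝓝 x, g z ≠ 0 := hg.continuousAt.eventually_ne hg0
    have h3 : ∀ᶠ z in 𝓝 x, AnalyticAt ℂ g z := hg.eventually_analyticAt
    filter_upwards [he.eventually_nhds, h2, h3] with z hz hz2 hz3 hzx
    have hzx' : z - x ≠ 0 := sub_ne_zero.2 hzx
    have e1 : logDeriv F z = logDeriv (fun z => (z - x) ^ m * g z) z := by
      rw [logDeriv_apply, logDeriv_apply]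
      have e : F =ᶠ[𝓝 z] fun z => (z - x) ^ m * g z := by
        filter_upwards [hz] with w hw
        rw [hw, smul_eq_mul]
      rw [e.deriv_eq, e.eq_of_nhds]
    rw [e1, logDeriv_mul (f := fun z => (z - x) ^ m) (g := g) z (pow_ne_zero _ hzx') hz2 (by fun_prop)
      hz3.differentiableAt]
    congr 1
    have := logDeriv_fun_pow (f := fun z : ℂ => z - x) (x := z) (by fun_prop) m
    rw [this, logDeriv_apply]
    simp [div_eq_mul_inv]
  have h4 : Tendsto (fun σ : ℝ => x + (σ : ℂ)) (𝓝[>] 0) (𝓝 x) := by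
    have : Tendsto (fun σ : ℝ => x + (σ : ℂ)) (𝓝 0) (𝓝 (x + ((0 : ℝ) : ℂ))) := by
      have h : Continuous fun σ : ℝ => x + (σ : ℂ) := by fun_prop
      exact h.tendsto 0
    rw [Complex.ofReal_zero, add_zero] at this
    exact this.mono_left nhdsWithin_le_nhds
  have h5 : Tendsto (fun σ : ℝ => (m : ℂ) + σ * logDeriv g (x + σ)) (𝓝[>] 0) (𝓝 ((m : ℂ) + 0 * logDeriv g x)) := by
    refine tendsto_const_nhds.add (Tendsto.mul ?_ ?_)
    · have : Tendsto (fun σ : ℝ => (σ : ℂ)) (𝓝 0) (𝓝 ((0 : ℝ) : ℂ)) := Complex.continuous_ofReal.tendsto 0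
      rw [Complex.ofReal_zero] at this
      exact this.mono_left nhdsWithin_le_nhds
    · have hc : ContinuousAt (logDeriv g) x := by
        have : AnalyticAt ℂ (fun z => deriv g z / g z) x := hg.deriv.div hg hg0
        exact this.continuousAt
      exact hc.tendsto.comp h4
  rw [zero_mul, add_zero] at h5
  refine h5.congr' ?_
  filter_upwards [h4.eventually h1, self_mem_nhdsWithin] with σ hσ hσ0
  have hσ1 : (σ : ℂ) ≠ 0 := Complex.ofReal_ne_zero.2 (ne_of_gt hσ0)
  have h6 := hσ (by simpa using hσ1)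
  rw [h6, add_sub_cancel_left]
  field_simp

lemma comb_nonneg (θ : ℝ) : 0 ≤ 3 + 4 * Real.cos θ + Real.cos (2 * θ) := by
  rw [Real.cos_two_mul]
  nlinarith [sq_nonneg (Real.cos θ + 1)]

/-- **no zeros on the line**: nonnegative coefficients and a simple pole at `1` -/
theorem line_ne {F : ℂ → ℂ} {L : ℕ → ℝ} (hF : Differentiable ℂ F) (hF1 : F 1 ≠ 0) (hL : ∀ n, 0 ≤ L n)
    (hL0 : L 0 = 0) (hs : ∀ σ : ℝ, 1 < σ → Summable fun n : ℕ => L n * (n : ℝ) ^ (-σ))
    (hd : ∀ s : ℂ, 1 < s.re → logDeriv F s = 1 / (s - 1) - ∑' n : ℕ, (L n : ℂ) * (n : ℂ) ^ (-s))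
    {t : ℝ} : F (1 + t * I) ≠ 0 := by
  intro hz
  have ht : t ≠ 0 := by
    rintro rfl
    apply hF1
    simpa using hz
  have htop : ∀ z, analyticOrderAt F z ≠ ⊤ := by
    intro z h
    rw [analyticOrderAt_eq_top] at h
    have h1 : AnalyticOnNhd ℂ F Set.univ := fun w _ => hF.analyticAt w
    have h2 := h1.eqOn_zero_of_preconnected_of_eventuallyEq_zero isPreconnected_univ (Set.mem_univ z) h
    exact hF1 (h2 (Set.mem_univ 1))
  set m := analyticOrderNatAt F (1 + t * I) with hm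
  have hm1 : 1 ≤ m := by
    rw [Nat.one_le_iff_ne_zero, hm]
    intro h0
    have h1 : analyticOrderAt F (1 + t * I) = 0 := by
      rw [← Nat.cast_analyticOrderNatAt (htop _), h0]
      rfl
    exact (hF.analyticAt _).analyticOrderAt_eq_zero.1 h1 hz
  set k := analyticOrderNatAt F (1 + (2 * t : ℝ) * I) with hk
  -- the function `B`
  have hB : ∀ (σ u : ℝ), 0 < σ → (∑' n : ℕ, (L n : ℂ) * (n : ℂ) ^ (-(1 + u * I + σ))).re =
      ∑' n : ℕ, L n * (n : ℝ) ^ (-(1 + σ)) * Real.cos (u * Real.log n) := by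
    intro σ u hσ
    have hterm : ∀ n : ℕ, ‖(L n : ℂ) * (n : ℂ) ^ (-(1 + u * I + σ))‖ ≤ L n * (n : ℝ) ^ (-(1 + σ)) := by
      intro n
      rcases Nat.eq_zero_or_pos n with rfl | hn
      · simp [hL0]
      rw [norm_mul, Complex.norm_real, Real.norm_of_nonneg (hL n), Complex.norm_natCast_cpow_of_pos hn]
      simp
    rw [Complex.re_tsum (Summable.of_norm_bounded (hs (1 + σ) (by linarith)) hterm)]
    refine tsum_congr fun n => ?_
    rcases Nat.eq_zero_or_pos n with rfl | hn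
    · simp [hL0]
    have hn' : (0 : ℝ) < n := by exact_mod_cast hn
    rw [Complex.re_ofReal_mul, mul_assoc]
    congr 1
    have hnc : (n : ℂ) ≠ 0 := by exact_mod_cast hn.ne'
    rw [Complex.cpow_def_of_ne_zero hnc, Complex.natCast_log.symm, Complex.exp_re, Real.rpow_def_of_pos hn']
    have e1 : (((Real.log n : ℝ) : ℂ) * -(1 + u * I + σ)).re = Real.log n * -(1 + σ) := by
      rw [Complex.re_ofReal_mul]
      simp
    have e2 : (((Real.log n : ℝ) : ℂ) * -(1 + u * I + σ)).im = -(u * Real.log n) := by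
      rw [Complex.im_ofReal_mul]
      simp
      ring
    rw [e1, e2, Real.cos_neg]
  have hsc : ∀ (σ u : ℝ), 0 < σ → Summable fun n : ℕ => L n * (n : ℝ) ^ (-(1 + σ)) * Real.cos (u * Real.log n) := by
    intro σ u hσ
    refine Summable.of_norm_bounded (hs (1 + σ) (by linarith)) fun n => ?_
    have h0 : 0 ≤ L n * (n : ℝ) ^ (-(1 + σ)) := mul_nonneg (hL n) (by positivity)
    rw [norm_mul, Real.norm_of_nonneg h0]
    exact mul_le_of_le_one_right h0 (Real.abs_cos_le_one _)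
  have hre : ∀ (σ u : ℝ), 0 < σ → (logDeriv F (1 + u * I + σ)).re = (1 / (u * I + σ) : ℂ).re -
      ∑' n : ℕ, L n * (n : ℝ) ^ (-(1 + σ)) * Real.cos (u * Real.log n) := by
    intro σ u hσ
    rw [hd _ (by simp; linarith), Complex.sub_re, hB σ u hσ]
    congr 2
    ring
  have key : ∀ σ : ℝ, 0 < σ → 0 ≤ 3 * (1 - σ * (logDeriv F (1 + (0 : ℝ) * I + σ)).re) +
      4 * (σ * (1 / (t * I + σ) : ℂ).re - σ * (logDeriv F (1 + t * I + σ)).re) +
      (σ * (1 / ((2 * t : ℝ) * I + σ) : ℂ).re - σ * (logDeriv F (1 + (2 * t : ℝ) * I + σ)).re) := by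
    intro σ hσ
    rw [hre σ 0 hσ, hre σ t hσ, hre σ (2 * t) hσ]
    have e0 : (1 / (((0 : ℝ) : ℂ) * I + σ) : ℂ).re = 1 / σ := by
      rw [Complex.ofReal_zero, zero_mul, zero_add, ← Complex.ofReal_one, ← Complex.ofReal_div, Complex.ofReal_re]
    rw [e0]
    have e1 : σ * (1 / σ) = 1 := by field_simp
    have h3 : 0 ≤ ∑' n : ℕ, (3 * (L n * (n : ℝ) ^ (-(1 + σ)) * Real.cos (0 * Real.log n)) +
        4 * (L n * (n : ℝ) ^ (-(1 + σ)) * Real.cos (t * Real.log n)) +
        L n * (n : ℝ) ^ (-(1 + σ)) * Real.cos (2 * t * Real.log n)) := by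
      refine tsum_nonneg fun n => ?_
      have h0 : 0 ≤ L n * (n : ℝ) ^ (-(1 + σ)) := mul_nonneg (hL n) (by positivity)
      have h1 := comb_nonneg (t * Real.log n)
      rw [← mul_assoc] at h1
      have h2 := mul_nonneg h0 h1
      rw [zero_mul, Real.cos_zero]
      linarith
    rw [Summable.tsum_add (((hsc σ 0 hσ).mul_left 3).add ((hsc σ t hσ).mul_left 4)) (hsc σ (2 * t) hσ),
      Summable.tsum_add ((hsc σ 0 hσ).mul_left 3) ((hsc σ t hσ).mul_left 4), tsum_mul_left, tsum_mul_left] at h3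
    nlinarith
  -- the limits
  have hlim : ∀ u : ℝ, Tendsto (fun σ : ℝ => σ * (logDeriv F (1 + u * I + σ)).re) (𝓝[>] 0)
      (𝓝 (analyticOrderNatAt F (1 + u * I) : ℝ)) := by
    intro u
    have h := (Complex.continuous_re.tendsto _).comp (tend_logDeriv (hF.analyticAt (1 + u * I)) (htop _))
    rw [Complex.natCast_re] at h
    refine h.congr fun σ => ?_
    simp only [Function.comp_apply]
    rw [Complex.re_ofReal_mul]
  have hlim2 : ∀ u : ℝ, u ≠ 0 → Tendsto (fun σ : ℝ => σ * (1 / (u * I + σ) : ℂ).re) (𝓝[>] 0) (𝓝 0) := by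
    intro u hu
    have h1 : ContinuousAt (fun σ : ℝ => σ * (1 / (u * I + σ) : ℂ).re) 0 := by
      refine continuousAt_id.mul (Complex.continuous_re.continuousAt.comp ?_)
      refine ContinuousAt.div continuousAt_const (by fun_prop) ?_
      simpa using hu
    have h2 := h1.tendsto
    rw [zero_mul] at h2
    exact h2.mono_left nhdsWithin_le_nhds
  have h0 : analyticOrderNatAt F (1 + (0 : ℝ) * I) = 0 := by
    have h1 : analyticOrderAt F (1 + (0 : ℝ) * I) = 0 := (hF.analyticAt _).analyticOrderAt_eq_zero.2 (by simpa using hF1)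
    rw [analyticOrderNatAt, h1]
    rfl
  have hfin := ((((hlim 0).const_sub 1).const_mul 3).add (((hlim2 t ht).sub (hlim t)).const_mul 4)).add
    ((hlim2 (2 * t) (by simpa using ht)).sub (hlim (2 * t)))
  have h5 := ge_of_tendsto hfin (by
    filter_upwards [self_mem_nhdsWithin] with σ hσ
    exact key σ hσ)
  rw [h0, ← hm, ← hk] at h5
  have h6 : (1 : ℝ) ≤ m := by exact_mod_cast hm1
  have h7 : (0 : ℝ) ≤ k := Nat.cast_nonneg k
  push_cast at h5
  linarith

end Pool.Agent.U544.LI
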