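import Pool.Agent.R362.NearOrd3
import Pool.Agent.U544.LI.Gro2
import Pool.Agent.U544.LI.Crit
import Pool.Agent.U544.LI.Line

/-!
# The Dedekind zeta function of a number field
-/

set_option autoImplicit false

open Complex Filter Topology Metric Finset MeasureTheory Set NumberField
open scoped ComplexConjugate

namespace Pool.Agent.U544.LI

open Pool.Agent.Y773 Pool.Agent.Y773.G Pool.Agent.R362.Near Pool.Agent.R362.HL

variable (E : Type) [Field E] [NumberField E]

/-- the completed zeta function -/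
noncomputable def xiE : ℂ → ℂ := (exists_xi E).choose

lemma xiE_spec : IsXi E (xiE E) := (exists_xi E).choose_spec

/-- the entire function `(s - 1) ζ_E(s)` -/
noncomputable def ZD : ℂ → ℂ := dslope (fun s => xiE E s * Pool.Agent.R362.Near.inf E s) 0

lemma infE_zero : Pool.Agent.R362.Near.inf E 0 = 0 := by
  unfold Pool.Agent.R362.Near.inf
  refine mul_eq_zero_of_right _ ?_
  obtain ⟨w⟩ : Nonempty (InfinitePlace E) := inferInstance
  refine Finset.prod_eq_zero (Finset.mem_univ w.embedding) ?_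
  have : ex (fun _ : InfinitePlace E => 0) w.embedding = 0 := by
    unfold ex
    rw [InfinitePlace.mk_embedding]
    simp
  rw [this, Nat.cast_zero, add_zero, inv_eq_zero, Gammaℝ_eq_zero_iff]
  exact ⟨0, by simp⟩

lemma ZD_diff : Differentiable ℂ (ZD E) := by
  have h1 : Differentiable ℂ fun s => xiE E s * Pool.Agent.R362.Near.inf E s := (xiE_spec E).diff.mul inf_diff
  have h2 := (Complex.differentiableOn_dslope (s := Set.univ) (c := 0) (f := fun s => xiE E s * Pool.Agent.R362.Near.inf E s)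
    Filter.univ_mem).2 h1.differentiableOn
  exact differentiableOn_univ.1 h2

lemma ZD_mul (s : ℂ) : s * ZD E s = xiE E s * Pool.Agent.R362.Near.inf E s := by
  have h := sub_smul_dslope (fun s => xiE E s * Pool.Agent.R362.Near.inf E s) 0 s
  rw [infE_zero, mul_zero, sub_zero, sub_zero, smul_eq_mul] at h
  exact h

lemma ZD_LI {s : ℂ} (hs : 1 < s.re) : ZD E s = (s - 1) * LI (triv E) s := by
  have hs0 : s ≠ 0 := fun h => by rw [h] at hs; norm_num at hs
  have h := ZD_mul E s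
  have h2 := (xiE_spec E).eq s hs
  have hR : ((((discr E).natAbs : ℕ) : ℝ) : ℂ) ≠ 0 := by
    have := NumberField.discr_ne_zero E
    have h1 : (discr E).natAbs ≠ 0 := Int.natAbs_ne_zero.2 this
    exact_mod_cast h1
  rw [h2, Pool.Agent.R362.Near.inf, Finset.prod_inv_distrib, Complex.cpow_neg, pow_one] at h
  have hp : ∏ φ : E →+* ℂ, Gammaℝ (s + (ex (fun _ : InfinitePlace E => 0) φ : ℕ)) ≠ 0 :=
    Finset.prod_ne_zero_iff.2 fun φ _ => Gammaℝ_ne_zero_of_re_pos (by
      rw [Complex.add_re, Complex.natCast_re]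
      have : (0 : ℝ) ≤ (ex (fun _ : InfinitePlace E => 0) φ : ℕ) := Nat.cast_nonneg _
      linarith)
  have hc : ((((discr E).natAbs : ℕ) : ℝ) : ℂ) ^ (s / 2) ≠ 0 := by
    rw [Ne, Complex.cpow_eq_zero_iff]
    exact fun h => hR h.1
  have h3 : s * ZD E s = s * ((s - 1) * LI (triv E) s) := by
    rw [h]
    field_simp
  exact mul_left_cancel₀ hs0 h3

/-! ### growth -/

lemma gw_inf : Gw Set.univ (Pool.Agent.R362.Near.inf E) := by
  have hR : ((((discr E).natAbs : ℕ) : ℝ) : ℂ) ≠ 0 := by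
    have := NumberField.discr_ne_zero E
    have h1 : (discr E).natAbs ≠ 0 := Int.natAbs_ne_zero.2 this
    exact_mod_cast h1
  unfold Pool.Agent.R362.Near.inf
  have g1 : Gw Set.univ (fun s : ℂ => ((((discr E).natAbs : ℕ) : ℝ) : ℂ) ^ (-(s / 2))) := by
    have := (gw_cpow (U := Set.univ) hR).comp_aff (V := Set.univ) 0 (-(1 / 2)) (fun _ _ => Set.mem_univ _)
    refine this.congr fun s _ => ?_
    congr 1
    ring
  refine g1.mul (Gw.prod _ fun φ _ => ?_)
  set k : ℂ := ((ex (fun _ : InfinitePlace E => 0) φ : ℕ) : ℂ) with hk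
  have g3 : Gw Set.univ (fun s => (Real.pi : ℂ) ^ (k / 2 + 1 / 2 * s)) :=
    (gw_cpow (U := Set.univ) pi_ne).comp_aff (V := Set.univ) (k / 2) (1 / 2) (fun _ _ => Set.mem_univ _)
  have g4 : Gw Set.univ (fun s => (Gamma (k / 2 + 1 / 2 * s))⁻¹) :=
    (gw_rgamma (U := Set.univ)).comp_aff (k / 2) (1 / 2) (fun _ _ => Set.mem_univ _)
  refine (g3.mul g4).congr fun s _ => ?_
  rw [Gammaℝ_def, mul_inv, ← Complex.cpow_neg]
  congr 2
  · ring
  · congr 1
    ring

lemma gw_xi : Gw Set.univ (xiE E) := by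
  obtain ⟨c, hc0, hc⟩ := (xiE_spec E).rot
  obtain ⟨K, hK, h⟩ := (xiE_spec E).gr hc
  have g1 : Gw Set.univ (fun z => c * xiE E (1 / 2 + z)) := ⟨K, hK.le, fun s _ => h s⟩
  have g2 := ((g1.comp_aff (V := Set.univ) (-(1 / 2)) 1 (fun _ _ => Set.mem_univ _)).mul (Gw.const c⁻¹))
  refine g2.congr fun s _ => ?_
  rw [show (1 / 2 : ℂ) + (-(1 / 2) + 1 * s) = s by ring]
  field_simp

lemma gw_ZD : Gw Set.univ (ZD E) := by
  have h0 := (gw_xi E).mul (gw_inf E)
  have h1 : Gw {s : ℂ | 1 ≤ ‖s‖} (ZD E) := by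
    obtain ⟨K, hK, h⟩ := h0
    refine ⟨K, hK, fun s hs => ?_⟩
    have hs : 1 ≤ ‖s‖ := hs
    have : ‖xiE E s * Pool.Agent.R362.Near.inf E s‖ ≤ Real.exp (K * (1 + ‖s‖) ^ (3 / 2 : ℝ)) := h s (Set.mem_univ _)
    rw [← ZD_mul, norm_mul] at this
    refine le_trans ?_ this
    exact le_mul_of_one_le_left (norm_nonneg _) hs
  have h2 : Gw (closedBall (0:ℂ) 1) (ZD E) := by
    obtain ⟨C, hC⟩ := (isCompact_closedBall (0:ℂ) 1).exists_bound_of_continuousOn (ZD_diff E).continuous.continuousOn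
    exact Gw.of_bdd hC
  refine (h1.union h2).mono fun s _ => ?_
  rcases le_total 1 ‖s‖ with h3 | h3
  · exact Or.inl h3
  · exact Or.inr (by simpa [mem_closedBall, dist_eq_norm] using h3)

/-! ### symmetry -/

lemma inf_conj (s : ℂ) : Pool.Agent.R362.Near.inf E (conj s) = conj (Pool.Agent.R362.Near.inf E s) := by
  have hR : (0 : ℝ) < (((discr E).natAbs : ℕ) : ℝ) := by linarith [(xiE_spec E).one_le]
  unfold Pool.Agent.R362.Near.inf
  have h2 : conj (2 : ℂ) = 2 := Complex.conj_ofNat 2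
  rw [map_mul, map_prod, conj_cpow_real hR, map_neg, map_div₀, h2]
  congr 1
  refine Finset.prod_congr rfl fun φ _ => ?_
  rw [map_inv₀, ← GammaR_conj, map_add, Complex.conj_natCast]

lemma ZD_conj (s : ℂ) : ZD E (conj s) = conj (ZD E s) := by
  have key : ∀ s : ℂ, s ≠ 0 → ZD E (conj s) = conj (ZD E s) := by
    intro s hs
    have hs' : conj s ≠ 0 := by simpa using hs
    have h1 := ZD_mul E (conj s)
    rw [(xiE_spec E).conj, inf_conj, ← map_mul, ← ZD_mul, map_mul] at h1
    exact mul_left_cancel₀ hs' h1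
  by_cases hs : s = 0
  · subst hs
    have hc : Continuous fun s : ℂ => ZD E (conj s) - conj (ZD E s) := by
      have := (ZD_diff E).continuous
      fun_prop
    have h2 : Tendsto (fun s : ℂ => ZD E (conj s) - conj (ZD E s)) (𝓝[≠] 0)
        (𝓝 (ZD E (conj (0:ℂ)) - conj (ZD E 0))) := (hc.tendsto 0).mono_left nhdsWithin_le_nhds
    have h3 : Tendsto (fun s : ℂ => ZD E (conj s) - conj (ZD E s)) (𝓝[≠] 0) (𝓝 0) := by
      refine tendsto_const_nhds.congr' ?_
      filter_upwards [self_mem_nhdsWithin] with t ht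
      rw [key t ht, sub_self]
    exact sub_eq_zero.1 (tendsto_nhds_unique h2 h3)
  · exact key s hs

lemma ZD_symm {s : ℂ} (h0 : 0 < s.re) (h1 : s.re < 1) (hs : ZD E s = 0) : ZD E (1 - s) = 0 := by
  have h2 := ZD_mul E s
  rw [hs, mul_zero] at h2
  have h3 : xiE E s = 0 := (mul_eq_zero.1 h2.symm).resolve_right (inf_ne h0)
  obtain ⟨w, hw, hfe⟩ := (xiE_spec E).fe
  have h4 := hfe s
  rw [h3] at h4
  have hw0 : w ≠ 0 := by
    intro h
    rw [h, norm_zero] at hw
    exact zero_ne_one hw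
  have h5 := (mul_eq_zero.1 h4.symm).resolve_left hw0
  have h6 : (1 : ℂ) - conj s = conj (1 - s) := by rw [map_sub, map_one]
  rw [h6, (xiE_spec E).conj, Complex.conj_conj] at h5
  have h7 := ZD_mul E (1 - s)
  rw [h5, zero_mul] at h7
  refine (mul_eq_zero.1 h7).resolve_left ?_
  intro h8
  have := congrArg Complex.re h8
  simp at this
  linarith

/-! ### the coefficients -/

/-- `Λ_E(n)`: the sum of the von Mangoldt function over the ideals of norm `n` -/
noncomputable def LE (n : ℕ) : ℝ := ∑ᶠ 𝔞 ∈ {𝔞 : Ideal (𝓞 E) | Ideal.absNorm 𝔞 = n}, VM 𝔞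

lemma VM_bot : VM (⊥ : Ideal (𝓞 E)) = 0 := by
  unfold VM
  rw [if_neg]
  intro h
  exact h.ne_zero rfl

lemma LE_cc (n : ℕ) : (LE E n : ℂ) = cc (triv E) n * (ArithmeticFunction.vonMangoldt n : ℂ) := by
  rw [Pool.Agent.Y772.DK.cc_mul]
  have hfin := Pool.Agent.Y772.DK.NN_finite (K := E) n
  have e1 : LE E n = ∑ 𝔞 ∈ hfin.toFinset, VM 𝔞 := by
    unfold LE
    exact finsum_mem_eq_finite_toFinset_sum _ hfin
  rw [e1, finsum_mem_eq_finite_toFinset_sum _ hfin, Complex.ofReal_sum]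
  refine Finset.sum_congr rfl fun 𝔞 _ => ?_
  by_cases h : 𝔞 = ⊥
  · rw [h, VM_bot]; simp
  · rw [triv_apply h, mul_one]

lemma LE_nonneg (n : ℕ) : 0 ≤ LE E n :=
  finsum_nonneg fun 𝔞 => finsum_nonneg fun _ => Pool.Agent.Y772.DK.VM_nonneg 𝔞

lemma LE_zero : LE E 0 = 0 := by
  have h := LE_cc E 0
  rw [ArithmeticFunction.map_zero, Complex.ofReal_zero, mul_zero] at h
  exact_mod_cast h

lemma LE_le (n : ℕ) : LE E n ≤ Module.finrank ℚ E * ArithmeticFunction.vonMangoldt n := by
  have h1 := Pool.Agent.Y772.DK.norm_cc_le (triv E) triv_norm n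
  have h2 : ‖(LE E n : ℂ)‖ = LE E n := by rw [Complex.norm_real, Real.norm_of_nonneg (LE_nonneg E n)]
  rw [← h2, LE_cc, norm_mul, Complex.norm_real, Real.norm_of_nonneg ArithmeticFunction.vonMangoldt_nonneg]
  exact mul_le_mul_of_nonneg_right h1 ArithmeticFunction.vonMangoldt_nonneg

lemma LE_summ {σ : ℝ} (hσ : 1 < σ) : Summable fun n : ℕ => LE E n * (n:ℝ) ^ (-σ) := by
  have h1 := (ArithmeticFunction.LSeriesSummable_vonMangoldt (s := (σ : ℂ)) (by rw [ofReal_re]; exact hσ)).norm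
  have h2 : Summable fun n : ℕ => ArithmeticFunction.vonMangoldt n * (n : ℝ) ^ (-σ) := by
    refine h1.congr fun n => ?_
    rw [LSeries.norm_term_eq]
    rcases eq_or_ne n 0 with rfl | hn
    · simp
    · rw [if_neg hn, Complex.norm_real, Real.norm_of_nonneg ArithmeticFunction.vonMangoldt_nonneg,
        Complex.ofReal_re, Real.rpow_neg (Nat.cast_nonneg n), div_eq_mul_inv]
  refine Summable.of_nonneg_of_le (fun n => mul_nonneg (LE_nonneg E n) (by positivity)) (fun n => ?_)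
    (h2.mul_left (Module.finrank ℚ E : ℝ))
  rw [← mul_assoc]
  exact mul_le_mul_of_nonneg_right (LE_le E n) (by positivity)

lemma ZD_ld {s : ℂ} (hs : 1 < s.re) : logDeriv (ZD E) s = 1 / (s - 1) -
    ∑' n : ℕ, (LE E n : ℂ) * (n:ℂ) ^ (-s) := by
  have hs1 : s ≠ 1 := by rintro rfl; simp at hs
  obtain ⟨A', hA', hd⟩ := Pool.Agent.Y772.DK.t_dirK E
  obtain ⟨-, hdif, hne, hld, -⟩ := hd (triv E) triv_norm
  have hev : ZD E =ᶠ[𝓝 s] fun s => (s - 1) * LI (triv E) s := by
    filter_upwards [(isOpen_lt continuous_const Complex.continuous_re).mem_nhds hs] with z hz using ZD_LI E hz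
  rw [logDeriv_apply, hev.deriv_eq, hev.eq_of_nhds, ← logDeriv_apply (f := fun s => (s - 1) * LI (triv E) s),
    logDeriv_mul (f := fun s => s - 1) (g := LI (triv E)) s (sub_ne_zero.2 hs1) (hne s hs) (by fun_prop) (hdif s hs),
    logDeriv_apply (f := LI (triv E)), hld s hs, ← sub_eq_add_neg]
  congr 1
  · rw [logDeriv_apply]
    simp
  · refine tsum_congr fun n => ?_
    rw [LE_cc]

/-! ### no zeros on the line -/

lemma ZD_one : ZD E 1 ≠ 0 := by
  have h1 : Tendsto (fun σ : ℝ => ZD E σ) (𝓝[>] 1) (𝓝 (ZD E 1)) := by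
    have := ((ZD_diff E).continuous.comp Complex.continuous_ofReal).tendsto 1
    simp only [Function.comp_apply, Complex.ofReal_one] at this
    exact this.mono_left nhdsWithin_le_nhds
  have h2 : Tendsto (fun σ : ℝ => ZD E σ) (𝓝[>] 1) (𝓝 (dedekindZeta_residue E)) := by
    refine (tendsto_sub_one_mul_dedekindZeta_nhdsGT E).congr' ?_
    filter_upwards [self_mem_nhdsWithin] with σ hσ
    have hσ' : 1 < (σ : ℂ).re := by rw [Complex.ofReal_re]; exact hσ
    rw [ZD_LI E hσ', LI_zeta hσ']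
  rw [tendsto_nhds_unique h1 h2]
  exact_mod_cast (dedekindZeta_residue_pos E).ne'

lemma ZD_ne {s : ℂ} (hs : 1 ≤ s.re) : ZD E s ≠ 0 := by
  rcases hs.lt_or_eq with h | h
  · have hs1 : s ≠ 1 := by rintro rfl; simp at h
    obtain ⟨A', hA', hd⟩ := Pool.Agent.Y772.DK.t_dirK E
    obtain ⟨-, -, hne, -⟩ := hd (triv E) triv_norm
    rw [ZD_LI E h]
    exact mul_ne_zero (sub_ne_zero.2 hs1) (hne s h)
  · have h1 := line_ne (t := s.im) (ZD_diff E) (ZD_one E) (LE_nonneg E) (LE_zero E) (fun σ hσ => LE_summ E hσ)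
      (fun s hs => ZD_ld E hs)
    have e : (1 : ℂ) + s.im * I = s := by
      apply Complex.ext
      · simp [← h]
      · simp
    rwa [e] at h1

/-- **the data of a number field** -/
theorem ld_ded : LD (fun z => ZD E (1 / 2 + z)) (LE E) 1 where
  diff := (ZD_diff E).comp (by fun_prop)
  gr := by
    obtain ⟨K, hK, h⟩ := (gw_ZD E).comp_aff (V := Set.univ) (1 / 2) 1 (fun _ _ => Set.mem_univ _)
    refine ⟨K, hK, fun z => ?_⟩
    have := h z (Set.mem_univ _)
    simp only [one_mul] at this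
    exact this
  real := by
    intro z
    show ZD E (1 / 2 + conj z) = conj (ZD E (1 / 2 + z))
    rw [← ZD_conj, map_add]
    congr 2
    rw [show (1 / 2 : ℂ) = ((1 / 2 : ℝ) : ℂ) by push_cast; ring, Complex.conj_ofReal]
  nonneg := LE_nonneg E
  zero := LE_zero E
  summ := fun σ hσ => LE_summ E hσ
  ne := by
    intro z hz
    refine ZD_ne E ?_
    simp
    linarith
  ld := by
    intro z hz
    have h1 : logDeriv (fun z => ZD E (1 / 2 + z)) z = logDeriv (ZD E) (1 / 2 + z) := by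
      rw [logDeriv_apply, logDeriv_apply, deriv_comp_const_add]
    rw [h1, ZD_ld E (by simp; linarith)]
    congr 1
    rw [show (1:ℂ) / 2 + z - 1 = z - 1 / 2 by ring]
    simp
  symm := by
    intro w hw h1
    rw [abs_lt] at h1
    have := ZD_symm E (s := 1 / 2 + w) (by simp; linarith) (by simp; linarith) hw
    rw [← this]
    congr 1
    ring

end Pool.Agent.U544.LI
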