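import Pool.Agent.U544.LI.Gro2
import Pool.Agent.U544.LI.Crit
import Pool.Agent.H370R2.DirGood

/-!
# The product of the Dirichlet L-functions modulo `q`
-/

set_option autoImplicit false

open Complex Filter Topology Metric Finset MeasureTheory Set
open scoped ComplexConjugate
open DirichletCharacter ArithmeticFunction.vonMangoldt

namespace Pool.Agent.U544.LI

variable {q : ℕ} [NeZero q]

lemma euler_ne {N : ℕ} (χ : DirichletCharacter ℂ N) {p : ℕ} (hp : p.Prime) {s : ℂ} (hs : 0 < s.re) :
    1 - χ p * (p:ℂ) ^ (-s) ≠ 0 := by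
  intro h
  have h1 : χ p * (p:ℂ) ^ (-s) = 1 := by linear_combination -h
  have h2 := congrArg norm h1
  rw [norm_mul, norm_one, Complex.norm_natCast_cpow_of_pos hp.pos] at h2
  have h3 : ‖χ p‖ ≤ 1 := DirichletCharacter.norm_le_one χ p
  have h4 : (p:ℝ) ^ (-s).re < 1 := Real.rpow_lt_one_of_one_lt_of_neg (by exact_mod_cast hp.one_lt) (by simpa using hs)
  have h5 : 0 < (p:ℝ) ^ (-s).re := Real.rpow_pos_of_pos (by exact_mod_cast hp.pos) _
  nlinarith [norm_nonneg (χ p)]

lemma gf_ne {N : ℕ} (χ : DirichletCharacter ℂ N) {s : ℂ} (hs : 0 < s.re) : gammaFactor χ s ≠ 0 := by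
  rcases χ.even_or_odd with h | h
  · rw [h.gammaFactor_def]
    exact Gammaℝ_ne_zero_of_re_pos hs
  · rw [h.gammaFactor_def]
    exact Gammaℝ_ne_zero_of_re_pos (by simp; linarith)

lemma symm_prim {N : ℕ} [NeZero N] {χ : DirichletCharacter ℂ N} (hχ : χ.IsPrimitive) {s : ℂ} (h0 : 0 < s.re)
    (h1 : s.re < 1) (hs : LFunction χ s = 0) : LFunction χ⁻¹ (1 - s) = 0 := by
  have hs0 : s ≠ 0 := by rintro rfl; simp at h0
  have hs1 : 1 - s ≠ 0 := by
    intro h
    have := congrArg Complex.re h
    simp at this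
    linarith
  rw [LFunction_eq_completed_div_gammaFactor χ s (Or.inl hs0)] at hs
  have e1 : completedLFunction χ s = 0 := by
    rcases div_eq_zero_iff.1 hs with h | h
    · exact h
    · exact absurd h (gf_ne χ h0)
  have e2 := hχ.completedLFunction_one_sub (1 - s)
  rw [sub_sub_cancel, e1] at e2
  have e3 : completedLFunction χ⁻¹ (1 - s) = 0 := by
    rcases mul_eq_zero.1 e2.symm with h | h
    · rcases mul_eq_zero.1 h with h | h
      · rw [cpow_eq_zero_iff] at h
        exact absurd h.1 (NeZero.ne _)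
      · exact absurd h (H370.DL.rootNumber_ne_zero hχ)
    · exact h
  rw [LFunction_eq_completed_div_gammaFactor χ⁻¹ (1 - s) (Or.inl hs1), e3, zero_div]

/-- the symmetry of the zeros -/
lemma symm_all (χ : DirichletCharacter ℂ q) {s : ℂ} (h0 : 0 < s.re) (h1 : s.re < 1) (hs : LFunction χ s = 0) :
    LFunction χ⁻¹ (1 - s) = 0 := by
  have hs1 : s ≠ 1 := by rintro rfl; simp at h1
  have hs1' : 1 - s ≠ 1 := by
    intro h
    have h2 : s = 0 := by linear_combination -h
    rw [h2] at h0
    simp at h0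
  have hc0 : NeZero χ.conductor := ⟨fun h => by
    have := χ.conductor_dvd_level
    rw [h, Nat.zero_dvd] at this
    exact NeZero.ne q this⟩
  have e : LFunction χ s = LFunction χ.primitiveCharacter s *
      ∏ p ∈ q.primeFactors, (1 - χ.primitiveCharacter p * (p:ℂ) ^ (-s)) := by
    conv_lhs => rw [← χ.changeLevel_primitiveCharacter]
    exact LFunction_changeLevel _ _ (Or.inr hs1)
  rw [e] at hs
  have hz : LFunction χ.primitiveCharacter s = 0 := by
    rcases mul_eq_zero.1 hs with h | h
    · exact h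
    · rw [Finset.prod_eq_zero_iff] at h
      obtain ⟨p, hp, h⟩ := h
      exact absurd h (euler_ne _ (Nat.prime_of_mem_primeFactors hp) h0)
  have h2 := symm_prim χ.primitiveCharacter_isPrimitive h0 h1 hz
  have e2 : χ⁻¹ = changeLevel χ.conductor_dvd_level (χ.primitiveCharacter)⁻¹ := by
    rw [map_inv, χ.changeLevel_primitiveCharacter]
  rw [e2, LFunction_changeLevel _ _ (Or.inr hs1'), h2, zero_mul]

variable (q)

/-- the product of the L-functions -/
noncomputable def FF (s : ℂ) : ℂ := by
  classical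
  exact LFunctionTrivChar₁ q s * ∏ χ ∈ ({1}ᶜ : Finset (DirichletCharacter ℂ q)), LFunction χ s

/-- centred at `1/2` -/
noncomputable def ff (z : ℂ) : ℂ := FF q (1 / 2 + z)

variable {q}

lemma triv_eq {s : ℂ} (hs : s ≠ 1) : LFunctionTrivChar₁ q s = (s - 1) * LFunction (1 : DirichletCharacter ℂ q) s := by
  rw [LFunctionTrivChar₁, Function.update_of_ne hs]

lemma FF_eq {s : ℂ} (hs : s ≠ 1) : FF q s = (s - 1) * ∏ χ : DirichletCharacter ℂ q, LFunction χ s := by
  classical
  unfold FF
  rw [triv_eq hs, mul_assoc, Fintype.prod_eq_mul_prod_compl (1 : DirichletCharacter ℂ q) (fun χ => LFunction χ s)]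

lemma FF_diff : Differentiable ℂ (FF q) := by
  classical
  unfold FF
  refine (differentiable_LFunctionTrivChar₁ q).mul ?_
  refine Differentiable.fun_finsetProd fun χ hχ => ?_
  exact differentiable_LFunction (by simpa using hχ)

lemma FF_ne {s : ℂ} (hs : 1 ≤ s.re) : FF q s ≠ 0 := by
  classical
  unfold FF
  refine mul_ne_zero ?_ (Finset.prod_ne_zero_iff.2 fun χ hχ =>
    LFunction_ne_zero_of_one_le_re χ (Or.inl (by simpa using hχ)) hs)
  by_cases h : s = 1
  · rw [h]
    exact LFunctionTrivChar₁_apply_one_ne_zero q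
  · rw [triv_eq h]
    exact mul_ne_zero (sub_ne_zero.2 h) (LFunction_ne_zero_of_one_le_re 1 (Or.inr h) hs)

lemma FF_conj (s : ℂ) : FF q (conj s) = conj (FF q s) := by
  by_cases hs : s = 1
  · subst hs
    have hc : Continuous fun s : ℂ => FF q (conj s) - conj (FF q s) := by
      have := (FF_diff (q := q)).continuous
      fun_prop
    have h1 : ∀ t : ℝ, 1 < t → FF q (conj (t:ℂ)) - conj (FF q t) = 0 := by
      intro t ht
      have ht1 : (t:ℂ) ≠ 1 := by
        intro h
        have : t = 1 := by exact_mod_cast h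
        linarith
      rw [Complex.conj_ofReal, FF_eq ht1, map_mul, map_prod, sub_eq_zero]
      congr 1
      · simp
      · rw [← Equiv.prod_comp (Equiv.inv (DirichletCharacter ℂ q))]
        refine Finset.prod_congr rfl fun χ _ => ?_
        rw [Equiv.inv_apply]
        have := H370.DL.LFunction_conj χ (t:ℂ) ht1
        rw [Complex.conj_ofReal] at this
        exact this
    have h2 : Tendsto (fun t : ℝ => FF q (conj (t:ℂ)) - conj (FF q t)) (𝓝[>] 1)
        (𝓝 (FF q (conj (1:ℂ)) - conj (FF q 1))) := by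
      have := (hc.comp Complex.continuous_ofReal).tendsto 1
      simp only [Function.comp_apply, Complex.ofReal_one] at this
      exact this.mono_left nhdsWithin_le_nhds
    have h3 : Tendsto (fun t : ℝ => FF q (conj (t:ℂ)) - conj (FF q t)) (𝓝[>] 1) (𝓝 0) := by
      refine tendsto_const_nhds.congr' ?_
      filter_upwards [self_mem_nhdsWithin] with t ht
      exact (h1 t ht).symm
    exact sub_eq_zero.1 (tendsto_nhds_unique h2 h3)
  · have hs' : conj s ≠ 1 := by
      intro h
      apply hs
      rw [← Complex.conj_conj s, h, map_one]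
    rw [FF_eq hs, FF_eq hs', map_mul, map_prod]
    congr 1
    · simp
    · rw [← Equiv.prod_comp (Equiv.inv (DirichletCharacter ℂ q))]
      refine Finset.prod_congr rfl fun χ _ => ?_
      rw [Equiv.inv_apply]
      exact H370.DL.LFunction_conj χ s hs

lemma FF_symm {s : ℂ} (h0 : 0 < s.re) (h1 : s.re < 1) (hs : FF q s = 0) : FF q (1 - s) = 0 := by
  have hs1 : s ≠ 1 := by rintro rfl; simp at h1
  have hs1' : 1 - s ≠ 1 := by
    intro h
    have h2 : s = 0 := by linear_combination -h
    rw [h2] at h0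
    simp at h0
  rw [FF_eq hs1] at hs
  rw [FF_eq hs1']
  rcases mul_eq_zero.1 hs with h | h
  · exact absurd (sub_eq_zero.1 h) hs1
  · obtain ⟨χ, -, h⟩ := Finset.prod_eq_zero_iff.1 h
    rw [Finset.prod_eq_zero (Finset.mem_univ χ⁻¹) (symm_all χ h0 h1 h), mul_zero]

lemma FF_gw : Gw Set.univ (FF q) := by
  classical
  unfold FF
  have h1 : Gw Set.univ (LFunctionTrivChar₁ q) := by
    have := gw_LFunction (fun j => (1 : DirichletCharacter ℂ q) j)
    have h2 := (this.mono (subset_univ ({1}ᶜ : Set ℂ))).union (gw_pt (fun s => (s - 1) * ZMod.LFunction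
      (fun j => (1 : DirichletCharacter ℂ q) j) s) 1)
    have h3 : Gw ({1}ᶜ : Set ℂ) (LFunctionTrivChar₁ q) :=
      (this.mono (subset_univ _)).congr fun s hs => triv_eq hs
    refine (h3.union (gw_pt _ 1)).mono fun s _ => ?_
    by_cases h : s = 1
    · exact Or.inr h
    · exact Or.inl h
  refine h1.mul (Gw.prod _ fun χ hχ => ?_)
  exact gw_div (differentiable_LFunction (by simpa using hχ)).continuous (gw_LFunction fun j => χ j)

/-- the coefficients -/
noncomputable def Lq (q : ℕ) (n : ℕ) : ℝ := q.totient * residueClass (1 : ZMod q) n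

lemma Lq_apply (n : ℕ) : Lq q n = if (n : ZMod q) = 1 then (q.totient : ℝ) * ArithmeticFunction.vonMangoldt n else 0 := by
  unfold Lq residueClass
  by_cases h : (n : ZMod q) = 1
  · rw [Set.indicator_of_mem (by simpa using h), if_pos h]
  · rw [Set.indicator_of_notMem (by simpa using h), if_neg h, mul_zero]

lemma ld_aux {s : ℂ} (hs : 1 < s.re) : logDeriv (FF q) s = 1 / (s - 1) -
    ∑' n : ℕ, (Lq q n : ℂ) * (n:ℂ) ^ (-s) := by
  have hφ : (q.totient : ℂ) ≠ 0 := by exact_mod_cast (Nat.totient_pos.2 (NeZero.pos q)).ne'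
  have hs1 : s ≠ 1 := by rintro rfl; simp at hs
  have h1 := LSeries_residueClass_eq (a := (1 : ZMod q)) isUnit_one hs
  have hne : ∀ χ ∈ (Finset.univ : Finset (DirichletCharacter ℂ q)), LFunction χ s ≠ 0 := fun χ _ =>
    LFunction_ne_zero_of_one_le_re χ (Or.inr hs1) hs.le
  have hd : ∀ χ ∈ (Finset.univ : Finset (DirichletCharacter ℂ q)), DifferentiableAt ℂ (LFunction χ) s := fun χ _ =>
    differentiableAt_LFunction χ s (Or.inl hs1)
  have hev : FF q =ᶠ[𝓝 s] fun s => (s - 1) * ∏ χ : DirichletCharacter ℂ q, LFunction χ s := by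
    filter_upwards [isOpen_ne.mem_nhds hs1] with z hz using FF_eq hz
  have e1 : logDeriv (FF q) s = 1 / (s - 1) + ∑ χ : DirichletCharacter ℂ q, logDeriv (LFunction χ) s := by
    rw [logDeriv_apply, hev.deriv_eq, hev.eq_of_nhds, ← logDeriv_apply (f := fun s => (s - 1) *
      ∏ χ : DirichletCharacter ℂ q, LFunction χ s),
      logDeriv_mul (f := fun s => s - 1) (g := fun s => ∏ χ : DirichletCharacter ℂ q, LFunction χ s) s
      (sub_ne_zero.2 hs1) (Finset.prod_ne_zero_iff.2 hne) (by fun_prop) (DifferentiableAt.fun_finsetProd hd),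
      logDeriv_prod (s := (Finset.univ : Finset (DirichletCharacter ℂ q))) (f := fun χ => LFunction χ) (x := s) hne hd]
    congr 1
    rw [logDeriv_apply]
    simp
  have e2 : LSeries (fun n => ((residueClass (1 : ZMod q) n : ℝ) : ℂ)) s =
      (q.totient : ℂ)⁻¹ * ∑' n : ℕ, (Lq q n : ℂ) * (n:ℂ) ^ (-s) := by
    rw [LSeries, ← tsum_mul_left]
    refine tsum_congr fun n => ?_
    rcases Nat.eq_zero_or_pos n with rfl | hn
    · simp [Lq, residueClass_apply_zero]
    rw [LSeries.term_of_ne_zero hn.ne', Complex.cpow_neg, Lq]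
    push_cast
    field_simp
  have e3 : ∀ χ : DirichletCharacter ℂ q, χ (1 : ZMod q)⁻¹ = 1 := by
    intro χ
    rw [ZMod.inv_one, map_one]
  have h2 : LSeries (fun n => ((residueClass (1 : ZMod q) n : ℝ) : ℂ)) s =
      -(q.totient : ℂ)⁻¹ * ∑ χ : DirichletCharacter ℂ q, logDeriv (LFunction χ) s := by
    rw [h1]
    congr 1
    refine Finset.sum_congr rfl fun χ _ => ?_
    rw [e3, one_mul, logDeriv_apply]
  rw [e2] at h2
  have h3 : ∑' n : ℕ, (Lq q n : ℂ) * (n:ℂ) ^ (-s) = -∑ χ : DirichletCharacter ℂ q, logDeriv (LFunction χ) s := by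
    have := congrArg (fun x => (q.totient : ℂ) * x) h2
    simp only [← mul_assoc, mul_neg, mul_inv_cancel₀ hφ, one_mul, neg_mul] at this
    exact this
  rw [e1, h3]
  ring

lemma Lq_summ {σ : ℝ} (hσ : 1 < σ) : Summable fun n : ℕ => Lq q n * (n:ℝ) ^ (-σ) := by
  have h1 : LSeriesSummable (fun n => ((residueClass (1 : ZMod q) n : ℝ) : ℂ)) (σ : ℂ) :=
    LSeriesSummable_of_abscissaOfAbsConv_lt_re
      ((abscissaOfAbsConv_residueClass_le_one (1 : ZMod q)).trans_lt (by exact_mod_cast hσ))
  have h2 := (summable_norm_iff.2 h1).mul_left (q.totient : ℝ)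
  refine h2.congr fun n => ?_
  rcases Nat.eq_zero_or_pos n with rfl | hn
  · simp [Lq, residueClass_apply_zero]
  rw [LSeries.term_of_ne_zero hn.ne', norm_div, Complex.norm_natCast_cpow_of_pos hn, Complex.norm_real,
    Real.norm_of_nonneg (residueClass_nonneg _ n), Lq, Complex.ofReal_re, Real.rpow_neg (by positivity)]
  ring

/-- **the data of `q`** -/
theorem ld_q : LD (ff q) (Lq q) 1 where
  diff := FF_diff.comp (by fun_prop)
  gr := by
    obtain ⟨K, hK, h⟩ := (FF_gw (q := q)).comp_aff (V := Set.univ) (1 / 2) 1 (fun _ _ => Set.mem_univ _)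
    refine ⟨K, hK, fun z => ?_⟩
    have := h z (Set.mem_univ _)
    simp only [one_mul] at this
    exact this
  real := by
    intro z
    unfold ff
    rw [← FF_conj, map_add]
    congr 2
    rw [show (1 / 2 : ℂ) = ((1 / 2 : ℝ) : ℂ) by push_cast; ring, Complex.conj_ofReal]
  nonneg := fun n => mul_nonneg (Nat.cast_nonneg _) (residueClass_nonneg _ n)
  zero := by simp [Lq, residueClass_apply_zero]
  summ := fun σ hσ => Lq_summ hσ
  ne := by
    intro z hz
    unfold ff
    refine FF_ne ?_
    simp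
    linarith
  ld := by
    intro z hz
    have h1 : logDeriv (ff q) z = logDeriv (FF q) (1 / 2 + z) := by
      unfold ff
      rw [logDeriv_apply, logDeriv_apply, deriv_comp_const_add]
    rw [h1, ld_aux (by simp; linarith)]
    congr 1
    rw [show (1:ℂ) / 2 + z - 1 = z - 1 / 2 by ring]
    simp
  symm := by
    intro w hw h1
    unfold ff at *
    rw [abs_lt] at h1
    have := FF_symm (q := q) (s := 1 / 2 + w) (by simp; linarith) (by simp; linarith) hw
    rw [← this]
    congr 1
    ring

end Pool.Agent.U544.LI
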