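import Pool.Agent.U544.LI.Lap

/-!
# The explicit formula
-/

set_option autoImplicit false

open Complex Filter Topology Metric Finset MeasureTheory Set
open scoped ComplexConjugate FourierTransform

namespace Pool.Agent.U544.LI

/-- uniqueness of Laplace transforms -/
lemma uniq {G : ℝ → ℂ} (hc : ContinuousOn G (Ioi 0))
    (hi : IntegrableOn (fun u : ℝ => G u * cexp (-((2:ℂ) * u))) (Ioi 0))
    (hz : ∀ z : ℂ, z.re = 2 → ∫ u in Ioi (0:ℝ), G u * cexp (-(z * u)) = 0) {u : ℝ} (hu : 0 < u) : G u = 0 := by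
  set H : ℝ → ℂ := (Ioi (0:ℝ)).indicator fun u : ℝ => G u * cexp (-((2:ℂ) * u)) with hH
  have hHi : Integrable H := by
    rw [hH, integrable_indicator_iff measurableSet_Ioi]
    exact hi
  have hF : 𝓕 H = 0 := by
    funext ξ
    rw [Real.fourier_real_eq_integral_exp_smul]
    have e : ∀ v : ℝ, cexp ((-2 * Real.pi * v * ξ : ℝ) * I) • H v =
        (Ioi (0:ℝ)).indicator (fun v : ℝ => G v * cexp (-((2 + 2 * Real.pi * ξ * I) * v))) v := by
      intro v
      by_cases hv : v ∈ Ioi (0:ℝ)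
      · rw [hH, indicator_of_mem hv, indicator_of_mem hv, smul_eq_mul,
          show -((2 + 2 * Real.pi * ξ * I) * v) = -(2 * (v:ℂ)) + (-2 * Real.pi * v * ξ : ℝ) * I by push_cast; ring,
          Complex.exp_add]
        ring
      · rw [hH, indicator_of_notMem hv, indicator_of_notMem hv, smul_zero]
    simp_rw [e]
    rw [integral_indicator measurableSet_Ioi]
    exact hz _ (by simp)
  have hv : ContinuousAt H u := by
    have h1 : ContinuousAt (fun u : ℝ => G u * cexp (-((2:ℂ) * u))) u :=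
      (hc.continuousAt (Ioi_mem_nhds hu)).mul (by fun_prop)
    refine h1.congr ?_
    filter_upwards [Ioi_mem_nhds hu] with v hv
    rw [hH, indicator_of_mem hv]
  have h1 := hHi.fourierInv_fourier_eq (by rw [hF]; exact integrable_zero _ _ _) hv
  rw [hF] at h1
  have h2 : H u = 0 := by
    rw [← h1]
    simp [Real.fourierInv_eq]
  rw [hH, indicator_of_mem (show u ∈ Ioi (0:ℝ) from hu)] at h2
  rcases mul_eq_zero.1 h2 with h | h
  · exact h
  · exact absurd h (Complex.exp_ne_zero _)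

/-- sums of Laplace transforms -/
lemma tsum_lap {ι : Type*} [Countable ι] {F : ι → ℝ → ℂ} {b : ι → ℝ} (hb : Summable b)
    (hF : ∀ i, Continuous (F i)) (hbd : ∀ i u, 0 ≤ u → ‖F i u‖ ≤ b i * Real.exp (-u)) :
    IntegrableOn (fun u => ∑' i, F i u) (Ioi 0) ∧ ContinuousOn (fun u => ∑' i, F i u) (Ici 0) ∧
      HasSum (fun i => ∫ u in Ioi (0:ℝ), F i u) (∫ u in Ioi (0:ℝ), ∑' i, F i u) := by
  have hb0 : ∀ i, 0 ≤ b i := fun i => by
    have := hbd i 0 le_rfl
    simp only [neg_zero, Real.exp_zero, mul_one] at this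
    exact (norm_nonneg _).trans this
  have he : IntegrableOn (fun u : ℝ => Real.exp (-u)) (Ioi 0) := by
    simpa using integrableOn_exp_mul_Ioi (by norm_num : (-1:ℝ) < 0) 0
  have hcont : ContinuousOn (fun u => ∑' i, F i u) (Ici 0) := by
    refine continuousOn_tsum (fun i => (hF i).continuousOn) hb fun i u hu => ?_
    refine (hbd i u hu).trans (mul_le_of_le_one_right (hb0 i) (Real.exp_le_one_iff.2 ?_))
    have : (0:ℝ) ≤ u := hu
    linarith
  have hFi : ∀ i, IntegrableOn (F i) (Ioi 0) := by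
    intro i
    refine Integrable.mono' (he.const_mul (b i)) (hF i).aestronglyMeasurable ?_
    rw [ae_restrict_iff' measurableSet_Ioi]
    exact Eventually.of_forall fun u hu => hbd i u (le_of_lt hu)
  refine ⟨?_, hcont, ?_⟩
  · refine Integrable.mono' (he.const_mul (∑' i, b i))
      ((hcont.mono Ioi_subset_Ici_self).aestronglyMeasurable measurableSet_Ioi) ?_
    rw [ae_restrict_iff' measurableSet_Ioi]
    refine Eventually.of_forall fun u hu => ?_
    rw [← tsum_mul_right]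
    exact tsum_of_norm_bounded (hb.mul_right _).hasSum fun i => hbd i u (le_of_lt hu)
  · refine hasSum_integral_of_summable_integral_norm hFi ?_
    refine Summable.of_nonneg_of_le (fun i => integral_nonneg fun _ => norm_nonneg _) (fun i => ?_)
      (hb.mul_right (∫ u in Ioi (0:ℝ), Real.exp (-u)))
    rw [← integral_const_mul]
    refine integral_mono_ae (hFi i).norm (he.const_mul (b i)) ?_
    rw [EventuallyLE, ae_restrict_iff' measurableSet_Ioi]
    exact Eventually.of_forall fun u hu => hbd i u (le_of_lt hu)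

/-- the data -/
structure LD (f : ℂ → ℂ) (L : ℕ → ℝ) (δ : ℝ) : Prop where
  diff : Differentiable ℂ f
  gr : ∃ K : ℝ, 0 ≤ K ∧ ∀ z, ‖f z‖ ≤ Real.exp (K * (1 + ‖z‖) ^ (3 / 2 : ℝ))
  real : ∀ z, f (conj z) = conj (f z)
  nonneg : ∀ n, 0 ≤ L n
  zero : L 0 = 0
  summ : ∀ σ : ℝ, 1 < σ → Summable fun n : ℕ => L n * (n:ℝ) ^ (-σ)
  ne : ∀ z : ℂ, 1 / 2 ≤ z.re → f z ≠ 0
  ld : ∀ z : ℂ, 1 / 2 < z.re → logDeriv f z = δ / (z - 1 / 2) - ∑' n : ℕ, (L n : ℂ) * (n:ℂ) ^ (-(1 / 2 + z))
  symm : ∀ w : ℂ, f w = 0 → |w.re| < 1 / 2 → f (-w) = 0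

variable {f : ℂ → ℂ} {L : ℕ → ℝ} {δ : ℝ}

lemma mu_shift (v : ℂ) : mu (fun y => f (1 + y)) v = mu f (1 + v) := by
  unfold mu analyticOrderNatAt
  congr 1
  have h1 : AnalyticAt ℂ (fun y : ℂ => 1 + y) v := by fun_prop
  have h2 : deriv (fun y : ℂ => 1 + y) v ≠ 0 := by
    rw [deriv_const_add]
    simp
  have := analyticOrderAt_comp_of_deriv_ne_zero (f := f) h1 h2
  exact this

theorem pfrac1 (h : LD f L δ) :
    (Summable fun w : {w : ℂ // f w = 0} => (mu f w : ℝ) / (1 + ‖(w:ℂ)‖ ^ 2)) ∧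
    ∀ z, f z ≠ 0 → HasSum (fun w : {w : ℂ // f w = 0} => (mu f w : ℂ) * (1 / (z - w) - 1 / (1 - w)))
      (logDeriv f z - logDeriv f 1) := by
  obtain ⟨K, hK0, hK⟩ := h.gr
  set F : ℂ → ℂ := fun y => f (1 + y) with hF
  have hFd : Differentiable ℂ F := h.diff.comp (by fun_prop)
  have hF0 : F 0 ≠ 0 := by
    simp only [hF, add_zero]
    exact h.ne 1 (by norm_num)
  have hgr : ∀ y, ‖F y‖ ≤ Real.exp ((4 * K) * (1 + ‖y‖) ^ (3 / 2 : ℝ)) := by
    intro y
    refine (hK _).trans (Real.exp_le_exp.2 ?_)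
    have e1 : 1 + ‖1 + y‖ ≤ 2 * (1 + ‖y‖) := by
      have := norm_add_le (1:ℂ) y
      rw [norm_one] at this
      have := norm_nonneg y
      linarith
    have e2 : (1 + ‖1 + y‖) ^ (3 / 2 : ℝ) ≤ 4 * (1 + ‖y‖) ^ (3 / 2 : ℝ) := by
      refine (Real.rpow_le_rpow (by positivity) e1 (by norm_num)).trans ?_
      rw [Real.mul_rpow (by norm_num) (by positivity)]
      refine mul_le_mul_of_nonneg_right ?_ (by positivity)
      calc (2:ℝ) ^ (3 / 2 : ℝ) ≤ 2 ^ (2:ℝ) := Real.rpow_le_rpow_of_exponent_le (by norm_num) (by norm_num)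
        _ = 4 := by norm_num
    nlinarith
  let e : {v : ℂ // F v = 0} ≃ {w : ℂ // f w = 0} :=
    { toFun := fun v => ⟨1 + v, v.2⟩
      invFun := fun w => ⟨w - 1, by
        show f (1 + (w - 1)) = 0
        rw [add_sub_cancel]; exact w.2⟩
      left_inv := fun v => by ext; simp
      right_inv := fun w => by ext; simp }
  have he : ∀ v : {v : ℂ // F v = 0}, ((e v : {w : ℂ // f w = 0}) : ℂ) = 1 + v := fun v => rfl
  constructor
  · rw [← e.summable_iff]
    refine Summable.of_nonneg_of_le (fun v => by simp only [Function.comp_apply]; positivity) (fun v => ?_)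
      ((summ_w hFd hF0 (by positivity) hgr).mul_left 3)
    simp only [Function.comp_apply, he]
    rw [mu_shift, mul_div_assoc', div_le_div_iff₀ (by positivity) (by positivity)]
    have h1 : ‖(v:ℂ)‖ ≤ 1 + ‖1 + (v:ℂ)‖ := by
      have := norm_sub_le (1 + (v:ℂ)) 1
      rw [add_sub_cancel_left, norm_one] at this
      linarith
    have h2 : 1 + ‖(v:ℂ)‖ ^ 2 ≤ 3 * (1 + ‖1 + (v:ℂ)‖ ^ 2) := by
      nlinarith [norm_nonneg (v:ℂ), norm_nonneg (1 + (v:ℂ)), sq_nonneg (‖1 + (v:ℂ)‖ - 1)]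
    calc (mu f (1 + v) : ℝ) * (1 + ‖(v:ℂ)‖ ^ 2) ≤ (mu f (1 + v) : ℝ) * (3 * (1 + ‖1 + (v:ℂ)‖ ^ 2)) :=
          mul_le_mul_of_nonneg_left h2 (by positivity)
      _ = 3 * (mu f (1 + v) : ℝ) * (1 + ‖1 + (v:ℂ)‖ ^ 2) := by ring
  · intro z hz
    have hz' : F (z - 1) ≠ 0 := by
      simp only [hF, add_sub_cancel]
      exact hz
    have h1 := pfrac hFd hF0 (by positivity) hgr hz'
    have e1 : ∀ y, logDeriv F y = logDeriv f (1 + y) := by
      intro y
      simp only [hF, logDeriv_apply]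
      rw [deriv_comp_const_add]
    rw [e1, e1, add_sub_cancel, add_zero] at h1
    rw [← e.hasSum_iff]
    refine h1.congr_fun ?_ |> fun h => h
    intro v
    simp only [Function.comp_apply, he]
    rw [mu_shift]
    congr 1
    rw [show z - 1 - (v:ℂ) = z - (1 + v) by ring, show (1:ℂ) - (1 + v) = -v by ring, div_neg, sub_neg_eq_add]

/-- the smoothed sum over prime powers -/
noncomputable def SS (L : ℕ → ℝ) (u : ℝ) : ℝ := ∑' n : ℕ, L n / √n * Real.exp (-|u - Real.log n|)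

/-- the error term -/
noncomputable def Dd (L : ℕ → ℝ) (δ : ℝ) (u : ℝ) : ℝ := 8 / 3 * δ * Real.exp (u / 2) - SS L u

lemma b_summ (h : LD f L δ) : Summable fun n : ℕ => L n / √n * (n:ℝ)⁻¹ := by
  refine (h.summ (3 / 2) (by norm_num)).congr fun n => ?_
  rcases Nat.eq_zero_or_pos n with rfl | hn
  · simp [h.zero]
  have hn' : (0:ℝ) < n := by exact_mod_cast hn
  rw [div_eq_mul_inv (L n), mul_assoc]
  congr 1
  rw [Real.sqrt_eq_rpow, ← Real.rpow_neg hn'.le, ← Real.rpow_neg_one, ← Real.rpow_add hn']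
  norm_num

lemma b_nonneg (h : LD f L δ) (n : ℕ) : 0 ≤ L n / √n * (n:ℝ)⁻¹ := by
  have := h.nonneg n
  positivity

lemma S_term (h : LD f L δ) (n : ℕ) (u : ℝ) :
    L n / √n * Real.exp (-|u - Real.log n|) ≤ L n / √n * (n:ℝ)⁻¹ * Real.exp u := by
  rcases Nat.eq_zero_or_pos n with rfl | hn
  · simp [h.zero]
  have hn' : (0:ℝ) < n := by exact_mod_cast hn
  have h1 := h.nonneg n
  rw [mul_assoc]
  refine mul_le_mul_of_nonneg_left ?_ (by positivity)
  have : (n:ℝ)⁻¹ = Real.exp (-Real.log n) := by rw [Real.exp_neg, Real.exp_log hn']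
  rw [this, ← Real.exp_add]
  refine Real.exp_le_exp.2 ?_
  have := neg_le_abs (u - Real.log n)
  have := le_abs_self (u - Real.log n)
  linarith

lemma S_summ (h : LD f L δ) (u : ℝ) : Summable fun n : ℕ => L n / √n * Real.exp (-|u - Real.log n|) :=
  Summable.of_nonneg_of_le (fun n => by have := h.nonneg n; positivity) (fun n => S_term h n u)
    ((b_summ h).mul_right _)

lemma S_cont (h : LD f L δ) : Continuous (SS L) := by
  have h1 : Continuous fun u : ℝ => ∑' n : ℕ, Real.exp (-u) * (L n / √n * Real.exp (-|u - Real.log n|)) := by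
    refine continuous_tsum (fun n => by fun_prop) (b_summ h) fun n u => ?_
    have h0 := h.nonneg n
    rw [Real.norm_of_nonneg (by positivity), mul_comm]
    refine (mul_le_mul_of_nonneg_right (S_term h n u) (Real.exp_pos _).le).trans (le_of_eq ?_)
    rw [mul_assoc, ← Real.exp_add]
    simp
  have h2 : SS L = fun u => Real.exp u * ∑' n : ℕ, Real.exp (-u) * (L n / √n * Real.exp (-|u - Real.log n|)) := by
    funext u
    rw [tsum_mul_left, ← mul_assoc, ← Real.exp_add]
    simp [SS]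
  rw [h2]
  exact Real.continuous_exp.mul h1

lemma Dd_cont (h : LD f L δ) : Continuous (Dd L δ) := by
  unfold Dd
  have := S_cont h
  fun_prop

lemma S_nonneg (h : LD f L δ) (u : ℝ) : 0 ≤ SS L u := tsum_nonneg fun n => by have := h.nonneg n; positivity

lemma S_le (h : LD f L δ) (u : ℝ) : SS L u ≤ (∑' n : ℕ, L n / √n * (n:ℝ)⁻¹) * Real.exp u := by
  rw [← tsum_mul_right]
  exact (S_summ h u).tsum_le_tsum (fun n => S_term h n u) ((b_summ h).mul_right _)

/-- the transform of the smoothed sum -/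
lemma S_lap (h : LD f L δ) {z : ℂ} (hz : z.re = 2) :
    IntegrableOn (fun u : ℝ => (SS L u : ℂ) * cexp (-(z * u))) (Ioi 0) ∧
    ∫ u in Ioi (0:ℝ), (SS L u : ℂ) * cexp (-(z * u)) =
      2 / (1 - z ^ 2) * (δ / (z - 1 / 2) - logDeriv f z) - 1 / (1 - z) * (2 * δ - logDeriv f 1) := by
  have key := tsum_lap (F := fun (n : ℕ) (u : ℝ) => ((L n / √n : ℝ) : ℂ) *
      ((Real.exp (-|u - Real.log n|) : ℂ) * cexp (-(z * u)))) (b := fun n : ℕ => L n / √n * (n:ℝ)⁻¹) (b_summ h)
    (fun n => by fun_prop) (fun n u hu => by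
      have h0 := h.nonneg n
      rw [norm_mul, norm_mul, Complex.norm_real, Complex.norm_real, Complex.norm_exp, Real.norm_of_nonneg (by positivity),
        Real.norm_of_nonneg (by positivity)]
      simp only [neg_re, mul_re, ofReal_re, ofReal_im, mul_zero, sub_zero, hz]
      rw [← mul_assoc]
      refine (mul_le_mul_of_nonneg_right (S_term h n u) (Real.exp_pos _).le).trans (le_of_eq ?_)
      rw [mul_assoc, ← Real.exp_add]
      ring_nf)
  have e : ∀ u : ℝ, (∑' n : ℕ, ((L n / √n : ℝ) : ℂ) * ((Real.exp (-|u - Real.log n|) : ℂ) * cexp (-(z * u)))) =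
      (SS L u : ℂ) * cexp (-(z * u)) := by
    intro u
    rw [SS, Complex.ofReal_tsum, ← tsum_mul_right]
    refine tsum_congr fun n => ?_
    push_cast
    ring
  simp only [e] at key
  refine ⟨key.1, ?_⟩
  have k3 := key.2.2
  have e2 : ∀ n : ℕ, (∫ u in Ioi (0:ℝ), ((L n / √n : ℝ) : ℂ) * ((Real.exp (-|u - Real.log n|) : ℂ) * cexp (-(z * u)))) =
      2 / (1 - z ^ 2) * ((L n : ℂ) * (n:ℂ) ^ (-(1 / 2 + z))) - 1 / (1 - z) * ((L n : ℂ) * (n:ℂ) ^ (-(1 / 2 + (1:ℂ)))) := by
    intro n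
    rcases Nat.eq_zero_or_pos n with rfl | hn
    · simp [h.zero]
    have hn' : (0:ℝ) < n := by exact_mod_cast hn
    have hn0 : (n:ℂ) ≠ 0 := by exact_mod_cast hn.ne'
    rw [integral_const_mul, (abs_int z hz (Real.log_nonneg (by exact_mod_cast hn : (1:ℝ) ≤ n))).2]
    have e3 : ∀ y : ℂ, (n:ℂ) ^ (-(1 / 2 + y)) = ((√n : ℝ) : ℂ)⁻¹ * cexp (-(y * Real.log n)) := by
      intro y
      rw [Complex.cpow_def_of_ne_zero hn0, ← Complex.natCast_log,
        show ((Real.log n : ℝ) : ℂ) * -(1 / 2 + y) = ((-(Real.log n / 2) : ℝ) : ℂ) + -(y * Real.log n) by push_cast; ring,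
        Complex.exp_add, ← Complex.ofReal_exp, Real.exp_neg]
      congr 2
      rw [Real.sqrt_eq_rpow, Real.rpow_def_of_pos hn']
      push_cast
      ring_nf
    rw [e3, e3]
    push_cast
    have hs : ((√n : ℝ) : ℂ) ≠ 0 := by
      rw [Complex.ofReal_ne_zero]
      exact (Real.sqrt_pos.2 hn').ne'
    ring_nf
  simp only [e2] at k3
  have l1 : ∑' n : ℕ, (L n : ℂ) * (n:ℂ) ^ (-(1 / 2 + z)) = δ / (z - 1 / 2) - logDeriv f z := by
    rw [h.ld z (by rw [hz]; norm_num)]; ring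
  have l2 : ∑' n : ℕ, (L n : ℂ) * (n:ℂ) ^ (-(1 / 2 + (1:ℂ))) = 2 * δ - logDeriv f 1 := by
    rw [h.ld 1 (by norm_num)]; norm_num; ring
  have sm : ∀ y : ℂ, 1 / 2 < y.re → Summable fun n : ℕ => (L n : ℂ) * (n:ℂ) ^ (-(1 / 2 + y)) := by
    intro y hy
    refine Summable.of_norm_bounded (h.summ (1 / 2 + y.re) (by linarith)) fun n => ?_
    rcases Nat.eq_zero_or_pos n with rfl | hn
    · simp [h.zero]
    rw [norm_mul, Complex.norm_natCast_cpow_of_pos hn, Complex.norm_real, Real.norm_of_nonneg (h.nonneg n)]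
    simp
  rw [← k3.tsum_eq, Summable.tsum_sub ((sm z (by rw [hz]; norm_num)).mul_left _) ((sm 1 (by norm_num)).mul_left _),
    tsum_mul_left, tsum_mul_left, l1, l2]

lemma bw_summ (h : LD f L δ) : Summable fun w : {w : ℂ // f w = 0} => (mu f w : ℝ) * bw w := by
  have h1 : f 1 ≠ 0 := h.ne 1 (by norm_num)
  refine Summable.of_norm_bounded_eventually ((pfrac1 h).1.mul_left 10) ?_
  have hfin : {w : {w : ℂ // f w = 0} | ‖(w:ℂ)‖ ≤ 3}.Finite := by
    have := zeros_fin h.diff ⟨1, h1⟩ (isCompact_closedBall (0:ℂ) 3)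
    refine Set.Finite.of_finite_image (f := fun w : {w : ℂ // f w = 0} => (w:ℂ)) (this.subset ?_)
      (Subtype.val_injective.injOn)
    rintro _ ⟨w, hw, rfl⟩
    exact ⟨by simpa using hw, w.2⟩
  filter_upwards [hfin.compl_mem_cofinite] with w hw
  simp only [Set.mem_compl_iff, Set.mem_ofPred_eq, not_le] at hw
  have hb := bw_nonneg w
  rw [Real.norm_of_nonneg (by positivity)]
  have hne : (w:ℂ) ≠ -1 := by
    intro h
    rw [h, norm_neg, norm_one] at hw
    linarith
  have h2 : ‖(w:ℂ)‖ / 2 ≤ ‖1 - (w:ℂ)‖ := by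
    have := norm_sub_norm_le (w:ℂ) 1
    rw [norm_sub_rev, norm_one] at this
    linarith
  have h3 : ‖(w:ℂ)‖ / 2 ≤ ‖1 + (w:ℂ)‖ := by
    have := norm_sub_norm_le (w:ℂ) (-1)
    rw [sub_neg_eq_add, norm_neg, norm_one, add_comm (w:ℂ)] at this
    linarith
  have h4 : bw w ≤ 10 / (1 + ‖(w:ℂ)‖ ^ 2) := by
    rw [bw, if_neg hne, div_le_div_iff₀ (mul_pos (by linarith) (by linarith)) (by positivity)]
    have : ‖(w:ℂ)‖ / 2 * (‖(w:ℂ)‖ / 2) ≤ ‖1 - (w:ℂ)‖ * ‖1 + (w:ℂ)‖ :=
      mul_le_mul h2 h3 (by positivity) (by positivity)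
    nlinarith
  calc (mu f w : ℝ) * bw w ≤ (mu f w : ℝ) * (10 / (1 + ‖(w:ℂ)‖ ^ 2)) := mul_le_mul_of_nonneg_left h4 (by positivity)
    _ = _ := by ring

lemma zcount (h : LD f L δ) : Countable {w : ℂ // f w = 0} := by
  have h1 : f 1 ≠ 0 := h.ne 1 (by norm_num)
  have : {w : ℂ | f w = 0} = ⋃ n : ℕ, {z : ℂ | z ∈ closedBall (0:ℂ) n ∧ f z = 0} := by
    ext w
    simp only [Set.mem_ofPred_eq, Set.mem_iUnion]
    constructor
    · intro hw
      obtain ⟨n, hn⟩ := exists_nat_ge ‖w‖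
      exact ⟨n, by simpa using hn, hw⟩
    · rintro ⟨n, -, hw⟩
      exact hw
  have hc : ({w : ℂ | f w = 0}).Countable := by
    rw [this]
    exact countable_iUnion fun n => (zeros_fin h.diff ⟨1, h1⟩ (isCompact_closedBall (0:ℂ) n)).countable
  exact hc.to_subtype

lemma re_lt (h : LD f L δ) (w : {w : ℂ // f w = 0}) : (w:ℂ).re < 1 / 2 := by
  by_contra h1
  exact h.ne w (not_lt.1 h1) w.2

/-- the transform of the sum over the zeros -/
lemma K_lap (h : LD f L δ) {z : ℂ} (hz : z.re = 2) :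
    IntegrableOn (fun u : ℝ => (∑' w : {w : ℂ // f w = 0}, (mu f w : ℂ) * ker w u) * cexp (-(z * u))) (Ioi 0) ∧
    ContinuousOn (fun u : ℝ => ∑' w : {w : ℂ // f w = 0}, (mu f w : ℂ) * ker w u) (Ici 0) ∧
    ∫ u in Ioi (0:ℝ), (∑' w : {w : ℂ // f w = 0}, (mu f w : ℂ) * ker w u) * cexp (-(z * u)) =
      2 / (1 - z ^ 2) * (logDeriv f z - logDeriv f 1) := by
  have := zcount h
  have key := tsum_lap (F := fun (w : {w : ℂ // f w = 0}) (u : ℝ) => (mu f w : ℂ) * (ker w u * cexp (-(z * u))))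
    (b := fun w : {w : ℂ // f w = 0} => 2 * ((mu f w : ℝ) * bw w)) ((bw_summ h).mul_left 2)
    (fun w => by have := ker_cont w; fun_prop) (fun w u hu => by
      have h0 := bw_nonneg w
      rw [norm_mul, norm_mul, Complex.norm_natCast, Complex.norm_exp]
      simp only [neg_re, mul_re, ofReal_re, ofReal_im, mul_zero, sub_zero, hz]
      calc (mu f w : ℝ) * (‖ker w u‖ * Real.exp (-(2 * u)))
          ≤ (mu f w : ℝ) * ((2 * bw w * Real.exp (max (w:ℂ).re 0 * u)) * Real.exp (-(2 * u))) := by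
            have := ker_norm w hu
            gcongr
        _ ≤ (mu f w : ℝ) * (2 * bw w * Real.exp (-u)) := by
            refine mul_le_mul_of_nonneg_left ?_ (by positivity)
            rw [mul_assoc, ← Real.exp_add]
            refine mul_le_mul_of_nonneg_left (Real.exp_le_exp.2 ?_) (by positivity)
            have h1 := re_lt h w
            have : max (w:ℂ).re 0 * u ≤ 1 * u := mul_le_mul_of_nonneg_right (by simp; linarith) hu
            linarith
        _ = _ := by ring)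
  have e : ∀ u : ℝ, (∑' w : {w : ℂ // f w = 0}, (mu f w : ℂ) * (ker w u * cexp (-(z * u)))) =
      (∑' w : {w : ℂ // f w = 0}, (mu f w : ℂ) * ker w u) * cexp (-(z * u)) := by
    intro u
    rw [← tsum_mul_right]
    exact tsum_congr fun w => by ring
  simp only [e] at key
  refine ⟨key.1, ?_, ?_⟩
  · have h1 := key.2.1.mul (g := fun u : ℝ => cexp (z * u)) (by fun_prop)
    refine h1.congr fun u _ => ?_
    rw [Pi.mul_apply, mul_assoc, ← Complex.exp_add]
    simp
  · have k3 := key.2.2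
    have hz0 : f z ≠ 0 := h.ne z (by rw [hz]; norm_num)
    have p := ((pfrac1 h).2 z hz0).mul_left (2 / (1 - z ^ 2))
    refine k3.unique (p.congr_fun ?_ |> fun h => h)
    intro w
    have hw := re_lt h w
    rw [integral_const_mul, ker_lap hw.le hz]
    have hw1 : 1 - (w:ℂ) ≠ 0 := by
      intro h
      have := congrArg Complex.re h
      simp at this
      linarith
    have hzw : z - (w:ℂ) ≠ 0 := by
      intro h
      have := congrArg Complex.re h
      simp [hz] at this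
      linarith
    have hz1 : z + 1 ≠ 0 := by
      intro h
      have := congrArg Complex.re h
      simp [hz] at this
      linarith
    have hz2 : 1 - z ≠ 0 := by
      intro h
      have := congrArg Complex.re h
      simp [hz] at this
      linarith
    rw [show 1 - z ^ 2 = (1 - z) * (z + 1) by ring]
    field_simp
    ring

/-- **explicit formula** -/
theorem expl (h : LD f L δ) {u : ℝ} (hu : 0 < u) : (Dd L δ u : ℂ) =
    (∑' w : {w : ℂ // f w = 0}, (mu f w : ℂ) * ker w u) + (logDeriv f 1 + 2 / 3 * δ) * cexp (-u) := by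
  set c : ℂ := logDeriv f 1 + 2 / 3 * δ with hc
  set KK : ℝ → ℂ := fun u => ∑' w : {w : ℂ // f w = 0}, (mu f w : ℂ) * ker w u with hKK
  have hS := S_cont h
  have hD := Dd_cont h
  have kc : ContinuousOn KK (Ioi 0) := (K_lap h (z := 2) (by simp)).2.1.mono Ioi_subset_Ici_self
  have e1 : ∀ z : ℂ, z.re = 2 → IntegrableOn (fun u : ℝ => cexp (1 / 2 * u) * cexp (-(z * u))) (Ioi 0) ∧
      ∫ u in Ioi (0:ℝ), cexp (1 / 2 * u) * cexp (-(z * u)) = 1 / (z - 1 / 2) := by
    intro z hz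
    have e : ∀ u : ℝ, cexp (1 / 2 * u) * cexp (-(z * u)) = cexp ((1 / 2 - z) * u) := by
      intro u
      rw [← Complex.exp_add]; ring_nf
    simp_rw [e]
    have hr : (1 / 2 - z).re < 0 := by simp [hz]; norm_num
    refine ⟨integrableOn_exp_mul_complex_Ioi hr 0, ?_⟩
    rw [lap_exp hr, ← neg_sub, div_neg, neg_div, neg_neg]
  have e2 : ∀ z : ℂ, z.re = 2 → IntegrableOn (fun u : ℝ => cexp (-u) * cexp (-(z * u))) (Ioi 0) ∧
      ∫ u in Ioi (0:ℝ), cexp (-u) * cexp (-(z * u)) = 1 / (z + 1) := by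
    intro z hz
    have e : ∀ u : ℝ, cexp (-u) * cexp (-(z * u)) = cexp (-(z + 1) * u) := by
      intro u
      rw [← Complex.exp_add]; ring_nf
    simp_rw [e]
    have hr : (-(z + 1)).re < 0 := by simp [hz]; norm_num
    refine ⟨integrableOn_exp_mul_complex_Ioi hr 0, ?_⟩
    rw [lap_exp hr, div_neg, neg_div, neg_neg]
  have main : ∀ z : ℂ, z.re = 2 →
      IntegrableOn (fun u : ℝ => ((Dd L δ u : ℂ) - KK u - c * cexp (-u)) * cexp (-(z * u))) (Ioi 0) ∧
      ∫ u in Ioi (0:ℝ), ((Dd L δ u : ℂ) - KK u - c * cexp (-u)) * cexp (-(z * u)) = 0 := by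
    intro z hz
    obtain ⟨a1, a2⟩ := e1 z hz
    obtain ⟨b1, b2⟩ := e2 z hz
    obtain ⟨s1, s2⟩ := S_lap h hz
    obtain ⟨k1, -, k2⟩ := K_lap h hz
    have e : ∀ u : ℝ, ((Dd L δ u : ℂ) - KK u - c * cexp (-u)) * cexp (-(z * u)) =
        (8 / 3 * δ : ℂ) * (cexp (1 / 2 * u) * cexp (-(z * u))) - (SS L u : ℂ) * cexp (-(z * u)) -
        KK u * cexp (-(z * u)) - c * (cexp (-u) * cexp (-(z * u))) := by
      intro u
      rw [Dd]
      push_cast
      rw [show (u:ℂ) / 2 = 1 / 2 * u by ring]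
      ring
    simp_rw [e]
    have i1 := (a1.const_mul (8 / 3 * δ : ℂ)).sub s1
    have i2 := i1.sub k1
    have i3 := b1.const_mul c
    refine ⟨i2.sub i3, ?_⟩
    rw [integral_sub (f := fun u : ℝ => (8 / 3 * δ : ℂ) * (cexp (1 / 2 * u) * cexp (-(z * u))) -
        (SS L u : ℂ) * cexp (-(z * u)) - KK u * cexp (-(z * u))) i2 i3,
      integral_sub (f := fun u : ℝ => (8 / 3 * δ : ℂ) * (cexp (1 / 2 * u) * cexp (-(z * u))) -
        (SS L u : ℂ) * cexp (-(z * u))) i1 k1,
      integral_sub (a1.const_mul (8 / 3 * δ : ℂ)) s1, integral_const_mul, integral_const_mul, a2, b2, s2, k2]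
    have n1 : z + 1 ≠ 0 := by
      intro h
      have := congrArg Complex.re h
      simp [hz] at this
      linarith
    have n2 : 1 - z ≠ 0 := by
      intro h
      have := congrArg Complex.re h
      simp [hz] at this
      linarith
    have n3 : z - 1 / 2 ≠ 0 := by
      intro h
      have := congrArg Complex.re h
      simp [hz] at this
      linarith
    have n4 : 2 * z - 1 ≠ 0 := by
      intro h
      apply n3
      linear_combination h / 2
    rw [show 1 - z ^ 2 = (1 - z) * (z + 1) by ring, hc]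
    rw [show z - 1 / 2 = (2 * z - 1) / 2 by ring]
    field_simp
    ring
  have := uniq (G := fun u : ℝ => (Dd L δ u : ℂ) - KK u - c * cexp (-u)) (by
    have : ContinuousOn (fun u : ℝ => (Dd L δ u : ℂ)) (Ioi 0) := by fun_prop
    exact (this.sub kc).sub (by fun_prop)) (main 2 (by simp)).1 (fun z hz => (main z hz).2) hu
  linear_combination this

end Pool.Agent.U544.LI
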