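import Pool.Agent.U544.LI.Mean

/-!
# Finite families
-/

set_option autoImplicit false

open Filter Topology MeasureTheory Finset
open scoped Nat

namespace Pool.Agent.U544.LI

variable {ι : Type*} {a γ : ι → ℝ}

/-- the exponential of the finite sum -/
noncomputable def PF (a γ : ι → ℝ) (F : Finset ι) (u : ℝ) : ℝ := Real.exp (∑ i ∈ F, 2 * a i * Real.cos (γ i * u))

/-- integral combinations -/
def Sp (γ : ι → ℝ) (F : Finset ι) (ω : ℝ) : Prop := ∃ n : ι → ℤ, ω = ∑ i ∈ F, (n i : ℝ) * γ i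

/-- no relations -/
def Free (γ : ι → ℝ) (F : Finset ι) : Prop := ∀ n : ι → ℤ, ∑ i ∈ F, (n i : ℝ) * γ i = 0 → ∀ i ∈ F, n i = 0

lemma PF_cont (F : Finset ι) : Continuous (PF a γ F) := by unfold PF; fun_prop

lemma PF_bound (F : Finset ι) (u : ℝ) : |PF a γ F u| ≤ Real.exp (∑ i ∈ F, |2 * a i|) := by
  unfold PF
  rw [abs_of_pos (Real.exp_pos _), Real.exp_le_exp]
  refine Finset.sum_le_sum fun i _ => ?_
  calc 2 * a i * Real.cos (γ i * u) ≤ |2 * a i * Real.cos (γ i * u)| := le_abs_self _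
    _ = |2 * a i| * |Real.cos (γ i * u)| := abs_mul _ _
    _ ≤ |2 * a i| * 1 := mul_le_mul_of_nonneg_left (Real.abs_cos_le_one _) (abs_nonneg _)
    _ = _ := mul_one _

lemma BM.abs_le {g : ℝ → ℝ} {B : ℝ} (hB : ∀ u, |g u| ≤ B) {ω c : ℝ} (h : BM g ω c) : |c| ≤ B := by
  have hB0 : 0 ≤ B := (abs_nonneg _).trans (hB 0)
  refine le_of_tendsto h.abs ?_
  filter_upwards [eventually_gt_atTop 0] with U hU
  rw [abs_div, abs_of_pos hU, div_le_iff₀ hU, ← Real.norm_eq_abs]
  refine (intervalIntegral.norm_integral_le_of_norm_le_const (C := B) fun u _ => ?_).trans ?_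
  · rw [norm_mul]
    calc ‖g u‖ * ‖Real.cos (ω * u)‖ ≤ B * 1 :=
          mul_le_mul (hB u) (Real.abs_cos_le_one _) (norm_nonneg _) hB0
      _ = B := mul_one _
  · rw [sub_zero, abs_of_pos hU]

lemma summ_step {a : ℝ} {C : ℝ → ℝ} {B : ℝ} (hC : ∀ ω, |C ω| ≤ B) (f : ℕ × ℕ → ℝ) :
    Summable fun p => w a p * C (f p) := by
  refine Summable.of_norm_bounded ((summable_w_norm a).mul_right B) fun p => ?_
  rw [norm_mul]
  exact mul_le_mul_of_nonneg_left (hC _) (norm_nonneg _)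

lemma w_diag (a : ℝ) (n : ℕ) : w a (n, n) = (a ^ n / (n)!) ^ 2 := by unfold w; ring

/-- the diagonal and one more term -/
lemma diag_le {a : ℝ} (ha : 0 < a) {C : ℝ → ℝ} {B : ℝ} (hC : ∀ ω, |C ω| ≤ B) (h0 : ∀ ω, 0 ≤ C ω) (γ : ℝ)
    {p : ℕ × ℕ} (hp : p.1 ≠ p.2) : J0 a * C 0 + w a p * C (((p.1 : ℝ) - p.2) * γ) ≤
      ∑' p : ℕ × ℕ, w a p * C (0 + ((p.1 : ℝ) - p.2) * γ) := by
  classical
  set f : ℕ × ℕ → ℝ := fun p => w a p * C (0 + ((p.1 : ℝ) - p.2) * γ) with hf
  have hfs : Summable f := summ_step hC _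
  have hf0 : ∀ q, 0 ≤ f q := fun q => mul_nonneg (w_pos ha q).le (h0 _)
  have e1 : w a p * C (((p.1 : ℝ) - p.2) * γ) = f p := by rw [hf]; simp
  have e2 : J0 a * C 0 = ∑' n : ℕ, f (n, n) := by
    unfold J0
    rw [← tsum_mul_right]
    refine tsum_congr fun n => ?_
    rw [hf]
    simp [w_diag]
  rw [e1, e2]
  have hds : Summable fun n : ℕ => f (n, n) :=
    hfs.comp_injective (i := fun n : ℕ => (n, n)) (fun m n h => (Prod.mk.inj h).1)
  have h3 : ∑' n : ℕ, f (n, n) ≤ (∑' q, f q) - f p := by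
    refine hds.tsum_le_of_sum_le fun s => ?_
    have h4 : p ∉ s.map ⟨fun n : ℕ => (n, n), fun m n h => (Prod.mk.inj h).1⟩ := by
      intro h
      rw [Finset.mem_map] at h
      obtain ⟨n, _, hn⟩ := h
      apply hp
      rw [← hn]
      rfl
    have h5 := hfs.sum_le_tsum (insert p (s.map ⟨fun n : ℕ => (n, n), fun m n h => (Prod.mk.inj h).1⟩))
      (fun q _ => hf0 q)
    rw [Finset.sum_insert h4, Finset.sum_map] at h5
    have h6 : ∑ x ∈ s, f ((⟨fun n : ℕ => (n, n), fun m n h => (Prod.mk.inj h).1⟩ : ℕ ↪ ℕ × ℕ) x) = ∑ x ∈ s, f (x, x) := rfl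
    rw [h6] at h5
    linarith
  linarith

lemma diag_le' {a : ℝ} (ha : 0 < a) {C : ℝ → ℝ} {B : ℝ} (hC : ∀ ω, |C ω| ≤ B) (h0 : ∀ ω, 0 ≤ C ω) (γ : ℝ) :
    J0 a * C 0 ≤ ∑' p : ℕ × ℕ, w a p * C (0 + ((p.1 : ℝ) - p.2) * γ) := by
  have h1 := diag_le ha hC h0 γ (p := (0, 1)) (by simp)
  have h2 : 0 ≤ w a (0, 1) * C ((((0, 1) : ℕ × ℕ).1 - ((0, 1) : ℕ × ℕ).2 : ℝ) * γ) :=
    mul_nonneg (w_pos ha _).le (h0 _)
  linarith

theorem one_le_J0 (a : ℝ) : 1 ≤ J0 a := by
  unfold J0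
  have := (summable_J a).le_tsum 0 (fun n _ => sq_nonneg _)
  simpa using this

structure Good (a γ : ι → ℝ) (F : Finset ι) (C : ℝ → ℝ) : Prop where
  bm : ∀ ω, BM (PF a γ F) ω (C ω)
  nn : ∀ ω, 0 ≤ C ω
  pos : ∀ ω, Sp γ F ω → 0 < C ω
  zero : ∀ ω, ¬ Sp γ F ω → C ω = 0
  ge : ∏ i ∈ F, J0 (a i) ≤ C 0
  iff : Free γ F ↔ C 0 = ∏ i ∈ F, J0 (a i)

lemma Good.bd {F : Finset ι} {C : ℝ → ℝ} (h : Good a γ F C) (ω : ℝ) : |C ω| ≤ Real.exp (∑ i ∈ F, |2 * a i|) :=
  (h.bm ω).abs_le (PF_bound F)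

theorem good_empty : Good a γ ∅ (fun ω => if ω = 0 then 1 else 0) where
  bm ω := by
    have h := bm_one ω
    have e : PF a γ ∅ = fun _ => 1 := by funext u; simp [PF]
    rw [e]; exact h
  nn ω := by positivity
  pos ω h := by
    obtain ⟨n, hn⟩ := h
    simp at hn
    simp [hn]
  zero ω h := by
    rw [if_neg]
    intro h0
    exact h ⟨0, by simp [h0]⟩
  ge := by simp
  iff := by simp [Free]

theorem good_step [DecidableEq ι] (ha : ∀ i, 0 < a i) {F : Finset ι} {i : ι} (hi : i ∉ F) {C : ℝ → ℝ} (h : Good a γ F C) :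
    Good a γ (insert i F) (fun ω => ∑' p : ℕ × ℕ, w (a i) p * C (ω + ((p.1 : ℝ) - p.2) * γ i)) := by
  have hs : ∀ ω, Summable fun p : ℕ × ℕ => w (a i) p * C (ω + ((p.1 : ℝ) - p.2) * γ i) := fun ω =>
    summ_step h.bd _
  have hterm : ∀ ω (p : ℕ × ℕ), 0 ≤ w (a i) p * C (ω + ((p.1 : ℝ) - p.2) * γ i) := fun ω p =>
    mul_nonneg (w_pos (ha i) p).le (h.nn _)
  -- choice of `p`
  have hch : ∀ k : ℤ, ∃ p : ℕ × ℕ, ((p.1 : ℝ) - p.2) = k := by
    intro k
    refine ⟨(k.toNat, (-k).toNat), ?_⟩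
    have h1 : ((k.toNat : ℤ)) - ((-k).toNat : ℤ) = k := by omega
    have h2 : (((k.toNat : ℤ) - ((-k).toNat : ℤ) : ℤ) : ℝ) = k := by rw [h1]
    rw [Int.cast_sub, Int.cast_natCast, Int.cast_natCast] at h2
    exact h2
  have hsp : ∀ (n : ι → ℤ), ∑ j ∈ insert i F, (n j : ℝ) * γ j = n i * γ i + ∑ j ∈ F, (n j : ℝ) * γ j := fun n =>
    Finset.sum_insert hi
  -- extending a relation
  have hext : ∀ (n : ι → ℤ) (k : ℤ), ∃ n' : ι → ℤ, n' i = k ∧ (∀ j ∈ F, n' j = n j) ∧
      ∑ j ∈ insert i F, (n' j : ℝ) * γ j = k * γ i + ∑ j ∈ F, (n j : ℝ) * γ j := by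
    intro n k
    refine ⟨Function.update n i k, by simp, fun j hj => ?_, ?_⟩
    · rw [Function.update_of_ne]
      rintro rfl
      exact hi hj
    · rw [hsp]
      congr 1
      · simp
      · refine Finset.sum_congr rfl fun j hj => ?_
        rw [Function.update_of_ne]
        rintro rfl
        exact hi hj
  have hfree : Free γ (insert i F) → Free γ F := by
    intro hf n hn j hj
    obtain ⟨n', h1, h2, h3⟩ := hext n 0
    rw [hn] at h3
    have := hf n' (by rw [h3]; simp) j (Finset.mem_insert_of_mem hj)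
    rw [← h2 j hj, this]
  have hge : J0 (a i) * C 0 ≤ ∑' p : ℕ × ℕ, w (a i) p * C (0 + ((p.1 : ℝ) - p.2) * γ i) :=
    diag_le' (ha i) h.bd h.nn (γ i)
  have hJ : 0 < J0 (a i) := by linarith [one_le_J0 (a i)]
  refine ⟨?_, ?_, ?_, ?_, ?_, ?_⟩
  · intro ω
    have h1 := step (PF_cont F) (PF_bound F) h.bm (a i) (γ i) ω
    have e : PF a γ (insert i F) = fun u => PF a γ F u * Real.exp (2 * a i * Real.cos (γ i * u)) := by
      funext u
      unfold PF
      rw [Finset.sum_insert hi, Real.exp_add, mul_comm]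
    rw [e]; exact h1
  · intro ω
    exact tsum_nonneg (hterm ω)
  · rintro ω ⟨n, hn⟩
    rw [hsp] at hn
    obtain ⟨p, hp⟩ := hch (-(n i))
    refine (hs ω).tsum_pos (hterm ω) p ?_
    refine mul_pos (w_pos (ha i) p) (h.pos _ ⟨n, ?_⟩)
    rw [hp, hn]
    push_cast
    ring
  · intro ω hω
    have : ∀ p : ℕ × ℕ, w (a i) p * C (ω + ((p.1 : ℝ) - p.2) * γ i) = 0 := by
      intro p
      rw [h.zero, mul_zero]
      rintro ⟨n, hn⟩
      apply hω
      obtain ⟨n', _, _, h3⟩ := hext n ((p.2 : ℤ) - p.1)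
      refine ⟨n', ?_⟩
      rw [h3, ← hn]
      push_cast
      ring
    simp [this]
  · show ∏ j ∈ insert i F, J0 (a j) ≤ _
    rw [Finset.prod_insert hi]
    exact (mul_le_mul_of_nonneg_left h.ge hJ.le).trans hge
  · show Free γ (insert i F) ↔ (∑' p : ℕ × ℕ, w (a i) p * C (0 + ((p.1 : ℝ) - p.2) * γ i)) = _
    rw [Finset.prod_insert hi]
    constructor
    · intro hf
      rw [← (h.iff.1 (hfree hf))]
      have hinj : Function.Injective (fun n : ℕ => ((n, n) : ℕ × ℕ)) := fun m n h => (Prod.mk.inj h).1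
      rw [← hinj.tsum_eq]
      · unfold J0
        rw [← tsum_mul_right]
        refine tsum_congr fun n => ?_
        simp [w_diag]
      · intro p hp
        by_contra hne
        apply hp
        show w (a i) p * C (0 + ((p.1 : ℝ) - p.2) * γ i) = 0
        rw [h.zero, mul_zero]
        rintro ⟨n, hn⟩
        obtain ⟨n', h1, _, h3⟩ := hext n ((p.2 : ℤ) - p.1)
        have h4 := hf n' (by rw [h3, ← hn]; push_cast; ring) i (Finset.mem_insert_self _ _)
        apply hne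
        refine ⟨p.1, ?_⟩
        rw [h1] at h4
        ext
        · rfl
        · show p.1 = p.2
          omega
    · intro heq
      have hC0 : C 0 = ∏ j ∈ F, J0 (a j) := by
        apply le_antisymm _ h.ge
        by_contra hlt
        push Not at hlt
        have := mul_lt_mul_of_pos_left hlt hJ
        linarith
      have hF : Free γ F := h.iff.2 hC0
      intro n hn j hj
      rw [hsp] at hn
      have hni : n i = 0 := by
        by_contra hni
        obtain ⟨p, hp⟩ := hch (n i)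
        have hp' : p.1 ≠ p.2 := by
          intro h1
          rw [h1, sub_self] at hp
          exact hni (by exact_mod_cast hp.symm)
        have h5 := diag_le (ha i) h.bd h.nn (γ i) hp'
        have h6 : 0 < w (a i) p * C (((p.1 : ℝ) - p.2) * γ i) := by
          refine mul_pos (w_pos (ha i) p) (h.pos _ ⟨fun j => -(n j), ?_⟩)
          rw [hp]
          have : ∑ j ∈ F, ((-(n j) : ℤ) : ℝ) * γ j = -∑ j ∈ F, (n j : ℝ) * γ j := by
            rw [← Finset.sum_neg_distrib]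
            refine Finset.sum_congr rfl fun j _ => ?_
            push_cast
            ring
          rw [this]
          linarith
        rw [heq, ← hC0] at h5
        linarith
      rw [hni] at hn
      simp only [Int.cast_zero, zero_mul, zero_add] at hn
      rcases Finset.mem_insert.1 hj with rfl | hj
      · exact hni
      · exact hF n hn j hj

theorem exists_good [DecidableEq ι] (ha : ∀ i, 0 < a i) (F : Finset ι) : ∃ C, Good a γ F C := by
  induction F using Finset.induction_on with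
  | empty => exact ⟨_, good_empty⟩
  | insert i F hi ih =>
    obtain ⟨C, hC⟩ := ih
    exact ⟨_, good_step ha hi hC⟩

end Pool.Agent.U544.LI
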