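import Pool.Agent.W54.GF.RG
import Pool.Agent.W688.GF.Stirling

/-!
# Growth of Dirichlet L-functions in the whole plane
-/

set_option autoImplicit false

open Complex Filter Topology Metric Finset MeasureTheory Set

namespace Pool.Agent.U544.LI

/-- growth of order at most `3/2` on a set -/
def Gw (U : Set ℂ) (g : ℂ → ℂ) : Prop :=
  ∃ K : ℝ, 0 ≤ K ∧ ∀ s ∈ U, ‖g s‖ ≤ Real.exp (K * (1 + ‖s‖) ^ (3 / 2 : ℝ))

lemma g_ge_one (s : ℂ) : 1 ≤ (1 + ‖s‖) ^ (3 / 2 : ℝ) :=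
  Real.one_le_rpow (by linarith [norm_nonneg s]) (by norm_num)

lemma g_ge (s : ℂ) : 1 + ‖s‖ ≤ (1 + ‖s‖) ^ (3 / 2 : ℝ) := by
  calc 1 + ‖s‖ = (1 + ‖s‖) ^ (1 : ℝ) := by rw [Real.rpow_one]
    _ ≤ _ := Real.rpow_le_rpow_of_exponent_le (by linarith [norm_nonneg s]) (by norm_num)

variable {U V : Set ℂ} {g h : ℂ → ℂ}

lemma Gw.mono (hg : Gw U g) (hUV : V ⊆ U) : Gw V g := by
  obtain ⟨K, hK, h⟩ := hg
  exact ⟨K, hK, fun s hs => h s (hUV hs)⟩

lemma Gw.congr (hg : Gw U g) (hh : ∀ s ∈ U, h s = g s) : Gw U h := by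
  obtain ⟨K, hK, h'⟩ := hg
  exact ⟨K, hK, fun s hs => by rw [hh s hs]; exact h' s hs⟩

lemma Gw.union (h1 : Gw U g) (h2 : Gw V g) : Gw (U ∪ V) g := by
  obtain ⟨K, hK, h1⟩ := h1
  obtain ⟨K', hK', h2⟩ := h2
  refine ⟨K + K', by positivity, fun s hs => ?_⟩
  have := g_ge_one s
  rcases hs with hs | hs
  · exact (h1 s hs).trans (Real.exp_le_exp.2 (by nlinarith))
  · exact (h2 s hs).trans (Real.exp_le_exp.2 (by nlinarith))

lemma Gw.mul (hg : Gw U g) (hh : Gw U h) : Gw U (fun s => g s * h s) := by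
  obtain ⟨K, hK, h1⟩ := hg
  obtain ⟨K', hK', h2⟩ := hh
  refine ⟨K + K', by positivity, fun s hs => ?_⟩
  rw [norm_mul, add_mul, Real.exp_add]
  exact mul_le_mul (h1 s hs) (h2 s hs) (norm_nonneg _) (Real.exp_pos _).le

lemma Gw.add (hg : Gw U g) (hh : Gw U h) : Gw U (fun s => g s + h s) := by
  obtain ⟨K, hK, h1⟩ := hg
  obtain ⟨K', hK', h2⟩ := hh
  refine ⟨K + K' + 1, by positivity, fun s hs => ?_⟩
  have hg1 := g_ge_one s
  set X := (1 + ‖s‖) ^ (3 / 2 : ℝ)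
  have e1 : Real.exp (K * X) ≤ Real.exp ((K + K') * X) := Real.exp_le_exp.2 (by nlinarith)
  have e2 : Real.exp (K' * X) ≤ Real.exp ((K + K') * X) := Real.exp_le_exp.2 (by nlinarith)
  have e3 : 2 ≤ Real.exp X := by linarith [Real.add_one_le_exp X]
  calc ‖g s + h s‖ ≤ ‖g s‖ + ‖h s‖ := norm_add_le _ _
    _ ≤ 2 * Real.exp ((K + K') * X) := by linarith [h1 s hs, h2 s hs]
    _ ≤ Real.exp X * Real.exp ((K + K') * X) := mul_le_mul_of_nonneg_right e3 (Real.exp_pos _).le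
    _ = _ := by rw [← Real.exp_add]; ring_nf

lemma Gw.of_bdd {C : ℝ} (h : ∀ s ∈ U, ‖g s‖ ≤ C) : Gw U g := by
  refine ⟨|C|, abs_nonneg _, fun s hs => (h s hs).trans ?_⟩
  have := g_ge_one s
  have h1 : |C| ≤ |C| * (1 + ‖s‖) ^ (3 / 2 : ℝ) := le_mul_of_one_le_right (abs_nonneg _) this
  linarith [le_abs_self C, Real.add_one_le_exp (|C| * (1 + ‖s‖) ^ (3 / 2 : ℝ))]

lemma Gw.const (c : ℂ) : Gw U (fun _ => c) := Gw.of_bdd (C := ‖c‖) fun _ _ => le_rfl

lemma Gw.of_lin {c : ℝ} (hc : 0 ≤ c) (h : ∀ s ∈ U, ‖g s‖ ≤ Real.exp (c * (1 + ‖s‖))) : Gw U g :=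
  ⟨c, hc, fun s hs => (h s hs).trans (Real.exp_le_exp.2 (mul_le_mul_of_nonneg_left (g_ge s) hc))⟩

lemma Gw.id : Gw U (fun s => s) := Gw.of_lin (c := 1) zero_le_one fun s _ => by
  rw [one_mul]
  linarith [Real.add_one_le_exp (1 + ‖s‖)]

lemma Gw.exp_lin (c : ℂ) : Gw U (fun s => cexp (c * s)) := Gw.of_lin (c := ‖c‖) (norm_nonneg _) fun s _ => by
  rw [Complex.norm_exp]
  refine Real.exp_le_exp.2 ((Complex.re_le_norm _).trans ?_)
  rw [norm_mul]
  nlinarith [norm_nonneg c, norm_nonneg s]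

lemma Gw.sum {ι : Type*} (s : Finset ι) {F : ι → ℂ → ℂ} (h : ∀ i ∈ s, Gw U (F i)) :
    Gw U (fun z => ∑ i ∈ s, F i z) := by
  classical
  induction s using Finset.induction_on with
  | empty => simpa using Gw.const 0
  | insert i s hi ih =>
    simp_rw [Finset.sum_insert hi]
    exact (h i (Finset.mem_insert_self _ _)).add (ih fun j hj => h j (Finset.mem_insert_of_mem hj))

lemma Gw.prod {ι : Type*} (s : Finset ι) {F : ι → ℂ → ℂ} (h : ∀ i ∈ s, Gw U (F i)) :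
    Gw U (fun z => ∏ i ∈ s, F i z) := by
  classical
  induction s using Finset.induction_on with
  | empty => simpa using Gw.const 1
  | insert i s hi ih =>
    simp_rw [Finset.prod_insert hi]
    exact (h i (Finset.mem_insert_self _ _)).mul (ih fun j hj => h j (Finset.mem_insert_of_mem hj))

lemma Gw.comp_aff (a b : ℂ) (hg : Gw U g) (hV : ∀ s ∈ V, a + b * s ∈ U) : Gw V (fun s => g (a + b * s)) := by
  obtain ⟨K, hK, h⟩ := hg
  set c := 1 + ‖a‖ + ‖b‖ with hc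
  have hc1 : 1 ≤ c := by rw [hc]; linarith [norm_nonneg a, norm_nonneg b]
  refine ⟨K * c ^ (3 / 2 : ℝ), by positivity, fun s hs => (h _ (hV s hs)).trans (Real.exp_le_exp.2 ?_)⟩
  rw [mul_assoc, ← Real.mul_rpow (by linarith) (by positivity)]
  refine mul_le_mul_of_nonneg_left (Real.rpow_le_rpow (by positivity) ?_ (by norm_num)) hK
  have := norm_add_le a (b * s)
  rw [norm_mul] at this
  rw [hc]
  nlinarith [norm_nonneg a, norm_nonneg b, norm_nonneg s, mul_nonneg (norm_nonneg a) (norm_nonneg s)]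

lemma xlog_le {x : ℝ} (hx : 0 ≤ x) : x * Real.log (x + 2) ≤ 4 * (1 + x) ^ (3 / 2 : ℝ) := by
  have h1 : Real.log (x + 2) ≤ (x + 2) ^ (1 / 2 : ℝ) / (1 / 2) := Real.log_le_rpow_div (by linarith) (by norm_num)
  have h2 : (x + 2) ^ (1 / 2 : ℝ) ≤ 2 * (1 + x) ^ (1 / 2 : ℝ) := by
    calc (x + 2) ^ (1 / 2 : ℝ) ≤ (4 * (1 + x)) ^ (1 / 2 : ℝ) :=
          Real.rpow_le_rpow (by linarith) (by linarith) (by norm_num)
      _ = 2 * (1 + x) ^ (1 / 2 : ℝ) := by
          rw [Real.mul_rpow (by norm_num) (by linarith)]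
          congr 1
          rw [← Real.sqrt_eq_rpow, show (4:ℝ) = 2 ^ 2 by norm_num, Real.sqrt_sq (by norm_num)]
  have h3 : (1 + x) ^ (3 / 2 : ℝ) = (1 + x) * (1 + x) ^ (1 / 2 : ℝ) := by
    rw [show (3 / 2 : ℝ) = 1 + 1 / 2 by norm_num, Real.rpow_add (by linarith), Real.rpow_one]
  rw [h3]
  have h4 : 0 ≤ (1 + x) ^ (1 / 2 : ℝ) := by positivity
  have h5 : 0 ≤ Real.log (x + 2) := Real.log_nonneg (by linarith)
  calc x * Real.log (x + 2) ≤ (1 + x) * (4 * (1 + x) ^ (1 / 2 : ℝ)) := by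
        apply mul_le_mul (by linarith) (by linarith) h5 (by linarith)
    _ = _ := by ring

lemma gw_rgamma : Gw U (fun w => (Gamma w)⁻¹) := by
  obtain ⟨C, hC⟩ := Pool.Agent.W54.GF.rg Pool.Agent.W688.GF.stir
  have hC0 : 0 ≤ C := by
    have := (norm_nonneg _).trans (hC 0)
    simpa using this
  refine ⟨C + 4 * C, by positivity, fun w _ => (hC w).trans ?_⟩
  have h1 : C ≤ Real.exp C := by linarith [Real.add_one_le_exp C]
  have h2 := xlog_le (norm_nonneg w)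
  have h3 := g_ge_one w
  calc C * Real.exp (C * ‖w‖ * Real.log (‖w‖ + 2)) ≤ Real.exp C * Real.exp (C * (4 * (1 + ‖w‖) ^ (3 / 2 : ℝ))) := by
        refine mul_le_mul h1 (Real.exp_le_exp.2 ?_) (Real.exp_pos _).le (Real.exp_pos _).le
        rw [mul_assoc]
        exact mul_le_mul_of_nonneg_left h2 hC0
    _ ≤ _ := by
        rw [← Real.exp_add]
        refine Real.exp_le_exp.2 ?_
        nlinarith

lemma norm_Gamma_le {z : ℂ} (hz : 0 < z.re) : ‖Gamma z‖ ≤ Real.Gamma z.re := by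
  rw [Complex.Gamma_eq_integral hz, Complex.GammaIntegral, Real.Gamma_eq_integral hz]
  refine (norm_integral_le_integral_norm _).trans (le_of_eq ?_)
  refine setIntegral_congr_fun measurableSet_Ioi fun x hx => ?_
  have hx : 0 < x := hx
  rw [norm_mul, Complex.norm_cpow_eq_rpow_re_of_pos hx, Complex.norm_real, Real.norm_of_nonneg (Real.exp_pos _).le]
  simp

lemma gw_gamma : Gw {s : ℂ | 2 ≤ s.re} Gamma := by
  refine ⟨16, by norm_num, fun s hs => ?_⟩
  have hs : 2 ≤ s.re := hs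
  refine (norm_Gamma_le (by linarith)).trans ?_
  set n := ⌈s.re⌉₊ with hn
  have hn1 : s.re ≤ n := Nat.le_ceil _
  have hn2 : (n:ℝ) < s.re + 1 := Nat.ceil_lt_add_one (by linarith)
  have h1 : Real.Gamma s.re ≤ Real.Gamma (n + 1) :=
    Real.Gamma_strictMonoOn_Ici.monotoneOn (by simpa using hs) (by simp; linarith) (by linarith)
  rw [Real.Gamma_nat_eq_factorial] at h1
  refine h1.trans ?_
  have h2 : ((n.factorial : ℕ) : ℝ) ≤ (n:ℝ) ^ n := by exact_mod_cast Nat.factorial_le_pow n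
  refine h2.trans ?_
  have hn0 : (0:ℝ) < n := by linarith
  have h3 : (n:ℝ) ^ n = Real.exp (n * Real.log n) := by
    rw [← Real.log_pow, Real.exp_log (by positivity)]
  rw [h3]
  refine Real.exp_le_exp.2 ?_
  have h4 := xlog_le hn0.le
  have h5 : (n:ℝ) * Real.log n ≤ n * Real.log (n + 2) :=
    mul_le_mul_of_nonneg_left (Real.log_le_log hn0 (by linarith)) hn0.le
  have h6 : (1 + (n:ℝ)) ^ (3 / 2 : ℝ) ≤ 4 * (1 + ‖s‖) ^ (3 / 2 : ℝ) := by
    have e1 : 1 + (n:ℝ) ≤ 2 * (1 + ‖s‖) := by linarith [Complex.re_le_norm s]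
    refine (Real.rpow_le_rpow (by positivity) e1 (by norm_num)).trans ?_
    rw [Real.mul_rpow (by norm_num) (by positivity)]
    refine mul_le_mul_of_nonneg_right ?_ (by positivity)
    calc (2:ℝ) ^ (3 / 2 : ℝ) ≤ 2 ^ (2:ℝ) := Real.rpow_le_rpow_of_exponent_le (by norm_num) (by norm_num)
      _ = 4 := by norm_num
  linarith

lemma gw_cpow {a : ℂ} (ha : a ≠ 0) : Gw U (fun s => a ^ s) :=
  (Gw.exp_lin (Complex.log a)).congr fun s _ => Complex.cpow_def_of_ne_zero ha s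

/-- Mellin transforms are bounded in vertical strips -/
lemma mellin_strip {f : ℝ → ℂ} (h : ∀ s : ℂ, MellinConvergent f s) (a b : ℝ) :
    ∃ C : ℝ, ∀ s : ℂ, a ≤ s.re → s.re ≤ b → ‖mellin f s‖ ≤ C := by
  refine ⟨∫ t in Ioi (0:ℝ), (‖(t:ℂ) ^ ((a:ℂ) - 1) • f t‖ + ‖(t:ℂ) ^ ((b:ℂ) - 1) • f t‖), fun s h1 h2 => ?_⟩
  unfold mellin
  refine (norm_integral_le_integral_norm _).trans ?_
  refine setIntegral_mono_on (h s).norm ((h a).norm.add (h b).norm) measurableSet_Ioi fun t ht => ?_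
  have ht : 0 < t := ht
  rw [norm_smul, norm_smul, norm_smul, Complex.norm_cpow_eq_rpow_re_of_pos ht, Complex.norm_cpow_eq_rpow_re_of_pos ht,
    Complex.norm_cpow_eq_rpow_re_of_pos ht, ← add_mul]
  refine mul_le_mul_of_nonneg_right ?_ (norm_nonneg _)
  simp only [sub_re, one_re, ofReal_re]
  have p1 : 0 < t ^ (a - 1) := Real.rpow_pos_of_pos ht _
  have p2 : 0 < t ^ (b - 1) := Real.rpow_pos_of_pos ht _
  rcases le_total t 1 with h3 | h3
  · have := Real.rpow_le_rpow_of_exponent_ge ht h3 (show a - 1 ≤ s.re - 1 by linarith)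
    linarith
  · have := Real.rpow_le_rpow_of_exponent_le h3 (show s.re - 1 ≤ b - 1 by linarith)
    linarith

/-- the strip -/
def strip : Set ℂ := {s : ℂ | -1 ≤ s.re ∧ s.re ≤ 2}

lemma gw_even₀ (a : UnitAddCircle) : Gw strip (HurwitzZeta.completedHurwitzZetaEven₀ a) := by
  set P := HurwitzZeta.hurwitzEvenFEPair a with hP
  have hm : ∀ s : ℂ, MellinConvergent P.f_modif s := fun s => (P.isStrongFEPair_toStrongFEPair.hasMellin s).1
  obtain ⟨C, hC⟩ := mellin_strip hm (-1) 2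
  refine Gw.of_bdd (C := C) fun s hs => ?_
  have e : HurwitzZeta.completedHurwitzZetaEven₀ a s = (mellin P.f_modif (s / 2)) / 2 := rfl
  have h1 := hC (s / 2) (by have := hs.1; simp; linarith) (by have := hs.2; simp; linarith)
  rw [e, norm_div, Complex.norm_ofNat]
  have := norm_nonneg (mellin P.f_modif (s / 2))
  linarith

lemma gw_odd (a : UnitAddCircle) : Gw strip (HurwitzZeta.completedHurwitzZetaOdd a) := by
  set P := HurwitzZeta.hurwitzOddFEPair a with hP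
  have hS : IsStrongFEPair P := HurwitzZeta.isStrong_hurwitzOddFEPair a
  have hm : ∀ s : ℂ, MellinConvergent P.f s := fun s => (hS.hasMellin s).1
  obtain ⟨C, hC⟩ := mellin_strip hm (-1) 2
  refine Gw.of_bdd (C := C) fun s hs => ?_
  have e : HurwitzZeta.completedHurwitzZetaOdd a s = (mellin P.f ((s + 1) / 2)) / 2 := by
    rw [← hS.Λ_eq]
    rfl
  have h1 := hC ((s + 1) / 2) (by have := hs.1; simp; linarith) (by have := hs.2; simp; linarith)
  rw [e, norm_div, Complex.norm_ofNat]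
  have := norm_nonneg (mellin P.f ((s + 1) / 2))
  linarith

end Pool.Agent.U544.LI
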