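import Pool.Agent.U544.LI.Fin

/-!
# Infinite families
-/

set_option autoImplicit false

open Filter Topology MeasureTheory Finset
open scoped Nat

namespace Pool.Agent.U544.LI

variable {ι : Type*} {a γ : ι → ℝ}

/-- the sum -/
noncomputable def DD (a γ : ι → ℝ) (u : ℝ) : ℝ := ∑' i, 2 * a i * Real.cos (γ i * u)

/-- the product of the Bessel functions -/
noncomputable def PP (a : ι → ℝ) : ℝ := Real.exp (∑' i, Real.log (J0 (a i)))

/-- the mean value over `[0, U]` -/
noncomputable def mean (g : ℝ → ℝ) (U : ℝ) : ℝ := (∫ u in (0:ℝ)..U, g u) / U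

theorem linInd_iff : LinearIndependent ℚ γ ↔ ∀ F : Finset ι, Free γ F := by
  rw [← LinearIndependent.iff_fractionRing (R := ℤ) (K := ℚ), linearIndependent_iff']
  constructor
  · intro h F n hn
    exact h F n (by simpa using hn)
  · intro h F n hn
    exact h F n (by simpa using hn)

lemma summ_D (ha : ∀ i, 0 < a i) (hs : Summable a) (u : ℝ) : Summable fun i => 2 * a i * Real.cos (γ i * u) := by
  refine Summable.of_norm_bounded (hs.mul_left 2) fun i => ?_
  rw [norm_mul, Real.norm_of_nonneg (by linarith [ha i])]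
  exact mul_le_of_le_one_right (by linarith [ha i]) (Real.abs_cos_le_one _)

lemma DD_cont (ha : ∀ i, 0 < a i) (hs : Summable a) : Continuous (DD a γ) := by
  unfold DD
  refine continuous_tsum (fun i => by fun_prop) (hs.mul_left 2) fun i u => ?_
  rw [norm_mul, Real.norm_of_nonneg (by linarith [ha i])]
  exact mul_le_of_le_one_right (by linarith [ha i]) (Real.abs_cos_le_one _)

lemma DD_bound (ha : ∀ i, 0 < a i) (hs : Summable a) (u : ℝ) : |DD a γ u| ≤ 2 * ∑' i, a i := by
  unfold DD
  rw [← tsum_mul_left, ← Real.norm_eq_abs]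
  refine tsum_of_norm_bounded (hs.mul_left 2).hasSum fun i => ?_
  rw [norm_mul, Real.norm_of_nonneg (by linarith [ha i])]
  exact mul_le_of_le_one_right (by linarith [ha i]) (Real.abs_cos_le_one _)

lemma DD_tail [DecidableEq ι] (ha : ∀ i, 0 < a i) (hs : Summable a) (F : Finset ι) (u : ℝ) :
    |DD a γ u - ∑ i ∈ F, 2 * a i * Real.cos (γ i * u)| ≤ 2 * ((∑' i, a i) - ∑ i ∈ F, a i) := by
  have h1 := (summ_D (γ := γ) ha hs u).sum_add_tsum_subtype_compl F
  have h2 := hs.sum_add_tsum_subtype_compl F
  have e1 : DD a γ u - ∑ i ∈ F, 2 * a i * Real.cos (γ i * u) =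
      ∑' i : {i // i ∉ F}, 2 * a i * Real.cos (γ i * u) := by
    unfold DD
    linarith
  have e2 : (∑' i, a i) - ∑ i ∈ F, a i = ∑' i : {i // i ∉ F}, a i := by linarith
  rw [e1, e2, ← tsum_mul_left, ← Real.norm_eq_abs]
  have hs' : Summable fun i : {i // i ∉ F} => a i := hs.subtype _
  refine tsum_of_norm_bounded (hs'.mul_left 2).hasSum fun i => ?_
  rw [norm_mul, Real.norm_of_nonneg (by linarith [ha i])]
  exact mul_le_of_le_one_right (by linarith [ha i]) (Real.abs_cos_le_one _)

lemma sum_le (ha : ∀ i, 0 < a i) (hs : Summable a) (F : Finset ι) : ∑ i ∈ F, a i ≤ ∑' i, a i :=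
  hs.sum_le_tsum F fun i _ => (ha i).le

lemma exp_sub_le {x y B : ℝ} (hx : x ≤ B) (hy : y ≤ B) : |Real.exp x - Real.exp y| ≤ Real.exp B * |x - y| := by
  wlog h : y ≤ x with H
  · rw [abs_sub_comm, abs_sub_comm x]
    exact H hy hx (by linarith)
  rw [abs_of_nonneg (by linarith [Real.exp_le_exp.2 h]), abs_of_nonneg (by linarith)]
  have h1 : Real.exp x - Real.exp y = Real.exp x * (1 - Real.exp (y - x)) := by
    rw [mul_sub, ← Real.exp_add]; ring_nf
  rw [h1]
  have h2 : 1 - Real.exp (y - x) ≤ x - y := by linarith [Real.add_one_le_exp (y - x)]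
  have h3 : 0 ≤ 1 - Real.exp (y - x) := by linarith [Real.exp_le_one_iff.2 (show y - x ≤ 0 by linarith)]
  exact mul_le_mul (Real.exp_le_exp.2 hx) h2 h3 (Real.exp_pos _).le

lemma mean_sub {g h : ℝ → ℝ} (hg : Continuous g) (hh : Continuous h) {δ : ℝ} (hd : ∀ u, |g u - h u| ≤ δ) {U : ℝ}
    (hU : 0 < U) : |mean g U - mean h U| ≤ δ := by
  unfold mean
  rw [← sub_div, ← intervalIntegral.integral_sub (hg.intervalIntegrable _ _) (hh.intervalIntegrable _ _), abs_div,
    abs_of_pos hU, div_le_iff₀ hU, ← Real.norm_eq_abs]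
  refine (intervalIntegral.norm_integral_le_of_norm_le_const (C := δ) fun u _ => ?_).trans ?_
  · exact hd u
  · rw [sub_zero, abs_of_pos hU]

lemma J0_nn (a : ℝ) : 0 ≤ Real.log (J0 a) := Real.log_nonneg (one_le_J0 a)

/-- **The mean value of the exponential of an almost periodic function with positive coefficients.** -/
theorem fam (ha : ∀ i, 0 < a i) (hs : Summable a) : ∃ E : ℝ,
    Tendsto (mean fun u => Real.exp (DD a γ u)) atTop (𝓝 E) ∧ (Summable fun i => Real.log (J0 (a i))) ∧
      PP a ≤ E ∧ (E = PP a ↔ LinearIndependent ℚ γ) := by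
  classical
  set B : ℝ := 2 * ∑' i, a i with hB
  choose C hC using fun F => exists_good (γ := γ) ha F
  set c : Finset ι → ℝ := fun F => C F 0 with hc
  set P : Finset ι → ℝ := fun F => ∏ i ∈ F, J0 (a i) with hP
  have hP1 : ∀ F, 1 ≤ P F := fun F =>
    Finset.prod_induction _ (fun x => (1:ℝ) ≤ x) (fun a b ha hb => one_le_mul_of_one_le_of_one_le ha hb) le_rfl
      (fun i _ => one_le_J0 _)
  have hP0 : ∀ F, 0 < P F := fun F => lt_of_lt_of_le one_pos (hP1 F)
  have hPF : ∀ F u, |PF a γ F u| ≤ Real.exp B := by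
    intro F u
    unfold PF
    rw [abs_of_pos (Real.exp_pos _), Real.exp_le_exp]
    calc ∑ i ∈ F, 2 * a i * Real.cos (γ i * u) ≤ ∑ i ∈ F, 2 * a i := by
          refine Finset.sum_le_sum fun i _ => ?_
          exact mul_le_of_le_one_right (by linarith [ha i]) (Real.cos_le_one _)
      _ = 2 * ∑ i ∈ F, a i := by rw [Finset.mul_sum]
      _ ≤ B := by rw [hB]; linarith [sum_le ha hs F]
  have hcB : ∀ F, c F ≤ Real.exp B := fun F => (le_abs_self _).trans (((hC F).bm 0).abs_le (hPF F))
  have hge : ∀ F, P F ≤ c F := fun F => (hC F).ge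
  -- monotonicity of the quotient
  have hstep : ∀ F i, i ∉ F → J0 (a i) * c F ≤ c (insert i F) := by
    intro F i hi
    have h1 := good_step ha hi (hC F)
    have h2 : c (insert i F) = _ := tendsto_nhds_unique ((hC (insert i F)).bm 0) (h1.bm 0)
    rw [h2]
    exact diag_le' (ha i) (hC F).bd (hC F).nn (γ i)
  set r : Finset ι → ℝ := fun F => c F / P F with hr
  have hr1 : ∀ K i, i ∉ K → r K ≤ r (insert i K) := by
    intro K i hi
    have h1 := hstep K i hi
    have hJ : 0 < J0 (a i) := by linarith [one_le_J0 (a i)]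
    have h2 : P (insert i K) = J0 (a i) * P K := by rw [hP]; exact Finset.prod_insert hi
    show c K / P K ≤ c (insert i K) / P (insert i K)
    rw [h2, div_le_div_iff₀ (hP0 K) (mul_pos hJ (hP0 K))]
    nlinarith [hP0 K]
  have hr2 : ∀ F H : Finset ι, Disjoint F H → r F ≤ r (F ∪ H) := by
    intro F H
    induction H using Finset.induction_on with
    | empty => intro _; simp
    | insert i H hi ih =>
      intro hd
      rw [Finset.disjoint_insert_right] at hd
      have h1 : i ∉ F ∪ H := by
        rw [Finset.mem_union]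
        tauto
      rw [Finset.union_insert]
      exact (ih hd.2).trans (hr1 _ _ h1)
  have hrmono : Monotone r := by
    intro F G hFG
    have h1 := hr2 F (G \ F) Finset.disjoint_sdiff
    rwa [Finset.union_sdiff_of_subset hFG] at h1
  have hrB : ∀ F, r F ≤ Real.exp B := by
    intro F
    refine le_trans ?_ (hcB F)
    exact div_le_self (le_trans (hP0 F).le (hge F)) (hP1 F)
  have hbdd : BddAbove (Set.range r) := ⟨Real.exp B, by rintro _ ⟨F, rfl⟩; exact hrB F⟩
  obtain ⟨R, hR⟩ : ∃ R, R = ⨆ F, r F := ⟨_, rfl⟩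
  have hrR : Tendsto r atTop (𝓝 R) := by rw [hR]; exact tendsto_atTop_ciSup hrmono hbdd
  have hrle : ∀ F, r F ≤ R := fun F => by rw [hR]; exact le_ciSup hbdd F
  -- the product
  have hlog : ∀ F, Real.log (P F) = ∑ i ∈ F, Real.log (J0 (a i)) := by
    intro F
    rw [hP]
    exact Real.log_prod fun i _ => by linarith [one_le_J0 (a i)]
  have hPB : ∀ F, P F ≤ Real.exp B := fun F => (hge F).trans (hcB F)
  have hsl : Summable fun i => Real.log (J0 (a i)) := by
    refine summable_of_sum_le (c := B) (fun i => J0_nn _) fun F => ?_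
    rw [← hlog, Real.log_le_iff_le_exp (hP0 F)]
    exact hPB F
  have hPP : Tendsto P atTop (𝓝 (PP a)) := by
    have h1 : Tendsto (fun F : Finset ι => Real.exp (∑ i ∈ F, Real.log (J0 (a i)))) atTop (𝓝 (PP a)) :=
      (Real.continuous_exp.tendsto _).comp hsl.hasSum
    refine h1.congr fun F => ?_
    rw [← hlog, Real.exp_log (hP0 F)]
  have hcE : Tendsto c atTop (𝓝 (R * PP a)) := by
    refine (hrR.mul hPP).congr fun F => ?_
    show c F / P F * P F = c F
    rw [div_mul_cancel₀ _ (hP0 F).ne']
  have hPP0 : 0 < PP a := Real.exp_pos _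
  have hR1 : 1 ≤ R := by
    have := hrle ∅
    have h2 : 1 ≤ r ∅ := by
      show 1 ≤ c ∅ / P ∅
      rw [le_div_iff₀ (hP0 _), one_mul]
      exact hge ∅
    exact h2.trans this
  refine ⟨R * PP a, ?_, hsl, ?_, ?_⟩
  · -- the mean value
    rw [Metric.tendsto_atTop]
    intro ε hε
    have h1 : Tendsto (fun F : Finset ι => Real.exp B * (2 * ((∑' i, a i) - ∑ i ∈ F, a i))) atTop (𝓝 0) := by
      have h2 : Tendsto (fun F : Finset ι => ∑ i ∈ F, a i) atTop (𝓝 (∑' i, a i)) := hs.hasSum
      have h3 := ((tendsto_const_nhds (x := ∑' i, a i)).sub h2).const_mul 2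
      have h4 := h3.const_mul (Real.exp B)
      simpa using h4
    have h5 := (h1.eventually (gt_mem_nhds (show (0:ℝ) < ε / 3 by positivity))).and
      (hcE.eventually (Metric.ball_mem_nhds _ (show (0:ℝ) < ε / 3 by positivity)))
    obtain ⟨F, hF1, hF2⟩ := h5.exists
    have h6 := (hC F).bm 0
    unfold BM at h6
    rw [Metric.tendsto_atTop] at h6
    obtain ⟨U0, hU0⟩ := h6 (ε / 3) (by positivity)
    refine ⟨max U0 1, fun U hU => ?_⟩
    have hU1 : 0 < U := lt_of_lt_of_le one_pos ((le_max_right _ _).trans hU)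
    have h7 := hU0 U ((le_max_left _ _).trans hU)
    have h8 : |mean (fun u => Real.exp (DD a γ u)) U - mean (PF a γ F) U| ≤
        Real.exp B * (2 * ((∑' i, a i) - ∑ i ∈ F, a i)) := by
      refine mean_sub (Real.continuous_exp.comp (DD_cont ha hs)) (PF_cont F) (fun u => ?_) hU1
      unfold PF
      refine (exp_sub_le (B := B) ?_ ?_).trans ?_
      · exact (le_abs_self _).trans (DD_bound ha hs u)
      · have := hPF F u
        unfold PF at this
        rw [abs_of_pos (Real.exp_pos _), Real.exp_le_exp] at this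
        exact this
      · exact mul_le_mul_of_nonneg_left (DD_tail ha hs F u) (Real.exp_pos _).le
    have h9 : (∫ u in (0:ℝ)..U, PF a γ F u * Real.cos (0 * u)) / U = mean (PF a γ F) U := by
      unfold mean
      simp
    rw [h9, Real.dist_eq] at h7
    rw [Real.dist_eq] at hF2
    rw [Real.dist_eq]
    have h10 : mean (fun u => Real.exp (DD a γ u)) U - R * PP a =
        (mean (fun u => Real.exp (DD a γ u)) U - mean (PF a γ F) U) + (mean (PF a γ F) U - C F 0) +
          (c F - R * PP a) := by
      rw [hc]; ring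
    rw [h10]
    have h11 := abs_add_three (mean (fun u => Real.exp (DD a γ u)) U - mean (PF a γ F) U)
      (mean (PF a γ F) U - C F 0) (c F - R * PP a)
    linarith
  · nlinarith
  · rw [linInd_iff]
    constructor
    · intro h F
      have hR' : R = 1 := by
        have : R * PP a = 1 * PP a := by rw [h, one_mul]
        exact mul_right_cancel₀ hPP0.ne' this
      rw [(hC F).iff]
      apply le_antisymm _ (hge F)
      have h1 := hrle F
      rw [hR'] at h1
      have h2 : c F / P F ≤ 1 := h1
      rwa [div_le_one (hP0 F)] at h2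
    · intro h
      have hR' : R = 1 := by
        apply le_antisymm _ hR1
        rw [hR]
        refine ciSup_le fun F => ?_
        show c F / P F ≤ 1
        rw [div_le_one (hP0 F)]
        exact ((hC F).iff.1 (h F)).le
      rw [hR', one_mul]

end Pool.Agent.U544.LI
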