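import Pool.Agent.U544.LI.Multi3

/-!
# The criterion for several scales with additional cosines

For positive reals `α_j` and reals `β_l` the function `∑_j D(x^{α_j}) + ∑_l cos (β_l log x)` has the frequencies
`α_j γ` and `β_l`.
-/

set_option autoImplicit false

open Complex Filter Topology Metric Finset MeasureTheory Set
open scoped ComplexConjugate Nat

namespace Pool.Agent.U544.LI

variable {f : ℂ → ℂ} {L : ℕ → ℝ} {δ : ℝ} {κ τ : Type*} [Fintype κ] [Fintype τ]

/-- the sum of the cosines -/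
noncomputable def Cs (β : τ → ℝ) (u : ℝ) : ℝ := ∑ l, Real.cos (β l * u)

lemma Cs_cont (β : τ → ℝ) : Continuous (Cs β) := by
  unfold Cs
  fun_prop

lemma Cs_ge (β : τ → ℝ) (u : ℝ) : -(Fintype.card τ : ℝ) ≤ Cs β u := by
  unfold Cs
  have h1 : ∑ _l : τ, (-1 : ℝ) ≤ ∑ l, Real.cos (β l * u) := Finset.sum_le_sum fun l _ => Real.neg_one_le_cos _
  simpa using h1

section sum

variable {ι : Type*} {b γ : ι → ℝ}

/-- the weights -/
noncomputable def ai (lam : ℝ) (b : ι → ℝ) : (κ × ι) ⊕ τ → ℝ := Sum.elim (fun p => lam * b p.2) fun _ => lam / 2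

/-- the frequencies -/
def gi (α : κ → ℝ) (γ : ι → ℝ) (β : τ → ℝ) : (κ × ι) ⊕ τ → ℝ := Sum.elim (fun p => α p.1 * γ p.2) β

omit [Fintype κ] [Fintype τ] in
lemma ai_pos {lam : ℝ} (hl : 0 < lam) (hb : ∀ i, 0 < b i) (p : (κ × ι) ⊕ τ) : 0 < ai (κ := κ) (τ := τ) lam b p := by
  rcases p with p | l
  · exact mul_pos hl (hb _)
  · exact half_pos hl

lemma ai_summ {lam : ℝ} (hb : ∀ i, 0 < b i) (hbs : Summable b) : Summable (ai (κ := κ) (τ := τ) lam b) := by
  refine Summable.sum _ ?_ ?_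
  · exact (summ_prod (κ := κ) (fun i => (hb i).le) hbs).mul_left lam
  · exact Summable.of_finite

lemma DD_ai {lam : ℝ} (hl : 0 < lam) (hb : ∀ i, 0 < b i) (hbs : Summable b) (α : κ → ℝ) (β : τ → ℝ) (u : ℝ) :
    DD (ai lam b) (gi α γ β) u = DD (fun p : κ × ι => lam * b p.2) (fun p => α p.1 * γ p.2) u + lam * Cs β u := by
  have h1 : Summable fun p : κ × ι => 2 * (lam * b p.2) * Real.cos (α p.1 * γ p.2 * u) :=
    summ_D (ι := κ × ι) (a := fun p => lam * b p.2) (γ := fun p => α p.1 * γ p.2) (fun p => mul_pos hl (hb p.2))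
      ((summ_prod (fun i => (hb i).le) hbs).mul_left lam) u
  unfold DD
  have h2 : Summable ((fun p : (κ × ι) ⊕ τ => 2 * ai lam b p * Real.cos (gi α γ β p * u)) ∘ Sum.inl) := h1
  have h3 : Summable ((fun p : (κ × ι) ⊕ τ => 2 * ai lam b p * Real.cos (gi α γ β p * u)) ∘ Sum.inr) :=
    Summable.of_finite
  rw [Summable.tsum_sum h2 h3]
  congr 1
  rw [tsum_fintype]
  unfold Cs
  rw [Finset.mul_sum]
  refine Finset.sum_congr rfl fun l _ => ?_
  simp only [ai, gi, Sum.elim_inr]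
  ring

lemma PP_ai {lam : ℝ} (hs : Summable fun i => Real.log (J0 (lam * b i))) :
    PP (ai (κ := κ) (τ := τ) lam b) = PP (fun i => lam * b i) ^ Fintype.card κ * Ik 0 lam ^ Fintype.card τ := by
  rw [← PP_prod (κ := κ) hs]
  unfold PP
  have e2 : ((fun p : (κ × ι) ⊕ τ => Real.log (J0 (ai lam b p))) ∘ Sum.inl) =
      fun p : κ × ι => Real.log (J0 (lam * b p.2)) := rfl
  have h2 : Summable ((fun p : (κ × ι) ⊕ τ => Real.log (J0 (ai lam b p))) ∘ Sum.inl) := by
    rw [e2]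
    exact summ_prod (κ := κ) (a := fun i => Real.log (J0 (lam * b i))) (fun i => J0_nn _) hs
  have h3 : Summable ((fun p : (κ × ι) ⊕ τ => Real.log (J0 (ai lam b p))) ∘ Sum.inr) := Summable.of_finite
  have h4 := Summable.tsum_sum h2 h3
  have e3 : ∑' l : τ, Real.log (J0 (ai lam b (Sum.inr l : (κ × ι) ⊕ τ))) =
      (Fintype.card τ : ℝ) * Real.log (J0 (lam / 2)) := by
    rw [tsum_fintype, ← nsmul_eq_mul, ← Finset.card_univ, ← Finset.sum_const]
    rfl
  rw [h4, e3, Real.exp_add]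
  congr 1
  rw [Real.exp_nat_mul, J0_Ik, mul_div_cancel₀ _ two_ne_zero, Real.exp_log]
  have := J0_pos (lam / 2)
  rwa [J0_Ik, mul_div_cancel₀ _ two_ne_zero] at this

end sum

lemma mean_transfer_inh (h : LD f L δ) {lam : ℝ} (hl : 0 < lam) {ι : Type*} (π : ι → Gs f) (b : ι → ℝ)
    (hb : ∀ i, 0 < b i) (hbs : Summable b)
    (hbD : ∀ u, DD b (fun i => (π i).1) u = DD (wt f) (fun g : Gs f => g.1) u) (hR : RHf f)
    {α : κ → ℝ} (hα : ∀ j, 0 < α j) (β : τ → ℝ) {E : ℝ}
    (hE : Tendsto (mean fun u => Real.exp (DD (ai lam b) (gi α (fun i => (π i).1) β) u)) atTop (𝓝 E)) :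
    Tendsto (mean fun u => Real.exp (lam * (Ds L δ α u + Cs β u))) atTop
      (𝓝 (Real.exp (2 * lam * mu f 0) ^ Fintype.card κ * E)) := by
  have hDc := Ds_cont h α
  have hCc := Cs_cont β
  have hpos : ∀ p : (κ × ι) ⊕ τ, 0 < ai lam b p := ai_pos hl hb
  have hsum : Summable (ai (κ := κ) (τ := τ) lam b) := ai_summ hb hbs
  set c0 := Real.exp (2 * lam * mu f 0) ^ Fintype.card κ with hc0
  have hc0' : c0 = Real.exp (∑ _j : κ, 2 * lam * mu f 0) := by
    rw [hc0, ← Real.exp_nat_mul]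
    simp
  have h1 := asym h fun w hw => nonpos_of_rh h hR hw
  have h2 : Tendsto (mean fun u => c0 * Real.exp (DD (ai lam b) (gi α (fun i => (π i).1) β) u))
      atTop (𝓝 (c0 * E)) := by
    refine (hE.const_mul c0).congr fun U => ?_
    unfold mean
    rw [intervalIntegral.integral_const_mul, mul_div_assoc]
  have hcont2 : Continuous fun u => c0 * Real.exp (DD (ai lam b) (gi α (fun i => (π i).1) β) u) := by
    have := DD_cont (γ := gi α (fun i => (π i).1) β) hpos hsum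
    fun_prop
  refine ces (by fun_prop) hcont2 ?_ h2
  set x : ℝ → ℝ := fun u => lam * (Ds L δ α u + Cs β u) with hx
  set y : ℝ → ℝ := fun u => (∑ _j : κ, 2 * lam * mu f 0) + DD (ai lam b) (gi α (fun i => (π i).1) β) u with hy
  have hxy : Tendsto (fun u => x u - y u) atTop (𝓝 0) := by
    have h3 : ∀ j : κ, Tendsto (fun u => lam * (Dd L δ (α j * u) -
        (2 * (mu f 0 : ℝ) + DD (wt f) (fun g : Gs f => g.1) (α j * u)))) atTop (𝓝 0) := by
      intro j
      have h4 : Tendsto (fun u : ℝ => α j * u) atTop atTop := tendsto_id.const_mul_atTop (hα j)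
      have := (h1.comp h4).const_mul lam
      rw [mul_zero] at this
      exact this
    have h4 := tendsto_finsetSum Finset.univ fun j _ => h3 j
    rw [Finset.sum_const_zero] at h4
    refine h4.congr fun u => ?_
    simp only [hx, hy, Ds]
    rw [DD_ai hl hb hbs, DD_mul, DD_prod (γ := fun i => (π i).1) hb hbs α u, mul_add, Finset.mul_sum, Finset.mul_sum]
    have e : (∑ j, lam * Dd L δ (α j * u) + lam * Cs β u) - (∑ _j : κ, 2 * lam * (mu f 0 : ℝ) +
        (∑ j, lam * DD b (fun i => (π i).1) (α j * u) + lam * Cs β u)) =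
        ∑ j, lam * Dd L δ (α j * u) - (∑ _j : κ, 2 * lam * (mu f 0 : ℝ) +
        ∑ j, lam * DD b (fun i => (π i).1) (α j * u)) := by ring
    rw [e, ← Finset.sum_add_distrib, ← Finset.sum_sub_distrib]
    refine Finset.sum_congr rfl fun j _ => ?_
    rw [hbD]
    ring
  set B := (∑ _j : κ, 2 * lam * mu f 0) + 2 * ∑' p, ai (κ := κ) (τ := τ) lam b p with hB
  have hyB : ∀ u, y u ≤ B := by
    intro u
    have := (le_abs_self _).trans (DD_bound (γ := gi α (fun i => (π i).1) β) hpos hsum u)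
    simp only [hy, hB]
    linarith
  have h3 : Tendsto (fun u => Real.exp (B + 1) * |x u - y u|) atTop (𝓝 0) := by
    have := hxy.abs.const_mul (Real.exp (B + 1))
    simpa using this
  refine squeeze_zero_norm' ?_ h3
  have hev : ∀ᶠ u in atTop, x u - y u < 1 := hxy.eventually_lt_const one_pos
  filter_upwards [hev] with u hu
  have e1 : c0 * Real.exp (DD (ai lam b) (gi α (fun i => (π i).1) β) u) = Real.exp (y u) := by
    rw [hc0', ← Real.exp_add]
  rw [e1, Real.norm_eq_abs]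
  have h4 := hyB u
  exact exp_sub_le (by show x u ≤ B + 1; linarith) (by linarith)

/-- the mean value with several scales and cosines, as a sum over the relations -/
theorem exact_mean_inh (h : LD f L δ) {lam : ℝ} (hl : 0 < lam) {ι : Type*} (π : ι → Gs f) (b : ι → ℝ)
    (hb : ∀ i, 0 < b i) (hbs : Summable b)
    (hbD : ∀ u, DD b (fun i => (π i).1) u = DD (wt f) (fun g : Gs f => g.1) u)
    {α : κ → ℝ} (hα : ∀ j, 0 < α j) (β : τ → ℝ) :
    (Summable fun n : {n : (κ × ι) ⊕ τ →₀ ℤ // val (gi α (fun i => (π i).1) β) n = 0} => QQ (ai lam b) n.1) ∧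
    (RHf f → Tendsto (mean fun u => Real.exp (lam * (Ds L δ α u + Cs β u))) atTop
      (𝓝 ((Real.exp (2 * lam * mu f 0) * PP (fun i => lam * b i)) ^ Fintype.card κ * Ik 0 lam ^ Fintype.card τ *
      ∑' n : {n : (κ × ι) ⊕ τ →₀ ℤ // val (gi α (fun i => (π i).1) β) n = 0}, QQ (ai lam b) n.1))) := by
  have hpos : ∀ p : (κ × ι) ⊕ τ, 0 < ai lam b p := ai_pos hl hb
  have hsum : Summable (ai (κ := κ) (τ := τ) lam b) := ai_summ hb hbs
  obtain ⟨E, hE, -, -, -⟩ := fam (γ := gi α (fun i => (π i).1) β) hpos hsum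
  obtain ⟨-, -, hsl, -, -⟩ := fam (a := fun i => lam * b i) (γ := fun i => (π i).1)
    (fun i => mul_pos hl (hb i)) (hbs.mul_left lam)
  have h1 := fam' (γ := gi α (fun i => (π i).1) β) hpos hsum hE
  refine ⟨h1.summable, fun hR => ?_⟩
  have h2 := PP_ai (κ := κ) (τ := τ) hsl
  have h3 := mean_transfer_inh h hl π b hb hbs hbD hR hα β hE
  have h4 : E = PP (fun i => lam * b i) ^ Fintype.card κ * Ik 0 lam ^ Fintype.card τ *
      ∑' n : {n : (κ × ι) ⊕ τ →₀ ℤ // val (gi α (fun i => (π i).1) β) n = 0}, QQ (ai lam b) n.1 := by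
    rw [h1.tsum_eq, ← h2, mul_div_cancel₀ _ (show PP (ai (κ := κ) (τ := τ) lam b) ≠ 0 from (Real.exp_pos _).ne')]
  rw [mul_pow, mul_assoc, mul_assoc, ← mul_assoc (PP _ ^ _), ← h4]
  exact h3

end Pool.Agent.U544.LI
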