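import Pool.Agent.U544.LI.Inh

/-!
# The criterion for several scales with additional cosines, II
-/

set_option autoImplicit false

open Complex Filter Topology Metric Finset MeasureTheory Set
open scoped ComplexConjugate Nat

namespace Pool.Agent.U544.LI

variable {f : ℂ → ℂ} {L : ℕ → ℝ} {δ : ℝ} {κ τ : Type*} [Fintype κ] [Nonempty κ] [Fintype τ]

/-- the integral relations between the products of a scale and an ordinate and the additional frequencies -/
def Rli (Z : ℂ → ℂ) (α : κ → ℝ) (β : τ → ℝ) : Type _ :=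
  {n : (κ × Ord Z) ⊕ τ →₀ ℤ // (n.sum fun p k => (k : ℝ) * Sum.elim (fun p : κ × Ord Z => α p.1 * p.2.1) β p) = 0}

/-- the arguments of the Bessel functions -/
noncomputable def ari (Z : ℂ → ℂ) (lam : ℝ) : (κ × Ord Z) ⊕ τ → ℝ := Sum.elim (fun p => ar Z lam p.2) fun _ => lam

/-- the weight of a relation -/
noncomputable def wgi (Z : ℂ → ℂ) (lam : ℝ) (n : (κ × Ord Z) ⊕ τ →₀ ℤ) : ℝ :=
  n.prod fun p k => Ik k.natAbs (ari Z lam p) / Ik 0 (ari Z lam p)

/-- the mean value -/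
noncomputable def Mi (D : ℝ → ℝ) (α : κ → ℝ) (β : τ → ℝ) (lam : ℝ) : ℝ → ℝ :=
  logMean fun x => Real.exp (lam * (∑ j, D (x ^ α j) + ∑ l, Real.cos (β l * Real.log x)))

/-- **The criterion for several scales and cosines.** -/
theorem crit_inh (h : LD f L δ) {Z : ℂ → ℂ} (hZ : ∀ z : ℂ, z ≠ 1 / 2 → f z = (z - 1 / 2) * Z (1 / 2 + z))
    {lam : ℝ} (hl : 0 < lam) {D : ℝ → ℝ} (hD : ∀ x, 0 < x → D x = Dd L δ (Real.log x)) {V : ℝ}
    (hV : V = Real.exp (2 * lam * analyticOrderNatAt Z (1 / 2)) * ∏' g : Ord Z, Ik 0 (ar Z lam g))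
    {α : κ → ℝ} (hα : ∀ j, 0 < α j) (β : τ → ℝ) :
    (Multipliable fun g : Ord Z => Ik 0 (ar Z lam g)) ∧
    (Summable fun n : Rli Z α β => wgi Z lam n.1) ∧
    (RHs Z ↔ ∃ C, ∀ᶠ X in atTop, Mi D α β lam X ≤ C) ∧
    (RHs Z → Tendsto (Mi D α β lam) atTop (𝓝 ((V ^ Fintype.card κ * Ik 0 lam ^ Fintype.card τ) * ∑' n : Rli Z α β, wgi Z lam n.1))) ∧
    (∀ T : Set (Rli Z α β), RHs Z ∧ (∀ n, n ∈ T) ↔
      ∀ ε : ℝ, 0 < ε → ∀ᶠ X in atTop, Mi D α β lam X < (V ^ Fintype.card κ * Ik 0 lam ^ Fintype.card τ) * ∑' n : T, wgi Z lam n.1.1 + ε) ∧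
    (∀ (s : Finset (Rli Z α β)) (ε : ℝ), 0 < ε → ∃ᶠ X in atTop,
      (V ^ Fintype.card κ * Ik 0 lam ^ Fintype.card τ) * ∑ n ∈ s, wgi Z lam n.1 - ε < Mi D α β lam X) := by
  classical
  have hfz : ∀ z : ℂ, z ≠ 1 / 2 → (f z = 0 ↔ Z (1 / 2 + z) = 0) := by
    intro z hz
    rw [hZ z hz, mul_eq_zero]
    constructor
    · rintro (h1 | h1)
      · exact absurd (sub_eq_zero.1 h1) hz
      · exact h1
    · intro h1
      exact Or.inr h1
  have hRH : RHs Z ↔ RHf f := by
    constructor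
    · intro h1 w hw hw2
      rw [abs_lt] at hw2
      have hwh : w ≠ 1 / 2 := by
        rintro rfl
        norm_num at hw2
      have := h1 (1 / 2 + w) (by simp; linarith) (by simp; linarith) ((hfz w hwh).1 hw)
      simp at this
      linarith
    · intro h1 ρ h2 h3 h4
      have hwh : ρ - 1 / 2 ≠ 1 / 2 := by
        intro h5
        have : ρ = 1 := by linear_combination h5
        rw [this] at h3
        simp at h3
      have := h1 (ρ - 1 / 2) ((hfz _ hwh).2 (by rw [add_sub_cancel]; exact h4)) (by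
        rw [abs_lt]
        constructor <;> simp <;> linarith)
      simp at this
      linarith
  have hmu0 : mu f 0 = analyticOrderNatAt Z (1 / 2) := by
    rw [ord_eq h hZ (by norm_num), add_zero]
  let π : Ord Z ≃ Gs f :=
    { toFun := fun g => ⟨g.1, g.2.1, (hfz _ (ne_half _)).2 g.2.2⟩
      invFun := fun g => ⟨g.1, g.2.1, (hfz _ (ne_half _)).1 g.2.2⟩
      left_inv := fun g => rfl
      right_inv := fun g => rfl }
  set b : Ord Z → ℝ := fun g => wt f (π g) with hb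
  have hbp : ∀ g, 0 < b g := fun g => wt_pos h _
  have hbs : Summable b := (wt_summ h).comp_injective π.injective
  have hbD : ∀ u, DD b (fun g => (π g).1) u = DD (wt f) (fun g : Gs f => g.1) u := by
    intro u
    unfold DD
    exact π.tsum_eq (fun g : Gs f => 2 * wt f g * Real.cos (g.1 * u))
  have har : ∀ g, 2 * (lam * b g) = ar Z lam g := by
    intro g
    have e : b g = (mu f ((g.1:ℂ) * I) : ℝ) * (2 / (1 + g.1 ^ 2)) := rfl
    rw [e, ord_eq h hZ (ne_half _)]
    unfold ar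
    ring
  have harp : ∀ g, 0 < ar Z lam g := fun g => by
    rw [← har]
    have := hbp g
    positivity
  have hIk : ∀ (k : ℕ) (g : Ord Z), 0 < Ik k (ar Z lam g) := by
    intro k g
    have h1 := Jk_pos (a := ar Z lam g / 2) (by have := harp g; positivity) k
    rw [Jk_Ik, mul_div_cancel₀ _ two_ne_zero] at h1
    exact h1
  have hIl : ∀ k : ℕ, 0 < Ik k lam := by
    intro k
    have h1 := Jk_pos (a := lam / 2) (by positivity) k
    rw [Jk_Ik, mul_div_cancel₀ _ two_ne_zero] at h1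
    exact h1
  have hIi : ∀ (k : ℕ) (p : (κ × Ord Z) ⊕ τ), 0 < Ik k (ari Z lam p) := by
    rintro k (p | l)
    · exact hIk k p.2
    · exact hIl k
  have hwm : ∀ n : (κ × Ord Z) ⊕ τ →₀ ℤ, 0 < wgi Z lam n := fun n =>
    Finset.prod_pos fun p _ => div_pos (hIi _ _) (hIi _ _)
  obtain ⟨c1, c2, c3⟩ := crit h hl (fun g => π g) b hbp hbs hbD
  have hPP := PP_tprod' c3
  simp only [har] at hPP
  have hV' : V = Real.exp (2 * lam * mu f 0) * PP (fun g => lam * b g) := by
    rw [hV, hmu0, hPP.2]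
  have hV0 : 0 < V := by
    rw [hV']
    exact mul_pos (Real.exp_pos _) (Real.exp_pos _)
  have hVk : 0 < (V ^ Fintype.card κ * Ik 0 lam ^ Fintype.card τ) := mul_pos (pow_pos hV0 _) (pow_pos (hIl 0) _)
  have hari : ∀ p : (κ × Ord Z) ⊕ τ, 2 * ai lam b p = ari Z lam p := by
    rintro (p | l)
    · exact har p.2
    · exact mul_div_cancel₀ _ two_ne_zero
  have hQm : ∀ n : (κ × Ord Z) ⊕ τ →₀ ℤ, QQ (ai lam b) n = wgi Z lam n := by
    intro n
    unfold QQ wgi
    refine Finset.prod_congr rfl fun g _ => ?_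
    simp only [qq]
    rw [Jk_Ik, J0_Ik, hari]
  obtain ⟨m1, m2⟩ := exact_mean_inh h hl (fun g => π g) b hbp hbs hbD hα β
  have hsm : Summable fun n : Rli Z α β => wgi Z lam n.1 := m1.congr fun n => hQm n.1
  have hDs := Ds_cont h α
  have hCs := Cs_cont β
  have hg0 : Continuous fun u => Real.exp (lam * Ds L δ α u) := by fun_prop
  have hgc : Continuous fun u => Real.exp (lam * (Ds L δ α u + Cs β u)) := by fun_prop
  have hF : ∀ x : ℝ, 0 < x → Real.exp (lam * (∑ j, D (x ^ α j) + ∑ l, Real.cos (β l * Real.log x))) =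
      (fun u => Real.exp (lam * (Ds L δ α u + Cs β u))) (Real.log x) := by
    intro x hx
    simp only
    congr 3
    unfold Ds
    refine Finset.sum_congr rfl fun j _ => ?_
    rw [hD _ (Real.rpow_pos_of_pos hx _), Real.log_rpow hx]
  have hlim : RHf f → Tendsto (Mi D α β lam) atTop
      (𝓝 ((V ^ Fintype.card κ * Ik 0 lam ^ Fintype.card τ) * ∑' n : Rli Z α β, wgi Z lam n.1)) := by
    intro hR
    have e1 : (∑' n : {n : (κ × Ord Z) ⊕ τ →₀ ℤ // val (gi α (fun g => (π g).1) β) n = 0},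
        QQ (ai lam b) n.1) = ∑' n : Rli Z α β, wgi Z lam n.1 := tsum_congr fun n => hQm n.1
    rw [hV', ← e1]
    exact tend_log hgc hF (m2 hR)
  have hbdd : RHf f ↔ ∃ C, ∀ᶠ X in atTop, Mi D α β lam X ≤ C := by
    constructor
    · intro hR
      exact ⟨_, ((hlim hR).eventually_lt_const (lt_add_one _)).mono fun X hX => hX.le⟩
    · rintro ⟨C, hC⟩
      have h1 := (ev_log hgc hF fun y => y ≤ C).1 hC
      refine rh_of_bdd_multi h hl hα ⟨Real.exp (lam * Fintype.card τ) * C, ?_⟩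
      filter_upwards [h1, eventually_gt_atTop 0] with U hU hU0
      have h2 : mean (fun u => Real.exp (lam * Ds L δ α u)) U ≤
          mean (fun u => Real.exp (lam * Fintype.card τ) * Real.exp (lam * (Ds L δ α u + Cs β u))) U := by
        unfold mean
        refine div_le_div_of_nonneg_right ?_ hU0.le
        refine intervalIntegral.integral_mono_on hU0.le (hg0.intervalIntegrable _ _)
          ((hgc.const_mul _).intervalIntegrable _ _) fun u _ => ?_
        rw [← Real.exp_add, Real.exp_le_exp]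
        have := mul_le_mul_of_nonneg_left (Cs_ge β u) hl.le
        linarith
      refine h2.trans ?_
      unfold mean
      rw [intervalIntegral.integral_const_mul, mul_div_assoc]
      exact mul_le_mul_of_nonneg_left hU (Real.exp_pos _).le
  -- subsets
  have hTle : ∀ T : Set (Rli Z α β), ∑' n : T, wgi Z lam n.1.1 ≤ ∑' n : Rli Z α β, wgi Z lam n.1 := fun T =>
    hsm.tsum_subtype_le (fun n : Rli Z α β => wgi Z lam n.1) T fun n => (hwm _).le
  have hTlt : ∀ T : Set (Rli Z α β), ∀ n₀, n₀ ∉ T →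
      ∑' n : T, wgi Z lam n.1.1 < ∑' n : Rli Z α β, wgi Z lam n.1 := by
    intro T n₀ hn₀
    have e : ∑' n : T, wgi Z lam n.1.1 = ∑' n, T.indicator (fun n : Rli Z α β => wgi Z lam n.1) n :=
      tsum_subtype T (fun n : Rli Z α β => wgi Z lam n.1)
    rw [e]
    refine Summable.tsum_lt_tsum (i := n₀) (fun n => ?_) ?_ (hsm.indicator T) hsm
    · exact Set.indicator_le_self' (fun n _ => (hwm _).le) n
    · rw [Set.indicator_of_notMem hn₀]
      exact hwm _
  refine ⟨hPP.1, hsm, ?_, ?_, fun T => ?_, fun s ε hε => ?_⟩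
  · rw [hRH]; exact hbdd
  · rw [hRH]; exact hlim
  · rw [hRH]
    constructor
    · rintro ⟨hR, hT⟩ ε hε
      have h2 : ∑' n : T, wgi Z lam n.1.1 = ∑' n : Rli Z α β, wgi Z lam n.1 := by
        have : T = Set.univ := Set.eq_univ_of_forall hT
        rw [this]
        exact tsum_univ (fun n : Rli Z α β => wgi Z lam n.1)
      rw [h2]
      exact (hlim hR).eventually_lt_const (by linarith)
    · intro h1
      have hR : RHf f := hbdd.2 ⟨_, (h1 1 one_pos).mono fun X hX => hX.le⟩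
      have h3 : (V ^ Fintype.card κ * Ik 0 lam ^ Fintype.card τ) * ∑' n : Rli Z α β, wgi Z lam n.1 ≤
          (V ^ Fintype.card κ * Ik 0 lam ^ Fintype.card τ) * ∑' n : T, wgi Z lam n.1.1 := by
        refine le_of_forall_pos_le_add fun ε hε => ?_
        exact le_of_tendsto (hlim hR) ((h1 ε hε).mono fun X hX => hX.le)
      refine ⟨hR, fun n₀ => ?_⟩
      by_contra hn₀
      have h6 := mul_lt_mul_of_pos_left (hTlt T n₀ hn₀) hVk
      linarith
  · by_contra hcon
    rw [Filter.not_frequently] at hcon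
    have h1 : ∀ᶠ X in atTop, Mi D α β lam X ≤ (V ^ Fintype.card κ * Ik 0 lam ^ Fintype.card τ) * ∑ n ∈ s, wgi Z lam n.1 - ε :=
      hcon.mono fun X hX => not_lt.1 hX
    have hR := hbdd.2 ⟨_, h1⟩
    have h2 := le_of_tendsto (hlim hR) h1
    have h4 : ∑ n ∈ s, wgi Z lam n.1 ≤ ∑' n : Rli Z α β, wgi Z lam n.1 := hsm.sum_le_tsum s fun n _ => (hwm _).le
    have h6 := mul_le_mul_of_nonneg_left h4 hVk.le
    linarith

/-- the smallest possible value -/
theorem crit_inh_free (h : LD f L δ) {Z : ℂ → ℂ} (hZ : ∀ z : ℂ, z ≠ 1 / 2 → f z = (z - 1 / 2) * Z (1 / 2 + z))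
    {lam : ℝ} (hl : 0 < lam) {D : ℝ → ℝ} (hD : ∀ x, 0 < x → D x = Dd L δ (Real.log x)) {V : ℝ}
    (hV : V = Real.exp (2 * lam * analyticOrderNatAt Z (1 / 2)) * ∏' g : Ord Z, Ik 0 (ar Z lam g))
    {α : κ → ℝ} (hα : ∀ j, 0 < α j) (β : τ → ℝ) :
    (RHs Z ∧ ∀ n : (κ × Ord Z) ⊕ τ →₀ ℤ,
      (n.sum fun p k => (k : ℝ) * Sum.elim (fun p : κ × Ord Z => α p.1 * p.2.1) β p) = 0 → n = 0) ↔
      ∀ ε : ℝ, 0 < ε → ∀ᶠ X in atTop, Mi D α β lam X < V ^ Fintype.card κ * Ik 0 lam ^ Fintype.card τ + ε := by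
  obtain ⟨-, -, -, -, c, -⟩ := crit_inh h hZ hl hD hV hα β
  have hz : ((0 : (κ × Ord Z) ⊕ τ →₀ ℤ).sum
      fun p k => (k : ℝ) * Sum.elim (fun p : κ × Ord Z => α p.1 * p.2.1) β p) = 0 := Finsupp.sum_zero_index
  obtain ⟨z₀, hz₀⟩ : ∃ z₀ : Rli Z α β, z₀.1 = 0 := ⟨⟨0, hz⟩, rfl⟩
  have h1 := c {z₀}
  have e1 : ∑' n : ({z₀} : Set (Rli Z α β)), wgi Z lam n.1.1 = 1 := by
    have e2 := tsum_singleton z₀ (fun n : Rli Z α β => wgi Z lam n.1)
    refine e2.trans ?_
    rw [hz₀]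
    exact Finsupp.prod_zero_index
  rw [e1, mul_one] at h1
  rw [← h1]
  refine and_congr_right fun _ => ?_
  constructor
  · intro h2 n
    exact Subtype.ext ((h2 n.1 n.2).trans hz₀.symm)
  · intro h2 n hn
    exact (congrArg Subtype.val (h2 ⟨n, hn⟩ : (⟨n, hn⟩ : Rli Z α β) = z₀)).trans hz₀

end Pool.Agent.U544.LI
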