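import Pool.Agent.U544.LI.Expl
import Pool.Agent.TH988.RB.Lan

/-!
# A bounded mean value excludes the zeros to the right
-/

set_option autoImplicit false

open Complex Filter Topology Metric Finset MeasureTheory Set
open scoped ComplexConjugate

namespace Pool.Agent.U544.LI

open Pool.Agent.W263.BSD

variable {f : ℂ → ℂ} {L : ℕ → ℝ} {δ : ℝ}

noncomputable def Dp (L : ℕ → ℝ) (δ : ℝ) (u : ℝ) : ℝ := max (Dd L δ u) 0

noncomputable def Dm (L : ℕ → ℝ) (δ : ℝ) (u : ℝ) : ℝ := max (-Dd L δ u) 0

lemma Dp_cont (h : LD f L δ) : Continuous (Dp L δ) := (Dd_cont h).max continuous_const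

lemma Dm_cont (h : LD f L δ) : Continuous (Dm L δ) := (Dd_cont h).neg.max continuous_const

lemma Dpm (u : ℝ) : Dp L δ u - Dm L δ u = Dd L δ u := by
  unfold Dp Dm
  rcases le_total (Dd L δ u) 0 with h | h
  · rw [max_eq_right h, max_eq_left (by linarith)]; ring
  · rw [max_eq_left h, max_eq_right (by linarith)]; ring

lemma D_abs (h : LD f L δ) {u : ℝ} (hu : 0 ≤ u) :
    |Dd L δ u| ≤ (8 / 3 * |δ| + ∑' n : ℕ, L n / √n * (n:ℝ)⁻¹) * Real.exp u := by
  have h1 := S_le h u
  have h2 := S_nonneg h u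
  have h3 : Real.exp (u / 2) ≤ Real.exp u := Real.exp_le_exp.2 (by linarith)
  unfold Dd
  refine (abs_sub _ _).trans ?_
  rw [abs_of_nonneg h2, abs_mul, abs_mul, abs_of_nonneg (by norm_num : (0:ℝ) ≤ 8 / 3),
    abs_of_nonneg (Real.exp_pos (u / 2)).le, add_mul]
  gcongr

lemma D_LInt (h : LD f L δ) {w : ℝ} (hw : 1 < w) : LInt (Dd L δ) w := by
  unfold LInt
  have hc := Dd_cont h
  refine Integrable.mono' (g := fun u : ℝ => (8 / 3 * |δ| + ∑' n : ℕ, L n / √n * (n:ℝ)⁻¹) * Real.exp (-(w - 1) * u))
    ((integrableOn_exp_mul_Ioi (by linarith) 0).const_mul _) (by fun_prop) ?_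
  rw [ae_restrict_iff' measurableSet_Ioi]
  refine Eventually.of_forall fun u hu => ?_
  rw [norm_mul, Real.norm_eq_abs, Real.norm_of_nonneg (Real.exp_pos _).le]
  refine (mul_le_mul_of_nonneg_right (D_abs h (le_of_lt hu)) (Real.exp_pos _).le).trans (le_of_eq ?_)
  rw [mul_assoc, ← Real.exp_add]
  ring_nf

lemma Dm_LInt (h : LD f L δ) {w : ℝ} (hw : 1 < w) : LInt (Dm L δ) w :=
  LInt.posPart (Dd_cont h).measurable.neg (D_LInt h hw).neg

lemma Dp_le {x lam : ℝ} (hl : 0 < lam) : max x 0 ≤ Real.exp (lam * x) / lam := by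
  rw [le_div_iff₀ hl]
  rcases le_total x 0 with h | h
  · rw [max_eq_right h]
    have := Real.exp_pos (lam * x)
    linarith
  · rw [max_eq_left h]
    linarith [Real.add_one_le_exp (lam * x)]

lemma Dp_LInt (h : LD f L δ) {lam C : ℝ} (hl : 0 < lam)
    (hb : ∀ U ≥ (1:ℝ), ∫ u in (0:ℝ)..U, Real.exp (lam * Dd L δ u) ≤ C * U) {w : ℝ} (hw : 0 < w) :
    LInt (Dp L δ) w := by
  have hc := Dd_cont h
  have hpc := Dp_cont h
  have hC : 0 ≤ C := by
    have h1 := hb 1 le_rfl
    have h2 : 0 ≤ ∫ u in (0:ℝ)..1, Real.exp (lam * Dd L δ u) :=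
      intervalIntegral.integral_nonneg (by norm_num) fun u _ => (Real.exp_pos _).le
    linarith
  set P : ℝ → ℝ := fun U => ∫ u in (0:ℝ)..U, Dp L δ u with hP
  have hPd : ∀ U, HasDerivAt P (Dp L δ U) U := fun U =>
    intervalIntegral.integral_hasDerivAt_right (hpc.intervalIntegrable _ _)
      (hpc.stronglyMeasurableAtFilter _ _) hpc.continuousAt
  have hP1 : ∀ U ≥ (1:ℝ), P U ≤ C / lam * U := by
    intro U hU
    have e : C / lam * U = (C * U) / lam := by ring
    rw [e]
    refine le_trans ?_ (div_le_div_of_nonneg_right (hb U hU) hl.le)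
    rw [← intervalIntegral.integral_div]
    refine intervalIntegral.integral_mono_on (by linarith) (hpc.intervalIntegrable _ _)
      (Continuous.intervalIntegrable (by fun_prop) _ _) fun u _ => Dp_le hl
  have hPm : ∀ U, 0 ≤ U → P U ≤ C / lam * (1 + U) := by
    intro U hU
    rcases le_total 1 U with h1 | h1
    · refine (hP1 U h1).trans ?_
      have : 0 ≤ C / lam := by positivity
      nlinarith
    · have h2 : P U ≤ P 1 := by
        have : P 1 - P U = ∫ u in U..1, Dp L δ u := by
          simp only [hP]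
          rw [intervalIntegral.integral_interval_sub_left (hpc.intervalIntegrable _ _) (hpc.intervalIntegrable _ _)]
        have h3 : 0 ≤ ∫ u in U..1, Dp L δ u :=
          intervalIntegral.integral_nonneg h1 fun u _ => le_max_right _ _
        linarith
      have h4 := hP1 1 le_rfl
      have : 0 ≤ C / lam * U := by positivity
      linarith
  have hw2 : ∀ u : ℝ, 0 ≤ u → (1 + u) * Real.exp (-(w * u)) ≤ (1 + 2 / w) * Real.exp (-(w / 2) * u) := by
    intro u hu
    have h1 : 1 + u ≤ (1 + 2 / w) * Real.exp (w / 2 * u) := by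
      have a1 : 1 ≤ Real.exp (w / 2 * u) := Real.one_le_exp (by positivity)
      have a2 : u ≤ 2 / w * Real.exp (w / 2 * u) := by
        rw [div_mul_eq_mul_div, le_div_iff₀ hw]
        nlinarith [Real.add_one_le_exp (w / 2 * u)]
      linarith
    calc (1 + u) * Real.exp (-(w * u)) ≤ (1 + 2 / w) * Real.exp (w / 2 * u) * Real.exp (-(w * u)) :=
          mul_le_mul_of_nonneg_right h1 (Real.exp_pos _).le
      _ = _ := by rw [mul_assoc, ← Real.exp_add]; ring_nf
  unfold LInt
  set B := C / lam * (1 + 2 / w) with hB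
  have hB0 : 0 ≤ B := by positivity
  refine integrableOn_Ioi_of_intervalIntegral_norm_bounded (3 * B) 0 (l := atTop) (b := fun x : ℝ => x)
    (fun U => (Continuous.integrableOn_Ioc (by fun_prop))) tendsto_id ?_
  filter_upwards [eventually_ge_atTop 0] with U hU
  have e1 : ∫ u in (0:ℝ)..U, ‖Dp L δ u * Real.exp (-(w * u))‖ = ∫ u in (0:ℝ)..U, Dp L δ u * Real.exp (-(w * u)) := by
    refine intervalIntegral.integral_congr fun u _ => ?_
    exact Real.norm_of_nonneg (mul_nonneg (le_max_right _ _) (Real.exp_pos _).le)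
  have hv : ∀ u : ℝ, HasDerivAt (fun u : ℝ => Real.exp (-(w * u))) (Real.exp (-(w * u)) * (-(w * 1))) u := fun u =>
    (((hasDerivAt_id u).const_mul w).neg).exp
  have hPc : Continuous P := continuous_iff_continuousAt.2 fun u => (hPd u).continuousAt
  have e2 := intervalIntegral.integral_mul_deriv_eq_deriv_mul (a := 0) (b := U) (u := P)
    (v := fun u : ℝ => Real.exp (-(w * u))) (u' := Dp L δ) (v' := fun u => Real.exp (-(w * u)) * (-(w * 1)))
    (fun u _ => hPd u) (fun u _ => hv u) (hpc.intervalIntegrable _ _) (Continuous.intervalIntegrable (by fun_prop) _ _)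
  have hP0 : P 0 = 0 := by simp [hP]
  have e3 : ∫ u in (0:ℝ)..U, Dp L δ u * Real.exp (-(w * u)) =
      P U * Real.exp (-(w * U)) + ∫ u in (0:ℝ)..U, w * (P u * Real.exp (-(w * u))) := by
    have e4 : ∫ u in (0:ℝ)..U, w * (P u * Real.exp (-(w * u))) =
        -∫ u in (0:ℝ)..U, P u * (Real.exp (-(w * u)) * (-(w * 1))) := by
      rw [← intervalIntegral.integral_neg]
      exact intervalIntegral.integral_congr fun u _ => by ring
    rw [e4, e2, hP0]
    ring
  rw [e1, e3]
  have f1 : P U * Real.exp (-(w * U)) ≤ B := by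
    calc P U * Real.exp (-(w * U)) ≤ C / lam * (1 + U) * Real.exp (-(w * U)) :=
          mul_le_mul_of_nonneg_right (hPm U hU) (Real.exp_pos _).le
      _ = C / lam * ((1 + U) * Real.exp (-(w * U))) := by ring
      _ ≤ C / lam * ((1 + 2 / w) * Real.exp (-(w / 2) * U)) :=
          mul_le_mul_of_nonneg_left (hw2 U hU) (by positivity)
      _ ≤ C / lam * ((1 + 2 / w) * 1) := by
          have : Real.exp (-(w / 2) * U) ≤ 1 := Real.exp_le_one_iff.2 (by nlinarith)
          gcongr
      _ = B := by rw [hB]; ring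
  have f2 : ∫ u in (0:ℝ)..U, w * (P u * Real.exp (-(w * u))) ≤ 2 * B := by
    calc ∫ u in (0:ℝ)..U, w * (P u * Real.exp (-(w * u)))
        ≤ ∫ u in (0:ℝ)..U, w * B * Real.exp (-(w / 2) * u) := by
          refine intervalIntegral.integral_mono_on hU (Continuous.intervalIntegrable (by fun_prop) _ _)
            (Continuous.intervalIntegrable (by fun_prop) _ _) fun u hu => ?_
          calc w * (P u * Real.exp (-(w * u))) ≤ w * (C / lam * (1 + u) * Real.exp (-(w * u))) := by
                refine mul_le_mul_of_nonneg_left ?_ hw.le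
                exact mul_le_mul_of_nonneg_right (hPm u hu.1) (Real.exp_pos _).le
            _ = w * (C / lam) * ((1 + u) * Real.exp (-(w * u))) := by ring
            _ ≤ w * (C / lam) * ((1 + 2 / w) * Real.exp (-(w / 2) * u)) :=
                mul_le_mul_of_nonneg_left (hw2 u hu.1) (by positivity)
            _ = _ := by rw [hB]; ring
      _ = w * B * ∫ u in (0:ℝ)..U, Real.exp (-(w / 2) * u) := by rw [intervalIntegral.integral_const_mul]
      _ = w * B * ((Real.exp (-(w / 2) * U) - 1) / (-(w / 2))) := by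
          congr 1
          have hne : -(w / 2) ≠ 0 := by have := hw.ne'; simp [this]
          rw [intervalIntegral.integral_comp_mul_left (fun x => Real.exp x) hne, integral_exp]
          simp only [mul_zero, Real.exp_zero, smul_eq_mul]
          rw [inv_mul_eq_div]
      _ ≤ 2 * B := by
          have h1 := Real.exp_pos (-(w / 2) * U)
          have : w * B * ((Real.exp (-(w / 2) * U) - 1) / (-(w / 2))) = 2 * B * (1 - Real.exp (-(w / 2) * U)) := by
            field_simp
            ring
          rw [this]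
          nlinarith
  linarith

/-- the identity in the half-plane of convergence -/
lemma ident (h : LD f L δ) {a : ℝ} (ha : a < 2) (hp : ∀ w > a, LInt (Dp L δ) w) (hm : ∀ w > a, LInt (Dm L δ) w)
    {z : ℂ} (hz : a < z.re) : (1 - z ^ 2) * f z * (lapC (Dp L δ) z - lapC (Dm L δ) z) =
      2 * deriv f z + f z * (2 / 3 * δ * (1 - z) - logDeriv f 1 * (1 + z)) := by
  have hU : IsOpen {z : ℂ | a < z.re} := isOpen_lt continuous_const Complex.continuous_re
  have hd1 : ∀ z : ℂ, a < z.re → DifferentiableAt ℂ (lapC (Dp L δ)) z := fun z hz =>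
    lapC_differentiableAt (Dp_cont h).measurable hp hz
  have hd2 : ∀ z : ℂ, a < z.re → DifferentiableAt ℂ (lapC (Dm L δ)) z := fun z hz =>
    lapC_differentiableAt (Dm_cont h).measurable hm hz
  have hf := h.diff
  have hf' : Differentiable ℂ (deriv f) := (hf.contDiff (n := 2)).differentiable_deriv_two
  have hA : AnalyticOnNhd ℂ (fun z => (1 - z ^ 2) * f z * (lapC (Dp L δ) z - lapC (Dm L δ) z)) {z : ℂ | a < z.re} := by
    refine DifferentiableOn.analyticOnNhd (fun z hz => DifferentiableAt.differentiableWithinAt ?_) hU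
    have h1 := hd1 z hz
    have h2 := hd2 z hz
    have h3 := hf z
    fun_prop
  have hB : AnalyticOnNhd ℂ (fun z => 2 * deriv f z + f z * (2 / 3 * δ * (1 - z) - logDeriv f 1 * (1 + z)))
      {z : ℂ | a < z.re} := by
    refine DifferentiableOn.analyticOnNhd (fun z hz => DifferentiableAt.differentiableWithinAt ?_) hU
    have h3 := hf z
    have h4 := hf' z
    fun_prop
  have hpre : IsPreconnected {z : ℂ | a < z.re} := (convex_halfSpace_re_gt a).isPreconnected
  have h2mem : (2:ℂ) ∈ {z : ℂ | a < z.re} := by simpa using ha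
  refine hA.eqOn_of_preconnected_of_frequently_eq hB hpre h2mem ?_ hz
  have ht : Tendsto (fun t : ℝ => (2:ℂ) + t * I) (𝓝[≠] 0) (𝓝[≠] 2) := by
    refine tendsto_nhdsWithin_iff.2 ⟨?_, ?_⟩
    · have : Tendsto (fun t : ℝ => (2:ℂ) + t * I) (𝓝 0) (𝓝 (2 + (0:ℝ) * I)) :=
        Continuous.tendsto (by fun_prop) 0
      simp only [ofReal_zero, zero_mul, add_zero] at this
      exact this.mono_left nhdsWithin_le_nhds
    · filter_upwards [self_mem_nhdsWithin] with t ht
      intro hh
      have h1 : (2:ℂ) + t * I = 2 := hh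
      have h2 : (t:ℂ) * I = 0 := by linear_combination h1
      rcases mul_eq_zero.1 h2 with h3 | h3
      · exact ht (by exact_mod_cast h3)
      · exact I_ne_zero h3
  refine ht.frequently (Eventually.frequently (Eventually.of_forall fun t => ?_))
  set z : ℂ := 2 + t * I with hz
  have hz2 : z.re = 2 := by simp [hz]
  have hfz : f z ≠ 0 := h.ne z (by rw [hz2]; norm_num)
  obtain ⟨s1, s2⟩ := S_lap h hz2
  have i1 : IntegrableOn (fun u : ℝ => (Dp L δ u : ℂ) * cexp (-(z * u))) (Ioi 0) :=
    LInt.complex (Dp_cont h).measurable (hp _ (by rw [hz2]; exact ha))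
  have i2 : IntegrableOn (fun u : ℝ => (Dm L δ u : ℂ) * cexp (-(z * u))) (Ioi 0) :=
    LInt.complex (Dm_cont h).measurable (hm _ (by rw [hz2]; exact ha))
  have e : ∀ u : ℝ, cexp (1 / 2 * u) * cexp (-(z * u)) = cexp ((1 / 2 - z) * u) := by
    intro u
    rw [← Complex.exp_add]; ring_nf
  have hr : (1 / 2 - z).re < 0 := by simp [hz2]; norm_num
  have a1 := integrableOn_exp_mul_complex_Ioi hr 0
  have a2 := lap_exp hr
  have e1 : lapC (Dp L δ) z - lapC (Dm L δ) z =
      8 / 3 * δ * (-1 / (1 / 2 - z)) - (2 / (1 - z ^ 2) * (δ / (z - 1 / 2) - logDeriv f z) -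
        1 / (1 - z) * (2 * δ - logDeriv f 1)) := by
    unfold lapC
    rw [← integral_sub i1 i2, ← s2, ← a2, ← integral_const_mul, ← integral_sub (a1.const_mul _) s1]
    refine integral_congr_ae (Eventually.of_forall fun u => ?_)
    simp only
    rw [← sub_mul, ← Complex.ofReal_sub, Dpm, ← e, Dd]
    push_cast
    rw [show (u:ℂ) / 2 = 1 / 2 * u by ring]
    ring
  have n1 : 1 + z ≠ 0 := by
    intro h
    have := congrArg Complex.re h
    simp [hz2] at this
    linarith
  have n2 : 1 - z ≠ 0 := by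
    intro h
    have := congrArg Complex.re h
    simp [hz2] at this
    linarith
  have n4 : 2 * z - 1 ≠ 0 := by
    intro h
    have := congrArg Complex.re h
    simp [hz2] at this
    linarith
  rw [e1, logDeriv_apply f z]
  rw [show 1 - z ^ 2 = (1 - z) * (1 + z) by ring, show z - 1 / 2 = (2 * z - 1) / 2 by ring,
    show 1 / 2 - z = -((2 * z - 1) / 2) by ring]
  obtain ⟨q, hq⟩ : ∃ q, q = 2 * z - 1 := ⟨_, rfl⟩
  rw [← hq] at n4 ⊢
  field_simp
  linear_combination (f z * δ * (8 * z + 4)) * hq

lemma real_on (h : LD f L δ) (t : ℝ) : f t = ((f t).re : ℂ) := by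
  have := h.real t
  rw [Complex.conj_ofReal] at this
  exact (Complex.conj_eq_iff_re.1 this.symm).symm

/-- Landau's step -/
lemma landau_step (h : LD f L δ) (hp : ∀ w > 0, LInt (Dp L δ) w) {a : ℝ} (ha : 0 ≤ a)
    (hne : ∀ t : ℝ, a < t → f t ≠ 0) : ∀ w > a, LInt (Dm L δ) w := by
  set N : ℂ → ℂ := fun z => 2 * logDeriv f z + (2 / 3 * δ * (1 - z) - logDeriv f 1 * (1 + z)) with hN
  have hN1 : N 1 = 0 := by simp only [hN]; ring
  set V : Set ℂ := {z | f z ≠ 0} with hV
  have hVo : IsOpen V := isOpen_ne_fun h.diff.continuous continuous_const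
  have hf' : Differentiable ℂ (deriv f) := (h.diff.contDiff (n := 2)).differentiable_deriv_two
  have hNd : DifferentiableOn ℂ N V := by
    intro z hz
    refine DifferentiableAt.differentiableWithinAt ?_
    have h1 : DifferentiableAt ℂ (fun z => deriv f z / f z) z := (hf' z).div (h.diff z) hz
    have h2 : N = fun z => 2 * (deriv f z / f z) + (2 / 3 * δ * (1 - z) - logDeriv f 1 * (1 + z)) := rfl
    rw [h2]
    fun_prop
  have h1V : V ∈ 𝓝 (1:ℂ) := hVo.mem_nhds (h.ne 1 (by norm_num))
  have hds : DifferentiableOn ℂ (dslope N 1) V := (Complex.differentiableOn_dslope h1V).2 hNd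
  set g : ℝ → ℝ := fun w => (lapC (Dp L δ) w - -(dslope N 1 w) / (1 + w)).re with hg
  have hgan : ∀ w > a, AnalyticAt ℝ g w := by
    intro w hw
    have hw' : (w:ℂ) ∈ V := hne w hw
    have hfun : AnalyticAt ℂ (fun z => lapC (Dp L δ) z - -(dslope N 1 z) / (1 + z)) w := by
      have hU : IsOpen ({z : ℂ | 0 < z.re} ∩ V) := (isOpen_lt continuous_const Complex.continuous_re).inter hVo
      have hm : (w:ℂ) ∈ {z : ℂ | 0 < z.re} ∩ V := ⟨by simp; linarith, hw'⟩
      refine DifferentiableOn.analyticAt (s := {z : ℂ | 0 < z.re} ∩ V) ?_ (hU.mem_nhds hm)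
      intro z hz
      refine DifferentiableAt.differentiableWithinAt ?_
      have d1 : DifferentiableAt ℂ (lapC (Dp L δ)) z := lapC_differentiableAt (Dp_cont h).measurable hp hz.1
      have d2 : DifferentiableAt ℂ (dslope N 1) z := (hds z hz.2).differentiableAt (hVo.mem_nhds hz.2)
      have d3 : 1 + z ≠ 0 := by
        intro h0
        have := congrArg Complex.re h0
        have h4 : 0 < z.re := hz.1
        simp at this
        linarith
      exact d1.sub ((d2.neg).div (by fun_prop) d3)
    have h2 : AnalyticAt ℝ (fun x : ℝ => (fun z => lapC (Dp L δ) z - -(dslope N 1 z) / (1 + z)) (x:ℂ)) w :=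
      hfun.restrictScalars.comp_of_eq (Complex.ofRealCLM.analyticAt w) rfl
    exact (Complex.reCLM.analyticAt _).comp h2
  have heq : ∀ w > 1, a < w → lap (Dm L δ) w = g w := by
    intro w hw _
    have hi := ident h (a := 1) (by norm_num) (fun w hw => hp w (by linarith)) (fun w hw => Dm_LInt h hw)
      (z := (w:ℂ)) (by simpa using hw)
    have hfw : f w ≠ 0 := h.ne w (by simp; linarith)
    have w1 : (1:ℂ) - w ≠ 0 := by
      intro h0
      have := congrArg Complex.re h0
      simp at this
      linarith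
    have w2 : (1:ℂ) + w ≠ 0 := by
      intro h0
      have := congrArg Complex.re h0
      simp at this
      linarith
    have hds1 : (1 - (w:ℂ)) * -(dslope N 1 w) = N w := by
      have := sub_smul_dslope N 1 (w:ℂ)
      rw [smul_eq_mul, hN1, sub_zero] at this
      linear_combination this
    have e1 : (1 - (w:ℂ)) * (1 + w) * (lapC (Dp L δ) w - lapC (Dm L δ) w) = N w := by
      have : (1 - (w:ℂ)) * (1 + w) * (lapC (Dp L δ) w - lapC (Dm L δ) w) * f w = N w * f w := by
        have hNw : N w = 2 * (deriv f w / f w) + (2 / 3 * δ * (1 - w) - logDeriv f 1 * (1 + w)) := rfl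
        rw [hNw]
        have : 2 * (deriv f w / f w) * f w = 2 * deriv f w := by field_simp
        linear_combination hi - this
      exact mul_right_cancel₀ hfw this
    have e2 : lapC (Dp L δ) w - -(dslope N 1 w) / (1 + w) = lapC (Dm L δ) w := by
      have e3 : (1 + (w:ℂ)) * (lapC (Dp L δ) w - lapC (Dm L δ) w) = -(dslope N 1 w) := by
        apply mul_left_cancel₀ w1
        rw [hds1, ← e1]
        ring
      rw [← e3]
      field_simp
      ring
    simp only [hg]
    rw [e2, lapC_ofReal, Complex.ofReal_re]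
  exact (Pool.Agent.TH988.RB.landau_lap (Dm_cont h).measurable (fun u _ => le_max_right _ _)
    (fun w hw => Dm_LInt h hw) hgan heq).1

/-- no positive real zero -/
lemma no_real (h : LD f L δ) (hp : ∀ w > 0, LInt (Dp L δ) w) {x : ℝ} (hx : 0 < x) : f x ≠ 0 := by
  intro hfx
  have hx2 : x < 1 / 2 := by
    by_contra h1
    exact h.ne x (by simpa using h1) hfx
  have hcont : Continuous fun t : ℝ => f t := h.diff.continuous.comp Complex.continuous_ofReal
  have hK : IsCompact (Icc x (1 / 2) ∩ {t : ℝ | f t = 0}) :=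
    isCompact_Icc.inter_right (isClosed_eq hcont continuous_const)
  have hKne : (Icc x (1 / 2) ∩ {t : ℝ | f t = 0}).Nonempty := ⟨x, ⟨⟨le_rfl, hx2.le⟩, hfx⟩⟩
  obtain ⟨x1, ⟨hx1, hfx1⟩, hmax⟩ := hK.exists_isGreatest hKne
  have hfx1 : f x1 = 0 := hfx1
  have hx10 : 0 < x1 := lt_of_lt_of_le hx hx1.1
  have hx12 : x1 < 1 / 2 := by
    rcases hx1.2.lt_or_eq with h1 | h1
    · exact h1
    · exact absurd hfx1 (h.ne x1 (by simp [h1]))
  have hne : ∀ t : ℝ, x1 < t → f t ≠ 0 := by
    intro t ht hft
    rcases le_total t (1 / 2) with h1 | h1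
    · have := hmax ⟨⟨hx1.1.trans ht.le, h1⟩, hft⟩
      linarith
    · exact h.ne t (by simpa using h1) hft
  have hm := landau_step h hp hx10.le hne
  -- a bound for the logarithmic derivative
  set F1 := (logDeriv f 1).re with hF1
  set B : ℝ := (lap (Dp L δ) x1 + (2 / 3 * |δ| + 2 * |F1|)) / 2 with hB
  have hbd : ∀ t : ℝ, x1 < t → t < 1 / 2 → (logDeriv f t).re ≤ B := by
    intro t h1 h2
    have hi := ident h (a := x1) (by linarith) (fun w hw => hp w (by linarith)) hm (z := (t:ℂ)) (by simpa using h1)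
    have hft := hne t h1
    have e1 : 2 * logDeriv f t = (1 - (t:ℂ) ^ 2) * (lapC (Dp L δ) t - lapC (Dm L δ) t) -
        (2 / 3 * δ * (1 - t) - logDeriv f 1 * (1 + t)) := by
      apply mul_right_cancel₀ hft
      rw [logDeriv_apply f (t:ℂ)]
      have : 2 * (deriv f t / f t) * f t = 2 * deriv f t := by field_simp
      linear_combination this - hi
    have e2 := congrArg Complex.re e1
    rw [lapC_ofReal, lapC_ofReal] at e2
    have e3 : ((1 - (t:ℂ) ^ 2) * ((lap (Dp L δ) t : ℂ) - (lap (Dm L δ) t : ℂ)) -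
        (2 / 3 * δ * (1 - t) - logDeriv f 1 * (1 + t))) =
        (((1 - t ^ 2) * (lap (Dp L δ) t - lap (Dm L δ) t) - 2 / 3 * δ * (1 - t) : ℝ) : ℂ) +
          ((1 + t : ℝ) : ℂ) * logDeriv f 1 := by
      push_cast; ring
    rw [e3, Complex.add_re, Complex.ofReal_re, Complex.re_ofReal_mul] at e2
    have e4 : (2 * logDeriv f t).re = 2 * (logDeriv f t).re := by simp
    rw [e4] at e2
    have l1 : 0 ≤ lap (Dm L δ) t := lap_nonneg (fun u _ => le_max_right _ _) t
    have l2 : lap (Dp L δ) t ≤ lap (Dp L δ) x1 := by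
      unfold lap
      refine setIntegral_mono_on (hp t (by linarith)) (hp x1 hx10) measurableSet_Ioi fun u hu => ?_
      have hu : 0 < u := hu
      refine mul_le_mul_of_nonneg_left (Real.exp_le_exp.2 ?_) (le_max_right _ _)
      nlinarith
    have l3 : 0 ≤ lap (Dp L δ) t := lap_nonneg (fun u _ => le_max_right _ _) t
    have t0 : 0 < t := by linarith
    have t2 : 0 ≤ 1 - t ^ 2 := by nlinarith
    have t3 : 1 - t ^ 2 ≤ 1 := by nlinarith [sq_nonneg t]
    have m1 : (1 - t ^ 2) * (lap (Dp L δ) t - lap (Dm L δ) t) ≤ lap (Dp L δ) x1 := by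
      calc (1 - t ^ 2) * (lap (Dp L δ) t - lap (Dm L δ) t) ≤ (1 - t ^ 2) * lap (Dp L δ) t :=
            mul_le_mul_of_nonneg_left (by linarith) t2
        _ ≤ 1 * lap (Dp L δ) t := mul_le_mul_of_nonneg_right t3 l3
        _ ≤ _ := by linarith
    have m2 : -(2 / 3 * δ * (1 - t)) ≤ 2 / 3 * |δ| := by
      have : -δ ≤ |δ| := neg_le_abs δ
      have := abs_nonneg δ
      nlinarith
    have m3 : (1 + t) * F1 ≤ 2 * |F1| := by
      have : F1 ≤ |F1| := le_abs_self F1
      have := abs_nonneg F1
      nlinarith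
    rw [hB]
    linarith
  -- the contradiction
  set fr : ℝ → ℝ := fun t => (f t).re with hfr
  have hfd : ∀ t : ℝ, HasDerivAt fr (deriv f t).re t := fun t => (h.diff (t:ℂ)).hasDerivAt.real_of_complex
  have hfrc : Continuous fr := continuous_iff_continuousAt.2 fun t => (hfd t).continuousAt
  have hψ : ∀ t : ℝ, HasDerivAt (fun t => fr t ^ 2 * Real.exp (-(2 * B * t)))
      (2 * fr t * (deriv f t).re * Real.exp (-(2 * B * t)) + fr t ^ 2 * (Real.exp (-(2 * B * t)) * (-(2 * B * 1)))) t := by
    intro t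
    have h1 := (hfd t).pow 2
    have h2 : HasDerivAt (fun t : ℝ => Real.exp (-(2 * B * t))) (Real.exp (-(2 * B * t)) * (-(2 * B * 1))) t :=
      (((hasDerivAt_id t).const_mul (2 * B)).neg).exp
    refine (h1.mul h2).congr_deriv ?_
    norm_num
  have hanti : AntitoneOn (fun t => fr t ^ 2 * Real.exp (-(2 * B * t))) (Icc x1 (1 / 2)) := by
    refine antitoneOn_of_deriv_nonpos (convex_Icc _ _) (by fun_prop)
      (fun t _ => (hψ t).differentiableAt.differentiableWithinAt) fun t ht => ?_
    rw [interior_Icc] at ht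
    rw [(hψ t).deriv]
    have hft := hne t ht.1
    have hr := real_on h t
    have hfr0 : fr t ≠ 0 := by
      intro h0
      apply hft
      rw [hr]
      simp only [hfr] at h0
      rw [h0, Complex.ofReal_zero]
    have e1 : (deriv f t).re = fr t * (logDeriv f t).re := by
      have : deriv f t = (fr t : ℂ) * logDeriv f t := by
        rw [logDeriv_apply]
        simp only [hfr]
        rw [← hr]
        field_simp
      rw [this, Complex.re_ofReal_mul]
    rw [e1]
    have h1 := hbd t ht.1 ht.2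
    have h2 : 2 * fr t * (fr t * (logDeriv f t).re) * Real.exp (-(2 * B * t)) +
        fr t ^ 2 * (Real.exp (-(2 * B * t)) * (-(2 * B * 1))) =
        2 * fr t ^ 2 * Real.exp (-(2 * B * t)) * ((logDeriv f t).re - B) := by ring
    rw [h2]
    exact mul_nonpos_of_nonneg_of_nonpos (by positivity) (by linarith)
  have h3 := hanti (left_mem_Icc.2 hx12.le) (right_mem_Icc.2 hx12.le) hx12.le
  have h4 : fr x1 = 0 := by simp only [hfr]; rw [hfx1, Complex.zero_re]
  have h5 : fr (1 / 2) ≠ 0 := by
    intro h0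
    have := h.ne ((1 / 2 : ℝ) : ℂ) (by simp)
    apply this
    rw [real_on h]
    simp only [hfr] at h0
    rw [h0, Complex.ofReal_zero]
  simp only [h4] at h3
  have h6 : 0 < fr (1 / 2) ^ 2 * Real.exp (-(2 * B * (1 / 2))) := by positivity
  have h7 : (0:ℝ) ^ 2 * Real.exp (-(2 * B * x1)) = 0 := by ring
  rw [h7] at h3
  linarith

/-- **no zero to the right** -/
theorem no_pos (h : LD f L δ) (hp : ∀ w > 0, LInt (Dp L δ) w) {w : ℂ} (hw : f w = 0) : w.re ≤ 0 := by
  by_contra hw0
  push Not at hw0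
  have hm := landau_step h hp le_rfl fun t ht => no_real h hp ht
  have hne : ∃ z, f z ≠ 0 := ⟨1, h.ne 1 (by norm_num)⟩
  have hU : IsOpen {z : ℂ | 0 < z.re} := isOpen_lt continuous_const Complex.continuous_re
  set H : ℂ → ℂ := fun z => ((1 - z ^ 2) * (lapC (Dp L δ) z - lapC (Dm L δ) z) -
    (2 / 3 * δ * (1 - z) - logDeriv f 1 * (1 + z))) / 2 with hH
  have hHan : AnalyticAt ℂ H w := by
    refine DifferentiableOn.analyticAt (s := {z : ℂ | 0 < z.re}) (fun z hz => ?_) (hU.mem_nhds hw0)
    refine DifferentiableAt.differentiableWithinAt ?_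
    have d1 : DifferentiableAt ℂ (lapC (Dp L δ)) z := lapC_differentiableAt (Dp_cont h).measurable hp hz
    have d2 : DifferentiableAt ℂ (lapC (Dm L δ)) z := lapC_differentiableAt (Dm_cont h).measurable hm hz
    simp only [hH]
    fun_prop
  have hfan : AnalyticAt ℂ f w := h.diff.analyticAt w
  have heq : deriv f =ᶠ[𝓝 w] f * H := by
    filter_upwards [hU.mem_nhds hw0] with z hz
    have := ident h (a := 0) (by norm_num) hp hm hz
    simp only [Pi.mul_apply, hH]
    linear_combination -this / 2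
  have h1 : analyticOrderAt (deriv f) w + 1 = analyticOrderAt f w := by
    have := hfan.analyticOrderAt_deriv_add_one
    simpa [hw] using this
  have h2 : analyticOrderAt (deriv f) w = analyticOrderAt f w + analyticOrderAt H w := by
    rw [analyticOrderAt_congr heq, analyticOrderAt_mul hfan hHan]
  have h3 : analyticOrderAt f w ≠ ⊤ := Pool.Agent.R362.Near.ord_ne_top h.diff hne w
  rw [h2] at h1
  have h4 : analyticOrderAt f w + 1 ≤ analyticOrderAt f w := by
    calc analyticOrderAt f w + 1 ≤ analyticOrderAt f w + analyticOrderAt H w + 1 := by gcongr; exact le_self_add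
      _ = analyticOrderAt f w := h1
  obtain ⟨n, hn⟩ := ENat.ne_top_iff_exists.1 h3
  rw [← hn] at h4
  have : n + 1 ≤ n := by exact_mod_cast h4
  omega

end Pool.Agent.U544.LI
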