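import Pool.Agent.U544.LI.Lan
import Pool.Agent.U544.LI.Inf

/-!
# Landau's argument for a sum of scales, I
-/

set_option autoImplicit false

open Complex Filter Topology Metric Finset MeasureTheory Set
open scoped ComplexConjugate

namespace Pool.Agent.U544.LI

open Pool.Agent.W263.BSD

variable {f : ℂ → ℂ} {L : ℕ → ℝ} {δ : ℝ}

/-- the positive part -/
noncomputable def pp (G : ℝ → ℝ) (u : ℝ) : ℝ := max (G u) 0

/-- the negative part -/
noncomputable def nn (G : ℝ → ℝ) (u : ℝ) : ℝ := max (-G u) 0

lemma pp_cont {G : ℝ → ℝ} (h : Continuous G) : Continuous (pp G) := h.max continuous_const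

lemma nn_cont {G : ℝ → ℝ} (h : Continuous G) : Continuous (nn G) := h.neg.max continuous_const

lemma pn (G : ℝ → ℝ) (u : ℝ) : pp G u - nn G u = G u := by
  unfold pp nn
  rcases le_total (G u) 0 with h | h
  · rw [max_eq_right h, max_eq_left (by linarith)]; ring
  · rw [max_eq_left h, max_eq_right (by linarith)]; ring

lemma pp_LInt {G : ℝ → ℝ} (hc : Continuous G) {lam C : ℝ} (hl : 0 < lam)
    (hb : ∀ U ≥ (1:ℝ), ∫ u in (0:ℝ)..U, Real.exp (lam * G u) ≤ C * U) {w : ℝ} (hw : 0 < w) :
    LInt (pp G) w := by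
  have hpc := pp_cont hc
  have hC : 0 ≤ C := by
    have h1 := hb 1 le_rfl
    have h2 : 0 ≤ ∫ u in (0:ℝ)..1, Real.exp (lam * G u) :=
      intervalIntegral.integral_nonneg (by norm_num) fun u _ => (Real.exp_pos _).le
    linarith
  set P : ℝ → ℝ := fun U => ∫ u in (0:ℝ)..U, pp G u with hP
  have hPd : ∀ U, HasDerivAt P (pp G U) U := fun U =>
    intervalIntegral.integral_hasDerivAt_right (hpc.intervalIntegrable _ _)
      (hpc.stronglyMeasurableAtFilter _ _) hpc.continuousAt
  have hP1 : ∀ U ≥ (1:ℝ), P U ≤ C / lam * U := by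
    intro U hU
    have e : C / lam * U = (C * U) / lam := by ring
    rw [e]
    refine le_trans ?_ (div_le_div_of_nonneg_right (hb U hU) hl.le)
    rw [← intervalIntegral.integral_div]
    refine intervalIntegral.integral_mono_on (by linarith) (hpc.intervalIntegrable _ _)
      (Continuous.intervalIntegrable (by fun_prop) _ _) fun u _ => Dp_le hl
  have hPm : ∀ U, 0 ≤ U → P U ≤ C / lam * (1 + U) := by
    intro U hU
    rcases le_total 1 U with h1 | h1
    · refine (hP1 U h1).trans ?_
      have : 0 ≤ C / lam := by positivity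
      nlinarith
    · have h2 : P U ≤ P 1 := by
        have : P 1 - P U = ∫ u in U..1, pp G u := by
          simp only [hP]
          rw [intervalIntegral.integral_interval_sub_left (hpc.intervalIntegrable _ _) (hpc.intervalIntegrable _ _)]
        have h3 : 0 ≤ ∫ u in U..1, pp G u :=
          intervalIntegral.integral_nonneg h1 fun u _ => le_max_right _ _
        linarith
      have h4 := hP1 1 le_rfl
      have : 0 ≤ C / lam * U := by positivity
      linarith
  have hw2 : ∀ u : ℝ, 0 ≤ u → (1 + u) * Real.exp (-(w * u)) ≤ (1 + 2 / w) * Real.exp (-(w / 2) * u) := by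
    intro u hu
    have h1 : 1 + u ≤ (1 + 2 / w) * Real.exp (w / 2 * u) := by
      have a1 : 1 ≤ Real.exp (w / 2 * u) := Real.one_le_exp (by positivity)
      have a2 : u ≤ 2 / w * Real.exp (w / 2 * u) := by
        rw [div_mul_eq_mul_div, le_div_iff₀ hw]
        nlinarith [Real.add_one_le_exp (w / 2 * u)]
      linarith
    calc (1 + u) * Real.exp (-(w * u)) ≤ (1 + 2 / w) * Real.exp (w / 2 * u) * Real.exp (-(w * u)) :=
          mul_le_mul_of_nonneg_right h1 (Real.exp_pos _).le
      _ = _ := by rw [mul_assoc, ← Real.exp_add]; ring_nf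
  unfold LInt
  set B := C / lam * (1 + 2 / w) with hB
  have hB0 : 0 ≤ B := by positivity
  refine integrableOn_Ioi_of_intervalIntegral_norm_bounded (3 * B) 0 (l := atTop) (b := fun x : ℝ => x)
    (fun U => (Continuous.integrableOn_Ioc (by fun_prop))) tendsto_id ?_
  filter_upwards [eventually_ge_atTop 0] with U hU
  have e1 : ∫ u in (0:ℝ)..U, ‖pp G u * Real.exp (-(w * u))‖ = ∫ u in (0:ℝ)..U, pp G u * Real.exp (-(w * u)) := by
    refine intervalIntegral.integral_congr fun u _ => ?_
    exact Real.norm_of_nonneg (mul_nonneg (le_max_right _ _) (Real.exp_pos _).le)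
  have hv : ∀ u : ℝ, HasDerivAt (fun u : ℝ => Real.exp (-(w * u))) (Real.exp (-(w * u)) * (-(w * 1))) u := fun u =>
    (((hasDerivAt_id u).const_mul w).neg).exp
  have hPc : Continuous P := continuous_iff_continuousAt.2 fun u => (hPd u).continuousAt
  have e2 := intervalIntegral.integral_mul_deriv_eq_deriv_mul (a := 0) (b := U) (u := P)
    (v := fun u : ℝ => Real.exp (-(w * u))) (u' := pp G) (v' := fun u => Real.exp (-(w * u)) * (-(w * 1)))
    (fun u _ => hPd u) (fun u _ => hv u) (hpc.intervalIntegrable _ _) (Continuous.intervalIntegrable (by fun_prop) _ _)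
  have hP0 : P 0 = 0 := by simp [hP]
  have e3 : ∫ u in (0:ℝ)..U, pp G u * Real.exp (-(w * u)) =
      P U * Real.exp (-(w * U)) + ∫ u in (0:ℝ)..U, w * (P u * Real.exp (-(w * u))) := by
    have e4 : ∫ u in (0:ℝ)..U, w * (P u * Real.exp (-(w * u))) =
        -∫ u in (0:ℝ)..U, P u * (Real.exp (-(w * u)) * (-(w * 1))) := by
      rw [← intervalIntegral.integral_neg]
      exact intervalIntegral.integral_congr fun u _ => by ring
    rw [e4, e2, hP0]
    ring
  rw [e1, e3]
  have f1 : P U * Real.exp (-(w * U)) ≤ B := by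
    calc P U * Real.exp (-(w * U)) ≤ C / lam * (1 + U) * Real.exp (-(w * U)) :=
          mul_le_mul_of_nonneg_right (hPm U hU) (Real.exp_pos _).le
      _ = C / lam * ((1 + U) * Real.exp (-(w * U))) := by ring
      _ ≤ C / lam * ((1 + 2 / w) * Real.exp (-(w / 2) * U)) :=
          mul_le_mul_of_nonneg_left (hw2 U hU) (by positivity)
      _ ≤ C / lam * ((1 + 2 / w) * 1) := by
          have : Real.exp (-(w / 2) * U) ≤ 1 := Real.exp_le_one_iff.2 (by nlinarith)
          gcongr
      _ = B := by rw [hB]; ring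
  have f2 : ∫ u in (0:ℝ)..U, w * (P u * Real.exp (-(w * u))) ≤ 2 * B := by
    calc ∫ u in (0:ℝ)..U, w * (P u * Real.exp (-(w * u)))
        ≤ ∫ u in (0:ℝ)..U, w * B * Real.exp (-(w / 2) * u) := by
          refine intervalIntegral.integral_mono_on hU (Continuous.intervalIntegrable (by fun_prop) _ _)
            (Continuous.intervalIntegrable (by fun_prop) _ _) fun u hu => ?_
          calc w * (P u * Real.exp (-(w * u))) ≤ w * (C / lam * (1 + u) * Real.exp (-(w * u))) := by
                refine mul_le_mul_of_nonneg_left ?_ hw.le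
                exact mul_le_mul_of_nonneg_right (hPm u hu.1) (Real.exp_pos _).le
            _ = w * (C / lam) * ((1 + u) * Real.exp (-(w * u))) := by ring
            _ ≤ w * (C / lam) * ((1 + 2 / w) * Real.exp (-(w / 2) * u)) :=
                mul_le_mul_of_nonneg_left (hw2 u hu.1) (by positivity)
            _ = _ := by rw [hB]; ring
      _ = w * B * ∫ u in (0:ℝ)..U, Real.exp (-(w / 2) * u) := by rw [intervalIntegral.integral_const_mul]
      _ = w * B * ((Real.exp (-(w / 2) * U) - 1) / (-(w / 2))) := by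
          congr 1
          have hne : -(w / 2) ≠ 0 := by have := hw.ne'; simp [this]
          rw [intervalIntegral.integral_comp_mul_left (fun x => Real.exp x) hne, integral_exp]
          simp only [mul_zero, Real.exp_zero, smul_eq_mul]
          rw [inv_mul_eq_div]
      _ ≤ 2 * B := by
          have h1 := Real.exp_pos (-(w / 2) * U)
          have : w * B * ((Real.exp (-(w / 2) * U) - 1) / (-(w / 2))) = 2 * B * (1 - Real.exp (-(w / 2) * U)) := by
            field_simp
            ring
          rw [this]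
          nlinarith
  linarith

/-- the data: a function whose transform is `r` times the one of `Dd`, up to a function analytic to the right of `c` -/
structure Ext (f : ℂ → ℂ) (δ : ℝ) (G : ℝ → ℝ) (S : ℂ → ℂ) (r c : ℝ) : Prop where
  cont : Continuous G
  int : ∀ w : ℝ, 1 < w → LInt G w
  r0 : 0 < r
  c0 : 0 ≤ c
  diff : ∀ z : ℂ, c < z.re → DifferentiableAt ℂ S z
  lap : ∀ z : ℂ, 1 < z.re → (1 - z ^ 2) * f z * (lapC G z - S z) =
    r * (2 * deriv f z + f z * (2 / 3 * δ * (1 - z) - logDeriv f 1 * (1 + z)))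

variable {G : ℝ → ℝ} {S : ℂ → ℂ} {r c : ℝ}

lemma pp_int (e : Ext f δ G S r c) {w : ℝ} (hw : 1 < w) : LInt (pp G) w := LInt.posPart e.cont.measurable (e.int w hw)

lemma nn_int (e : Ext f δ G S r c) {w : ℝ} (hw : 1 < w) : LInt (nn G) w :=
  LInt.posPart e.cont.measurable.neg (e.int w hw).neg

lemma lap_pn (e : Ext f δ G S r c) {z : ℂ} (hz : 1 < z.re) : lapC (pp G) z - lapC (nn G) z = lapC G z := by
  have i1 : IntegrableOn (fun u : ℝ => (pp G u : ℂ) * cexp (-(z * u))) (Ioi 0) :=
    LInt.complex (pp_cont e.cont).measurable (pp_int e hz)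
  have i2 : IntegrableOn (fun u : ℝ => (nn G u : ℂ) * cexp (-(z * u))) (Ioi 0) :=
    LInt.complex (nn_cont e.cont).measurable (nn_int e hz)
  unfold lapC
  rw [← integral_sub i1 i2]
  refine integral_congr_ae (Eventually.of_forall fun u => ?_)
  simp only
  rw [← sub_mul, ← Complex.ofReal_sub, pn]

/-- the identity in the half-plane of convergence -/
lemma ident2 (h : LD f L δ) (e : Ext f δ G S r c) {a : ℝ} (hac : c ≤ a) (ha : a < 2) (hp : ∀ w > a, LInt (pp G) w)
    (hm : ∀ w > a, LInt (nn G) w) {z : ℂ} (hz : a < z.re) :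
    (1 - z ^ 2) * f z * (lapC (pp G) z - lapC (nn G) z - S z) =
      r * (2 * deriv f z + f z * (2 / 3 * δ * (1 - z) - logDeriv f 1 * (1 + z))) := by
  have hU : IsOpen {z : ℂ | a < z.re} := isOpen_lt continuous_const Complex.continuous_re
  have hd1 : ∀ z : ℂ, a < z.re → DifferentiableAt ℂ (lapC (pp G)) z := fun z hz =>
    lapC_differentiableAt (pp_cont e.cont).measurable hp hz
  have hd2 : ∀ z : ℂ, a < z.re → DifferentiableAt ℂ (lapC (nn G)) z := fun z hz =>
    lapC_differentiableAt (nn_cont e.cont).measurable hm hz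
  have hf := h.diff
  have hf' : Differentiable ℂ (deriv f) := (hf.contDiff (n := 2)).differentiable_deriv_two
  have hA : AnalyticOnNhd ℂ (fun z => (1 - z ^ 2) * f z * (lapC (pp G) z - lapC (nn G) z - S z))
      {z : ℂ | a < z.re} := by
    refine DifferentiableOn.analyticOnNhd (fun z hz => DifferentiableAt.differentiableWithinAt ?_) hU
    have h1 := hd1 z hz
    have h2 := hd2 z hz
    have h3 := hf z
    have h4 := e.diff z (lt_of_le_of_lt hac hz)
    fun_prop
  have hB : AnalyticOnNhd ℂ (fun z => (r : ℂ) * (2 * deriv f z + f z * (2 / 3 * δ * (1 - z) - logDeriv f 1 * (1 + z))))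
      {z : ℂ | a < z.re} := by
    refine DifferentiableOn.analyticOnNhd (fun z hz => DifferentiableAt.differentiableWithinAt ?_) hU
    have h3 := hf z
    have h4 := hf' z
    fun_prop
  have hpre : IsPreconnected {z : ℂ | a < z.re} := (convex_halfSpace_re_gt a).isPreconnected
  have h2mem : (2:ℂ) ∈ {z : ℂ | a < z.re} := by simpa using ha
  refine hA.eqOn_of_preconnected_of_eventuallyEq hB hpre h2mem ?_ hz
  have hU1 : IsOpen {z : ℂ | 1 < z.re} := isOpen_lt continuous_const Complex.continuous_re
  filter_upwards [hU1.mem_nhds (show (2:ℂ) ∈ {z : ℂ | 1 < z.re} by simp)] with z hz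
  rw [lap_pn e hz]
  exact e.lap z hz

/-- Landau's step -/
lemma landau_step2 (h : LD f L δ) (e : Ext f δ G S r c) (hp : ∀ w > c, LInt (pp G) w) {a : ℝ} (ha : c ≤ a)
    (hne : ∀ t : ℝ, a < t → f t ≠ 0) : ∀ w > a, LInt (nn G) w := by
  have hc0 := e.c0
  set N : ℂ → ℂ := fun z => 2 * logDeriv f z + (2 / 3 * δ * (1 - z) - logDeriv f 1 * (1 + z)) with hN
  have hN1 : N 1 = 0 := by simp only [hN]; ring
  set V : Set ℂ := {z | f z ≠ 0} with hV
  have hVo : IsOpen V := isOpen_ne_fun h.diff.continuous continuous_const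
  have hf' : Differentiable ℂ (deriv f) := (h.diff.contDiff (n := 2)).differentiable_deriv_two
  have hNd : DifferentiableOn ℂ N V := by
    intro z hz
    refine DifferentiableAt.differentiableWithinAt ?_
    have h1 : DifferentiableAt ℂ (fun z => deriv f z / f z) z := (hf' z).div (h.diff z) hz
    have h2 : N = fun z => 2 * (deriv f z / f z) + (2 / 3 * δ * (1 - z) - logDeriv f 1 * (1 + z)) := rfl
    rw [h2]
    fun_prop
  have h1V : V ∈ 𝓝 (1:ℂ) := hVo.mem_nhds (h.ne 1 (by norm_num))
  have hds : DifferentiableOn ℂ (dslope N 1) V := (Complex.differentiableOn_dslope h1V).2 hNd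
  set g : ℝ → ℝ := fun w => (lapC (pp G) w - r * (-(dslope N 1 w) / (1 + w)) - S w).re with hg
  have hgan : ∀ w > a, AnalyticAt ℝ g w := by
    intro w hw
    have hw' : (w:ℂ) ∈ V := hne w hw
    have hfun : AnalyticAt ℂ (fun z => lapC (pp G) z - r * (-(dslope N 1 z) / (1 + z)) - S z) w := by
      have hU : IsOpen ({z : ℂ | c < z.re} ∩ V) := (isOpen_lt continuous_const Complex.continuous_re).inter hVo
      have hm : (w:ℂ) ∈ {z : ℂ | c < z.re} ∩ V := ⟨by simp; linarith, hw'⟩
      refine DifferentiableOn.analyticAt (s := {z : ℂ | c < z.re} ∩ V) ?_ (hU.mem_nhds hm)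
      intro z hz
      refine DifferentiableAt.differentiableWithinAt ?_
      have d1 : DifferentiableAt ℂ (lapC (pp G)) z := lapC_differentiableAt (pp_cont e.cont).measurable hp hz.1
      have d2 : DifferentiableAt ℂ (dslope N 1) z := (hds z hz.2).differentiableAt (hVo.mem_nhds hz.2)
      have d3 : 1 + z ≠ 0 := by
        intro h0
        have := congrArg Complex.re h0
        have h4 : c < z.re := hz.1
        simp at this
        linarith
      have d4 := e.diff z hz.1
      exact (d1.sub (((d2.neg).div (by fun_prop) d3).const_mul (r:ℂ))).sub d4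
    have h2 : AnalyticAt ℝ (fun x : ℝ => (fun z => lapC (pp G) z - r * (-(dslope N 1 z) / (1 + z)) - S z) (x:ℂ)) w :=
      hfun.restrictScalars.comp_of_eq (Complex.ofRealCLM.analyticAt w) rfl
    exact (Complex.reCLM.analyticAt _).comp h2
  have heq : ∀ w > max 1 c, a < w → lap (nn G) w = g w := by
    intro w hw _
    have hw1 : 1 < w := lt_of_le_of_lt (le_max_left _ _) hw
    have hi := e.lap (w:ℂ) (by simpa using hw1)
    rw [← lap_pn e (by simpa using hw1)] at hi
    have hfw : f w ≠ 0 := h.ne w (by simp; linarith)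
    have w1 : (1:ℂ) - w ≠ 0 := by
      intro h0
      have := congrArg Complex.re h0
      simp at this
      linarith
    have w2 : (1:ℂ) + w ≠ 0 := by
      intro h0
      have := congrArg Complex.re h0
      simp at this
      linarith
    have hds1 : (1 - (w:ℂ)) * -(dslope N 1 w) = N w := by
      have := sub_smul_dslope N 1 (w:ℂ)
      rw [smul_eq_mul, hN1, sub_zero] at this
      linear_combination this
    have e1 : (1 - (w:ℂ)) * (1 + w) * (lapC (pp G) w - lapC (nn G) w - S w) = r * N w := by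
      have : (1 - (w:ℂ)) * (1 + w) * (lapC (pp G) w - lapC (nn G) w - S w) * f w = r * N w * f w := by
        have hNw : N w = 2 * (deriv f w / f w) + (2 / 3 * δ * (1 - w) - logDeriv f 1 * (1 + w)) := rfl
        rw [hNw]
        have : 2 * (deriv f w / f w) * f w = 2 * deriv f w := by field_simp
        linear_combination hi - r * this
      exact mul_right_cancel₀ hfw this
    have e2 : lapC (pp G) w - r * (-(dslope N 1 w) / (1 + w)) - S w = lapC (nn G) w := by
      have e3 : (1 + (w:ℂ)) * (lapC (pp G) w - lapC (nn G) w - S w) = r * -(dslope N 1 w) := by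
        apply mul_left_cancel₀ w1
        rw [show (1 - (w:ℂ)) * (r * -(dslope N 1 w)) = r * ((1 - (w:ℂ)) * -(dslope N 1 w)) by ring, hds1, ← e1]
        ring
      have e4 : (r : ℂ) * (-(dslope N 1 w) / (1 + w)) = lapC (pp G) w - lapC (nn G) w - S w := by
        rw [← mul_div_assoc, ← e3]
        field_simp
      rw [e4]
      ring
    simp only [hg]
    rw [e2, lapC_ofReal, Complex.ofReal_re]
  exact (Pool.Agent.TH988.RB.landau_lap (nn_cont e.cont).measurable (fun u _ => le_max_right _ _)
    (fun w hw => nn_int e (lt_of_le_of_lt (le_max_left _ _) hw)) hgan heq).1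

/-- no real zero to the right of `c` -/
lemma no_real2 (h : LD f L δ) (e : Ext f δ G S r c) (hp : ∀ w > c, LInt (pp G) w) {x : ℝ} (hx : c < x) : f x ≠ 0 := by
  intro hfx
  have hc0 := e.c0
  have hr0 := e.r0
  have hx2 : x < 1 / 2 := by
    by_contra h1
    exact h.ne x (by simpa using h1) hfx
  have hcont : Continuous fun t : ℝ => f t := h.diff.continuous.comp Complex.continuous_ofReal
  have hK : IsCompact (Icc x (1 / 2) ∩ {t : ℝ | f t = 0}) :=
    isCompact_Icc.inter_right (isClosed_eq hcont continuous_const)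
  have hKne : (Icc x (1 / 2) ∩ {t : ℝ | f t = 0}).Nonempty := ⟨x, ⟨⟨le_rfl, hx2.le⟩, hfx⟩⟩
  obtain ⟨x1, ⟨hx1, hfx1⟩, hmax⟩ := hK.exists_isGreatest hKne
  have hfx1 : f x1 = 0 := hfx1
  have hx1c : c < x1 := lt_of_lt_of_le hx hx1.1
  have hx10 : 0 < x1 := by linarith
  have hx12 : x1 < 1 / 2 := by
    rcases hx1.2.lt_or_eq with h1 | h1
    · exact h1
    · exact absurd hfx1 (h.ne x1 (by simp [h1]))
  have hne : ∀ t : ℝ, x1 < t → f t ≠ 0 := by
    intro t ht hft
    rcases le_total t (1 / 2) with h1 | h1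
    · have := hmax ⟨⟨hx1.1.trans ht.le, h1⟩, hft⟩
      linarith
    · exact h.ne t (by simpa using h1) hft
  have hm := landau_step2 h e hp hx1c.le hne
  -- a bound for `S`
  obtain ⟨CS, hCS⟩ : ∃ CS : ℝ, ∀ t ∈ Icc x1 (1 / 2 : ℝ), ‖S t‖ ≤ CS := by
    refine isCompact_Icc.exists_bound_of_continuousOn fun t ht => ContinuousAt.continuousWithinAt ?_
    have h1 : ContinuousAt S (t:ℂ) := (e.diff (t:ℂ) (by simpa using lt_of_lt_of_le hx1c ht.1)).continuousAt
    exact h1.comp (f := fun t : ℝ => (t:ℂ)) Complex.continuous_ofReal.continuousAt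
  have hCS0 : 0 ≤ CS := (norm_nonneg _).trans (hCS x1 ⟨le_rfl, hx12.le⟩)
  -- a bound for the logarithmic derivative
  set F1 := (logDeriv f 1).re with hF1
  set B : ℝ := ((lap (pp G) x1 + CS) / r + (2 / 3 * |δ| + 2 * |F1|)) / 2 with hB
  have hbd : ∀ t : ℝ, x1 < t → t < 1 / 2 → (logDeriv f t).re ≤ B := by
    intro t h1 h2
    have hi := ident2 h e (a := x1) hx1c.le (by linarith) (fun w hw => hp w (by linarith)) hm (z := (t:ℂ))
      (by simpa using h1)
    have hft := hne t h1
    have e1 : (r : ℂ) * (2 * logDeriv f t) = (1 - (t:ℂ) ^ 2) * (lapC (pp G) t - lapC (nn G) t - S t) -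
        r * (2 / 3 * δ * (1 - t) - logDeriv f 1 * (1 + t)) := by
      apply mul_right_cancel₀ hft
      rw [logDeriv_apply f (t:ℂ)]
      have : 2 * (deriv f t / f t) * f t = 2 * deriv f t := by field_simp
      linear_combination r * this - hi
    have e2 := congrArg Complex.re e1
    rw [lapC_ofReal, lapC_ofReal] at e2
    have e3 : ((1 - (t:ℂ) ^ 2) * ((lap (pp G) t : ℂ) - (lap (nn G) t : ℂ) - S t) -
        r * (2 / 3 * δ * (1 - t) - logDeriv f 1 * (1 + t))) =
        (((1 - t ^ 2) * (lap (pp G) t - lap (nn G) t) - r * (2 / 3 * δ * (1 - t)) : ℝ) : ℂ) +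
          ((r * (1 + t) : ℝ) : ℂ) * logDeriv f 1 - ((1 - t ^ 2 : ℝ) : ℂ) * S t := by
      push_cast; ring
    rw [e3, Complex.sub_re, Complex.add_re, Complex.ofReal_re, Complex.re_ofReal_mul, Complex.re_ofReal_mul,
      Complex.re_ofReal_mul, ← hF1] at e2
    have e4 : (2 * logDeriv f t).re = 2 * (logDeriv f t).re := by simp
    rw [e4] at e2
    have l1 : 0 ≤ lap (nn G) t := lap_nonneg (fun u _ => le_max_right _ _) t
    have l2 : lap (pp G) t ≤ lap (pp G) x1 := by
      unfold lap
      refine setIntegral_mono_on (hp t (by linarith)) (hp x1 hx1c) measurableSet_Ioi fun u hu => ?_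
      have hu : 0 < u := hu
      refine mul_le_mul_of_nonneg_left (Real.exp_le_exp.2 ?_) (le_max_right _ _)
      nlinarith
    have l3 : 0 ≤ lap (pp G) t := lap_nonneg (fun u _ => le_max_right _ _) t
    have t0 : 0 < t := by linarith
    have t2 : 0 ≤ 1 - t ^ 2 := by nlinarith
    have t3 : 1 - t ^ 2 ≤ 1 := by nlinarith [sq_nonneg t]
    have m1 : (1 - t ^ 2) * (lap (pp G) t - lap (nn G) t) ≤ lap (pp G) x1 := by
      calc (1 - t ^ 2) * (lap (pp G) t - lap (nn G) t) ≤ (1 - t ^ 2) * lap (pp G) t :=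
            mul_le_mul_of_nonneg_left (by linarith) t2
        _ ≤ 1 * lap (pp G) t := mul_le_mul_of_nonneg_right t3 l3
        _ ≤ _ := by linarith
    have m2 : -(2 / 3 * δ * (1 - t)) ≤ 2 / 3 * |δ| := by
      have : -δ ≤ |δ| := neg_le_abs δ
      have := abs_nonneg δ
      nlinarith
    have m3 : (1 + t) * F1 ≤ 2 * |F1| := by
      have : F1 ≤ |F1| := le_abs_self F1
      have := abs_nonneg F1
      nlinarith
    have m4 : -((1 - t ^ 2) * (S t).re) ≤ CS := by
      have h3 := hCS t ⟨h1.le, h2.le⟩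
      have h4 := (abs_le.1 (Complex.abs_re_le_norm (S t))).1
      nlinarith
    have m5 : r * (2 * (logDeriv f t).re) ≤ (lap (pp G) x1 + CS) + r * (2 / 3 * |δ| + 2 * |F1|) := by
      rw [e2]
      have n1 := mul_le_mul_of_nonneg_left m2 hr0.le
      have n2 := mul_le_mul_of_nonneg_left m3 hr0.le
      linarith
    have m6 : 2 * (logDeriv f t).re ≤ (lap (pp G) x1 + CS) / r + (2 / 3 * |δ| + 2 * |F1|) := by
      have : (lap (pp G) x1 + CS) / r + (2 / 3 * |δ| + 2 * |F1|) =
          ((lap (pp G) x1 + CS) + r * (2 / 3 * |δ| + 2 * |F1|)) / r := by field_simp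
      rw [this, le_div_iff₀ hr0]
      linarith
    rw [hB]
    linarith
  -- the contradiction
  set fr : ℝ → ℝ := fun t => (f t).re with hfr
  have hfd : ∀ t : ℝ, HasDerivAt fr (deriv f t).re t := fun t => (h.diff (t:ℂ)).hasDerivAt.real_of_complex
  have hfrc : Continuous fr := continuous_iff_continuousAt.2 fun t => (hfd t).continuousAt
  have hψ : ∀ t : ℝ, HasDerivAt (fun t => fr t ^ 2 * Real.exp (-(2 * B * t)))
      (2 * fr t * (deriv f t).re * Real.exp (-(2 * B * t)) + fr t ^ 2 * (Real.exp (-(2 * B * t)) * (-(2 * B * 1)))) t := by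
    intro t
    have h1 := (hfd t).pow 2
    have h2 : HasDerivAt (fun t : ℝ => Real.exp (-(2 * B * t))) (Real.exp (-(2 * B * t)) * (-(2 * B * 1))) t :=
      (((hasDerivAt_id t).const_mul (2 * B)).neg).exp
    refine (h1.mul h2).congr_deriv ?_
    norm_num
  have hanti : AntitoneOn (fun t => fr t ^ 2 * Real.exp (-(2 * B * t))) (Icc x1 (1 / 2)) := by
    refine antitoneOn_of_deriv_nonpos (convex_Icc _ _) (by fun_prop)
      (fun t _ => (hψ t).differentiableAt.differentiableWithinAt) fun t ht => ?_
    rw [interior_Icc] at ht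
    rw [(hψ t).deriv]
    have hft := hne t ht.1
    have hr := real_on h t
    have hfr0 : fr t ≠ 0 := by
      intro h0
      apply hft
      rw [hr]
      simp only [hfr] at h0
      rw [h0, Complex.ofReal_zero]
    have e1 : (deriv f t).re = fr t * (logDeriv f t).re := by
      have : deriv f t = (fr t : ℂ) * logDeriv f t := by
        rw [logDeriv_apply]
        simp only [hfr]
        rw [← hr]
        field_simp
      rw [this, Complex.re_ofReal_mul]
    rw [e1]
    have h1 := hbd t ht.1 ht.2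
    have h2 : 2 * fr t * (fr t * (logDeriv f t).re) * Real.exp (-(2 * B * t)) +
        fr t ^ 2 * (Real.exp (-(2 * B * t)) * (-(2 * B * 1))) =
        2 * fr t ^ 2 * Real.exp (-(2 * B * t)) * ((logDeriv f t).re - B) := by ring
    rw [h2]
    exact mul_nonpos_of_nonneg_of_nonpos (by positivity) (by linarith)
  have h3 := hanti (left_mem_Icc.2 hx12.le) (right_mem_Icc.2 hx12.le) hx12.le
  have h4 : fr x1 = 0 := by simp only [hfr]; rw [hfx1, Complex.zero_re]
  have h5 : fr (1 / 2) ≠ 0 := by
    intro h0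
    have := h.ne ((1 / 2 : ℝ) : ℂ) (by simp)
    apply this
    rw [real_on h]
    simp only [hfr] at h0
    rw [h0, Complex.ofReal_zero]
  simp only [h4] at h3
  have h6 : 0 < fr (1 / 2) ^ 2 * Real.exp (-(2 * B * (1 / 2))) := by positivity
  have h7 : (0:ℝ) ^ 2 * Real.exp (-(2 * B * x1)) = 0 := by ring
  rw [h7] at h3
  linarith

/-- **no zero to the right of `c`** -/
theorem no_pos2 (h : LD f L δ) (e : Ext f δ G S r c) (hp : ∀ w > c, LInt (pp G) w) {w : ℂ} (hw : f w = 0) :
    w.re ≤ c := by
  by_contra hw0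
  push Not at hw0
  have hr0 := e.r0
  have hc2 : c < 2 := by
    by_contra h1
    exact h.ne w (by push Not at h1; linarith) hw
  have hm := landau_step2 h e hp le_rfl fun t ht => no_real2 h e hp ht
  have hne : ∃ z, f z ≠ 0 := ⟨1, h.ne 1 (by norm_num)⟩
  have hU : IsOpen {z : ℂ | c < z.re} := isOpen_lt continuous_const Complex.continuous_re
  set H : ℂ → ℂ := fun z => ((1 - z ^ 2) * (lapC (pp G) z - lapC (nn G) z - S z) -
    r * (2 / 3 * δ * (1 - z) - logDeriv f 1 * (1 + z))) / (2 * r) with hH
  have hHan : AnalyticAt ℂ H w := by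
    refine DifferentiableOn.analyticAt (s := {z : ℂ | c < z.re}) (fun z hz => ?_) (hU.mem_nhds hw0)
    refine DifferentiableAt.differentiableWithinAt ?_
    have d1 : DifferentiableAt ℂ (lapC (pp G)) z := lapC_differentiableAt (pp_cont e.cont).measurable hp hz
    have d2 : DifferentiableAt ℂ (lapC (nn G)) z := lapC_differentiableAt (nn_cont e.cont).measurable hm hz
    have d3 := e.diff z hz
    simp only [hH]
    fun_prop
  have hfan : AnalyticAt ℂ f w := h.diff.analyticAt w
  have heq : deriv f =ᶠ[𝓝 w] f * H := by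
    filter_upwards [hU.mem_nhds hw0] with z hz
    have h1 := ident2 h e (a := c) le_rfl hc2 hp hm hz
    have hr1 : (r : ℂ) ≠ 0 := by exact_mod_cast hr0.ne'
    simp only [Pi.mul_apply, hH]
    rw [← mul_div_assoc, eq_div_iff (mul_ne_zero two_ne_zero hr1)]
    linear_combination -h1
  have h1 : analyticOrderAt (deriv f) w + 1 = analyticOrderAt f w := by
    have := hfan.analyticOrderAt_deriv_add_one
    simpa [hw] using this
  have h2 : analyticOrderAt (deriv f) w = analyticOrderAt f w + analyticOrderAt H w := by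
    rw [analyticOrderAt_congr heq, analyticOrderAt_mul hfan hHan]
  have h3 : analyticOrderAt f w ≠ ⊤ := Pool.Agent.R362.Near.ord_ne_top h.diff hne w
  rw [h2] at h1
  have h4 : analyticOrderAt f w + 1 ≤ analyticOrderAt f w := by
    calc analyticOrderAt f w + 1 ≤ analyticOrderAt f w + analyticOrderAt H w + 1 := by gcongr; exact le_self_add
      _ = analyticOrderAt f w := h1
  obtain ⟨n, hn⟩ := ENat.ne_top_iff_exists.1 h3
  rw [← hn] at h4
  have : n + 1 ≤ n := by exact_mod_cast h4
  omega

end Pool.Agent.U544.LI
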