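import Pool.Agent.U544.LI.SetCrit

/-!
# The criterion for several scales

For positive reals `α_j` the function `∑_j D(x^{α_j})` has the frequencies `α_j γ`.
-/

set_option autoImplicit false

open Complex Filter Topology Metric Finset MeasureTheory Set
open scoped ComplexConjugate Nat

namespace Pool.Agent.U544.LI

variable {f : ℂ → ℂ} {L : ℕ → ℝ} {δ : ℝ} {κ : Type*} [Fintype κ]

/-- the sum over the scales -/
noncomputable def Ds (L : ℕ → ℝ) (δ : ℝ) (α : κ → ℝ) (u : ℝ) : ℝ := ∑ j, Dd L δ (α j * u)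

lemma Ds_cont (h : LD f L δ) (α : κ → ℝ) : Continuous (Ds L δ α) := by
  have := Dd_cont h
  unfold Ds
  fun_prop

section prod

variable {ι : Type*} {a γ : ι → ℝ}

lemma summ_prod (ha : ∀ i, 0 ≤ a i) (hs : Summable a) : Summable fun p : κ × ι => a p.2 := by
  rw [summable_prod_of_nonneg (fun p => ha p.2)]
  exact ⟨fun _ => hs, Summable.of_finite⟩

lemma tsum_prodK {F : κ × ι → ℝ} (hs : Summable F) : ∑' p, F p = ∑ j, ∑' i, F (j, i) := by
  rw [hs.tsum_prod, tsum_fintype]

lemma DD_prod (ha : ∀ i, 0 < a i) (hs : Summable a) (α : κ → ℝ) (u : ℝ) :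
    DD (fun p : κ × ι => a p.2) (fun p => α p.1 * γ p.2) u = ∑ j, DD a γ (α j * u) := by
  have h1 : Summable fun p : κ × ι => 2 * a p.2 * Real.cos (α p.1 * γ p.2 * u) :=
    summ_D (ι := κ × ι) (a := fun p => a p.2) (γ := fun p => α p.1 * γ p.2) (fun p => ha p.2)
      (summ_prod (fun i => (ha i).le) hs) u
  unfold DD
  rw [tsum_prodK h1]
  refine Finset.sum_congr rfl fun j _ => tsum_congr fun i => ?_
  congr 2
  ring

lemma PP_prod (hs : Summable fun i => Real.log (J0 (a i))) :
    PP (fun p : κ × ι => a p.2) = PP a ^ Fintype.card κ := by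
  unfold PP
  rw [tsum_prodK (F := fun p : κ × ι => Real.log (J0 (a p.2))) (summ_prod (fun i => J0_nn _) hs), ← Real.exp_nat_mul]
  congr 1
  simp

end prod

lemma mean_transfer_multi (h : LD f L δ) {lam : ℝ} (hl : 0 < lam) {ι : Type*} (π : ι → Gs f) (b : ι → ℝ)
    (hb : ∀ i, 0 < b i) (hbs : Summable b)
    (hbD : ∀ u, DD b (fun i => (π i).1) u = DD (wt f) (fun g : Gs f => g.1) u) (hR : RHf f)
    {α : κ → ℝ} (hα : ∀ j, 0 < α j) {E : ℝ}
    (hE : Tendsto (mean fun u => Real.exp (DD (fun p : κ × ι => lam * b p.2) (fun p => α p.1 * (π p.2).1) u)) atTop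
      (𝓝 E)) :
    Tendsto (mean fun u => Real.exp (lam * Ds L δ α u)) atTop
      (𝓝 (Real.exp (2 * lam * mu f 0) ^ Fintype.card κ * E)) := by
  have hDc := Ds_cont h α
  have hbs' := summ_prod (κ := κ) (fun i => (hb i).le) hbs
  have hpos : ∀ p : κ × ι, 0 < lam * b p.2 := fun p => mul_pos hl (hb _)
  have hsum : Summable fun p : κ × ι => lam * b p.2 := hbs'.mul_left lam
  set c0 := Real.exp (2 * lam * mu f 0) ^ Fintype.card κ with hc0
  have hc0' : c0 = Real.exp (∑ _j : κ, 2 * lam * mu f 0) := by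
    rw [hc0, ← Real.exp_nat_mul]
    simp
  have h1 := asym h fun w hw => nonpos_of_rh h hR hw
  have h2 : Tendsto (mean fun u => c0 * Real.exp (DD (fun p : κ × ι => lam * b p.2) (fun p => α p.1 * (π p.2).1) u))
      atTop (𝓝 (c0 * E)) := by
    refine (hE.const_mul c0).congr fun U => ?_
    unfold mean
    rw [intervalIntegral.integral_const_mul, mul_div_assoc]
  have hcont2 : Continuous fun u =>
      c0 * Real.exp (DD (fun p : κ × ι => lam * b p.2) (fun p => α p.1 * (π p.2).1) u) := by
    have := DD_cont (γ := fun p : κ × ι => α p.1 * (π p.2).1) hpos hsum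
    fun_prop
  refine ces (by fun_prop) hcont2 ?_ h2
  set x : ℝ → ℝ := fun u => lam * Ds L δ α u with hx
  set y : ℝ → ℝ := fun u => (∑ _j : κ, 2 * lam * mu f 0) +
    DD (fun p : κ × ι => lam * b p.2) (fun p => α p.1 * (π p.2).1) u with hy
  have hxy : Tendsto (fun u => x u - y u) atTop (𝓝 0) := by
    have h3 : ∀ j : κ, Tendsto (fun u => lam * (Dd L δ (α j * u) -
        (2 * (mu f 0 : ℝ) + DD (wt f) (fun g : Gs f => g.1) (α j * u)))) atTop (𝓝 0) := by
      intro j
      have h4 : Tendsto (fun u : ℝ => α j * u) atTop atTop := tendsto_id.const_mul_atTop (hα j)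
      have := (h1.comp h4).const_mul lam
      rw [mul_zero] at this
      exact this
    have h4 := tendsto_finsetSum Finset.univ fun j _ => h3 j
    rw [Finset.sum_const_zero] at h4
    refine h4.congr fun u => ?_
    simp only [hx, hy, Ds]
    rw [DD_mul, DD_prod (γ := fun i => (π i).1) hb hbs α u, Finset.mul_sum, Finset.mul_sum, ← Finset.sum_add_distrib,
      ← Finset.sum_sub_distrib]
    refine Finset.sum_congr rfl fun j _ => ?_
    rw [hbD]
    ring
  set B := (∑ _j : κ, 2 * lam * mu f 0) + 2 * ∑' p : κ × ι, lam * b p.2 with hB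
  have hyB : ∀ u, y u ≤ B := by
    intro u
    have := (le_abs_self _).trans (DD_bound (γ := fun p : κ × ι => α p.1 * (π p.2).1) hpos hsum u)
    simp only [hy, hB]
    linarith
  have h3 : Tendsto (fun u => Real.exp (B + 1) * |x u - y u|) atTop (𝓝 0) := by
    have := hxy.abs.const_mul (Real.exp (B + 1))
    simpa using this
  refine squeeze_zero_norm' ?_ h3
  have hev : ∀ᶠ u in atTop, x u - y u < 1 := hxy.eventually_lt_const one_pos
  filter_upwards [hev] with u hu
  have e1 : c0 * Real.exp (DD (fun p : κ × ι => lam * b p.2) (fun p => α p.1 * (π p.2).1) u) = Real.exp (y u) := by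
    rw [hc0', ← Real.exp_add]
  rw [e1, Real.norm_eq_abs]
  have h4 := hyB u
  exact exp_sub_le (by show x u ≤ B + 1; linarith) (by linarith)

/-- the mean value with several scales, as a sum over the relations -/
theorem exact_mean_multi (h : LD f L δ) {lam : ℝ} (hl : 0 < lam) {ι : Type*} (π : ι → Gs f) (b : ι → ℝ)
    (hb : ∀ i, 0 < b i) (hbs : Summable b)
    (hbD : ∀ u, DD b (fun i => (π i).1) u = DD (wt f) (fun g : Gs f => g.1) u)
    {α : κ → ℝ} (hα : ∀ j, 0 < α j) :
    (Summable fun n : {n : κ × ι →₀ ℤ // val (fun p : κ × ι => α p.1 * (π p.2).1) n = 0} => QQ (fun p : κ × ι => lam * b p.2) n) ∧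
    (RHf f → Tendsto (mean fun u => Real.exp (lam * Ds L δ α u)) atTop
      (𝓝 ((Real.exp (2 * lam * mu f 0) * PP (fun i => lam * b i)) ^ Fintype.card κ *
      ∑' n : {n : κ × ι →₀ ℤ // val (fun p : κ × ι => α p.1 * (π p.2).1) n = 0}, QQ (fun p : κ × ι => lam * b p.2) n))) := by
  have hbs' := summ_prod (κ := κ) (fun i => (hb i).le) hbs
  have hpos : ∀ p : κ × ι, 0 < lam * b p.2 := fun p => mul_pos hl (hb _)
  have hsum : Summable fun p : κ × ι => lam * b p.2 := hbs'.mul_left lam
  obtain ⟨E, hE, -, -, -⟩ := fam (a := fun p : κ × ι => lam * b p.2) (γ := fun p => α p.1 * (π p.2).1) hpos hsum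
  obtain ⟨-, -, hsl, -, -⟩ := fam (a := fun i => lam * b i) (γ := fun i => (π i).1)
    (fun i => mul_pos hl (hb i)) (hbs.mul_left lam)
  have h1 := fam' (a := fun p : κ × ι => lam * b p.2) (γ := fun p => α p.1 * (π p.2).1) hpos hsum hE
  refine ⟨h1.summable, fun hR => ?_⟩
  have h2 := PP_prod (κ := κ) (a := fun i => lam * b i) hsl
  have h3 := mean_transfer_multi h hl π b hb hbs hbD hR hα hE
  have h4 : E = PP (fun i => lam * b i) ^ Fintype.card κ *
      ∑' n : {n : κ × ι →₀ ℤ // val (fun p : κ × ι => α p.1 * (π p.2).1) n = 0}, QQ (fun p : κ × ι => lam * b p.2) n := by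
    rw [h1.tsum_eq, ← h2, mul_div_cancel₀ _ (show PP (fun p : κ × ι => lam * b p.2) ≠ 0 from (Real.exp_pos _).ne')]
  rw [mul_pow, mul_assoc, ← h4]
  exact h3

lemma mean_add {g k : ℝ → ℝ} (hg : Continuous g) (hk : Continuous k) (U : ℝ) :
    mean (fun u => g u + k u) U = mean g U + mean k U := by
  unfold mean
  rw [intervalIntegral.integral_add (hg.intervalIntegrable _ _) (hk.intervalIntegrable _ _), add_div]

lemma mean_nonneg {g : ℝ → ℝ} (hg : ∀ u, 0 ≤ g u) {U : ℝ} (hU : 0 < U) : 0 ≤ mean g U :=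
  div_nonneg (intervalIntegral.integral_nonneg hU.le fun u _ => hg u) hU.le

/-- the change of variable for continuous functions -/
lemma logMean_gen {G : ℝ → ℝ} (hG : Continuous G) {F : ℝ → ℝ} (hF : ∀ x, 0 < x → F x = G (Real.log x)) {X : ℝ}
    (hX : 1 < X) : logMean F X = mean G (Real.log X) := by
  unfold logMean mean
  congr 1
  have h1 := intervalIntegral.integral_comp_mul_deriv (a := 1) (b := X) (f := Real.log) (f' := fun x => x⁻¹)
    (g := G) (fun x hx => by
      rw [uIcc_of_le hX.le] at hx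
      exact Real.hasDerivAt_log (by linarith [hx.1])) (by
      refine ContinuousOn.inv₀ continuousOn_id fun x hx => ?_
      rw [uIcc_of_le hX.le] at hx
      exact (show (0:ℝ) < x by linarith [hx.1]).ne') hG
  rw [Real.log_one] at h1
  rw [← h1]
  refine intervalIntegral.integral_congr fun x hx => ?_
  rw [uIcc_of_le hX.le] at hx
  have hx0 : 0 < x := by linarith [hx.1]
  simp only [Function.comp_apply]
  rw [hF x hx0, div_eq_mul_inv]

/-- the change of variable for eventual statements -/
lemma ev_log {G F : ℝ → ℝ} (hG : Continuous G) (hF : ∀ x, 0 < x → F x = G (Real.log x)) (P : ℝ → Prop) :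
    (∀ᶠ X in atTop, P (logMean F X)) ↔ ∀ᶠ U in atTop, P (mean G U) := by
  constructor
  · intro h1
    have h2 := Real.tendsto_exp_atTop.eventually h1
    filter_upwards [h2, eventually_gt_atTop 0] with U hU hU0
    rwa [logMean_gen hG hF (Real.one_lt_exp_iff.2 hU0), Real.log_exp] at hU
  · intro h1
    have h2 := Real.tendsto_log_atTop.eventually h1
    filter_upwards [h2, eventually_gt_atTop 1] with X hX hX1
    rwa [logMean_gen hG hF hX1]

lemma tend_log {G F : ℝ → ℝ} (hG : Continuous G) (hF : ∀ x, 0 < x → F x = G (Real.log x)) {E : ℝ}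
    (hE : Tendsto (mean G) atTop (𝓝 E)) : Tendsto (logMean F) atTop (𝓝 E) := by
  refine (hE.comp Real.tendsto_log_atTop).congr' ?_
  filter_upwards [eventually_gt_atTop 1] with X hX
  rw [Function.comp_apply, logMean_gen hG hF hX]

end Pool.Agent.U544.LI
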