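import Pool.Agent.U544.LI.Lan2
import Pool.Agent.U544.LI.Multi

/-!
# Landau's argument for a sum of scales, II
-/

set_option autoImplicit false

open Complex Filter Topology Metric Finset MeasureTheory Set
open scoped ComplexConjugate

namespace Pool.Agent.U544.LI

open Pool.Agent.W263.BSD

variable {f : ℂ → ℂ} {L : ℕ → ℝ} {δ : ℝ}

/-- the numerator of the transform -/
noncomputable def Nf (f : ℂ → ℂ) (δ : ℝ) (z : ℂ) : ℂ :=
  2 * logDeriv f z + (2 / 3 * δ * (1 - z) - logDeriv f 1 * (1 + z))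

/-- the transform of `Dd` -/
noncomputable def Tr (f : ℂ → ℂ) (δ : ℝ) (z : ℂ) : ℂ := -(dslope (Nf f δ) 1 z) / (1 + z)

lemma Tr_diff (h : LD f L δ) {z : ℂ} (hz : f z ≠ 0) (hz1 : 1 + z ≠ 0) : DifferentiableAt ℂ (Tr f δ) z := by
  set V : Set ℂ := {z | f z ≠ 0} with hV
  have hVo : IsOpen V := isOpen_ne_fun h.diff.continuous continuous_const
  have hf' : Differentiable ℂ (deriv f) := (h.diff.contDiff (n := 2)).differentiable_deriv_two
  have hNd : DifferentiableOn ℂ (Nf f δ) V := by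
    intro z hz
    refine DifferentiableAt.differentiableWithinAt ?_
    have h1 : DifferentiableAt ℂ (fun z => deriv f z / f z) z := (hf' z).div (h.diff z) hz
    have h2 : Nf f δ = fun z => 2 * (deriv f z / f z) + (2 / 3 * δ * (1 - z) - logDeriv f 1 * (1 + z)) := rfl
    rw [h2]
    fun_prop
  have h1V : V ∈ 𝓝 (1:ℂ) := hVo.mem_nhds (h.ne 1 (by norm_num))
  have hds : DifferentiableOn ℂ (dslope (Nf f δ) 1) V := (Complex.differentiableOn_dslope h1V).2 hNd
  have d2 : DifferentiableAt ℂ (dslope (Nf f δ) 1) z := (hds z hz).differentiableAt (hVo.mem_nhds hz)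
  exact d2.neg.div (by fun_prop) hz1

lemma Tr_mul (h : LD f L δ) {z : ℂ} (hz : 1 < z.re) : (1 - z ^ 2) * f z * Tr f δ z =
    2 * deriv f z + f z * (2 / 3 * δ * (1 - z) - logDeriv f 1 * (1 + z)) := by
  have hN1 : Nf f δ 1 = 0 := by unfold Nf; ring
  have hfz : f z ≠ 0 := h.ne z (by linarith)
  have w2 : (1:ℂ) + z ≠ 0 := by
    intro h0
    have := congrArg Complex.re h0
    simp at this
    linarith
  have hds1 : (1 - z) * -(dslope (Nf f δ) 1 z) = Nf f δ z := by
    have := sub_smul_dslope (Nf f δ) 1 z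
    rw [smul_eq_mul, hN1, sub_zero] at this
    linear_combination this
  have e1 : (1 - z ^ 2) * f z * Tr f δ z = f z * ((1 - z) * -(dslope (Nf f δ) 1 z)) := by
    unfold Tr
    rw [show 1 - z ^ 2 = (1 - z) * (1 + z) by ring]
    field_simp
  rw [e1, hds1]
  have hNw : Nf f δ z = 2 * (deriv f z / f z) + (2 / 3 * δ * (1 - z) - logDeriv f 1 * (1 + z)) := rfl
  rw [hNw]
  field_simp

lemma lap_Dd (h : LD f L δ) {z : ℂ} (hz : 1 < z.re) : lapC (Dd L δ) z = Tr f δ z := by
  have h1 := ident h (a := 1) (by norm_num) (fun w hw => LInt.posPart (Dd_cont h).measurable (D_LInt h hw))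
    (fun w hw => Dm_LInt h hw) hz
  have i1 : IntegrableOn (fun u : ℝ => (Dp L δ u : ℂ) * cexp (-(z * u))) (Ioi 0) :=
    LInt.complex (Dp_cont h).measurable (LInt.posPart (Dd_cont h).measurable (D_LInt h hz))
  have i2 : IntegrableOn (fun u : ℝ => (Dm L δ u : ℂ) * cexp (-(z * u))) (Ioi 0) :=
    LInt.complex (Dm_cont h).measurable (Dm_LInt h hz)
  have e1 : lapC (Dp L δ) z - lapC (Dm L δ) z = lapC (Dd L δ) z := by
    unfold lapC
    rw [← integral_sub i1 i2]
    refine integral_congr_ae (Eventually.of_forall fun u => ?_)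
    simp only
    rw [← sub_mul, ← Complex.ofReal_sub, Dpm]
  rw [e1, ← Tr_mul h hz] at h1
  have hfz : f z ≠ 0 := h.ne z (by linarith)
  have w1 : (1:ℂ) - z ≠ 0 := by
    intro h0
    have := congrArg Complex.re h0
    simp at this
    linarith
  have w2 : (1:ℂ) + z ≠ 0 := by
    intro h0
    have := congrArg Complex.re h0
    simp at this
    linarith
  have h2 : (1 - z ^ 2) * f z ≠ 0 := by
    rw [show 1 - z ^ 2 = (1 - z) * (1 + z) by ring]
    exact mul_ne_zero (mul_ne_zero w1 w2) hfz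
  exact mul_left_cancel₀ h2 h1

lemma lap_scale (G : ℝ → ℝ) {β : ℝ} (hβ : 0 < β) (z : ℂ) :
    lapC (fun u => G (β * u)) z = (1 / β : ℂ) * lapC G (z / β) := by
  have hβ' : (β : ℂ) ≠ 0 := by exact_mod_cast hβ.ne'
  have h1 := integral_comp_mul_left_Ioi (fun v : ℝ => (G v : ℂ) * cexp (-(z / β * v))) 0 hβ
  rw [mul_zero] at h1
  unfold lapC
  have e : ∀ u : ℝ, (G (β * u) : ℂ) * cexp (-(z * u)) =
      (G (β * u) : ℂ) * cexp (-(z / β * ((β * u : ℝ) : ℂ))) := by
    intro u
    congr 2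
    push_cast
    field_simp
  simp_rw [e]
  rw [h1, Complex.real_smul]
  push_cast
  rw [one_div]

lemma LInt_of_exp {G : ℝ → ℝ} (hc : Continuous G) {C : ℝ} (hb : ∀ u, 0 ≤ u → |G u| ≤ C * Real.exp u) {w : ℝ}
    (hw : 1 < w) : LInt G w := by
  unfold LInt
  refine Integrable.mono' (g := fun u : ℝ => C * Real.exp (-(w - 1) * u))
    ((integrableOn_exp_mul_Ioi (by linarith) 0).const_mul _) (by fun_prop) ?_
  rw [ae_restrict_iff' measurableSet_Ioi]
  refine Eventually.of_forall fun u hu => ?_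
  rw [norm_mul, Real.norm_eq_abs, Real.norm_of_nonneg (Real.exp_pos _).le]
  refine (mul_le_mul_of_nonneg_right (hb u (le_of_lt hu)) (Real.exp_pos _).le).trans (le_of_eq ?_)
  rw [mul_assoc, ← Real.exp_add]
  ring_nf

section scales

variable {κ : Type*} [Fintype κ] {β : κ → ℝ}

lemma scaled_LInt (h : LD f L δ) {b : ℝ} (hb0 : 0 < b) (hb1 : b ≤ 1) {w : ℝ} (hw : 1 < w) :
    LInt (fun u => Dd L δ (b * u)) w := by
  have hc := Dd_cont h
  refine LInt_of_exp (C := 8 / 3 * |δ| + ∑' n : ℕ, L n / √n * (n:ℝ)⁻¹) (by fun_prop) (fun u hu => ?_) hw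
  refine (D_abs h (by positivity)).trans ?_
  refine mul_le_mul_of_nonneg_left (Real.exp_le_exp.2 (by nlinarith)) ?_
  have : 0 ≤ ∑' n : ℕ, L n / √n * (n:ℝ)⁻¹ := tsum_nonneg fun n => b_nonneg h n
  positivity

lemma Ds_LInt (h : LD f L δ) (hβ : ∀ j, 0 < β j) (hβ1 : ∀ j, β j ≤ 1) {w : ℝ} (hw : 1 < w) : LInt (Ds L δ β) w := by
  have h1 : ∀ j, LInt (fun u => Dd L δ (β j * u)) w := fun j => scaled_LInt h (hβ j) (hβ1 j) hw
  unfold LInt at h1 ⊢
  have h2 := integrable_finsetSum Finset.univ fun j _ => h1 j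
  refine h2.congr (Eventually.of_forall fun u => ?_)
  simp only [Ds, Finset.sum_mul]

lemma Ds_lap (h : LD f L δ) (hβ : ∀ j, 0 < β j) (hβ1 : ∀ j, β j ≤ 1) {z : ℂ} (hz : 1 < z.re) :
    lapC (Ds L δ β) z = ∑ j, (1 / β j : ℂ) * Tr f δ (z / β j) := by
  have hc := Dd_cont h
  have h1 : ∀ j, IntegrableOn (fun u : ℝ => ((Dd L δ (β j * u) : ℝ) : ℂ) * cexp (-(z * u))) (Ioi 0) := fun j =>
    LInt.complex (f := fun u => Dd L δ (β j * u)) (by fun_prop) (scaled_LInt h (hβ j) (hβ1 j) hz)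
  have h2 : lapC (Ds L δ β) z = ∑ j, lapC (fun u => Dd L δ (β j * u)) z := by
    unfold lapC
    rw [← integral_finsetSum Finset.univ fun j _ => h1 j]
    refine integral_congr_ae (Eventually.of_forall fun u => ?_)
    simp only [Ds]
    push_cast
    rw [Finset.sum_mul]
  rw [h2]
  refine Finset.sum_congr rfl fun j _ => ?_
  rw [lap_scale _ (hβ j), lap_Dd h]
  rw [Complex.div_ofReal_re, lt_div_iff₀ (hβ j)]
  have := hβ1 j
  linarith

lemma ext_scales (h : LD f L δ) (hβ : ∀ j, 0 < β j) (hβ1 : ∀ j, β j ≤ 1) (hj : ∃ j, β j = 1) {c : ℝ} (hc : 0 ≤ c)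
    (hz : ∀ j, β j < 1 → ∀ w, f w = 0 → β j * w.re ≤ c) :
    Ext f δ (Ds L δ β) (fun z => ∑ j with β j < 1, (1 / β j : ℂ) * Tr f δ (z / β j))
      ((Finset.univ.filter fun j => ¬ β j < 1).card : ℝ) c where
  cont := Ds_cont h β
  int w hw := Ds_LInt h hβ hβ1 hw
  r0 := by
    obtain ⟨j, hj⟩ := hj
    have : 0 < (Finset.univ.filter fun j => ¬ β j < 1).card :=
      Finset.card_pos.2 ⟨j, Finset.mem_filter.2 ⟨Finset.mem_univ _, by rw [hj]; exact lt_irrefl _⟩⟩
    exact_mod_cast this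
  c0 := hc
  diff z hzc := by
    refine DifferentiableAt.fun_sum fun j hj => ?_
    have hj1 : β j < 1 := (Finset.mem_filter.1 hj).2
    have hre : (z / β j).re = z.re / β j := Complex.div_ofReal_re _ _
    have hz0 : 0 < (z / β j).re := by
      rw [hre]
      exact div_pos (by linarith) (hβ j)
    have d1 : DifferentiableAt ℂ (Tr f δ) (z / β j) := by
      refine Tr_diff h (fun h0 => ?_) (fun h0 => ?_)
      · have h1 := hz j hj1 _ h0
        rw [hre, mul_div_cancel₀ _ (hβ j).ne'] at h1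
        linarith
      · have := congrArg Complex.re h0
        rw [Complex.add_re, Complex.one_re, Complex.zero_re] at this
        linarith
    have d2 : DifferentiableAt ℂ (fun z : ℂ => z / β j) z := by fun_prop
    exact (DifferentiableAt.comp (g := Tr f δ) z d1 d2).const_mul _
  lap z hz1 := by
    rw [Ds_lap h hβ hβ1 hz1, ← Finset.sum_filter_add_sum_filter_not Finset.univ (fun j => β j < 1), add_sub_cancel_left]
    have h1 : ∑ j with ¬ β j < 1, (1 / β j : ℂ) * Tr f δ (z / β j) =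
        ((Finset.univ.filter fun j => ¬ β j < 1).card : ℂ) * Tr f δ z := by
      rw [← nsmul_eq_mul]
      refine Finset.sum_eq_card_nsmul fun j hj => ?_
      have : β j = 1 := le_antisymm (hβ1 j) (not_lt.1 (Finset.mem_filter.1 hj).2)
      rw [this]
      simp
    rw [h1, ← Tr_mul h hz1]
    push_cast
    ring

/-- no zero to the right -/
theorem no_pos_scales (h : LD f L δ) (hβ : ∀ j, 0 < β j) (hβ1 : ∀ j, β j ≤ 1) (hj : ∃ j, β j = 1)
    (hp : ∀ w > 0, LInt (pp (Ds L δ β)) w) {w : ℂ} (hw : f w = 0) : w.re ≤ 0 := by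
  by_contra hw0
  push Not at hw0
  set Z : Set ℝ := {x | ∃ w, f w = 0 ∧ w.re = x} with hZ
  have hbd : BddAbove Z := by
    refine ⟨1 / 2, ?_⟩
    rintro x ⟨w, h1, rfl⟩
    by_contra h2
    push Not at h2
    exact h.ne w h2.le h1
  set Θ := sSup Z with hΘ
  have hΘ0 : 0 < Θ := lt_of_lt_of_le hw0 (le_csSup hbd ⟨w, hw, rfl⟩)
  obtain ⟨b, hb0, hb1, hb⟩ : ∃ b : ℝ, 0 ≤ b ∧ b < 1 ∧ ∀ j, β j < 1 → β j ≤ b := by
    rcases (Finset.univ.filter fun j => β j < 1).eq_empty_or_nonempty with h1 | h1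
    · refine ⟨0, le_rfl, one_pos, fun j hj => ?_⟩
      have : j ∈ (Finset.univ.filter fun j => β j < 1) := Finset.mem_filter.2 ⟨Finset.mem_univ _, hj⟩
      rw [h1] at this
      exact absurd this (Finset.notMem_empty _)
    · obtain ⟨j0, h2, h3⟩ := Finset.exists_max_image _ β h1
      exact ⟨β j0, (hβ j0).le, (Finset.mem_filter.1 h2).2, fun j hj =>
        h3 j (Finset.mem_filter.2 ⟨Finset.mem_univ _, hj⟩)⟩
  have hc : 0 ≤ b * Θ := by positivity
  have e := ext_scales (c := b * Θ) h hβ hβ1 hj hc (fun j hj w hw => by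
    rcases le_total w.re 0 with h1 | h1
    · have := hβ j
      nlinarith
    · have h2 : w.re ≤ Θ := le_csSup hbd ⟨w, hw, rfl⟩
      exact mul_le_mul (hb j hj) h2 h1 hb0)
  have h1 : ∀ w, f w = 0 → w.re ≤ b * Θ := fun w hw => no_pos2 h e (fun w hw => hp w (by linarith)) hw
  have h2 : Θ ≤ b * Θ := csSup_le ⟨w.re, w, hw, rfl⟩ (by rintro x ⟨w, h3, rfl⟩; exact h1 w h3)
  nlinarith

lemma bdd_int {g : ℝ → ℝ} (hc : Continuous g) (h0 : ∀ u, 0 ≤ g u) {E : ℝ} (hE : ∀ᶠ U in atTop, mean g U ≤ E) :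
    ∃ C : ℝ, ∀ U ≥ (1:ℝ), ∫ u in (0:ℝ)..U, g u ≤ C * U := by
  obtain ⟨U0, hU0⟩ := eventually_atTop.1 hE
  set T := max U0 1 with hT
  have hT1 : 1 ≤ T := le_max_right _ _
  set A := ∫ u in (0:ℝ)..T, g u with hA
  have hA0 : 0 ≤ A := intervalIntegral.integral_nonneg (by linarith) fun u _ => h0 u
  refine ⟨max E A, fun U hU => ?_⟩
  rcases le_total T U with h1 | h1
  · have h2 := hU0 U ((le_max_left _ _).trans h1)
    unfold mean at h2
    rw [div_le_iff₀ (by linarith)] at h2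
    have : E * U ≤ max E A * U := mul_le_mul_of_nonneg_right (le_max_left _ _) (by linarith)
    linarith
  · have h2 : ∫ u in (0:ℝ)..U, g u ≤ A := by
      have h3 : A - ∫ u in (0:ℝ)..U, g u = ∫ u in U..T, g u := by
        rw [hA, intervalIntegral.integral_interval_sub_left (hc.intervalIntegrable _ _) (hc.intervalIntegrable _ _)]
      have h4 : 0 ≤ ∫ u in U..T, g u := intervalIntegral.integral_nonneg h1 fun u _ => h0 u
      linarith
    have h5 : A ≤ max E A * U := by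
      have := le_max_right E A
      nlinarith
    linarith

/-- **boundedness of the mean value for several scales implies the Riemann hypothesis** -/
theorem rh_of_bdd_multi [Nonempty κ] (h : LD f L δ) {lam : ℝ} (hl : 0 < lam) {α : κ → ℝ} (hα : ∀ j, 0 < α j)
    (hB : ∃ C, ∀ᶠ U in atTop, mean (fun u => Real.exp (lam * Ds L δ α u)) U ≤ C) : RHf f := by
  obtain ⟨E, hE⟩ := hB
  obtain ⟨j0, hj0⟩ := Finite.exists_max α
  set m := α j0 with hm
  have hm0 : 0 < m := hα j0
  set β : κ → ℝ := fun j => α j / m with hβ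
  have hβ0 : ∀ j, 0 < β j := fun j => div_pos (hα j) hm0
  have hβ1 : ∀ j, β j ≤ 1 := fun j => (div_le_one hm0).2 (hj0 j)
  have hβj : ∃ j, β j = 1 := ⟨j0, div_self hm0.ne'⟩
  have hDs : ∀ u, Ds L δ β u = Ds L δ α (u / m) := by
    intro u
    unfold Ds
    refine Finset.sum_congr rfl fun j _ => ?_
    congr 1
    simp only [hβ]
    field_simp
  have hcα := Ds_cont h α
  have hcβ := Ds_cont h β
  have hmean : ∀ U, mean (fun u => Real.exp (lam * Ds L δ β u)) U =
      mean (fun u => Real.exp (lam * Ds L δ α u)) (U / m) := by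
    intro U
    unfold mean
    simp only [hDs]
    rw [intervalIntegral.integral_comp_div (fun u => Real.exp (lam * Ds L δ α u)) hm0.ne', zero_div, smul_eq_mul]
    rcases eq_or_ne U 0 with rfl | hU
    · simp
    · field_simp
  have hE2 : ∀ᶠ U in atTop, mean (fun u => Real.exp (lam * Ds L δ β u)) U ≤ E := by
    have h1 : Tendsto (fun U : ℝ => U / m) atTop atTop := tendsto_id.atTop_div_const hm0
    filter_upwards [h1.eventually hE] with U hU
    rw [hmean]
    exact hU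
  obtain ⟨C, hC⟩ := bdd_int (g := fun u => Real.exp (lam * Ds L δ β u)) (by fun_prop) (fun u => (Real.exp_pos _).le) hE2
  have h1 : ∀ w, f w = 0 → w.re ≤ 0 := fun w hw =>
    no_pos_scales h hβ0 hβ1 hβj (fun w hw => pp_LInt hcβ hl hC hw) hw
  intro w hw hw2
  have h2 := h1 w hw
  have h3 := h1 (-w) (h.symm w hw hw2)
  rw [Complex.neg_re] at h3
  linarith

end scales

end Pool.Agent.U544.LI
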