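import Pool.Agent.U544.LI.PF2

/-!
# Laplace transforms
-/

set_option autoImplicit false

open Complex Filter Topology Metric Finset MeasureTheory Set

namespace Pool.Agent.U544.LI

lemma lap_exp {a : ℂ} (ha : a.re < 0) : ∫ u in Ioi (0:ℝ), cexp (a * u) = -1 / a := by
  rw [integral_exp_mul_complex_Ioi ha]
  simp

lemma tend_uexp {c : ℝ} (hc : 0 < c) : Tendsto (fun u : ℝ => u * Real.exp (-(c * u))) atTop (𝓝 0) := by
  have h := (Real.tendsto_pow_mul_exp_neg_atTop_nhds_zero 1).comp (tendsto_id.const_mul_atTop hc)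
  have h2 := h.const_mul (c⁻¹)
  rw [mul_zero] at h2
  refine h2.congr fun u => ?_
  simp only [Function.comp_apply, id, pow_one]
  field_simp

lemma int_uexp {c : ℂ} (hc : 0 < c.re) : IntegrableOn (fun u : ℝ => (u:ℂ) * cexp (-(c * u))) (Ioi 0) := by
  have h1 : IntegrableOn (fun u : ℝ => 2 / c.re * Real.exp (-(c.re / 2) * u)) (Ioi 0) :=
    (integrableOn_exp_mul_Ioi (by linarith : -(c.re / 2) < 0) 0).const_mul _
  refine Integrable.mono' h1 (by fun_prop) ?_
  rw [ae_restrict_iff' measurableSet_Ioi]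
  refine Eventually.of_forall fun u hu => ?_
  have hu : (0:ℝ) < u := hu
  rw [norm_mul, Complex.norm_real, Complex.norm_exp, Real.norm_of_nonneg hu.le]
  simp only [neg_re, mul_re, ofReal_re, ofReal_im, mul_zero, sub_zero]
  have h2 : u ≤ 2 / c.re * Real.exp (c.re / 2 * u) := by
    have := Real.add_one_le_exp (c.re / 2 * u)
    rw [div_mul_eq_mul_div, le_div_iff₀ hc]
    nlinarith
  calc u * Real.exp (-(c.re * u)) ≤ 2 / c.re * Real.exp (c.re / 2 * u) * Real.exp (-(c.re * u)) :=
        mul_le_mul_of_nonneg_right h2 (Real.exp_pos _).le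
    _ = _ := by rw [mul_assoc, ← Real.exp_add]; ring_nf

lemma lap_uexp {c : ℂ} (hc : 0 < c.re) : ∫ u in Ioi (0:ℝ), (u:ℂ) * cexp (-(c * u)) = 1 / c ^ 2 := by
  have hc0 : c ≠ 0 := by rintro rfl; simp at hc
  have hd : ∀ x ∈ Ici (0:ℝ), HasDerivAt (fun u : ℝ => -((u:ℂ) / c + 1 / c ^ 2) * cexp (-(c * u)))
      ((x:ℂ) * cexp (-(c * x))) x := by
    intro x _
    have h1 : HasDerivAt (fun u : ℂ => -(u / c + 1 / c ^ 2)) (-(1 / c)) (x:ℂ) :=
      (((hasDerivAt_id (x:ℂ)).div_const c).add_const _).neg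
    have h2 : HasDerivAt (fun u : ℂ => cexp (-(c * u))) (cexp (-(c * x)) * (-(c * 1))) (x:ℂ) :=
      (((hasDerivAt_id (x:ℂ)).const_mul c).neg).cexp
    have h3 : HasDerivAt (fun u : ℝ => -((u:ℂ) / c + 1 / c ^ 2) * cexp (-(c * u))) _ x := (h1.mul h2).comp_ofReal
    refine h3.congr_deriv ?_
    field_simp
    ring
  have ht : Tendsto (fun u : ℝ => -((u:ℂ) / c + 1 / c ^ 2) * cexp (-(c * u))) atTop (𝓝 0) := by
    rw [tendsto_zero_iff_norm_tendsto_zero]
    have e1 := (tend_uexp hc).const_mul (‖c‖⁻¹)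
    have e2 : Tendsto (fun u : ℝ => Real.exp (-(c.re * u))) atTop (𝓝 0) :=
      Real.tendsto_exp_neg_atTop_nhds_zero.comp (tendsto_id.const_mul_atTop hc)
    have e3 := e1.add (e2.const_mul (‖c‖⁻¹ ^ 2))
    simp only [mul_zero, add_zero] at e3
    refine squeeze_zero' (Eventually.of_forall fun _ => norm_nonneg _) ?_ e3
    filter_upwards [eventually_ge_atTop 0] with u hu
    rw [norm_mul, norm_neg, Complex.norm_exp]
    simp only [neg_re, mul_re, ofReal_re, ofReal_im, mul_zero, sub_zero]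
    have : ‖(u:ℂ) / c + 1 / c ^ 2‖ ≤ u * ‖c‖⁻¹ + ‖c‖⁻¹ ^ 2 := by
      refine (norm_add_le _ _).trans ?_
      rw [norm_div, norm_div, norm_pow, norm_one, Complex.norm_real, Real.norm_of_nonneg hu, inv_pow, one_div,
        div_eq_mul_inv]
    refine (mul_le_mul_of_nonneg_right this (Real.exp_pos _).le).trans (le_of_eq ?_)
    ring
  rw [integral_Ioi_of_hasDerivAt_of_tendsto' hd (int_uexp hc) ht]
  simp

/-- the kernel -/
noncomputable def ker (w : ℂ) (u : ℝ) : ℂ :=
  2 / (1 - w) * (if w = -1 then (u:ℂ) * cexp (-u) else (cexp (w * u) - cexp (-u)) / (1 + w))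

/-- its weight -/
noncomputable def bw (w : ℂ) : ℝ := if w = -1 then 1 else 2 / (‖1 - w‖ * ‖1 + w‖)

lemma bw_nonneg (w : ℂ) : 0 ≤ bw w := by unfold bw; split_ifs <;> positivity

lemma ker_cont (w : ℂ) : Continuous (ker w) := by
  unfold ker
  split_ifs <;> fun_prop

lemma ker_norm (w : ℂ) {u : ℝ} (hu : 0 ≤ u) : ‖ker w u‖ ≤ 2 * bw w * Real.exp (max w.re 0 * u) := by
  unfold ker bw
  have hm : 1 ≤ Real.exp (max w.re 0 * u) := Real.one_le_exp (by positivity)
  split_ifs with h
  · have : u * Real.exp (-u) ≤ 1 := by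
      have := Real.add_one_le_exp u
      rw [Real.exp_neg, ← div_eq_mul_inv, div_le_one (Real.exp_pos _)]
      linarith
    obtain ⟨M, hM⟩ : ∃ M, M = Real.exp (max w.re 0 * u) := ⟨_, rfl⟩
    rw [← hM] at hm ⊢
    rw [h, norm_mul, norm_mul, Complex.norm_real, Real.norm_of_nonneg hu, Complex.norm_exp]
    have e : ‖(2:ℂ) / (1 - -1)‖ = 1 := by norm_num
    rw [e]
    simp only [neg_re, ofReal_re]
    linarith
  · rw [norm_mul, norm_div, norm_div, Complex.norm_ofNat]
    have h1 : ‖cexp (w * u) - cexp (-u)‖ ≤ 2 * Real.exp (max w.re 0 * u) := by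
      refine (norm_sub_le _ _).trans ?_
      rw [Complex.norm_exp, Complex.norm_exp]
      simp only [mul_re, ofReal_re, ofReal_im, mul_zero, sub_zero, neg_re]
      have a1 : Real.exp (w.re * u) ≤ Real.exp (max w.re 0 * u) :=
        Real.exp_le_exp.2 (mul_le_mul_of_nonneg_right (le_max_left _ _) hu)
      have a2 : Real.exp (-u) ≤ 1 := Real.exp_le_one_iff.2 (by linarith)
      linarith
    calc 2 / ‖1 - w‖ * (‖cexp (w * u) - cexp (-u)‖ / ‖1 + w‖)
        ≤ 2 / ‖1 - w‖ * ((2 * Real.exp (max w.re 0 * u)) / ‖1 + w‖) := by gcongr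
      _ = _ := by rw [← div_div]; ring

lemma ker_tend {w : ℂ} (hw : w.re < 0) : Tendsto (ker w) atTop (𝓝 0) := by
  have h1 : ∀ {a : ℂ}, a.re < 0 → Tendsto (fun u : ℝ => cexp (a * u)) atTop (𝓝 0) := by
    intro a ha
    rw [tendsto_zero_iff_norm_tendsto_zero]
    have : Tendsto (fun u : ℝ => Real.exp (-(-a.re * u))) atTop (𝓝 0) :=
      Real.tendsto_exp_neg_atTop_nhds_zero.comp (tendsto_id.const_mul_atTop (by linarith))
    refine this.congr fun u => ?_
    rw [Complex.norm_exp]
    simp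
  have h2 : Tendsto (fun u : ℝ => cexp (-u)) atTop (𝓝 0) := by
    have := h1 (a := -1) (by simp)
    simpa using this
  have h3 : Tendsto (fun u : ℝ => (u:ℂ) * cexp (-u)) atTop (𝓝 0) := by
    rw [tendsto_zero_iff_norm_tendsto_zero]
    refine (tend_uexp one_pos).congr' ?_
    filter_upwards [eventually_ge_atTop 0] with u hu
    rw [norm_mul, Complex.norm_real, Real.norm_of_nonneg hu, Complex.norm_exp]
    simp
  unfold ker
  split_ifs
  · simpa using h3.const_mul (2 / (1 - w))
  · simpa using (((h1 hw).sub h2).div_const (1 + w)).const_mul (2 / (1 - w))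

lemma ker_int {w z : ℂ} (hw : w.re ≤ 1 / 2) (hz : z.re = 2) :
    IntegrableOn (fun u : ℝ => ker w u * cexp (-(z * u))) (Ioi 0) := by
  refine Integrable.mono' (g := fun u : ℝ => 2 * bw w * Real.exp (-1 * u))
    ((integrableOn_exp_mul_Ioi (by norm_num : (-1:ℝ) < 0) 0).const_mul _) ?_ ?_
  · exact ((ker_cont w).mul (by fun_prop)).aestronglyMeasurable
  rw [ae_restrict_iff' measurableSet_Ioi]
  refine Eventually.of_forall fun u hu => ?_
  have hu : (0:ℝ) < u := hu
  rw [norm_mul, Complex.norm_exp]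
  simp only [neg_re, mul_re, ofReal_re, ofReal_im, mul_zero, sub_zero, hz]
  refine (mul_le_mul_of_nonneg_right (ker_norm w hu.le) (Real.exp_pos _).le).trans ?_
  rw [mul_assoc, ← Real.exp_add]
  refine mul_le_mul_of_nonneg_left (Real.exp_le_exp.2 ?_) (by have := bw_nonneg w; positivity)
  have : max w.re 0 * u ≤ 1 * u := mul_le_mul_of_nonneg_right (by simp; linarith) hu.le
  linarith

lemma ker_lap {w z : ℂ} (hw : w.re ≤ 1 / 2) (hz : z.re = 2) :
    ∫ u in Ioi (0:ℝ), ker w u * cexp (-(z * u)) = 2 / ((1 - w) * (z - w) * (z + 1)) := by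
  have hw1 : 1 - w ≠ 0 := by
    intro h
    have := congrArg Complex.re h
    simp at this
    linarith
  have hzw : z - w ≠ 0 := by
    intro h
    have := congrArg Complex.re h
    simp [hz] at this
    linarith
  have hz1 : z + 1 ≠ 0 := by
    intro h
    have := congrArg Complex.re h
    simp [hz] at this
    linarith
  by_cases h : w = -1
  · have e : ∀ u : ℝ, ker w u * cexp (-(z * u)) = 2 / (1 - w) * ((u:ℂ) * cexp (-((z + 1) * u))) := by
      intro u
      rw [ker, if_pos h, show -((z + 1) * u) = -u + -(z * u) by ring, Complex.exp_add]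
      ring
    simp_rw [e]
    rw [integral_const_mul, lap_uexp (by simp [hz]; norm_num), h]
    rw [h] at hzw
    have : z - -1 = z + 1 := by ring
    rw [this]
    field_simp
  · have h1 : 1 + w ≠ 0 := by
      intro h2
      exact h (by linear_combination h2)
    have e : ∀ u : ℝ, ker w u * cexp (-(z * u)) =
        2 / ((1 - w) * (1 + w)) * (cexp ((w - z) * u) - cexp (-(z + 1) * u)) := by
      intro u
      rw [ker, if_neg h, show (w - z) * u = w * u + -(z * u) by ring, show -(z + 1) * u = -u + -(z * u) by ring,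
        Complex.exp_add, Complex.exp_add]
      field_simp
    simp_rw [e]
    have r1 : (w - z).re < 0 := by simp [hz]; linarith
    have r2 : (-(z + 1)).re < 0 := by simp [hz]; norm_num
    rw [integral_const_mul, integral_sub (integrableOn_exp_mul_complex_Ioi r1 0) (integrableOn_exp_mul_complex_Ioi r2 0),
      lap_exp r1, lap_exp r2]
    have : w - z ≠ 0 := by rw [← neg_sub]; exact neg_ne_zero.2 hzw
    rw [show w - z = -(z - w) by ring]
    field_simp
    ring

/-- the transform of `exp (-|u - l|)` -/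
lemma abs_int {l : ℝ} (z : ℂ) (hz : z.re = 2) (hl : 0 ≤ l) :
    IntegrableOn (fun u : ℝ => (Real.exp (-|u - l|) : ℂ) * cexp (-(z * u))) (Ioi 0) ∧
    (∫ u in Ioi (0:ℝ), (Real.exp (-|u - l|) : ℂ) * cexp (-(z * u))) =
      2 * cexp (-(z * l)) / (1 - z ^ 2) - cexp (-l) / (1 - z) := by
  have z1 : 1 - z ≠ 0 := by
    intro h
    have := congrArg Complex.re h
    simp [hz] at this
    linarith
  have z2 : 1 + z ≠ 0 := by
    intro h
    have := congrArg Complex.re h
    simp [hz] at this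
    linarith
  have z3 : 1 - z ^ 2 ≠ 0 := by
    rw [show 1 - z ^ 2 = (1 - z) * (1 + z) by ring]
    exact mul_ne_zero z1 z2
  have hI : IntegrableOn (fun u : ℝ => (Real.exp (-|u - l|) : ℂ) * cexp (-(z * u))) (Ioi 0) := by
    refine Integrable.mono' (g := fun u : ℝ => Real.exp (-2 * u)) (integrableOn_exp_mul_Ioi (by norm_num) 0)
      (by fun_prop) (Eventually.of_forall fun u => ?_)
    rw [norm_mul, Complex.norm_exp, Complex.norm_real, Real.norm_of_nonneg (Real.exp_pos _).le]
    simp only [neg_re, mul_re, ofReal_re, ofReal_im, mul_zero, sub_zero, hz]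
    have : Real.exp (-|u - l|) ≤ 1 := Real.exp_le_one_iff.2 (by simp)
    calc Real.exp (-|u - l|) * Real.exp (-(2 * u)) ≤ 1 * Real.exp (-(2 * u)) :=
          mul_le_mul_of_nonneg_right this (Real.exp_pos _).le
      _ = _ := by rw [one_mul]; ring_nf
  refine ⟨hI, ?_⟩
  have hsplit : Ioi (0:ℝ) = Ioc 0 l ∪ Ioi l := (Ioc_union_Ioi_eq_Ioi hl).symm
  have hd : Disjoint (Ioc (0:ℝ) l) (Ioi l) := by
    rw [Set.disjoint_left]
    intro x hx hx2
    exact absurd hx.2 (not_le.2 hx2)
  have hI' := hI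
  rw [hsplit] at hI'
  rw [hsplit, setIntegral_union hd measurableSet_Ioi (hI'.mono_set subset_union_left)
    (hI'.mono_set subset_union_right)]
  have a1 : ∫ u in Ioc (0:ℝ) l, (Real.exp (-|u - l|) : ℂ) * cexp (-(z * u)) =
      cexp (-l) * ∫ u in (0:ℝ)..l, cexp ((1 - z) * u) := by
    rw [← intervalIntegral.integral_of_le hl, ← intervalIntegral.integral_const_mul]
    refine intervalIntegral.integral_congr fun u hu => ?_
    rw [uIcc_of_le hl] at hu
    rw [abs_of_nonpos (by linarith [hu.2]), ← Complex.exp_add]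
    push_cast
    rw [← Complex.exp_add]
    ring_nf
  have a2 : ∫ u in Ioi l, (Real.exp (-|u - l|) : ℂ) * cexp (-(z * u)) =
      cexp l * ∫ u in Ioi l, cexp (-(1 + z) * u) := by
    rw [← integral_const_mul]
    refine setIntegral_congr_fun measurableSet_Ioi fun u hu => ?_
    have hu : l < u := hu
    rw [abs_of_nonneg (by linarith), ← Complex.exp_add]
    push_cast
    rw [← Complex.exp_add]
    ring_nf
  have z4 : -(1 + z) ≠ 0 := neg_ne_zero.2 z2
  rw [a1, a2, integral_exp_mul_complex z1, integral_exp_mul_complex_Ioi (by simp [hz]; norm_num)]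
  have e1 : cexp ((1 - z) * l) = cexp l * cexp (-(z * l)) := by rw [← Complex.exp_add]; ring_nf
  have e2 : cexp (-(1 + z) * l) = cexp (-l) * cexp (-(z * l)) := by rw [← Complex.exp_add]; ring_nf
  have e3 : cexp l * cexp (-l) = 1 := by rw [← Complex.exp_add]; simp
  rw [e1, e2]
  simp only [Complex.ofReal_zero, mul_zero, Complex.exp_zero]
  generalize cexp (-(z * l)) = E
  rw [show 1 - z ^ 2 = (1 - z) * (1 + z) by ring]
  field_simp
  linear_combination ((1 + z) * E + (1 - z) * E) * e3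

end Pool.Agent.U544.LI
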