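import Pool.Agent.U544.LI.Lan
import Pool.Agent.U544.LI.Inf

/-!
# The criterion, in abstract form
-/

set_option autoImplicit false

open Complex Filter Topology Metric Finset MeasureTheory Set
open scoped ComplexConjugate

namespace Pool.Agent.U544.LI

open Pool.Agent.W263.BSD

variable {f : ℂ → ℂ} {L : ℕ → ℝ} {δ : ℝ}

lemma mu_conj (hf : Differentiable ℂ f) (hne : ∃ z, f z ≠ 0) (hr : ∀ z, f (conj z) = conj (f z)) (w : ℂ) :
    mu f (conj w) = mu f w := by
  have h1 := Pool.Agent.R362.Near.ord_ne_top hf hne w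
  obtain ⟨n, hn⟩ := ENat.ne_top_iff_exists.1 h1
  obtain ⟨g, hg, hg0, hgw⟩ := (hf.analyticAt w).analyticOrderAt_eq_natCast.1 hn.symm
  have hG : AnalyticAt ℂ (fun z => conj (g (conj z))) (conj w) := by
    rw [Complex.analyticAt_iff_eventually_differentiableAt] at hg ⊢
    have hc : Tendsto (fun z : ℂ => conj z) (𝓝 (conj w)) (𝓝 w) := by
      have := Complex.continuous_conj.tendsto (conj w)
      simpa using this
    filter_upwards [hc.eventually hg] with z hz
    have := hz.conj_conj
    rw [Complex.conj_conj] at this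
    exact this
  have h2 : analyticOrderAt f (conj w) = n := by
    rw [(hf.analyticAt (conj w)).analyticOrderAt_eq_natCast]
    refine ⟨fun z => conj (g (conj z)), hG, ?_, ?_⟩
    · simp only [Complex.conj_conj]
      intro h
      exact hg0 ((map_eq_zero _).1 h)
    · have hc : Tendsto (fun z : ℂ => conj z) (𝓝 (conj w)) (𝓝 w) := by
        have := Complex.continuous_conj.tendsto (conj w)
        simpa using this
      filter_upwards [hc.eventually hgw] with z hz
      have e := hr (conj z)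
      rw [Complex.conj_conj] at e
      rw [e, hz, smul_eq_mul, smul_eq_mul, map_mul, map_pow, map_sub, Complex.conj_conj]
  unfold mu analyticOrderNatAt
  rw [h2, ← hn]

/-- the terms of the zeros on the line -/
noncomputable def gz (f : ℂ → ℂ) (u : ℝ) (w : ℂ) : ℝ :=
  if w.re = 0 then (mu f w : ℝ) * (2 / (1 + w.im ^ 2)) * Real.cos (w.im * u) else 0

/-- the terms, indexed by the ordinates -/
noncomputable def gt (f : ℂ → ℂ) (u : ℝ) (t : ℝ) : ℝ :=
  (mu f (t * I) : ℝ) * (2 / (1 + t ^ 2)) * Real.cos (t * u)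

lemma ker_re {w : ℂ} (hw : w.re = 0) (u : ℝ) :
    ker w u = 2 / (1 - w ^ 2) * cexp (w * u) - 2 / (1 - w ^ 2) * cexp (-u) := by
  have h1 : w ≠ -1 := by
    rintro rfl
    simp at hw
  have h2 : 1 - w ≠ 0 := by
    intro h
    have := congrArg Complex.re h
    simp [hw] at this
  have h3 : 1 + w ≠ 0 := by
    intro h
    have := congrArg Complex.re h
    simp [hw] at this
  rw [ker, if_neg h1, show 1 - w ^ 2 = (1 - w) * (1 + w) by ring]
  field_simp

lemma gz_eq {w : ℂ} (hw : w.re = 0) (u : ℝ) :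
    ((mu f w : ℂ) * (2 / (1 - w ^ 2) * cexp (w * u))).re = gz f u w := by
  rw [gz, if_pos hw]
  have e : w = w.im * I := by
    apply Complex.ext <;> simp [hw]
  have e1 : 1 - w ^ 2 = ((1 + w.im ^ 2 : ℝ) : ℂ) := by
    conv_lhs => rw [e]
    push_cast
    rw [mul_pow, I_sq]
    ring
  have e2 : cexp (w * u) = (Real.cos (w.im * u) : ℂ) + (Real.sin (w.im * u) : ℂ) * I := by
    conv_lhs => rw [e]
    rw [show (w.im : ℂ) * I * u = ((w.im * u : ℝ) : ℂ) * I by push_cast; ring, Complex.exp_mul_I]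
    push_cast
    ring
  rw [e1, e2]
  have e3 : (mu f w : ℂ) * (2 / ((1 + w.im ^ 2 : ℝ) : ℂ) * ((Real.cos (w.im * u) : ℂ) + (Real.sin (w.im * u) : ℂ) * I)) =
      (((mu f w : ℝ) * (2 / (1 + w.im ^ 2)) * Real.cos (w.im * u) : ℝ) : ℂ) +
      (((mu f w : ℝ) * (2 / (1 + w.im ^ 2)) * Real.sin (w.im * u) : ℝ) : ℂ) * I := by
    push_cast; ring
  rw [e3, Complex.add_re, Complex.ofReal_re, Complex.re_ofReal_mul, Complex.I_re, mul_zero, add_zero]

lemma norm_w2 {w : ℂ} (hw : w.re = 0) : ‖(2:ℂ) / (1 - w ^ 2)‖ = bw w := by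
  have h1 : w ≠ -1 := by
    rintro rfl
    simp at hw
  rw [bw, if_neg h1, norm_div, ← norm_mul, Complex.norm_ofNat]
  congr 2
  ring

lemma gz_abs (f : ℂ → ℂ) (u : ℝ) (w : ℂ) : |gz f u w| ≤ (mu f w : ℝ) * bw w := by
  have hb := bw_nonneg w
  by_cases hw : w.re = 0
  · rw [← gz_eq hw]
    refine (Complex.abs_re_le_norm _).trans ?_
    rw [norm_mul, norm_mul, norm_w2 hw, Complex.norm_natCast, Complex.norm_exp]
    have : (w * u).re = 0 := by simp [hw]
    rw [this, Real.exp_zero, mul_one]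
  · rw [gz, if_neg hw, abs_zero]
    positivity

lemma tend_expneg : Tendsto (fun u : ℝ => cexp (-u)) atTop (𝓝 0) := by
  rw [tendsto_zero_iff_norm_tendsto_zero]
  refine Real.tendsto_exp_neg_atTop_nhds_zero.congr fun u => ?_
  rw [Complex.norm_exp]
  simp

/-- the asymptotic expansion -/
lemma asym1 (h : LD f L δ) (hG : ∀ w, f w = 0 → w.re ≤ 0) :
    Tendsto (fun u => Dd L δ u - ∑' w : {w : ℂ // f w = 0}, gz f u w) atTop (𝓝 0) := by
  set r : {w : ℂ // f w = 0} → ℝ → ℂ := fun w u =>
    (mu f w : ℂ) * (ker w u - if (w:ℂ).re = 0 then 2 / (1 - (w:ℂ) ^ 2) * cexp (w * u) else 0) with hr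
  have hbs := bw_summ h
  have hrb : ∀ w : {w : ℂ // f w = 0}, ∀ u : ℝ, 0 ≤ u → ‖r w u‖ ≤ 3 * ((mu f w : ℝ) * bw w) := by
    intro w u hu
    have hb := bw_nonneg w
    have h1 : ‖ker w u‖ ≤ 2 * bw w := by
      have := ker_norm w hu
      rw [max_eq_right (hG w w.2), zero_mul, Real.exp_zero, mul_one] at this
      exact this
    have h2 : ‖(if (w:ℂ).re = 0 then 2 / (1 - (w:ℂ) ^ 2) * cexp (w * u) else 0 : ℂ)‖ ≤ bw w := by
      split_ifs with h3
      · rw [norm_mul, norm_w2 h3, Complex.norm_exp]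
        have : ((w:ℂ) * u).re = 0 := by simp [h3]
        rw [this, Real.exp_zero, mul_one]
      · rw [norm_zero]; exact hb
    simp only [hr]
    rw [norm_mul, Complex.norm_natCast]
    calc (mu f w : ℝ) * ‖ker w u - (if (w:ℂ).re = 0 then 2 / (1 - (w:ℂ) ^ 2) * cexp (w * u) else 0 : ℂ)‖
        ≤ (mu f w : ℝ) * (2 * bw w + bw w) := by
          refine mul_le_mul_of_nonneg_left ((norm_sub_le _ _).trans ?_) (by positivity)
          linarith
      _ = _ := by ring
  have hrt : ∀ w : {w : ℂ // f w = 0}, Tendsto (r w) atTop (𝓝 0) := by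
    intro w
    simp only [hr]
    by_cases hw : (w:ℂ).re = 0
    · simp only [if_pos hw]
      have h1 : Tendsto (fun u : ℝ => (mu f w : ℂ) * (-(2 / (1 - (w:ℂ) ^ 2)) * cexp (-u))) atTop (𝓝 0) := by
        have := (tend_expneg.const_mul (-(2 / (1 - (w:ℂ) ^ 2)))).const_mul (mu f w : ℂ)
        simpa using this
      refine h1.congr fun u => ?_
      rw [ker_re hw]
      ring
    · simp only [if_neg hw, sub_zero]
      have hw' : (w:ℂ).re < 0 := lt_of_le_of_ne (hG w w.2) hw
      simpa using (ker_tend hw').const_mul (mu f w : ℂ)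
  have h1 : Tendsto (fun u => ∑' w, r w u) atTop (𝓝 (∑' _ : {w : ℂ // f w = 0}, (0:ℂ))) := by
    refine tendsto_tsum_of_dominated_convergence (hbs.mul_left 3) hrt ?_
    filter_upwards [eventually_ge_atTop 0] with u hu w
    exact hrb w u hu
  rw [tsum_zero] at h1
  have h2 := h1.add (tend_expneg.const_mul (logDeriv f 1 + 2 / 3 * δ))
  rw [mul_zero, add_zero] at h2
  have h3 := (Complex.continuous_re.tendsto _).comp h2
  rw [Complex.zero_re] at h3
  refine h3.congr' ?_
  filter_upwards [eventually_gt_atTop 0] with u hu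
  have hk : Summable fun w : {w : ℂ // f w = 0} => (mu f w : ℂ) * ker w u := by
    refine Summable.of_norm_bounded (hbs.mul_left 2) fun w => ?_
    rw [norm_mul, Complex.norm_natCast]
    have := ker_norm w hu.le
    rw [max_eq_right (hG w w.2), zero_mul, Real.exp_zero, mul_one] at this
    calc (mu f w : ℝ) * ‖ker w u‖ ≤ (mu f w : ℝ) * (2 * bw w) := mul_le_mul_of_nonneg_left this (by positivity)
      _ = _ := by ring
  have hs : Summable fun w => r w u := Summable.of_norm_bounded (hbs.mul_left 3) fun w => hrb w u hu.le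
  have e1 : ∑' w : {w : ℂ // f w = 0}, gz f u w =
      (∑' w : {w : ℂ // f w = 0}, ((mu f w : ℂ) * ker w u - r w u)).re := by
    rw [Complex.re_tsum (hk.sub hs)]
    refine tsum_congr fun w => ?_
    simp only [hr]
    by_cases hw : (w:ℂ).re = 0
    · rw [← gz_eq hw, if_pos hw]
      congr 1
      ring
    · rw [gz, if_neg hw, if_neg hw]
      simp
  have e2 := expl h hu
  rw [e1, hk.tsum_sub hs]
  simp only [Function.comp_apply]
  have e3 : Dd L δ u = ((∑' w : {w : ℂ // f w = 0}, (mu f w : ℂ) * ker w u) +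
      (logDeriv f 1 + 2 / 3 * δ) * cexp (-u)).re := by
    rw [← e2, Complex.ofReal_re]
  rw [e3]
  simp only [Complex.add_re, Complex.sub_re]
  ring

/-- the sum over the zeros on the line, by ordinates -/
lemma sum_gz (h : LD f L δ) (u : ℝ) :
    ∑' w : {w : ℂ // f w = 0}, gz f u w = 2 * (mu f 0 : ℝ) +
      ∑' g : {g : ℝ // 0 < g ∧ f (g * I) = 0}, 2 * ((mu f (g * I) : ℝ) * (2 / (1 + (g:ℝ) ^ 2))) * Real.cos (g * u) := by
  have hne : ∃ z, f z ≠ 0 := ⟨1, h.ne 1 (by norm_num)⟩
  have hz0 : ∀ w : ℂ, f w ≠ 0 → gz f u w = 0 := by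
    intro w hw
    rw [gz, mu_zero h.diff hw]
    simp
  have hgt0 : ∀ t : ℝ, f (t * I) ≠ 0 → gt f u t = 0 := by
    intro t ht
    rw [gt, mu_zero h.diff ht]
    simp
  have e1 : ∑' w : {w : ℂ // f w = 0}, gz f u w = ∑' w : ℂ, gz f u w := by
    rw [← tsum_subtype_eq_of_support_subset (s := {w : ℂ | f w = 0}) (f := gz f u)]
    · rfl
    · intro w hw
      by_contra h1
      exact hw (hz0 w h1)
  have hsz : Summable (gz f u) := by
    have h1 : Summable fun w : {w : ℂ // f w = 0} => gz f u w :=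
      Summable.of_norm_bounded (bw_summ h) fun w => gz_abs f u w
    rw [← (Subtype.val_injective (p := fun w : ℂ => f w = 0)).summable_iff (f := gz f u)]
    · exact h1
    · intro w hw
      refine hz0 w fun h2 => hw ⟨⟨w, h2⟩, rfl⟩
  have hinj : Function.Injective fun t : ℝ => (t:ℂ) * I := by
    intro s t hst
    have := mul_right_cancel₀ I_ne_zero hst
    exact_mod_cast this
  have hgzt : ∀ t : ℝ, gz f u (t * I) = gt f u t := by
    intro t
    rw [gz, gt, if_pos (by simp)]
    simp
  have hsupp : ∀ w : ℂ, w ∉ Set.range (fun t : ℝ => (t:ℂ) * I) → gz f u w = 0 := by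
    intro w hw
    rw [gz, if_neg]
    intro h1
    exact hw ⟨w.im, by apply Complex.ext <;> simp [h1]⟩
  have e2 : ∑' w : ℂ, gz f u w = ∑' t : ℝ, gt f u t := by
    rw [← hinj.tsum_eq (f := gz f u)]
    · exact tsum_congr hgzt
    · intro w hw
      by_contra h1
      exact hw (hsupp w h1)
  have hst : Summable (gt f u) := by
    have := (hinj.summable_iff (f := gz f u) hsupp).2 hsz
    refine this.congr fun t => ?_
    exact hgzt t
  have heven : ∀ t, gt f u (-t) = gt f u t := by
    intro t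
    unfold gt
    have : mu f (((-t : ℝ) : ℂ) * I) = mu f (t * I) := by
      rw [← mu_conj h.diff hne h.real (t * I)]
      congr 1
      simp
    rw [this]
    simp
  -- decomposition
  have e3 : ∀ t, gt f u t = (Ioi (0:ℝ)).indicator (gt f u) t + (Iio (0:ℝ)).indicator (gt f u) t +
      ({0} : Set ℝ).indicator (gt f u) t := by
    intro t
    rcases lt_trichotomy t 0 with h1 | h1 | h1
    · rw [indicator_of_notMem (by simp; linarith), indicator_of_mem (by simpa using h1),
        indicator_of_notMem (by simp; linarith)]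
      ring
    · subst h1
      simp
    · rw [indicator_of_mem (by simpa using h1), indicator_of_notMem (by simp; linarith),
        indicator_of_notMem (by simp; linarith)]
      ring
  have s1 := hst.indicator (Ioi (0:ℝ))
  have s2 := hst.indicator (Iio (0:ℝ))
  have s3 := hst.indicator ({0} : Set ℝ)
  have e4 : ∑' t : ℝ, gt f u t = (∑' t, (Ioi (0:ℝ)).indicator (gt f u) t) + (∑' t, (Iio (0:ℝ)).indicator (gt f u) t) +
      ∑' t, ({0} : Set ℝ).indicator (gt f u) t := by
    rw [← s1.tsum_add s2, ← (s1.add s2).tsum_add s3]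
    exact tsum_congr e3
  have e5 : ∑' t, (Iio (0:ℝ)).indicator (gt f u) t = ∑' t, (Ioi (0:ℝ)).indicator (gt f u) t := by
    rw [← (Equiv.neg ℝ).tsum_eq]
    refine tsum_congr fun t => ?_
    by_cases ht : 0 < t
    · rw [indicator_of_mem (by simpa using ht), indicator_of_mem (by simpa using ht)]
      exact heven t
    · rw [indicator_of_notMem (by simpa using ht), indicator_of_notMem (by simpa using ht)]
  have e6 : ∑' t, ({0} : Set ℝ).indicator (gt f u) t = 2 * (mu f 0 : ℝ) := by
    rw [tsum_eq_single 0 (fun t ht => indicator_of_notMem (by simpa using ht) _), indicator_of_mem (by simp)]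
    unfold gt
    simp
    ring
  have e7 : ∑' t, (Ioi (0:ℝ)).indicator (gt f u) t =
      ∑' g : {g : ℝ // 0 < g ∧ f (g * I) = 0}, gt f u g := by
    rw [show (fun t => (Ioi (0:ℝ)).indicator (gt f u) t) = ({g : ℝ | 0 < g ∧ f (g * I) = 0}).indicator (gt f u) from ?_]
    · exact (tsum_subtype {g : ℝ | 0 < g ∧ f (g * I) = 0} (gt f u)).symm
    · funext t
      by_cases h1 : 0 < t
      · by_cases h2 : f (t * I) = 0
        · rw [indicator_of_mem (by simpa using h1), indicator_of_mem (show t ∈ {g : ℝ | 0 < g ∧ f (g * I) = 0} from ⟨h1, h2⟩)]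
        · rw [indicator_of_mem (by simpa using h1), hgt0 t h2, indicator_of_notMem]
          exact fun h3 => h2 h3.2
      · rw [indicator_of_notMem (by simpa using h1), indicator_of_notMem]
        exact fun h3 => h1 h3.1
  rw [e1, e2, e4, e5, e6, e7]
  have e8 : ∑' g : {g : ℝ // 0 < g ∧ f (g * I) = 0}, 2 * ((mu f (g * I) : ℝ) * (2 / (1 + (g:ℝ) ^ 2))) * Real.cos (g * u) =
      2 * ∑' g : {g : ℝ // 0 < g ∧ f (g * I) = 0}, gt f u g := by
    rw [← tsum_mul_left]
    refine tsum_congr fun g => ?_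
    unfold gt
    ring
  rw [e8]
  ring

end Pool.Agent.U544.LI
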