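import Mathlib

/-!
# Mean values of exponentials of almost periodic functions with positive coefficients

Let `a_i > 0` be summable and `γ_i` real. The mean value of `exp (∑ 2 a_i cos (γ_i u))` exists; it is at least
`∏ I_0(2 a_i)`, with equality if and only if the `γ_i` are linearly independent over the rationals.
-/

set_option autoImplicit false

open Filter Topology MeasureTheory Finset
open scoped Nat

namespace Pool.Agent.U544.LI

/-- `c` is the mean value of `g(u) cos(ω u)` -/
def BM (g : ℝ → ℝ) (ω c : ℝ) : Prop :=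
  Tendsto (fun U : ℝ => (∫ u in (0:ℝ)..U, g u * Real.cos (ω * u)) / U) atTop (𝓝 c)

/-- the weights -/
noncomputable def w (a : ℝ) (p : ℕ × ℕ) : ℝ := a ^ p.1 / (p.1)! * (a ^ p.2 / (p.2)!)

/-- `J0 a = I_0(2 a)` -/
noncomputable def J0 (a : ℝ) : ℝ := ∑' n : ℕ, (a ^ n / (n)!) ^ 2

lemma w_pos {a : ℝ} (ha : 0 < a) (p : ℕ × ℕ) : 0 < w a p := by unfold w; positivity

lemma summable_w (a : ℝ) : Summable (w a) := by
  have h := Real.summable_pow_div_factorial |a|
  have h1 : Summable fun n : ℕ => ‖a ^ n / (n)!‖ := by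
    refine h.congr fun n => ?_
    rw [norm_div, norm_pow, Real.norm_eq_abs, Real.norm_natCast]
  exact summable_mul_of_summable_norm h1 h1

lemma summable_w_norm (a : ℝ) : Summable fun p => ‖w a p‖ := (summable_w a).norm

lemma summable_J (a : ℝ) : Summable fun n : ℕ => (a ^ n / (n)!) ^ 2 := by
  have h := (summable_w a).comp_injective (i := fun n : ℕ => (n, n)) (fun m n h => (Prod.mk.inj h).1)
  refine h.congr fun n => ?_
  simp only [Function.comp, w]
  ring

lemma cos_exp (a θ ψ : ℝ) : HasSum (fun p : ℕ × ℕ => w a p * Real.cos (ψ + ((p.1 : ℝ) - p.2) * θ))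
    (Real.cos ψ * Real.exp (2 * a * Real.cos θ)) := by
  have hz (z : ℂ) : HasSum (fun n : ℕ => z ^ n / (n)!) (Complex.exp z) := by
    have := NormedSpace.expSeries_div_hasSum_exp z
    rwa [← Complex.exp_eq_exp_ℂ] at this
  have hn (z : ℂ) : Summable fun n : ℕ => ‖z ^ n / (n)!‖ := by
    have := NormedSpace.norm_expSeries_div_summable z
    exact this
  set z : ℂ := a * Complex.exp (θ * Complex.I) with hzdef
  set z' : ℂ := a * Complex.exp (-(θ * Complex.I)) with hzdef'
  have h1 : HasSum (fun p : ℕ × ℕ => z ^ p.1 / (p.1)! * (z' ^ p.2 / (p.2)!)) (Complex.exp z * Complex.exp z') := by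
    have h2 := summable_mul_of_summable_norm (hn z) (hn z')
    have h3 := tsum_mul_tsum_of_summable_norm (hn z) (hn z')
    rw [(hz z).tsum_eq, (hz z').tsum_eq] at h3
    rw [h3]
    exact h2.hasSum
  have h4 := h1.mul_left (Complex.exp (ψ * Complex.I))
  have h5 := Complex.hasSum_re h4
  have e1 : (Complex.exp (ψ * Complex.I) * (Complex.exp z * Complex.exp z')).re =
      Real.cos ψ * Real.exp (2 * a * Real.cos θ) := by
    have e2 : z + z' = ((2 * a * Real.cos θ : ℝ) : ℂ) := by
      rw [hzdef, hzdef', ← mul_add, ← neg_mul]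
      have := Complex.two_cos (θ : ℂ)
      push_cast
      rw [← this]
      ring
    rw [← Complex.exp_add, e2, ← Complex.ofReal_exp, mul_comm, Complex.re_ofReal_mul, Complex.exp_ofReal_mul_I_re]
    ring
  rw [e1] at h5
  have e3 : ∀ p : ℕ × ℕ, (Complex.exp (ψ * Complex.I) * (z ^ p.1 / (p.1)! * (z' ^ p.2 / (p.2)!))).re =
      w a p * Real.cos (ψ + ((p.1 : ℝ) - p.2) * θ) := by
    intro p
    have e4 : Complex.exp (ψ * Complex.I) * (z ^ p.1 / (p.1)! * (z' ^ p.2 / (p.2)!)) =
        ((w a p : ℝ) : ℂ) * Complex.exp (((ψ + ((p.1 : ℝ) - p.2) * θ : ℝ) : ℂ) * Complex.I) := by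
      have e5 : Complex.exp (((ψ + ((p.1 : ℝ) - p.2) * θ : ℝ) : ℂ) * Complex.I) =
          Complex.exp (ψ * Complex.I) * (Complex.exp (θ * Complex.I) ^ p.1 *
            Complex.exp (-(θ * Complex.I)) ^ p.2) := by
        rw [← Complex.exp_nat_mul, ← Complex.exp_nat_mul, ← Complex.exp_add, ← Complex.exp_add]
        congr 1
        push_cast
        ring
      rw [e5, hzdef, hzdef', mul_pow, mul_pow]
      unfold w
      push_cast
      ring
    rw [e4, Complex.re_ofReal_mul, Complex.exp_ofReal_mul_I_re]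
  have h6 := h5
  simp only [e3] at h6
  exact h6

/-- one factor more -/
lemma step {g : ℝ → ℝ} (hg : Continuous g) {B : ℝ} (hB : ∀ u, |g u| ≤ B) {C : ℝ → ℝ} (hC : ∀ ω, BM g ω (C ω))
    (a γ : ℝ) (ω : ℝ) : BM (fun u => g u * Real.exp (2 * a * Real.cos (γ * u))) ω
      (∑' p : ℕ × ℕ, w a p * C (ω + ((p.1 : ℝ) - p.2) * γ)) := by
  have hB0 : 0 ≤ B := (abs_nonneg _).trans (hB 0)
  -- the integral as a sum
  have key : ∀ U : ℝ, 0 < U → (∫ u in (0:ℝ)..U, g u * Real.exp (2 * a * Real.cos (γ * u)) * Real.cos (ω * u)) / U =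
      ∑' p : ℕ × ℕ, w a p * ((∫ u in (0:ℝ)..U, g u * Real.cos ((ω + ((p.1 : ℝ) - p.2) * γ) * u)) / U) := by
    intro U hU
    have h1 := intervalIntegral.hasSum_integral_of_dominated_convergence (μ := volume) (a := 0) (b := U)
      (F := fun p : ℕ × ℕ => fun u : ℝ => w a p * (g u * Real.cos ((ω + ((p.1 : ℝ) - p.2) * γ) * u)))
      (f := fun u : ℝ => g u * Real.exp (2 * a * Real.cos (γ * u)) * Real.cos (ω * u))
      (fun p _ => ‖w a p‖ * B)
      (fun p => (Continuous.aestronglyMeasurable (by fun_prop)))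
      (fun p => Eventually.of_forall fun u _ => by
        rw [norm_mul]
        refine mul_le_mul_of_nonneg_left ?_ (norm_nonneg _)
        rw [norm_mul]
        calc ‖g u‖ * ‖Real.cos ((ω + ((p.1 : ℝ) - p.2) * γ) * u)‖ ≤ B * 1 :=
              mul_le_mul (hB u) (Real.abs_cos_le_one _) (norm_nonneg _) hB0
          _ = B := mul_one _)
      (Eventually.of_forall fun u _ => (summable_w_norm a).mul_right B)
      (by exact intervalIntegrable_const)
      (Eventually.of_forall fun u _ => by
        have h2 := (cos_exp a (γ * u) (ω * u)).mul_left (g u)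
        have e : g u * (Real.cos (ω * u) * Real.exp (2 * a * Real.cos (γ * u))) =
            g u * Real.exp (2 * a * Real.cos (γ * u)) * Real.cos (ω * u) := by ring
        rw [e] at h2
        have e2 : (fun p : ℕ × ℕ => w a p * (g u * Real.cos ((ω + ((p.1 : ℝ) - p.2) * γ) * u))) =
            fun p : ℕ × ℕ => g u * (w a p * Real.cos (ω * u + ((p.1 : ℝ) - p.2) * (γ * u))) := by
          funext p
          have : (ω + ((p.1 : ℝ) - p.2) * γ) * u = ω * u + ((p.1 : ℝ) - p.2) * (γ * u) := by ring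
          rw [this]
          ring
        show HasSum (fun p : ℕ × ℕ => w a p * (g u * Real.cos ((ω + ((p.1 : ℝ) - p.2) * γ) * u))) _
        rw [e2]
        exact h2)
    rw [← h1.tsum_eq, ← tsum_div_const]
    refine tsum_congr fun p => ?_
    rw [intervalIntegral.integral_const_mul, mul_div_assoc]
  have h3 : Tendsto (fun U : ℝ => ∑' p : ℕ × ℕ, w a p *
      ((∫ u in (0:ℝ)..U, g u * Real.cos ((ω + ((p.1 : ℝ) - p.2) * γ) * u)) / U)) atTop
      (𝓝 (∑' p : ℕ × ℕ, w a p * C (ω + ((p.1 : ℝ) - p.2) * γ))) := by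
    apply tendsto_tsum_of_dominated_convergence (bound := fun p => ‖w a p‖ * B)
      ((summable_w_norm a).mul_right B)
    · intro p
      exact (hC _).const_mul _
    · filter_upwards [eventually_gt_atTop 0] with U hU p
      rw [norm_mul]
      refine mul_le_mul_of_nonneg_left ?_ (norm_nonneg _)
      rw [norm_div, Real.norm_of_nonneg hU.le, div_le_iff₀ hU]
      refine (intervalIntegral.norm_integral_le_of_norm_le_const (C := B) fun u _ => ?_).trans ?_
      · rw [norm_mul]
        calc ‖g u‖ * ‖Real.cos ((ω + ((p.1 : ℝ) - p.2) * γ) * u)‖ ≤ B * 1 :=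
              mul_le_mul (hB u) (Real.abs_cos_le_one _) (norm_nonneg _) hB0
          _ = B := mul_one _
      · rw [sub_zero, abs_of_pos hU]
  refine h3.congr' ?_
  filter_upwards [eventually_gt_atTop 0] with U hU
  exact (key U hU).symm

lemma BM.nonneg_of {g : ℝ → ℝ} {ω c c' : ℝ} (h : BM g ω c) (h' : BM g ω c') : c = c' :=
  tendsto_nhds_unique h h'

/-- the mean value of a cosine -/
lemma bm_one (ω : ℝ) : BM (fun _ => 1) ω (if ω = 0 then 1 else 0) := by
  unfold BM
  by_cases h : ω = 0
  · rw [if_pos h]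
    refine tendsto_const_nhds.congr' ?_
    filter_upwards [eventually_gt_atTop 0] with U hU
    simp [h, hU.ne']
  · rw [if_neg h]
    have h1 : ∀ U : ℝ, (∫ u in (0:ℝ)..U, (1:ℝ) * Real.cos (ω * u)) = Real.sin (ω * U) / ω := by
      intro U
      simp only [one_mul]
      rw [intervalIntegral.integral_comp_mul_left (fun x => Real.cos x) h, integral_cos]
      simp
      ring
    simp only [h1]
    rw [tendsto_zero_iff_norm_tendsto_zero]
    have h2 : Tendsto (fun U : ℝ => |ω|⁻¹ / U) atTop (𝓝 0) := tendsto_const_nhds.div_atTop tendsto_id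
    refine squeeze_zero' (Eventually.of_forall fun _ => norm_nonneg _) ?_ h2
    filter_upwards [eventually_gt_atTop 0] with U hU
    rw [norm_div, norm_div, Real.norm_of_nonneg hU.le, Real.norm_eq_abs, Real.norm_eq_abs]
    apply div_le_div_of_nonneg_right _ hU.le
    rw [div_eq_mul_inv]
    calc |Real.sin (ω * U)| * |ω|⁻¹ ≤ 1 * |ω|⁻¹ :=
          mul_le_mul_of_nonneg_right (Real.abs_sin_le_one _) (by positivity)
      _ = |ω|⁻¹ := one_mul _

end Pool.Agent.U544.LI
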