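import Pool.Agent.U544.LI.Multi

/-!
# Moments of almost periodic functions with positive coefficients and short relations
-/

set_option autoImplicit false

open Complex Filter Topology Metric Finset MeasureTheory Set
open scoped ComplexConjugate Nat

namespace Pool.Agent.U544.LI

section tuples

variable {ι : Type*}

/-- the value of a signed sum -/
noncomputable def fr (γ : ι → ℝ) {k : ℕ} (t : Fin k → ι × ℤˣ) : ℝ := ∑ l, (((t l).2 : ℤ) : ℝ) * γ (t l).1

/-- the formal signed sum -/
noncomputable def fm {k : ℕ} (t : Fin k → ι × ℤˣ) : ι →₀ ℤ := ∑ l, Finsupp.single (t l).1 ((t l).2 : ℤ)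

/-- the product of the weights -/
noncomputable def wp (b : ι → ℝ) {k : ℕ} (t : Fin k → ι × ℤˣ) : ℝ := ∏ l, b (t l).1

lemma val_add (γ : ι → ℝ) (m n : ι →₀ ℤ) : val γ (m + n) = val γ m + val γ n := by
  unfold val
  exact Finsupp.sum_add_index' (fun i => by simp) fun i a b => by push_cast; ring

lemma val_single (γ : ι → ℝ) (i : ι) (k : ℤ) : val γ (Finsupp.single i k) = k * γ i := by
  unfold val
  rw [Finsupp.sum_single_index]
  simp

lemma val_zero (γ : ι → ℝ) : val γ (0 : ι →₀ ℤ) = 0 := by simp [val]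

lemma val_fm (γ : ι → ℝ) {k : ℕ} (t : Fin k → ι × ℤˣ) : val γ (fm t) = fr γ t := by
  unfold fm fr
  have : ∀ s : Finset (Fin k), val γ (∑ l ∈ s, Finsupp.single (t l).1 ((t l).2 : ℤ)) =
      ∑ l ∈ s, (((t l).2 : ℤ) : ℝ) * γ (t l).1 := by
    classical
    intro s
    induction s using Finset.induction_on with
    | empty => simp [val_zero]
    | insert a s ha ih => rw [Finset.sum_insert ha, Finset.sum_insert ha, val_add, ih, val_single]
  exact this Finset.univ

lemma wp_pos {b : ι → ℝ} (hb : ∀ i, 0 < b i) {k : ℕ} (t : Fin k → ι × ℤˣ) : 0 < wp b t :=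
  Finset.prod_pos fun _ _ => hb _

/-- powers of absolutely convergent sums -/
lemma pow_tsum {J : Type*} {x : J → ℂ} (hx : Summable fun j => ‖x j‖) (k : ℕ) :
    (Summable fun t : Fin k → J => ‖∏ l, x (t l)‖) ∧ ∑' t : Fin k → J, ∏ l, x (t l) = (∑' j, x j) ^ k := by
  induction k with
  | zero =>
    refine ⟨Summable.of_finite, ?_⟩
    rw [tsum_fintype]
    simp
  | succ k ih =>
    obtain ⟨h1, h2⟩ := ih
    have h3 : Summable fun p : J × (Fin k → J) => ‖x p.1 * ∏ l, x (p.2 l)‖ := by
      have := Summable.mul_norm hx h1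
      exact this
    have h4 := tsum_mul_tsum_of_summable_norm hx h1
    have e : ∀ p : J × (Fin k → J), ∏ l, x ((Fin.consEquiv (fun _ : Fin (k + 1) => J)) p l) = x p.1 * ∏ l, x (p.2 l) := by
      intro p
      rw [Fin.prod_univ_succ]
      simp [Fin.consEquiv]
    refine ⟨?_, ?_⟩
    · rw [← (Fin.consEquiv (fun _ : Fin (k + 1) => J)).summable_iff]
      refine h3.congr fun p => ?_
      simp only [Function.comp_apply]
      rw [e]
    · rw [← (Fin.consEquiv (fun _ : Fin (k + 1) => J)).tsum_eq, pow_succ', ← h2, h4]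
      exact tsum_congr e

/-- the mean value of an absolutely convergent cosine series -/
lemma mean_series {S : Type*} [Countable S] {c ν : S → ℝ} (hc : Summable c) (h0 : ∀ s, 0 ≤ c s) :
    Tendsto (mean fun u => ∑' s, c s * Real.cos (ν s * u)) atTop (𝓝 (∑' s, if ν s = 0 then c s else 0)) := by
  have key : ∀ U : ℝ, 0 < U → mean (fun u => ∑' s, c s * Real.cos (ν s * u)) U =
      ∑' s, c s * ((∫ u in (0:ℝ)..U, (1:ℝ) * Real.cos (ν s * u)) / U) := by
    intro U hU
    have h1 := intervalIntegral.hasSum_integral_of_dominated_convergence (μ := volume) (a := 0) (b := U)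
      (F := fun s : S => fun u : ℝ => c s * Real.cos (ν s * u))
      (f := fun u : ℝ => ∑' s, c s * Real.cos (ν s * u))
      (fun s _ => c s)
      (fun p => (Continuous.aestronglyMeasurable (by fun_prop)))
      (fun p => Eventually.of_forall fun u _ => by
        rw [norm_mul, Real.norm_of_nonneg (h0 p)]
        exact mul_le_of_le_one_right (h0 p) (Real.abs_cos_le_one _))
      (Eventually.of_forall fun u _ => hc)
      (by exact intervalIntegrable_const)
      (Eventually.of_forall fun u _ => by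
        refine Summable.hasSum (Summable.of_norm_bounded hc fun s => ?_)
        rw [norm_mul, Real.norm_of_nonneg (h0 s)]
        exact mul_le_of_le_one_right (h0 s) (Real.abs_cos_le_one _))
    unfold mean
    rw [← h1.tsum_eq, ← tsum_div_const]
    refine tsum_congr fun s => ?_
    rw [intervalIntegral.integral_const_mul, mul_div_assoc]
    simp
  have h3 : Tendsto (fun U : ℝ => ∑' s, c s * ((∫ u in (0:ℝ)..U, (1:ℝ) * Real.cos (ν s * u)) / U)) atTop
      (𝓝 (∑' s, c s * (if ν s = 0 then 1 else 0))) := by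
    apply tendsto_tsum_of_dominated_convergence (bound := c) hc
    · intro s
      exact (bm_one (ν s)).const_mul _
    · filter_upwards [eventually_gt_atTop 0] with U hU s
      rw [norm_mul, Real.norm_of_nonneg (h0 s)]
      refine mul_le_of_le_one_right (h0 s) ?_
      rw [norm_div, Real.norm_of_nonneg hU.le, div_le_one hU]
      refine (intervalIntegral.norm_integral_le_of_norm_le_const (C := 1) fun u _ => ?_).trans ?_
      · rw [one_mul]
        exact Real.abs_cos_le_one _
      · rw [sub_zero, abs_of_pos hU, one_mul]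
  have e : ∑' s, (if ν s = 0 then c s else 0) = ∑' s, c s * (if ν s = 0 then 1 else 0) :=
    tsum_congr fun s => by split_ifs <;> simp
  rw [e]
  refine h3.congr' ?_
  filter_upwards [eventually_gt_atTop 0] with U hU
  exact (key U hU).symm

variable {b γ : ι → ℝ}

lemma countable_of (hb : ∀ i, 0 < b i) (hbs : Summable b) : Countable ι := by
  have h1 := hbs.countable_support
  have h2 : Function.support b = Set.univ := by
    ext i
    simp [(hb i).ne']
  rw [h2] at h1
  exact Set.countable_univ_iff.1 h1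

/-- the sum over the signed tuples with value zero -/
noncomputable def MM (b γ : ι → ℝ) (k : ℕ) : ℝ := ∑' t : {t : Fin k → ι × ℤˣ // fr γ t = 0}, wp b t.1

/-- the sum over the signed tuples which are formally zero -/
noncomputable def VV (b : ι → ℝ) (k : ℕ) : ℝ := ∑' t : {t : Fin k → ι × ℤˣ // fm t = 0}, wp b t.1

/-- all signed sums of `k` terms with value zero are formally zero -/
def Ind (γ : ι → ℝ) (k : ℕ) : Prop := ∀ t : Fin k → ι × ℤˣ, fr γ t = 0 → fm t = 0

lemma summ_pair (hb : ∀ i, 0 < b i) (hbs : Summable b) : Summable fun p : ι × ℤˣ => b p.1 := by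
  rw [← (Equiv.prodComm ℤˣ ι).summable_iff]
  exact summ_prod (fun i => (hb i).le) hbs

lemma DD_exp (hb : ∀ i, 0 < b i) (hbs : Summable b) (u : ℝ) :
    (Summable fun p : ι × ℤˣ => ‖(b p.1 : ℂ) * cexp ((((p.2 : ℤ) : ℝ) * γ p.1 * u : ℝ) * I)‖) ∧
    ∑' p : ι × ℤˣ, (b p.1 : ℂ) * cexp ((((p.2 : ℤ) : ℝ) * γ p.1 * u : ℝ) * I) = DD b γ u := by
  have hs : Summable fun p : ι × ℤˣ => ‖(b p.1 : ℂ) * cexp ((((p.2 : ℤ) : ℝ) * γ p.1 * u : ℝ) * I)‖ := by
    refine (summ_pair hb hbs).congr fun p => ?_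
    rw [norm_mul, Complex.norm_exp_ofReal_mul_I, mul_one, Complex.norm_real, Real.norm_of_nonneg (hb _).le]
  refine ⟨hs, ?_⟩
  rw [hs.of_norm.tsum_prod]
  unfold DD
  rw [Complex.ofReal_tsum]
  refine tsum_congr fun i => ?_
  rw [tsum_fintype]
  have : (Finset.univ : Finset ℤˣ) = {1, -1} := by decide
  rw [this, Finset.sum_insert (by decide), Finset.sum_singleton]
  simp only [Units.val_one, Units.val_neg, Int.cast_one, Int.cast_neg, one_mul, neg_mul]
  have h2 := Complex.two_cos ((γ i * u : ℝ) : ℂ)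
  have e : cexp (((-(γ i * u) : ℝ) : ℂ) * I) = cexp (-((γ i * u : ℝ) : ℂ) * I) := by
    congr 1
    push_cast
    ring
  rw [e, ← mul_add, ← h2]
  push_cast
  ring

lemma DD_pow (hb : ∀ i, 0 < b i) (hbs : Summable b) (k : ℕ) (u : ℝ) :
    (Summable fun t : Fin k → ι × ℤˣ => wp b t) ∧
    DD b γ u ^ k = ∑' t : Fin k → ι × ℤˣ, wp b t * Real.cos (fr γ t * u) := by
  obtain ⟨h1, h2⟩ := DD_exp (γ := γ) hb hbs u
  obtain ⟨h3, h4⟩ := pow_tsum h1 k
  have e : ∀ t : Fin k → ι × ℤˣ, ∏ l, ((b (t l).1 : ℂ) * cexp (((((t l).2 : ℤ) : ℝ) * γ (t l).1 * u : ℝ) * I)) =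
      (wp b t : ℂ) * cexp ((fr γ t * u : ℝ) * I) := by
    intro t
    rw [Finset.prod_mul_distrib, ← Complex.exp_sum, wp, Complex.ofReal_prod, ← Finset.sum_mul, ← Complex.ofReal_sum,
      fr, Finset.sum_mul]
  have hw : Summable fun t : Fin k → ι × ℤˣ => wp b t := by
    refine h3.congr fun t => ?_
    rw [e, norm_mul, Complex.norm_exp_ofReal_mul_I, mul_one, Complex.norm_real, Real.norm_of_nonneg (wp_pos hb t).le]
  refine ⟨hw, ?_⟩
  rw [h2] at h4
  have h5 : (DD b γ u ^ k : ℝ) = (∑' t : Fin k → ι × ℤˣ, (wp b t : ℂ) * cexp ((fr γ t * u : ℝ) * I)).re := by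
    rw [← tsum_congr e, h4, ← Complex.ofReal_pow, Complex.ofReal_re]
  rw [h5, Complex.re_tsum]
  · refine tsum_congr fun t => ?_
    rw [Complex.re_ofReal_mul, Complex.exp_ofReal_mul_I_re]
  · refine (Summable.of_norm ?_)
    refine h3.congr fun t => ?_
    rw [e]

/-- the moments -/
theorem mean_pow (hb : ∀ i, 0 < b i) (hbs : Summable b) (k : ℕ) :
    Tendsto (mean fun u => DD b γ u ^ k) atTop (𝓝 (MM b γ k)) := by
  classical
  have := countable_of hb hbs
  have h1 := (DD_pow (γ := γ) hb hbs k 0).1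
  have h2 := mean_series (ν := fun t : Fin k → ι × ℤˣ => fr γ t) h1 fun t => (wp_pos hb t).le
  have e1 : (fun u => DD b γ u ^ k) = fun u => ∑' t : Fin k → ι × ℤˣ, wp b t * Real.cos (fr γ t * u) := by
    funext u
    exact (DD_pow (γ := γ) hb hbs k u).2
  rw [e1]
  convert h2 using 2
  have e2 : MM b γ k = ∑' t, ({t : Fin k → ι × ℤˣ | fr γ t = 0}).indicator (wp b) t :=
    tsum_subtype {t : Fin k → ι × ℤˣ | fr γ t = 0} (fun t => wp b t)
  rw [e2]
  refine tsum_congr fun t => ?_
  by_cases h : fr γ t = 0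
  · rw [if_pos h, indicator_of_mem (show t ∈ {t : Fin k → ι × ℤˣ | fr γ t = 0} from h)]
  · rw [if_neg h, indicator_of_notMem (show t ∉ {t : Fin k → ι × ℤˣ | fr γ t = 0} from h)]

/-- comparison with the formal moments -/
theorem VV_le (hb : ∀ i, 0 < b i) (hbs : Summable b) (k : ℕ) :
    VV b k ≤ MM b γ k ∧ (MM b γ k = VV b k ↔ Ind γ k) := by
  classical
  have hw := (DD_pow (γ := fun _ => 0) hb hbs k 0).1
  have e1 : MM b γ k = ∑' t, ({t : Fin k → ι × ℤˣ | fr γ t = 0}).indicator (wp b) t :=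
    tsum_subtype {t : Fin k → ι × ℤˣ | fr γ t = 0} (fun t => wp b t)
  have e2 : VV b k = ∑' t, ({t : Fin k → ι × ℤˣ | fm t = 0}).indicator (wp b) t :=
    tsum_subtype {t : Fin k → ι × ℤˣ | fm t = 0} (fun t => wp b t)
  have hsub : ∀ t : Fin k → ι × ℤˣ, fm t = 0 → fr γ t = 0 := by
    intro t ht
    rw [← val_fm, ht, val_zero]
  have hle : ∀ t, ({t : Fin k → ι × ℤˣ | fm t = 0}).indicator (wp b) t ≤
      ({t : Fin k → ι × ℤˣ | fr γ t = 0}).indicator (wp b) t := fun t =>
    indicator_le_indicator_of_subset (fun t ht => hsub t ht) (fun t => (wp_pos hb t).le) t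
  have s1 := hw.indicator {t : Fin k → ι × ℤˣ | fr γ t = 0}
  have s2 := hw.indicator {t : Fin k → ι × ℤˣ | fm t = 0}
  refine ⟨by rw [e1, e2]; exact s2.tsum_le_tsum hle s1, ?_⟩
  constructor
  · intro h t ht
    by_contra hcon
    have hlt : ({t : Fin k → ι × ℤˣ | fm t = 0}).indicator (wp b) t <
        ({t : Fin k → ι × ℤˣ | fr γ t = 0}).indicator (wp b) t := by
      rw [indicator_of_notMem (show t ∉ {t : Fin k → ι × ℤˣ | fm t = 0} from hcon),
        indicator_of_mem (show t ∈ {t : Fin k → ι × ℤˣ | fr γ t = 0} from ht)]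
      exact wp_pos hb t
    have := Summable.tsum_lt_tsum hle hlt s2 s1
    rw [← e1, ← e2, h] at this
    exact lt_irrefl _ this
  · intro h
    rw [e1, e2]
    have e3 : {t : Fin k → ι × ℤˣ | fr γ t = 0} = {t : Fin k → ι × ℤˣ | fm t = 0} :=
      Set.ext fun t => ⟨fun ht => h t ht, fun ht => hsub t ht⟩
    rw [e3]

end tuples

end Pool.Agent.U544.LI
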