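import Pool.Agent.U544.LI.Mom
import Pool.Agent.U544.LI.Lan3

/-!
# The criterion with one moment
-/

set_option autoImplicit false

open Complex Filter Topology Metric Finset MeasureTheory Set
open scoped ComplexConjugate Nat

namespace Pool.Agent.U544.LI

open Pool.Agent.W263.BSD

section comb

variable {ι : Type*}

lemma fm_append {k l : ℕ} (s : Fin k → ι × ℤˣ) (t : Fin l → ι × ℤˣ) : fm (Fin.append s t) = fm s + fm t := by
  unfold fm
  rw [Fin.sum_univ_add]
  simp

lemma exists_tup (n : ι →₀ ℤ) : ∃ k, ∃ t : Fin k → ι × ℤˣ, fm t = n := by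
  induction n using Finsupp.induction_linear with
  | zero => exact ⟨0, Fin.elim0, by simp [fm]⟩
  | add m n hm hn =>
    obtain ⟨k, s, hs⟩ := hm
    obtain ⟨l, t, ht⟩ := hn
    exact ⟨k + l, Fin.append s t, by rw [fm_append, hs, ht]⟩
  | single i z =>
    rcases le_total 0 z with hz | hz
    · refine ⟨z.toNat, fun _ => (i, 1), ?_⟩
      unfold fm
      rw [Finset.sum_const, Finset.card_univ, Fintype.card_fin, Finsupp.smul_single]
      congr 1
      simp
      omega
    · refine ⟨(-z).toNat, fun _ => (i, -1), ?_⟩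
      unfold fm
      rw [Finset.sum_const, Finset.card_univ, Fintype.card_fin, Finsupp.smul_single]
      congr 1
      simp
      omega

/-- linear independence and signed sums -/
theorem linInd_Ind (γ : ι → ℝ) : LinearIndependent ℚ γ ↔ ∀ k, Ind γ k := by
  have h0 : LinearIndependent ℚ γ ↔ ∀ n : ι →₀ ℤ, val γ n = 0 → n = 0 := by
    rw [← LinearIndependent.iff_fractionRing (R := ℤ) (K := ℚ), linearIndependent_iff]
    refine forall_congr' fun n => ?_
    have : Finsupp.linearCombination ℤ γ n = val γ n := by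
      rw [Finsupp.linearCombination_apply]
      unfold val
      exact Finsupp.sum_congr fun i _ => by rw [zsmul_eq_mul]
    rw [this]
  rw [h0]
  constructor
  · intro h k t ht
    exact h _ (by rw [val_fm, ht])
  · intro h n hn
    obtain ⟨k, t, rfl⟩ := exists_tup n
    exact h k t (by rw [← val_fm, hn])

end comb

/-- a continuous nonnegative function with bounded mean values -/
lemma lint_of_int {q : ℝ → ℝ} (hpc : Continuous q) (h0 : ∀ u, 0 ≤ q u) {C : ℝ}
    (hb : ∀ U ≥ (1:ℝ), ∫ u in (0:ℝ)..U, q u ≤ C * U) {w : ℝ} (hw : 0 < w) : LInt q w := by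
  have hC : 0 ≤ C := by
    have h1 := hb 1 le_rfl
    have h2 : 0 ≤ ∫ u in (0:ℝ)..1, q u :=
      intervalIntegral.integral_nonneg (by norm_num) fun u _ => h0 u
    linarith
  set P : ℝ → ℝ := fun U => ∫ u in (0:ℝ)..U, q u with hP
  have hPd : ∀ U, HasDerivAt P (q U) U := fun U =>
    intervalIntegral.integral_hasDerivAt_right (hpc.intervalIntegrable _ _)
      (hpc.stronglyMeasurableAtFilter _ _) hpc.continuousAt
  have hPm : ∀ U, 0 ≤ U → P U ≤ C * (1 + U) := by
    intro U hU
    rcases le_total 1 U with h1 | h1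
    · refine (hb U h1).trans ?_
      nlinarith
    · have h2 : P U ≤ P 1 := by
        have : P 1 - P U = ∫ u in U..1, q u := by
          simp only [hP]
          rw [intervalIntegral.integral_interval_sub_left (hpc.intervalIntegrable _ _) (hpc.intervalIntegrable _ _)]
        have h3 : 0 ≤ ∫ u in U..1, q u :=
          intervalIntegral.integral_nonneg h1 fun u _ => h0 u
        linarith
      have h4 : P 1 ≤ C * 1 := hb 1 le_rfl
      have : 0 ≤ C * U := by positivity
      linarith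
  have hw2 : ∀ u : ℝ, 0 ≤ u → (1 + u) * Real.exp (-(w * u)) ≤ (1 + 2 / w) * Real.exp (-(w / 2) * u) := by
    intro u hu
    have h1 : 1 + u ≤ (1 + 2 / w) * Real.exp (w / 2 * u) := by
      have a1 : 1 ≤ Real.exp (w / 2 * u) := Real.one_le_exp (by positivity)
      have a2 : u ≤ 2 / w * Real.exp (w / 2 * u) := by
        rw [div_mul_eq_mul_div, le_div_iff₀ hw]
        nlinarith [Real.add_one_le_exp (w / 2 * u)]
      linarith
    calc (1 + u) * Real.exp (-(w * u)) ≤ (1 + 2 / w) * Real.exp (w / 2 * u) * Real.exp (-(w * u)) :=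
          mul_le_mul_of_nonneg_right h1 (Real.exp_pos _).le
      _ = _ := by rw [mul_assoc, ← Real.exp_add]; ring_nf
  unfold LInt
  set B := C * (1 + 2 / w) with hB
  have hB0 : 0 ≤ B := by positivity
  refine integrableOn_Ioi_of_intervalIntegral_norm_bounded (3 * B) 0 (l := atTop) (b := fun x : ℝ => x)
    (fun U => (Continuous.integrableOn_Ioc (by fun_prop))) tendsto_id ?_
  filter_upwards [eventually_ge_atTop 0] with U hU
  have e1 : ∫ u in (0:ℝ)..U, ‖q u * Real.exp (-(w * u))‖ = ∫ u in (0:ℝ)..U, q u * Real.exp (-(w * u)) := by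
    refine intervalIntegral.integral_congr fun u _ => ?_
    exact Real.norm_of_nonneg (mul_nonneg (h0 u) (Real.exp_pos _).le)
  have hv : ∀ u : ℝ, HasDerivAt (fun u : ℝ => Real.exp (-(w * u))) (Real.exp (-(w * u)) * (-(w * 1))) u := fun u =>
    (((hasDerivAt_id u).const_mul w).neg).exp
  have hPc : Continuous P := continuous_iff_continuousAt.2 fun u => (hPd u).continuousAt
  have e2 := intervalIntegral.integral_mul_deriv_eq_deriv_mul (a := 0) (b := U) (u := P)
    (v := fun u : ℝ => Real.exp (-(w * u))) (u' := q) (v' := fun u => Real.exp (-(w * u)) * (-(w * 1)))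
    (fun u _ => hPd u) (fun u _ => hv u) (hpc.intervalIntegrable _ _) (Continuous.intervalIntegrable (by fun_prop) _ _)
  have hP0 : P 0 = 0 := by simp [hP]
  have e3 : ∫ u in (0:ℝ)..U, q u * Real.exp (-(w * u)) =
      P U * Real.exp (-(w * U)) + ∫ u in (0:ℝ)..U, w * (P u * Real.exp (-(w * u))) := by
    have e4 : ∫ u in (0:ℝ)..U, w * (P u * Real.exp (-(w * u))) =
        -∫ u in (0:ℝ)..U, P u * (Real.exp (-(w * u)) * (-(w * 1))) := by
      rw [← intervalIntegral.integral_neg]
      exact intervalIntegral.integral_congr fun u _ => by ring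
    rw [e4, e2, hP0]
    ring
  rw [e1, e3]
  have f1 : P U * Real.exp (-(w * U)) ≤ B := by
    calc P U * Real.exp (-(w * U)) ≤ C * (1 + U) * Real.exp (-(w * U)) :=
          mul_le_mul_of_nonneg_right (hPm U hU) (Real.exp_pos _).le
      _ = C * ((1 + U) * Real.exp (-(w * U))) := by ring
      _ ≤ C * ((1 + 2 / w) * Real.exp (-(w / 2) * U)) :=
          mul_le_mul_of_nonneg_left (hw2 U hU) (by positivity)
      _ ≤ C * ((1 + 2 / w) * 1) := by
          have : Real.exp (-(w / 2) * U) ≤ 1 := Real.exp_le_one_iff.2 (by nlinarith)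
          gcongr
      _ = B := by rw [hB]; ring
  have f2 : ∫ u in (0:ℝ)..U, w * (P u * Real.exp (-(w * u))) ≤ 2 * B := by
    calc ∫ u in (0:ℝ)..U, w * (P u * Real.exp (-(w * u)))
        ≤ ∫ u in (0:ℝ)..U, w * B * Real.exp (-(w / 2) * u) := by
          refine intervalIntegral.integral_mono_on hU (Continuous.intervalIntegrable (by fun_prop) _ _)
            (Continuous.intervalIntegrable (by fun_prop) _ _) fun u hu => ?_
          calc w * (P u * Real.exp (-(w * u))) ≤ w * (C * (1 + u) * Real.exp (-(w * u))) := by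
                refine mul_le_mul_of_nonneg_left ?_ hw.le
                exact mul_le_mul_of_nonneg_right (hPm u hu.1) (Real.exp_pos _).le
            _ = w * C * ((1 + u) * Real.exp (-(w * u))) := by ring
            _ ≤ w * C * ((1 + 2 / w) * Real.exp (-(w / 2) * u)) :=
                mul_le_mul_of_nonneg_left (hw2 u hu.1) (by positivity)
            _ = _ := by rw [hB]; ring
      _ = w * B * ∫ u in (0:ℝ)..U, Real.exp (-(w / 2) * u) := by rw [intervalIntegral.integral_const_mul]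
      _ = w * B * ((Real.exp (-(w / 2) * U) - 1) / (-(w / 2))) := by
          congr 1
          have hne : -(w / 2) ≠ 0 := by have := hw.ne'; simp [this]
          rw [intervalIntegral.integral_comp_mul_left (fun x => Real.exp x) hne, integral_exp]
          simp only [mul_zero, Real.exp_zero, smul_eq_mul]
          rw [inv_mul_eq_div]
      _ ≤ 2 * B := by
          have h1 := Real.exp_pos (-(w / 2) * U)
          have : w * B * ((Real.exp (-(w / 2) * U) - 1) / (-(w / 2))) = 2 * B * (1 - Real.exp (-(w / 2) * U)) := by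
            field_simp
            ring
          rw [this]
          nlinarith
  linarith

variable {f : ℂ → ℂ} {L : ℕ → ℝ} {δ : ℝ}

/-- boundedness of one even moment implies the Riemann hypothesis -/
theorem rh_of_pow (h : LD f L δ) {c : ℝ} (hc0 : 0 ≤ c) {N : ℕ} (hN : 1 ≤ N)
    (hB : ∃ C, ∀ᶠ U in atTop, mean (fun u => (c + Dd L δ u) ^ (2 * N)) U ≤ C) : RHf f := by
  obtain ⟨E, hE⟩ := hB
  have hDc := Dd_cont h
  obtain ⟨C, hC⟩ := bdd_int (g := fun u => (c + Dd L δ u) ^ (2 * N)) (by fun_prop)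
    (fun u => by rw [pow_mul]; positivity) hE
  have hpw : ∀ u, Dp L δ u ≤ 1 + (c + Dd L δ u) ^ (2 * N) := by
    intro u
    unfold Dp
    have h1 : 0 ≤ (c + Dd L δ u) ^ (2 * N) := by rw [pow_mul]; positivity
    refine max_le ?_ (by linarith)
    rcases le_total (c + Dd L δ u) 1 with h2 | h2
    · linarith
    · have : (c + Dd L δ u) ^ 1 ≤ (c + Dd L δ u) ^ (2 * N) := pow_le_pow_right₀ h2 (by omega)
      rw [pow_one] at this
      linarith
  have hint : ∀ U ≥ (1:ℝ), ∫ u in (0:ℝ)..U, Dp L δ u ≤ (1 + C) * U := by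
    intro U hU
    have h1 : ∫ u in (0:ℝ)..U, Dp L δ u ≤ ∫ u in (0:ℝ)..U, (1 + (c + Dd L δ u) ^ (2 * N)) :=
      intervalIntegral.integral_mono_on (by linarith) ((Dp_cont h).intervalIntegrable _ _)
        (Continuous.intervalIntegrable (by fun_prop) _ _) fun u _ => hpw u
    rw [intervalIntegral.integral_add (Continuous.intervalIntegrable (by fun_prop) _ _)
      (Continuous.intervalIntegrable (by fun_prop) _ _)] at h1
    have h2 := hC U hU
    have h3 : ∫ _u in (0:ℝ)..U, (1:ℝ) = U := by simp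
    rw [h3] at h1
    linarith
  have h1 : ∀ w, f w = 0 → w.re ≤ 0 := fun w hw =>
    no_pos h (fun w hw => lint_of_int (Dp_cont h) (fun u => le_max_right _ _) hint hw) hw
  intro w hw hw2
  have h2 := h1 w hw
  have h3 := h1 (-w) (h.symm w hw hw2)
  rw [Complex.neg_re] at h3
  linarith

/-- `∑_k binom(m,k) C^(m-k) M_k` -/
noncomputable def SS2 (m : ℕ) (C : ℝ) (M : ℕ → ℝ) : ℝ := ∑ k ∈ Finset.range (m + 1), M k * C ^ (m - k) * (m.choose k : ℝ)

lemma pow_diff {x y : ℝ → ℝ} {B : ℝ} (hy : ∀ u, |y u| ≤ B) (hxy : Tendsto (fun u => x u - y u) atTop (𝓝 0)) (m : ℕ) :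
    Tendsto (fun u => x u ^ m - y u ^ m) atTop (𝓝 0) := by
  have hyO : y =O[atTop] fun _ => (1:ℝ) := Asymptotics.IsBigO.of_bound B (Eventually.of_forall fun u => by
    rw [norm_one, mul_one]
    exact hy u)
  have hxyo : (fun u => x u - y u) =o[atTop] fun _ => (1:ℝ) := (Asymptotics.isLittleO_one_iff ℝ).2 hxy
  have hxO : x =O[atTop] fun _ => (1:ℝ) := by
    have := hxyo.isBigO.add hyO
    simpa using this
  rw [← Asymptotics.isLittleO_one_iff ℝ]
  induction m with
  | zero => simp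
  | succ m ih =>
    have h1 := hxO.mul_isLittleO ih
    have h2 := hxyo.mul_isBigO (hyO.pow m)
    have h3 := h1.add (by simpa using h2 : (fun u => (x u - y u) * y u ^ m) =o[atTop] fun _ => (1:ℝ) * 1)
    simp only [mul_one] at h3
    refine h3.congr_left fun u => ?_
    ring

/-- the moments under the Riemann hypothesis -/
theorem pow_tendsto (h : LD f L δ) {ι : Type*} (π : ι → Gs f) (b : ι → ℝ)
    (hb : ∀ i, 0 < b i) (hbs : Summable b)
    (hbD : ∀ u, DD b (fun i => (π i).1) u = DD (wt f) (fun g : Gs f => g.1) u) (hR : RHf f) (c : ℝ) (m : ℕ) :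
    Tendsto (mean fun u => (c + Dd L δ u) ^ m) atTop (𝓝 (SS2 m (c + 2 * mu f 0) (MM b fun i => (π i).1))) := by
  have h1 := asym h fun w hw => nonpos_of_rh h hR hw
  have hDc := Dd_cont h
  have hDD := DD_cont (γ := fun i => (π i).1) hb hbs
  set C := c + 2 * (mu f 0 : ℝ) with hC
  set y : ℝ → ℝ := fun u => C + DD b (fun i => (π i).1) u with hy
  have hyB : ∀ u, |y u| ≤ |C| + 2 * ∑' i, b i := by
    intro u
    refine (abs_add_le _ _).trans ?_
    have := DD_bound (γ := fun i => (π i).1) hb hbs u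
    linarith
  have hxy : Tendsto (fun u => (c + Dd L δ u) - y u) atTop (𝓝 0) := by
    refine h1.congr fun u => ?_
    simp only [hy]
    rw [hbD]
    ring
  have h2 : Tendsto (mean fun u => y u ^ m) atTop (𝓝 (SS2 m C (MM b fun i => (π i).1))) := by
    have h3 : ∀ k ∈ Finset.range (m + 1), Tendsto (fun U => mean (fun u => DD b (fun i => (π i).1) u ^ k) U *
        C ^ (m - k) * (m.choose k : ℝ)) atTop (𝓝 (MM b (fun i => (π i).1) k * C ^ (m - k) * (m.choose k : ℝ))) :=
      fun k _ => ((mean_pow hb hbs k).mul_const _).mul_const _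
    refine (tendsto_finsetSum _ h3).congr fun U => ?_
    unfold mean
    have e : ∀ u, y u ^ m = ∑ k ∈ Finset.range (m + 1), DD b (fun i => (π i).1) u ^ k * (C ^ (m - k) * (m.choose k : ℝ)) := by
      intro u
      simp only [hy]
      rw [add_comm, add_pow]
      exact Finset.sum_congr rfl fun k _ => by ring
    simp only [e]
    rw [intervalIntegral.integral_finsetSum (fun k _ => Continuous.intervalIntegrable (by fun_prop) _ _),
      Finset.sum_div]
    refine Finset.sum_congr rfl fun k _ => ?_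
    rw [intervalIntegral.integral_mul_const]
    ring
  exact ces (by fun_prop) (by fun_prop) (pow_diff hyB hxy m) h2

lemma MM_zero {ι : Type*} (b γ : ι → ℝ) : MM b γ 0 = 1 := by
  have : Unique {t : Fin 0 → ι × ℤˣ // fr γ t = 0} :=
    ⟨⟨⟨Fin.elim0, by simp [fr]⟩⟩, fun t => Subtype.ext (Subsingleton.elim _ _)⟩
  unfold MM
  rw [tsum_fintype, Fintype.sum_unique]
  simp [wp]

lemma VV_zero {ι : Type*} (b : ι → ℝ) : VV b 0 = 1 := by
  have : Unique {t : Fin 0 → ι × ℤˣ // fm t = 0} :=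
    ⟨⟨⟨Fin.elim0, by simp [fm]⟩⟩, fun t => Subtype.ext (Subsingleton.elim _ _)⟩
  unfold VV
  rw [tsum_fintype, Fintype.sum_unique]
  simp [wp]

lemma VV_nonneg {ι : Type*} {b : ι → ℝ} (hb : ∀ i, 0 < b i) (k : ℕ) : 0 ≤ VV b k :=
  tsum_nonneg fun t => (wp_pos hb t.1).le

/-- comparison of the sums -/
theorem SS2_le {ι : Type*} {b γ : ι → ℝ} (hb : ∀ i, 0 < b i) (hbs : Summable b) {c c' : ℝ} (hc : 0 ≤ c) (hcn : c ≤ c')
    (m : ℕ) :
    SS2 m c (VV b) ≤ SS2 m c' (MM b γ) ∧
    (0 < m → 0 < c → (SS2 m c' (MM b γ) = SS2 m c (VV b) ↔ c' = c ∧ ∀ k ≤ m, Ind γ k)) ∧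
    (0 < m → c = 0 → (SS2 m c' (MM b γ) = SS2 m c (VV b) ↔ c' = 0 ∧ Ind γ m)) := by
  have hle : ∀ k ∈ Finset.range (m + 1), VV b k * c ^ (m - k) * (m.choose k : ℝ) ≤
      MM b γ k * c' ^ (m - k) * (m.choose k : ℝ) := by
    intro k _
    refine mul_le_mul_of_nonneg_right ?_ (Nat.cast_nonneg _)
    refine mul_le_mul (VV_le hb hbs k).1 (pow_le_pow_left₀ hc hcn _) (by positivity) ?_
    exact (VV_nonneg hb k).trans (VV_le hb hbs k).1
  have hiff : SS2 m c' (MM b γ) = SS2 m c (VV b) ↔ ∀ k ≤ m,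
      VV b k * c ^ (m - k) = MM b γ k * c' ^ (m - k) := by
    unfold SS2
    rw [eq_comm, Finset.sum_eq_sum_iff_of_le hle]
    constructor
    · intro h k hk
      have h1 := h k (Finset.mem_range.2 (by omega))
      have h2 : (m.choose k : ℝ) ≠ 0 := by exact_mod_cast (Nat.choose_pos hk).ne'
      exact mul_right_cancel₀ h2 h1
    · intro h k hk
      rw [h k (by have := Finset.mem_range.1 hk; omega)]
  have hn0 : 0 < m → (∀ k ≤ m, VV b k * c ^ (m - k) = MM b γ k * c' ^ (m - k)) → c' = c := by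
    intro hm h
    have h1 := h 0 (Nat.zero_le _)
    rw [VV_zero, MM_zero, one_mul, one_mul, Nat.sub_zero] at h1
    exact ((pow_left_inj₀ hc (hc.trans hcn) hm.ne').1 h1).symm
  refine ⟨Finset.sum_le_sum hle, fun hm hc0 => ?_, fun hm hc0 => ?_⟩
  · rw [hiff]
    constructor
    · intro h
      have hn := hn0 hm h
      refine ⟨hn, fun k hk => ?_⟩
      have h1 := h k hk
      rw [hn] at h1
      have h2 := mul_right_cancel₀ (pow_pos hc0 _).ne' h1
      exact (VV_le hb hbs k).2.1 h2.symm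
    · rintro ⟨hn, h⟩ k hk
      rw [hn, (VV_le hb hbs k).2.2 (h k hk)]
  · rw [hiff]
    constructor
    · intro h
      have hn := hn0 hm h
      refine ⟨by rw [hn, hc0], ?_⟩
      have h1 := h m le_rfl
      rw [Nat.sub_self, pow_zero, pow_zero, mul_one, mul_one] at h1
      exact (VV_le hb hbs m).2.1 h1.symm
    · rintro ⟨hn, h⟩ k hk
      rw [hn, hc0]
      rcases hk.lt_or_eq with h1 | h1
      · rw [zero_pow (by omega), mul_zero, mul_zero]
      · rw [h1, (VV_le hb hbs m).2.2 h]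

/-- **the criterion with one moment** -/
theorem crit_mom (h : LD f L δ) {ι : Type*} (π : ι → Gs f) (b : ι → ℝ)
    (hb : ∀ i, 0 < b i) (hbs : Summable b)
    (hbD : ∀ u, DD b (fun i => (π i).1) u = DD (wt f) (fun g : Gs f => g.1) u)
    {D : ℝ → ℝ} (hD : ∀ x, 0 < x → D x = Dd L δ (Real.log x)) :
    (RHf f → ∀ (c : ℝ) (m : ℕ), Tendsto (logMean fun x => (c + D x) ^ m) atTop
      (𝓝 (SS2 m (c + 2 * mu f 0) (MM b fun i => (π i).1)))) ∧
    (∀ c : ℝ, 0 ≤ c → ∀ N : ℕ, 1 ≤ N →
      (RHf f ↔ ∃ C, ∀ᶠ X in atTop, logMean (fun x => (c + D x) ^ (2 * N)) X ≤ C) ∧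
      (∀ ε : ℝ, 0 < ε → ∃ᶠ X in atTop, SS2 (2 * N) (c + 2 * mu f 0) (MM b fun i => (π i).1) - ε <
        logMean (fun x => (c + D x) ^ (2 * N)) X) ∧
      (∀ c1 : ℝ, 0 < c1 → c1 ≤ c + 2 * mu f 0 → ((RHf f ∧ c + 2 * mu f 0 = c1 ∧ ∀ k ≤ 2 * N, Ind (fun i => (π i).1) k) ↔
        ∀ ε : ℝ, 0 < ε → ∀ᶠ X in atTop, logMean (fun x => (c + D x) ^ (2 * N)) X < SS2 (2 * N) c1 (VV b) + ε)) ∧
      (c = 0 → ((RHf f ∧ mu f 0 = 0 ∧ Ind (fun i => (π i).1) (2 * N)) ↔
        ∀ ε : ℝ, 0 < ε → ∀ᶠ X in atTop, logMean (fun x => (c + D x) ^ (2 * N)) X < VV b (2 * N) + ε))) := by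
  have hDc := Dd_cont h
  have hG : ∀ (c : ℝ) (m : ℕ), Continuous fun u => (c + Dd L δ u) ^ m := fun c m => by fun_prop
  have hF : ∀ (c : ℝ) (m : ℕ), ∀ x, 0 < x → (fun x => (c + D x) ^ m) x = (fun u => (c + Dd L δ u) ^ m) (Real.log x) := by
    intro c m x hx
    simp only
    rw [hD x hx]
  have hten : RHf f → ∀ (c : ℝ) (m : ℕ), Tendsto (logMean fun x => (c + D x) ^ m) atTop
      (𝓝 (SS2 m (c + 2 * mu f 0) (MM b fun i => (π i).1))) := fun hR c m =>
    tend_log (hG c m) (hF c m) (pow_tendsto h π b hb hbs hbD hR c m)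
  refine ⟨hten, fun c hc N hN => ?_⟩
  have hbdd : (∃ C, ∀ᶠ X in atTop, logMean (fun x => (c + D x) ^ (2 * N)) X ≤ C) → RHf f := by
    rintro ⟨C, hC⟩
    exact rh_of_pow h hc hN ⟨C, (ev_log (hG _ _) (hF _ _) (fun y => y ≤ C)).1 hC⟩
  have hgen : ∀ (W : ℝ) (P : Prop), W ≤ SS2 (2 * N) (c + 2 * (mu f 0 : ℝ)) (MM b fun i => (π i).1) →
      (SS2 (2 * N) (c + 2 * (mu f 0 : ℝ)) (MM b fun i => (π i).1) = W ↔ P) →
      ((RHf f ∧ P) ↔ ∀ ε : ℝ, 0 < ε → ∀ᶠ X in atTop,
        logMean (fun x => (c + D x) ^ (2 * N)) X < W + ε) := by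
    intro W P hW hP
    constructor
    · rintro ⟨hR, hp⟩ ε hε
      have h1 := hten hR c (2 * N)
      rw [hP.2 hp] at h1
      exact h1.eventually_lt_const (by linarith)
    · intro h1
      have hR : RHf f := hbdd ⟨_, (h1 1 one_pos).mono fun X hX => hX.le⟩
      refine ⟨hR, hP.1 (le_antisymm ?_ hW)⟩
      refine le_of_forall_pos_le_add fun ε hε => ?_
      exact le_of_tendsto (hten hR c (2 * N)) ((h1 ε hε).mono fun X hX => hX.le)
  refine ⟨⟨fun hR => ⟨_, ((hten hR c (2 * N)).eventually_lt_const (lt_add_one _)).mono fun X hX => hX.le⟩, hbdd⟩, ?_,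
    fun c1 hc1 hc2 => ?_, fun hc0 => ?_⟩
  · intro ε hε
    by_contra hcon
    rw [Filter.not_frequently] at hcon
    have h1 : ∀ᶠ X in atTop, logMean (fun x => (c + D x) ^ (2 * N)) X ≤
        SS2 (2 * N) (c + 2 * mu f 0) (MM b fun i => (π i).1) - ε := hcon.mono fun X hX => not_lt.1 hX
    have h2 := le_of_tendsto (hten (hbdd ⟨_, h1⟩) c (2 * N)) h1
    linarith
  · obtain ⟨a1, a2, -⟩ := SS2_le (γ := fun i => (π i).1) hb hbs hc1.le hc2 (2 * N)
    exact hgen _ _ a1 (a2 (by omega) hc1)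
  · obtain ⟨a1, -, a3⟩ := SS2_le (c := 0) (c' := c + 2 * (mu f 0 : ℝ)) (γ := fun i => (π i).1) hb hbs le_rfl
      (by positivity) (2 * N)
    have e1 : SS2 (2 * N) 0 (VV b) = VV b (2 * N) := by
      unfold SS2
      rw [Finset.sum_eq_single (2 * N)]
      · simp
      · intro k hk hk2
        have := Finset.mem_range.1 hk
        rw [zero_pow (by omega)]
        ring
      · intro hk
        exact absurd (Finset.mem_range.2 (by omega)) hk
    rw [e1] at a1 a3
    have h2 := hgen _ _ a1 (a3 (by omega) rfl)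
    rw [← h2]
    refine and_congr_right fun _ => and_congr_left fun _ => ?_
    rw [hc0, zero_add]
    constructor
    · intro h3
      rw [h3]
      simp
    · intro h3
      have : (mu f 0 : ℝ) = 0 := by linarith
      exact_mod_cast this

end Pool.Agent.U544.LI
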