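import Pool.Agent.U544.LI.MomM

/-!
# The second moment
-/

set_option autoImplicit false

open Complex Filter Topology Metric Finset MeasureTheory Set
open scoped ComplexConjugate Nat

namespace Pool.Agent.U544.LI

variable {ι : Type*}

lemma fm_two (t : Fin 2 → ι × ℤˣ) : fm t = Finsupp.single (t 0).1 ((t 0).2 : ℤ) + Finsupp.single (t 1).1 ((t 1).2 : ℤ) := by
  unfold fm
  rw [Fin.sum_univ_two]

lemma fr_two (γ : ι → ℝ) (t : Fin 2 → ι × ℤˣ) :
    fr γ t = (((t 0).2 : ℤ) : ℝ) * γ (t 0).1 + (((t 1).2 : ℤ) : ℝ) * γ (t 1).1 := by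
  unfold fr
  rw [Fin.sum_univ_two]

lemma fm_two_zero (t : Fin 2 → ι × ℤˣ) : fm t = 0 ↔ (t 1).1 = (t 0).1 ∧ (t 1).2 = -(t 0).2 := by
  classical
  rw [fm_two]
  constructor
  · intro h
    have h1 : (t 1).1 = (t 0).1 := by
      by_contra hne
      have h2 := DFunLike.congr_fun h (t 0).1
      rw [Finsupp.add_apply, Finsupp.single_eq_same, Finsupp.single_eq_of_ne (Ne.symm hne)] at h2
      rcases Int.units_eq_one_or (t 0).2 with h3 | h3 <;> rw [h3] at h2 <;> simp at h2
    refine ⟨h1, ?_⟩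
    have h2 := DFunLike.congr_fun h (t 0).1
    rw [h1, Finsupp.add_apply, Finsupp.single_eq_same, Finsupp.single_eq_same] at h2
    apply Units.ext
    rw [Units.val_neg]
    have h3 : ((t 0).2 : ℤ) + ((t 1).2 : ℤ) = 0 := h2
    linarith
  · rintro ⟨h1, h2⟩
    rw [h1, h2, Units.val_neg, Finsupp.single_neg, add_neg_cancel]

/-- the relations with two terms -/
lemma Ind_two_iff {γ : ι → ℝ} (hγ : ∀ i, 0 < γ i) : Ind γ 2 ↔ Function.Injective γ := by
  constructor
  · intro h i j hij
    have h1 := h ![(i, 1), (j, -1)] (by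
      rw [fr_two]
      simp [hij])
    rw [fm_two_zero] at h1
    exact h1.1.symm
  · intro h t ht
    rw [fr_two] at ht
    rw [fm_two_zero]
    have h0 := hγ (t 0).1
    have h1 := hγ (t 1).1
    rcases Int.units_eq_one_or (t 0).2 with h3 | h3 <;> rcases Int.units_eq_one_or (t 1).2 with h4 | h4 <;>
      rw [h3, h4] at ht <;> simp at ht
    · linarith
    · exact ⟨h (by linarith), by rw [h3, h4]⟩
    · exact ⟨h (by linarith), by rw [h3, h4]; simp⟩
    · linarith

/-- the second moment -/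
lemma VV_two {b : ι → ℝ} (hb : ∀ i, 0 < b i) (hbs : Summable b) : (Summable fun i => b i ^ 2) ∧
    VV b 2 = 2 * ∑' i, b i ^ 2 := by
  have hw := (DD_pow (γ := fun _ => 0) hb hbs 2 0).1
  let e : ι × ℤˣ ≃ {t : Fin 2 → ι × ℤˣ // fm t = 0} :=
    { toFun := fun p => ⟨![(p.1, p.2), (p.1, -p.2)], by rw [fm_two_zero]; simp⟩
      invFun := fun t => t.1 0
      left_inv := fun p => rfl
      right_inv := fun t => by
        obtain ⟨h1, h2⟩ := (fm_two_zero t.1).1 t.2
        apply Subtype.ext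
        funext j
        fin_cases j
        · rfl
        · show ((t.1 0).1, -(t.1 0).2) = t.1 1
          rw [← h1, ← h2] }
  have he : ∀ p : ι × ℤˣ, wp b (e p).1 = b p.1 ^ 2 := by
    intro p
    unfold wp
    rw [Fin.prod_univ_two]
    simp only [e, Equiv.coe_fn_mk, Matrix.cons_val_zero, Matrix.cons_val_one]
    ring
  have hs : Summable fun p : ι × ℤˣ => b p.1 ^ 2 := by
    have h1 := hw.comp_injective (Subtype.val_injective (p := fun t : Fin 2 → ι × ℤˣ => fm t = 0))
    have h2 := h1.comp_injective e.injective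
    refine h2.congr fun p => ?_
    exact he p
  have hs1 : Summable fun i => b i ^ 2 := by
    have := hs.comp_injective (i := fun i : ι => (i, (1 : ℤˣ))) (fun i j h => (Prod.mk.inj h).1)
    exact this
  refine ⟨hs1, ?_⟩
  have e1 : VV b 2 = ∑' p : ι × ℤˣ, b p.1 ^ 2 := by
    unfold VV
    rw [← e.tsum_eq]
    exact tsum_congr he
  rw [e1, hs.tsum_prod, ← tsum_mul_left]
  refine tsum_congr fun i => ?_
  rw [tsum_fintype]
  have h3 : ∑ _s : ℤˣ, b i ^ 2 = 2 * b i ^ 2 := by
    rw [Finset.sum_const]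
    have : (Finset.univ : Finset ℤˣ).card = 2 := by decide
    rw [this]
    simp
  exact h3

end Pool.Agent.U544.LI
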