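import Pool.Agent.U544.LI.Mom4
import Pool.Agent.U544.LI.Rat

/-!
# Simple zeros of a family of L-functions and the members of the multiset of ordinates
-/

set_option autoImplicit false

open Complex Filter Topology Metric Finset MeasureTheory Set
open scoped ComplexConjugate Nat

namespace Pool.Agent.U544.LI

lemma simple_of {g : ℂ → ℂ} {s : ℂ} (ha : AnalyticAt ℂ g s) (ht : analyticOrderAt g s ≠ ⊤) (h0 : g s = 0) :
    analyticOrderNatAt g s = 1 ↔ deriv g s ≠ 0 := by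
  have h1 := ha.analyticOrderAt_deriv_add_one
  simp only [h0, sub_zero] at h1
  rw [← ha.deriv.analyticOrderAt_eq_zero]
  unfold analyticOrderNatAt
  obtain ⟨n, hn⟩ := ENat.ne_top_iff_exists.1 ht
  rw [← hn] at h1 ⊢
  rw [ENat.toNat_natCast]
  constructor
  · rintro rfl
    rcases eq_or_ne (analyticOrderAt (deriv g) s) ⊤ with h2 | h2
    · rw [h2] at h1
      simp at h1
    · obtain ⟨k, hk⟩ := ENat.ne_top_iff_exists.1 h2
      rw [← hk] at h1 ⊢
      have h3 : k + 1 = 1 := by exact_mod_cast h1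
      have h4 : k = 0 := by omega
      rw [h4]
      rfl
  · intro h
    rw [h, zero_add] at h1
    exact_mod_cast h1.symm

variable {X : Type} {S : Finset X} {Z : X → ℂ → ℂ}

/-- the members of the multiset of ordinates are distinct iff the zeros are simple and distinct -/
theorem inj_family (hZ : ∀ χ ∈ S, ∀ s : ℂ, s ≠ 1 → AnalyticAt ℂ (Z χ) s) (h2 : ∀ χ ∈ S, Z χ 2 ≠ 0)
    (hG : ∀ χ ∈ S, RHs (Z χ)) :
    (∀ ρ : ℂ, 0 < ρ.re → ρ.re < 1 → 0 < ρ.im →
      (∀ χ ∈ S, Z χ ρ = 0 → deriv (Z χ) ρ ≠ 0) ∧ ∀ χ ∈ S, ∀ ψ ∈ S, Z χ ρ = 0 → Z ψ ρ = 0 → χ = ψ) ↔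
    Function.Injective (fun p : Gam S Z => p.1.1.2) := by
  have half : ∀ ρ : ℂ, ρ.re = 1 / 2 → (1 / 2 + (ρ.im : ℂ) * I) = ρ := by
    intro ρ h
    apply Complex.ext <;> simp [h]
  have hs1 : ∀ g : ℝ, (1 / 2 + g * I : ℂ) ≠ 1 := by
    intro g h
    have := congrArg Complex.re h
    simp at this
  constructor
  · intro h
    have hz : ∀ p : Gam S Z, Z p.1.1.1 (1 / 2 + p.1.1.2 * I) = 0 := fun p =>
      (Z_ord_pos hZ h2 p.2.1 (hs1 _)).1 (by have := p.2.2.2; omega)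
    have hj : ∀ p : Gam S Z, p.1.2 = 0 := by
      intro p
      have h3 := (simple_of (hZ _ p.2.1 _ (hs1 _)) (Z_top hZ h2 p.2.1 (hs1 _)) (hz p)).2
        ((h _ (by simp) (by simp; norm_num) (by simpa using p.2.2.1)).1 p.1.1.1 p.2.1 (hz p))
      have := p.2.2.2
      omega
    intro p p' hpp
    have hpp : p.1.1.2 = p'.1.1.2 := hpp
    have h1 := hz p
    have h2 := hz p'
    rw [← hpp] at h2
    have h3 := (h (1 / 2 + p.1.1.2 * I) (by simp) (by simp; norm_num) (by simpa using p.2.2.1)).2 _ p.2.1 _ p'.2.1 h1 h2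
    apply Subtype.ext
    refine Prod.ext (Prod.ext h3 hpp) ?_
    rw [hj p, hj p']
  · intro hinj ρ h0 h1 h2'
    have hρ : ∀ χ ∈ S, Z χ ρ = 0 → ρ = 1 / 2 + ρ.im * I := fun χ hχ h3 =>
      (half ρ (hG χ hχ ρ h0 h1 h3)).symm
    have hs : ρ ≠ 1 := by rintro rfl; simp at h1
    refine ⟨fun χ hχ h3 => ?_, fun χ hχ ψ hψ h3 h4 => ?_⟩
    · refine (simple_of (hZ _ hχ _ hs) (Z_top hZ h2 hχ hs) h3).1 ?_
      have h4 := (Z_ord_pos hZ h2 hχ hs).2 h3
      by_contra hne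
      have h5 : 1 < analyticOrderNatAt (Z χ) ρ := by omega
      have h6 := @hinj ⟨((χ, ρ.im), 0), hχ, h2', by simp only; rw [← hρ χ hχ h3]; omega⟩
        ⟨((χ, ρ.im), 1), hχ, h2', by simp only; rw [← hρ χ hχ h3]; exact h5⟩ rfl
      have := congrArg (fun p : Gam S Z => p.1.2) h6
      simp at this
    · have h5 := (Z_ord_pos hZ h2 hχ hs).2 h3
      have h6 := (Z_ord_pos hZ h2 hψ hs).2 h4
      have h7 := @hinj ⟨((χ, ρ.im), 0), hχ, h2', by simp only; rw [← hρ χ hχ h3]; omega⟩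
        ⟨((ψ, ρ.im), 0), hψ, h2', by simp only; rw [← hρ χ hχ h3]; omega⟩ rfl
      exact congrArg (fun p : Gam S Z => p.1.1.1) h7

end Pool.Agent.U544.LI
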