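import Pool.Agent.U544.LI.Mom3
import Pool.Agent.U544.LI.Mult2

/-!
# The criterion with one moment for a family of L-functions
-/

set_option autoImplicit false

open Complex Filter Topology Metric Finset MeasureTheory Set
open scoped ComplexConjugate Nat

namespace Pool.Agent.U544.LI

variable {f : ℂ → ℂ} {L : ℕ → ℝ} {δ : ℝ}

section fams

variable {X : Type} {S : Finset X} {Z : X → ℂ → ℂ} {d : X → ℕ} {ι : Type*}

/-- **The criterion with one moment for a family of L-functions.** -/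
theorem crit_mom_family (h : LD f L δ) (hd : ∀ χ ∈ S, 0 < d χ)
    (hZ : ∀ χ ∈ S, ∀ s : ℂ, s ≠ 1 → AnalyticAt ℂ (Z χ) s) (h2 : ∀ χ ∈ S, Z χ 2 ≠ 0)
    (hf : ∀ z : ℂ, z ≠ 1 / 2 → f z = (z - 1 / 2) * ∏ χ ∈ S, Z χ (1 / 2 + z) ^ d χ)
    {D : ℝ → ℝ} (hD : ∀ x, 0 < x → D x = Dd L δ (Real.log x))
    (e : ι ≃ Gam S Z) {γ b : ι → ℝ} (hγ : ∀ i, γ i = (e i).1.1.2)
    (hbd : ∀ i, b i = 2 * d (e i).1.1.1 / (1 + γ i ^ 2))
    {n0 : ℕ} (hn0 : n0 = ∑ χ ∈ S, d χ * analyticOrderNatAt (Z χ) (1 / 2)) :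
    (∀ k, Summable fun t : Fin k → ι × ℤˣ => wp b t) ∧
    (∀ k, 0 ≤ VV b k ∧ VV b k ≤ MM b γ k ∧ (MM b γ k = VV b k ↔ Ind γ k)) ∧
    ((∀ χ ∈ S, RHs (Z χ)) → ∀ (c : ℝ) (m : ℕ), Tendsto (logMean fun x => (c + D x) ^ m) atTop
      (𝓝 (SS2 m (c + 2 * n0) (MM b γ)))) ∧
    (∀ N : ℕ, 1 ≤ N → ∀ c : ℝ, 0 ≤ c →
      ((∀ χ ∈ S, RHs (Z χ)) ↔ ∃ C, ∀ᶠ X in atTop, logMean (fun x => (c + D x) ^ (2 * N)) X ≤ C) ∧
      (∀ ε : ℝ, 0 < ε → ∃ᶠ X in atTop, SS2 (2 * N) (c + 2 * n0) (MM b γ) - ε <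
        logMean (fun x => (c + D x) ^ (2 * N)) X) ∧
      (∀ c1 : ℝ, 0 < c1 → c1 ≤ c + 2 * n0 →
        (((∀ χ ∈ S, RHs (Z χ)) ∧ c + 2 * n0 = c1 ∧ ∀ k ≤ 2 * N, Ind γ k) ↔
        ∀ ε : ℝ, 0 < ε → ∀ᶠ X in atTop, logMean (fun x => (c + D x) ^ (2 * N)) X < SS2 (2 * N) c1 (VV b) + ε)) ∧
      (c = 0 → (((∀ χ ∈ S, RHs (Z χ)) ∧ n0 = 0 ∧ Ind γ (2 * N)) ↔
        ∀ ε : ℝ, 0 < ε → ∀ᶠ X in atTop, logMean (fun x => (c + D x) ^ (2 * N)) X < VV b (2 * N) + ε))) := by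
  classical
  have hfz : ∀ z : ℂ, z ≠ 1 / 2 → (f z = 0 ↔ ∃ χ ∈ S, Z χ (1 / 2 + z) = 0) := by
    intro z hz
    rw [hf z hz, mul_eq_zero, Finset.prod_eq_zero_iff]
    constructor
    · rintro (h1 | ⟨χ, hχ, h1⟩)
      · exact absurd (sub_eq_zero.1 h1) hz
      · exact ⟨χ, hχ, (pow_eq_zero_iff (hd χ hχ).ne').1 h1⟩
    · rintro ⟨χ, hχ, h1⟩
      exact Or.inr ⟨χ, hχ, by rw [h1, zero_pow (hd χ hχ).ne']⟩
  have hRH : (∀ χ ∈ S, RHs (Z χ)) ↔ RHf f := by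
    constructor
    · intro h1 w hw hw2
      rw [abs_lt] at hw2
      have hwh : w ≠ 1 / 2 := by
        rintro rfl
        norm_num at hw2
      obtain ⟨χ, hχ, h3⟩ := (hfz w hwh).1 hw
      have := h1 χ hχ (1 / 2 + w) (by simp; linarith) (by simp; linarith) h3
      simp at this
      linarith
    · intro h1 χ hχ ρ h3 h4 h5
      have hwh : ρ - 1 / 2 ≠ 1 / 2 := by
        intro h5
        have : ρ = 1 := by linear_combination h5
        rw [this] at h4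
        simp at h4
      have := h1 (ρ - 1 / 2) ((hfz _ hwh).2 ⟨χ, hχ, by rw [add_sub_cancel]; exact h5⟩) (by
        rw [abs_lt]
        constructor <;> simp <;> linarith)
      simp at this
      linarith
  have hmu : ∀ z : ℂ, z ≠ 1 / 2 → mu f z = ∑ χ ∈ S, d χ * analyticOrderNatAt (Z χ) (1 / 2 + z) := by
    intro z hz
    refine mu_fam hZ h2 hz ?_
    filter_upwards [isOpen_ne.mem_nhds hz] with y hy using hf y hy
  have hmu0 : mu f 0 = n0 := by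
    rw [hmu 0 (by norm_num), add_zero, hn0]
  have hne1 : ∀ g : ℝ, (1 / 2 + (g:ℂ) * I) ≠ 1 := by
    intro g h1
    apply ne_half g
    linear_combination h1
  let π0 : Gam S Z → Gs f := fun p => ⟨p.1.1.2, p.2.2.1, by
    rw [hfz _ (ne_half _)]
    exact ⟨p.1.1.1, p.2.1, (Z_ord_pos hZ h2 p.2.1 (hne1 _)).1 (by have := p.2.2.2; omega)⟩⟩
  let b0 : Gam S Z → ℝ := fun p => d p.1.1.1 * (2 / (1 + p.1.1.2 ^ 2))
  have hb0 : ∀ p, 0 < b0 p := fun p => by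
    have : (0:ℝ) < d p.1.1.1 := by exact_mod_cast hd _ p.2.1
    positivity
  -- the fibres
  have hfib : ∀ g : Gs f, HasSum (fun i : {i // π0 i = g} => b0 i) (wt f g) := by
    intro g
    set o : X → ℕ := fun χ => analyticOrderNatAt (Z χ) (1 / 2 + (g.1:ℂ) * I) with ho
    let ee : (Σ χ : {χ // χ ∈ S}, Fin (o χ.1)) ≃ {i : Gam S Z // π0 i = g} :=
      { toFun := fun x => ⟨⟨((x.1.1, g.1), x.2.1), x.1.2, g.2.1, x.2.2⟩, by apply Subtype.ext; rfl⟩
        invFun := fun p => ⟨⟨p.1.1.1.1, p.1.2.1⟩, ⟨p.1.1.2, by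
          have h1 : p.1.1.1.2 = g.1 := congrArg Subtype.val p.2
          have h3 := p.1.2.2.2
          rw [h1] at h3
          exact h3⟩⟩
        left_inv := fun x => rfl
        right_inv := fun p => by
          apply Subtype.ext
          apply Subtype.ext
          have h1 : p.1.1.1.2 = g.1 := congrArg Subtype.val p.2
          exact Prod.ext (Prod.ext rfl h1.symm) rfl }
    rw [← ee.hasSum_iff]
    have h1 := hasSum_fintype (fun x : (Σ χ : {χ // χ ∈ S}, Fin (o χ.1)) => ((fun i : {i // π0 i = g} => b0 i) ∘ ee) x)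
    have h3 : ∑ x : (Σ χ : {χ // χ ∈ S}, Fin (o χ.1)), ((fun i : {i // π0 i = g} => b0 i) ∘ ee) x = wt f g := by
      have e1 : ∀ x : (Σ χ : {χ // χ ∈ S}, Fin (o χ.1)), ((fun i : {i // π0 i = g} => b0 i) ∘ ee) x =
          d x.1.1 * (2 / (1 + g.1 ^ 2)) := fun x => rfl
      rw [Finset.sum_congr rfl fun x _ => e1 x]
      have e3 : ∑ x : (Σ χ : {χ // χ ∈ S}, Fin (o χ.1)), (d x.1.1 : ℝ) * (2 / (1 + g.1 ^ 2)) =
          ∑ χ : {χ // χ ∈ S}, (o χ.1 : ℝ) * (d χ.1 * (2 / (1 + g.1 ^ 2))) := by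
        rw [Fintype.sum_sigma (fun x : (Σ χ : {χ // χ ∈ S}, Fin (o χ.1)) => (d x.1.1 : ℝ) * (2 / (1 + g.1 ^ 2)))]
        refine Finset.sum_congr rfl fun χ _ => ?_
        simp
      rw [e3]
      have e2 : wt f g = (mu f ((g.1:ℂ) * I) : ℝ) * (2 / (1 + g.1 ^ 2)) := rfl
      rw [e2, hmu _ (ne_half _)]
      push_cast
      rw [Finset.sum_mul, ← Finset.sum_coe_sort S]
      refine Finset.sum_congr rfl fun χ _ => ?_
      ring
    rw [h3] at h1
    exact h1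
  have hw := wt_summ h
  have hbs0 : Summable b0 := by
    have key : Summable (fun x : (Σ g : Gs f, {i // π0 i = g}) => b0 x.2.1) := by
      rw [summable_sigma_of_nonneg (fun i => (hb0 _).le)]
      exact ⟨fun g => (hfib g).summable, hw.congr fun g => ((hfib g).tsum_eq).symm⟩
    exact (Equiv.sigmaFiberEquiv π0).summable_iff.1 key
  have hbD0 : ∀ u, DD b0 (fun i => (π0 i).1) u = DD (wt f) (fun g : Gs f => g.1) u := by
    intro u
    have hs : Summable fun i => 2 * b0 i * Real.cos ((π0 i).1 * u) := summ_D (γ := fun i => (π0 i).1) hb0 hbs0 u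
    have key : Summable (fun x : (Σ g : Gs f, {i // π0 i = g}) => 2 * b0 x.2.1 * Real.cos ((π0 x.2.1).1 * u)) :=
      (Equiv.sigmaFiberEquiv π0).summable_iff.2 hs
    have e0 : ∑' x : (Σ g : Gs f, {i // π0 i = g}), 2 * b0 x.2.1 * Real.cos ((π0 x.2.1).1 * u) =
        ∑' i, 2 * b0 i * Real.cos ((π0 i).1 * u) :=
      (Equiv.sigmaFiberEquiv π0).tsum_eq (fun i => 2 * b0 i * Real.cos ((π0 i).1 * u))
    unfold DD
    rw [← e0, Summable.tsum_sigma key]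
    refine tsum_congr fun g => ?_
    have h1 := ((hfib g).mul_left 2).mul_right (Real.cos (g.1 * u))
    rw [← h1.tsum_eq]
    refine tsum_congr fun i => ?_
    rw [i.2]
  -- transport to `ι`
  have hbe : b = fun i => b0 (e i) := by
    funext i
    rw [hbd i, hγ i]
    simp only [b0]
    ring
  have hγe : γ = fun i => (π0 (e i)).1 := funext hγ
  have hb : ∀ i, 0 < b i := fun i => by rw [hbe]; exact hb0 _
  have hbs : Summable b := by
    rw [hbe]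
    exact hbs0.comp_injective e.injective
  have hbD : ∀ u, DD b (fun i => (π0 (e i)).1) u = DD (wt f) (fun g : Gs f => g.1) u := by
    intro u
    rw [← hbD0 u, hbe]
    unfold DD
    exact e.tsum_eq (fun p => 2 * b0 p * Real.cos ((π0 p).1 * u))
  have key := crit_mom h (fun i => π0 (e i)) b hb hbs hbD hD
  rw [hmu0, ← hγe, ← hRH] at key
  obtain ⟨c1, c2⟩ := key
  exact ⟨fun k => (DD_pow (γ := fun _ => 0) hb hbs k 0).1, fun k => ⟨VV_nonneg hb k, VV_le hb hbs k⟩, c1,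
    fun N hN c hc => c2 c hc N hN⟩

end fams

end Pool.Agent.U544.LI
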