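import Pool.Agent.U544.LI.Multi

/-!
# The criterion for several scales, II
-/

set_option autoImplicit false

open Complex Filter Topology Metric Finset MeasureTheory Set
open scoped ComplexConjugate Nat

namespace Pool.Agent.U544.LI

variable {f : ℂ → ℂ} {L : ℕ → ℝ} {δ : ℝ} {κ : Type*} [Fintype κ]

/-- the integral relations between the products of a scale and an ordinate -/
def Rlm (Z : ℂ → ℂ) (α : κ → ℝ) : Type _ :=
  {n : κ × Ord Z →₀ ℤ // (n.sum fun p k => (k : ℝ) * (α p.1 * p.2.1)) = 0}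

/-- the weight of a relation -/
noncomputable def wgm (Z : ℂ → ℂ) (lam : ℝ) (n : κ × Ord Z →₀ ℤ) : ℝ :=
  n.prod fun p k => Ik k.natAbs (ar Z lam p.2) / Ik 0 (ar Z lam p.2)

/-- the mean value -/
noncomputable def Mm (D : ℝ → ℝ) (α : κ → ℝ) (lam : ℝ) : ℝ → ℝ :=
  logMean fun x => Real.exp (lam * D x) + Real.exp (lam * ∑ j, D (x ^ α j))

/-- the single scale `1` -/
def one1 : Unit → ℝ := fun _ => 1

/-- **The criterion for several scales.** -/
theorem crit_multi (h : LD f L δ) {Z : ℂ → ℂ} (hZ : ∀ z : ℂ, z ≠ 1 / 2 → f z = (z - 1 / 2) * Z (1 / 2 + z))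
    {lam : ℝ} (hl : 0 < lam) {D : ℝ → ℝ} (hD : ∀ x, 0 < x → D x = Dd L δ (Real.log x)) {V : ℝ}
    (hV : V = Real.exp (2 * lam * analyticOrderNatAt Z (1 / 2)) * ∏' g : Ord Z, Ik 0 (ar Z lam g))
    {α : κ → ℝ} (hα : ∀ j, 0 < α j) :
    (Multipliable fun g : Ord Z => Ik 0 (ar Z lam g)) ∧
    (Summable fun n : Rlm Z α => wgm Z lam n.1) ∧
    (RHs Z ↔ ∃ C, ∀ᶠ X in atTop, Mm D α lam X ≤ C) ∧
    (RHs Z → Tendsto (Mm D α lam) atTop
      (𝓝 (V * ∑' n : Rlm Z one1, wgm Z lam n.1 + V ^ Fintype.card κ * ∑' n : Rlm Z α, wgm Z lam n.1))) ∧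
    (∀ T : Set (Rlm Z α), RHs Z ∧ LinearIndependent ℚ (fun g : Ord Z => g.1) ∧ (∀ n, n ∈ T) ↔
      ∀ ε : ℝ, 0 < ε → ∀ᶠ X in atTop, Mm D α lam X < V + V ^ Fintype.card κ * ∑' n : T, wgm Z lam n.1.1 + ε) ∧
    (∀ (s₀ : Finset (Rlm Z one1)) (s : Finset (Rlm Z α)) (ε : ℝ), 0 < ε → ∃ᶠ X in atTop,
      V * ∑ n ∈ s₀, wgm Z lam n.1 + V ^ Fintype.card κ * ∑ n ∈ s, wgm Z lam n.1 - ε < Mm D α lam X) := by
  classical
  have hfz : ∀ z : ℂ, z ≠ 1 / 2 → (f z = 0 ↔ Z (1 / 2 + z) = 0) := by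
    intro z hz
    rw [hZ z hz, mul_eq_zero]
    constructor
    · rintro (h1 | h1)
      · exact absurd (sub_eq_zero.1 h1) hz
      · exact h1
    · intro h1
      exact Or.inr h1
  have hRH : RHs Z ↔ RHf f := by
    constructor
    · intro h1 w hw hw2
      rw [abs_lt] at hw2
      have hwh : w ≠ 1 / 2 := by
        rintro rfl
        norm_num at hw2
      have := h1 (1 / 2 + w) (by simp; linarith) (by simp; linarith) ((hfz w hwh).1 hw)
      simp at this
      linarith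
    · intro h1 ρ h2 h3 h4
      have hwh : ρ - 1 / 2 ≠ 1 / 2 := by
        intro h5
        have : ρ = 1 := by linear_combination h5
        rw [this] at h3
        simp at h3
      have := h1 (ρ - 1 / 2) ((hfz _ hwh).2 (by rw [add_sub_cancel]; exact h4)) (by
        rw [abs_lt]
        constructor <;> simp <;> linarith)
      simp at this
      linarith
  have hmu0 : mu f 0 = analyticOrderNatAt Z (1 / 2) := by
    rw [ord_eq h hZ (by norm_num), add_zero]
  let π : Ord Z ≃ Gs f :=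
    { toFun := fun g => ⟨g.1, g.2.1, (hfz _ (ne_half _)).2 g.2.2⟩
      invFun := fun g => ⟨g.1, g.2.1, (hfz _ (ne_half _)).1 g.2.2⟩
      left_inv := fun g => rfl
      right_inv := fun g => rfl }
  set b : Ord Z → ℝ := fun g => wt f (π g) with hb
  have hbp : ∀ g, 0 < b g := fun g => wt_pos h _
  have hbs : Summable b := (wt_summ h).comp_injective π.injective
  have hbD : ∀ u, DD b (fun g => (π g).1) u = DD (wt f) (fun g : Gs f => g.1) u := by
    intro u
    unfold DD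
    exact π.tsum_eq (fun g : Gs f => 2 * wt f g * Real.cos (g.1 * u))
  have har : ∀ g, 2 * (lam * b g) = ar Z lam g := by
    intro g
    have e : b g = (mu f ((g.1:ℂ) * I) : ℝ) * (2 / (1 + g.1 ^ 2)) := rfl
    rw [e, ord_eq h hZ (ne_half _)]
    unfold ar
    ring
  have harp : ∀ g, 0 < ar Z lam g := fun g => by
    rw [← har]
    have := hbp g
    positivity
  have hIk : ∀ (k : ℕ) (g : Ord Z), 0 < Ik k (ar Z lam g) := by
    intro k g
    have h1 := Jk_pos (a := ar Z lam g / 2) (by have := harp g; positivity) k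
    rw [Jk_Ik, mul_div_cancel₀ _ two_ne_zero] at h1
    exact h1
  have hwm : ∀ n : κ × Ord Z →₀ ℤ, 0 < wgm Z lam n := fun n =>
    Finset.prod_pos fun p _ => div_pos (hIk _ _) (hIk _ _)
  obtain ⟨c1, c2, c3⟩ := crit h hl (fun g => π g) b hbp hbs hbD
  have hPP := PP_tprod' c3
  simp only [har] at hPP
  have hV' : V = Real.exp (2 * lam * mu f 0) * PP (fun g => lam * b g) := by
    rw [hV, hmu0, hPP.2]
  have hV0 : 0 < V := by
    rw [hV']
    exact mul_pos (Real.exp_pos _) (Real.exp_pos _)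
  have hVk : 0 < V ^ Fintype.card κ := pow_pos hV0 _
  -- the weights
  have hQm : ∀ n : κ × Ord Z →₀ ℤ, QQ (fun p : κ × Ord Z => lam * b p.2) n = wgm Z lam n := by
    intro n
    unfold QQ wgm
    refine Finset.prod_congr rfl fun g _ => ?_
    simp only [qq]
    rw [Jk_Ik, J0_Ik, har]
  obtain ⟨m1, m2⟩ := exact_mean_multi h hl (fun g => π g) b hbp hbs hbD hα
  have hsm : Summable fun n : Rlm Z α => wgm Z lam n.1 := m1.congr fun n => hQm n.1
  have hDc := Dd_cont h
  have hDs := Ds_cont h α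
  have hg1 : Continuous fun u => Real.exp (lam * Dd L δ u) := by fun_prop
  have hg2 : Continuous fun u => Real.exp (lam * Ds L δ α u) := by fun_prop
  have hgc : Continuous fun u => Real.exp (lam * Dd L δ u) + Real.exp (lam * Ds L δ α u) := hg1.add hg2
  have hF : ∀ x : ℝ, 0 < x → Real.exp (lam * D x) + Real.exp (lam * ∑ j, D (x ^ α j)) =
      (fun u => Real.exp (lam * Dd L δ u) + Real.exp (lam * Ds L δ α u)) (Real.log x) := by
    intro x hx
    simp only
    rw [hD x hx]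
    congr 3
    unfold Ds
    refine Finset.sum_congr rfl fun j _ => ?_
    rw [hD _ (Real.rpow_pos_of_pos hx _), Real.log_rpow hx]
  have hMsum : ∀ U, mean (fun u => Real.exp (lam * Dd L δ u) + Real.exp (lam * Ds L δ α u)) U =
      mean (fun u => Real.exp (lam * Dd L δ u)) U + mean (fun u => Real.exp (lam * Ds L δ α u)) U := fun U =>
    mean_add hg1 hg2 U
  -- the first exponential
  have hex1 : RHf f → (Summable fun n : Rlm Z one1 => wgm Z lam n.1) ∧
      Tendsto (mean fun u => Real.exp (lam * Dd L δ u)) atTop (𝓝 (V * ∑' n : Rlm Z one1, wgm Z lam n.1)) := by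
    intro hR
    obtain ⟨h1, h2⟩ := exact_mean_multi h hl (fun g => π g) b hbp hbs hbD (α := one1) (fun _ => one_pos)
    have hQ1 : ∀ n : Unit × Ord Z →₀ ℤ, QQ (fun p : Unit × Ord Z => lam * b p.2) n = wgm Z lam n := by
      intro n
      unfold QQ wgm
      refine Finset.prod_congr rfl fun g _ => ?_
      simp only [qq]
      rw [Jk_Ik, J0_Ik, har]
    have e1 : (∑' n : {n : Unit × Ord Z →₀ ℤ // val (fun p : Unit × Ord Z => one1 p.1 * (π p.2).1) n = 0},
        QQ (fun p : Unit × Ord Z => lam * b p.2) n) = ∑' n : Rlm Z one1, wgm Z lam n.1 := tsum_congr fun n => hQ1 n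
    have e2 : Ds L δ one1 = Dd L δ := by
      funext u
      unfold Ds one1
      simp
    have h3 := h2 hR
    rw [e1, e2, Fintype.card_unit, pow_one, ← hV'] at h3
    exact ⟨h1.congr fun n => hQ1 n, h3⟩
  -- the second exponential
  have hex2 : RHf f → Tendsto (mean fun u => Real.exp (lam * Ds L δ α u)) atTop
      (𝓝 (V ^ Fintype.card κ * ∑' n : Rlm Z α, wgm Z lam n.1)) := by
    intro hR
    have e1 : (∑' n : {n : κ × Ord Z →₀ ℤ // val (fun p : κ × Ord Z => α p.1 * (π p.2).1) n = 0},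
        QQ (fun p : κ × Ord Z => lam * b p.2) n) = ∑' n : Rlm Z α, wgm Z lam n.1 := tsum_congr fun n => hQm n.1
    rw [hV', ← e1]
    exact m2 hR
  have hlim : RHf f → Tendsto (Mm D α lam) atTop
      (𝓝 (V * ∑' n : Rlm Z one1, wgm Z lam n.1 + V ^ Fintype.card κ * ∑' n : Rlm Z α, wgm Z lam n.1)) := by
    intro hR
    refine tend_log hgc hF ?_
    refine ((hex1 hR).2.add (hex2 hR)).congr fun U => (hMsum U).symm
  have hbdd : RHf f ↔ ∃ C, ∀ᶠ X in atTop, Mm D α lam X ≤ C := by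
    constructor
    · intro hR
      exact ⟨_, ((hlim hR).eventually_lt_const (lt_add_one _)).mono fun X hX => hX.le⟩
    · rintro ⟨C, hC⟩
      have h1 := (ev_log hgc hF fun y => y ≤ C).1 hC
      refine rh_of_bdd h hl ⟨C, ?_⟩
      filter_upwards [h1, eventually_gt_atTop 0] with U hU hU0
      have h2 : 0 ≤ mean (fun u => Real.exp (lam * Ds L δ α u)) U := mean_nonneg (fun u => (Real.exp_pos _).le) hU0
      have h3 : mean (fun u => Real.exp (lam * Dd L δ u)) U + mean (fun u => Real.exp (lam * Ds L δ α u)) U ≤ C := by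
        rw [← hMsum]
        exact hU
      linarith
  -- the first limit and linear independence
  have hfirst : RHf f → V ≤ V * ∑' n : Rlm Z one1, wgm Z lam n.1 ∧
      (V * ∑' n : Rlm Z one1, wgm Z lam n.1 = V ↔ LinearIndependent ℚ (fun g : Ord Z => g.1)) := by
    intro hR
    have h1 := c2 _ (hex1 hR).2
    rw [← hV'] at h1
    exact h1
  -- subsets
  have hsT : ∀ T : Set (Rlm Z α), Summable fun n : T => wgm Z lam n.1.1 := fun T => hsm.subtype T
  have hTle : ∀ T : Set (Rlm Z α), ∑' n : T, wgm Z lam n.1.1 ≤ ∑' n : Rlm Z α, wgm Z lam n.1 := fun T =>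
    hsm.tsum_subtype_le (fun n : Rlm Z α => wgm Z lam n.1) T fun n => (hwm _).le
  have hTlt : ∀ T : Set (Rlm Z α), ∀ n₀, n₀ ∉ T →
      ∑' n : T, wgm Z lam n.1.1 < ∑' n : Rlm Z α, wgm Z lam n.1 := by
    intro T n₀ hn₀
    have e : ∑' n : T, wgm Z lam n.1.1 = ∑' n, T.indicator (fun n : Rlm Z α => wgm Z lam n.1) n :=
      tsum_subtype T (fun n : Rlm Z α => wgm Z lam n.1)
    rw [e]
    refine Summable.tsum_lt_tsum (i := n₀) (fun n => ?_) ?_ (hsm.indicator T) hsm
    · exact Set.indicator_le_self' (fun n _ => (hwm _).le) n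
    · rw [Set.indicator_of_notMem hn₀]
      exact hwm _
  refine ⟨hPP.1, hsm, ?_, ?_, fun T => ?_, fun s₀ s ε hε => ?_⟩
  · rw [hRH]; exact hbdd
  · rw [hRH]; exact hlim
  · rw [hRH]
    constructor
    · rintro ⟨hR, hLI, hT⟩ ε hε
      have h1 := hlim hR
      rw [(hfirst hR).2.2 hLI] at h1
      have h2 : ∑' n : T, wgm Z lam n.1.1 = ∑' n : Rlm Z α, wgm Z lam n.1 := by
        have : T = Set.univ := Set.eq_univ_of_forall hT
        rw [this]
        exact tsum_univ (fun n : Rlm Z α => wgm Z lam n.1)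
      rw [h2]
      exact h1.eventually_lt_const (by linarith)
    · intro h1
      have hR : RHf f := hbdd.2 ⟨_, (h1 1 one_pos).mono fun X hX => hX.le⟩
      have h2 := hlim hR
      have h3 : V * ∑' n : Rlm Z one1, wgm Z lam n.1 + V ^ Fintype.card κ * ∑' n : Rlm Z α, wgm Z lam n.1 ≤
          V + V ^ Fintype.card κ * ∑' n : T, wgm Z lam n.1.1 := by
        refine le_of_forall_pos_le_add fun ε hε => ?_
        exact le_of_tendsto h2 ((h1 ε hε).mono fun X hX => hX.le)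
      have h4 := (hfirst hR).1
      have h5 := mul_le_mul_of_nonneg_left (hTle T) hVk.le
      refine ⟨hR, (hfirst hR).2.1 (by linarith), fun n₀ => ?_⟩
      by_contra hn₀
      have h6 := mul_lt_mul_of_pos_left (hTlt T n₀ hn₀) hVk
      linarith
  · by_contra hcon
    rw [Filter.not_frequently] at hcon
    have h1 : ∀ᶠ X in atTop, Mm D α lam X ≤
        V * ∑ n ∈ s₀, wgm Z lam n.1 + V ^ Fintype.card κ * ∑ n ∈ s, wgm Z lam n.1 - ε :=
      hcon.mono fun X hX => not_lt.1 hX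
    have hR := hbdd.2 ⟨_, h1⟩
    have h2 := le_of_tendsto (hlim hR) h1
    have h3 : ∑ n ∈ s₀, wgm Z lam n.1 ≤ ∑' n : Rlm Z one1, wgm Z lam n.1 :=
      by
      refine (hex1 hR).1.sum_le_tsum s₀ fun n _ => ?_
      exact (Finset.prod_pos fun p _ => div_pos (hIk _ _) (hIk _ _)).le
    have h4 : ∑ n ∈ s, wgm Z lam n.1 ≤ ∑' n : Rlm Z α, wgm Z lam n.1 := hsm.sum_le_tsum s fun n _ => (hwm _).le
    have h5 := mul_le_mul_of_nonneg_left h3 hV0.le
    have h6 := mul_le_mul_of_nonneg_left h4 hVk.le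
    linarith

/-- the smallest possible value -/
theorem crit_multi_free (h : LD f L δ) {Z : ℂ → ℂ} (hZ : ∀ z : ℂ, z ≠ 1 / 2 → f z = (z - 1 / 2) * Z (1 / 2 + z))
    {lam : ℝ} (hl : 0 < lam) {D : ℝ → ℝ} (hD : ∀ x, 0 < x → D x = Dd L δ (Real.log x)) {V : ℝ}
    (hV : V = Real.exp (2 * lam * analyticOrderNatAt Z (1 / 2)) * ∏' g : Ord Z, Ik 0 (ar Z lam g))
    {α : κ → ℝ} (hα : ∀ j, 0 < α j) :
    (RHs Z ∧ LinearIndependent ℚ (fun g : Ord Z => g.1) ∧
      ∀ n : κ × Ord Z →₀ ℤ, (n.sum fun p k => (k : ℝ) * (α p.1 * p.2.1)) = 0 → n = 0) ↔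
      ∀ ε : ℝ, 0 < ε → ∀ᶠ X in atTop, Mm D α lam X < V + V ^ Fintype.card κ + ε := by
  obtain ⟨-, -, -, -, c, -⟩ := crit_multi h hZ hl hD hV hα
  have hz : ((0 : κ × Ord Z →₀ ℤ).sum fun p k => (k : ℝ) * (α p.1 * p.2.1)) = 0 := Finsupp.sum_zero_index
  obtain ⟨z₀, hz₀⟩ : ∃ z₀ : Rlm Z α, z₀.1 = 0 := ⟨⟨0, hz⟩, rfl⟩
  have h1 := c {z₀}
  have e1 : ∑' n : ({z₀} : Set (Rlm Z α)), wgm Z lam n.1.1 = 1 := by
    have e2 := tsum_singleton z₀ (fun n : Rlm Z α => wgm Z lam n.1)
    refine e2.trans ?_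
    rw [hz₀]
    exact Finsupp.prod_zero_index
  rw [e1, mul_one] at h1
  rw [← h1]
  refine and_congr_right fun _ => and_congr_right fun _ => ?_
  constructor
  · intro h2 n
    exact Subtype.ext ((h2 n.1 n.2).trans hz₀.symm)
  · intro h2 n hn
    exact (congrArg Subtype.val (h2 ⟨n, hn⟩ : (⟨n, hn⟩ : Rlm Z α) = z₀)).trans hz₀

end Pool.Agent.U544.LI
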