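import Pool.Agent.R362.NearHad

/-!
# Partial fractions of the logarithmic derivative of an entire function of order at most `3/2`

`f'/f(z) - f'/f(0) = ∑ m(w) (1/(z-w) + 1/w)`, the sum over the zeros `w`, with multiplicity `m(w)`; it converges
absolutely. The library is used for the division by zeros (`Pool.Agent.R362.Near.div_set`) and for the theorem of
Borel and Caratheodory (`Pool.Agent.Y275.GL.base1`).
-/

set_option autoImplicit false

open Complex Filter Topology Metric Finset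

namespace Pool.Agent.U544.LI

open Pool.Agent.R362.Near (Gr div_set ord_ne_top ord_zero_of_ne)

/-- the zeros of an entire function in a compact set (from `Pool.Agent.U62.RH.Pos`) -/
lemma zeros_fin {f : ℂ → ℂ} (hd : Differentiable ℂ f) (hne : ∃ z, f z ≠ 0) {K : Set ℂ} (hK : IsCompact K) :
    {z : ℂ | z ∈ K ∧ f z = 0}.Finite := by
  by_contra hinf
  have hinf : {z : ℂ | z ∈ K ∧ f z = 0}.Infinite := hinf
  obtain ⟨x, -, hacc⟩ := hinf.exists_accPt_of_subset_isCompact hK fun z hz => hz.1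
  have hfreq : ∃ᶠ z in 𝓝[≠] x, f z = 0 := by
    rw [accPt_iff_frequently_nhdsNE] at hacc
    exact hacc.mono fun z hz => hz.2
  have hz := AnalyticOnNhd.eqOn_zero_of_preconnected_of_frequently_eq_zero
    (f := f) (U := Set.univ) (fun z _ => hd.analyticAt z) isPreconnected_univ (Set.mem_univ x) hfreq
  obtain ⟨z, hz0⟩ := hne
  exact hz0 (hz (Set.mem_univ z))

/-- the multiplicity -/
noncomputable def mu (f : ℂ → ℂ) (w : ℂ) : ℕ := analyticOrderNatAt f w

lemma mu_zero {f : ℂ → ℂ} (hf : Differentiable ℂ f) {w : ℂ} (h : f w ≠ 0) : mu f w = 0 := ord_zero_of_ne hf h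

lemma mu_pos {f : ℂ → ℂ} (hf : Differentiable ℂ f) (hne : ∃ z, f z ≠ 0) {w : ℂ} (h : f w = 0) : 0 < mu f w := by
  have h1 := ord_ne_top hf hne w
  rw [Nat.pos_iff_ne_zero]
  intro h2
  unfold mu analyticOrderNatAt at h2
  rw [ENat.toNat_eq_zero] at h2
  rcases h2 with h2 | h2
  · exact ((hf.analyticAt w).analyticOrderAt_eq_zero.1 h2) h
  · exact h1 h2

lemma mu_ne_iff {f : ℂ → ℂ} (hf : Differentiable ℂ f) (hne : ∃ z, f z ≠ 0) (w : ℂ) : mu f w ≠ 0 ↔ f w = 0 :=
  ⟨fun h => by by_contra h1; exact h (mu_zero hf h1), fun h => (mu_pos hf hne h).ne'⟩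

/-- the factorisation in a disc -/
theorem factor {f : ℂ → ℂ} (hf : Differentiable ℂ f) (h0 : f 0 ≠ 0) {R : ℝ} (hR : 0 < R) (S : Finset ℂ)
    (hS : ∀ w, w ∈ S ↔ ‖w‖ ≤ R ∧ f w = 0) : ∃ g : ℂ → ℂ, Differentiable ℂ g ∧ g 0 = f 0 ∧
      (∀ z, f z = (∏ w ∈ S, (1 - z / w) ^ mu f w) * g z) ∧ (∀ z, ‖z‖ ≤ R → g z ≠ 0) ∧
      (∀ M, (∀ z, ‖z‖ = 2 * R → ‖f z‖ ≤ M) → ∀ z, ‖z‖ ≤ 2 * R → ‖g z‖ ≤ M) ∧
      (∀ M, (∀ z, ‖z‖ = 3 * R → ‖f z‖ ≤ M) → ‖f 0‖ * 2 ^ (∑ w ∈ S, mu f w) ≤ M) := by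
  classical
  have hne : ∃ z, f z ≠ 0 := ⟨0, h0⟩
  have hw0 : ∀ w ∈ S, w ≠ 0 := by
    rintro w hw rfl
    exact h0 ((hS 0).1 hw).2
  obtain ⟨g1, hg1, heq1, hord⟩ := div_set hf hne S
  obtain ⟨c, hc⟩ : ∃ c : ℂ, c = ∏ w ∈ S, (-w) ^ mu f w := ⟨_, rfl⟩
  have hc0 : c ≠ 0 := by
    rw [hc]
    exact Finset.prod_ne_zero_iff.2 fun w hw => pow_ne_zero _ (neg_ne_zero.2 (hw0 w hw))
  have heq : ∀ z, f z = (∏ w ∈ S, (1 - z / w) ^ mu f w) * (c * g1 z) := by
    intro z
    rw [heq1, ← mul_assoc]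
    congr 1
    rw [hc, ← Finset.prod_mul_distrib]
    refine Finset.prod_congr rfl fun w hw => ?_
    rw [← mul_pow]
    congr 1
    have := hw0 w hw
    field_simp
    ring
  have hgd : Differentiable ℂ (fun z => c * g1 z) := hg1.const_mul c
  -- bound on circles
  have hcirc : ∀ (k : ℝ), 2 ≤ k → ∀ z : ℂ, ‖z‖ = k * R → (k - 1) ^ (∑ w ∈ S, mu f w) * ‖c * g1 z‖ ≤ ‖f z‖ := by
    intro k hk z hz
    rw [heq z, norm_mul (∏ w ∈ S, (1 - z / w) ^ mu f w) (c * g1 z), norm_prod, ← Finset.prod_pow_eq_pow_sum]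
    refine mul_le_mul_of_nonneg_right ?_ (norm_nonneg _)
    refine Finset.prod_le_prod (fun w _ => by have : 0 ≤ k - 1 := by linarith
                                              positivity) fun w hw => ?_
    rw [norm_pow]
    refine pow_le_pow_left₀ (by linarith) ?_ _
    have h1 : ‖w‖ ≤ R := ((hS w).1 hw).1
    have h2 : 0 < ‖w‖ := norm_pos_iff.2 (hw0 w hw)
    have h3 : k ≤ ‖z / w‖ := by
      rw [norm_div, hz, le_div_iff₀ h2]
      exact mul_le_mul_of_nonneg_left h1 (by linarith)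
    have h4 := norm_sub_norm_le (z / w) 1
    rw [norm_one] at h4
    rw [norm_sub_rev]
    linarith
  have hmax : ∀ (ρ M : ℝ), 0 < ρ → (∀ z : ℂ, ‖z‖ = ρ → ‖c * g1 z‖ ≤ M) → ∀ z : ℂ, ‖z‖ ≤ ρ → ‖c * g1 z‖ ≤ M := by
    intro ρ M hρ hM z hz
    refine Complex.norm_le_of_forall_mem_frontier_norm_le (U := ball (0 : ℂ) ρ) isBounded_ball
      hgd.diffContOnCl ?_ ?_
    · intro w hw
      rw [frontier_ball _ hρ.ne'] at hw
      exact hM w (by simpa using hw)
    · rw [closure_ball _ hρ.ne']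
      simpa using hz
  have hg0 : c * g1 0 = f 0 := by
    have := heq 0
    simpa using this.symm
  refine ⟨fun z => c * g1 z, hgd, hg0, heq, ?_, ?_, ?_⟩
  · intro z hz hgz
    have hgz' : c * g1 z = 0 := hgz
    have hfz : f z = 0 := by rw [heq, hgz', mul_zero]
    have hzS : z ∈ S := (hS z).2 ⟨hz, hfz⟩
    have hg1z : g1 z = 0 := by
      rcases mul_eq_zero.1 hgz with h | h
      · exact absurd h hc0
      · exact h
    have hg1ne : ∃ z, g1 z ≠ 0 := ⟨0, fun h => h0 (by rw [heq1, h, mul_zero])⟩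
    have h1 : 0 < mu g1 z := mu_pos hg1 hg1ne hg1z
    have e : f = (fun z => ∏ a ∈ S, (z - a) ^ analyticOrderNatAt f a) * g1 := funext heq1
    have h2 : AnalyticAt ℂ (fun z : ℂ => ∏ a ∈ S, (z - a) ^ analyticOrderNatAt f a) z := by fun_prop
    have h3 : (fun z : ℂ => ∏ a ∈ S, (z - a) ^ analyticOrderNatAt f a) =
        (fun y => (y - z) ^ mu f z) * (fun y => ∏ a ∈ S.erase z, (y - a) ^ analyticOrderNatAt f a) := by
      funext y
      rw [Pi.mul_apply, ← Finset.mul_prod_erase _ _ hzS]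
      rfl
    have h4 : analyticOrderNatAt (fun z : ℂ => ∏ a ∈ S, (z - a) ^ analyticOrderNatAt f a) z = mu f z := by
      have a1 : AnalyticAt ℂ (fun y : ℂ => (y - z) ^ mu f z) z := by fun_prop
      have a2 : AnalyticAt ℂ (fun y : ℂ => ∏ a ∈ S.erase z, (y - a) ^ analyticOrderNatAt f a) z := by fun_prop
      have a3 : analyticOrderAt (fun y : ℂ => (y - z) ^ mu f z) z = mu f z :=
        (a1.analyticOrderAt_eq_natCast).2 ⟨fun _ => 1, analyticAt_const, one_ne_zero, by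
          filter_upwards with y
          simp⟩
      have a4 : (∏ a ∈ S.erase z, (z - a) ^ analyticOrderNatAt f a) ≠ 0 :=
        Finset.prod_ne_zero_iff.2 fun a ha => pow_ne_zero _ (sub_ne_zero.2 (Finset.ne_of_mem_erase ha).symm)
      have a5 : analyticOrderAt (fun y : ℂ => ∏ a ∈ S.erase z, (y - a) ^ analyticOrderNatAt f a) z = 0 :=
        a2.analyticOrderAt_eq_zero.2 a4
      rw [h3]
      unfold analyticOrderNatAt at *
      rw [analyticOrderAt_mul a1 a2, a3, a5, add_zero]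
      rfl
    have h5 : analyticOrderAt (fun z : ℂ => ∏ a ∈ S, (z - a) ^ analyticOrderNatAt f a) z ≠ ⊤ := by
      intro h
      have : analyticOrderNatAt (fun z : ℂ => ∏ a ∈ S, (z - a) ^ analyticOrderNatAt f a) z = 0 := by
        unfold analyticOrderNatAt at h ⊢
        rw [h]
        rfl
      rw [h4] at this
      exact (mu_pos hf hne hfz).ne' this
    have h6 : analyticOrderNatAt f z = analyticOrderNatAt (fun z : ℂ => ∏ a ∈ S, (z - a) ^ analyticOrderNatAt f a) z +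
        analyticOrderNatAt g1 z := by
      conv_lhs => rw [e]
      exact analyticOrderNatAt_mul h2 (hg1.analyticAt z) h5 (ord_ne_top hg1 hg1ne z)
    rw [h4] at h6
    unfold mu at *
    omega
  · intro M hM z hz
    refine hmax (2 * R) M (by positivity) (fun y hy => ?_) z hz
    have := hcirc 2 le_rfl y hy
    norm_num at this
    rw [norm_mul]
    exact this.trans (hM y hy)
  · intro M hM
    have h1 := hmax (3 * R) (M / 2 ^ (∑ w ∈ S, mu f w)) (by positivity) (fun y hy => ?_) 0 (by simp; positivity)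
    · rw [hg0, le_div_iff₀ (by positivity)] at h1
      exact h1
    · have := hcirc 3 (by norm_num) y hy
      rw [le_div_iff₀ (by positivity)]
      have e : (3:ℝ) - 1 = 2 := by norm_num
      rw [e] at this
      rw [mul_comm]
      exact this.trans (hM y hy)

end Pool.Agent.U544.LI
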