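import Pool.Agent.U544.LI.PF
import Pool.Agent.Y275.GL.Had1

/-!
# Partial fractions, II: the count of the zeros and the limit
-/

set_option autoImplicit false

open Complex Filter Topology Metric Finset

namespace Pool.Agent.U544.LI

open Pool.Agent.R362.Near (Gr div_set ord_ne_top ord_zero_of_ne)

lemma pow32 (k : ℕ) : ((4:ℝ) ^ k) ^ (3 / 2 : ℝ) = 8 ^ k := by
  have e : (4:ℝ) ^ k = (2 ^ k) ^ (2:ℝ) := by
    rw [Real.rpow_two, ← pow_mul, mul_comm k 2, pow_mul]; norm_num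
  rw [e, ← Real.rpow_mul (by positivity), show (2:ℝ) * (3 / 2) = (3 : ℕ) by norm_num, Real.rpow_natCast, ← pow_mul,
    mul_comm k 3, pow_mul]
  norm_num

lemma grow4 (k : ℕ) {x : ℝ} (h0 : 0 ≤ x) (hx : x ≤ 3 * 4 ^ k) : (1 + x) ^ (3 / 2 : ℝ) ≤ 8 ^ (k + 1) := by
  rw [← pow32]
  refine Real.rpow_le_rpow (by positivity) ?_ (by norm_num)
  have : (1:ℝ) ≤ 4 ^ k := one_le_pow₀ (by norm_num)
  rw [pow_succ]
  linarith

/-- the zeros of modulus at most `4 ^ k` -/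
noncomputable def ZS {f : ℂ → ℂ} (hf : Differentiable ℂ f) (h0 : f 0 ≠ 0) (k : ℕ) : Finset ℂ :=
  (zeros_fin hf ⟨0, h0⟩ (isCompact_closedBall (0:ℂ) (4 ^ k))).toFinset

lemma mem_ZS {f : ℂ → ℂ} (hf : Differentiable ℂ f) (h0 : f 0 ≠ 0) (k : ℕ) (w : ℂ) :
    w ∈ ZS hf h0 k ↔ ‖w‖ ≤ 4 ^ k ∧ f w = 0 := by
  simp [ZS]

/-- the count -/
lemma count {f : ℂ → ℂ} (hf : Differentiable ℂ f) (h0 : f 0 ≠ 0) {K : ℝ} (hK0 : 0 ≤ K)
    (hK : ∀ z, ‖f z‖ ≤ Real.exp (K * (1 + ‖z‖) ^ (3 / 2 : ℝ))) :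
    ∃ B : ℝ, 0 ≤ B ∧ ∀ k, (∑ w ∈ ZS hf h0 k, (mu f w : ℝ)) ≤ B * 8 ^ (k + 1) := by
  refine ⟨(K + |Real.log ‖f 0‖|) / Real.log 2, by have := Real.log_pos (by norm_num : (1:ℝ) < 2); positivity, fun k => ?_⟩
  obtain ⟨g, -, -, -, -, -, h⟩ := factor hf h0 (R := 4 ^ k) (by positivity) (ZS hf h0 k) (mem_ZS hf h0 k)
  have h1 := h (Real.exp (K * 8 ^ (k + 1))) fun z hz => (hK z).trans
    (Real.exp_le_exp.2 (mul_le_mul_of_nonneg_left (grow4 k (norm_nonneg _) hz.le) hK0))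
  have hp : 0 < ‖f 0‖ := norm_pos_iff.2 h0
  have h2 := Real.log_le_log (by positivity) h1
  rw [Real.log_exp, Real.log_mul hp.ne' (by positivity), Real.log_pow] at h2
  have hl : 0 < Real.log 2 := Real.log_pos (by norm_num)
  have h8 : (1:ℝ) ≤ 8 ^ (k + 1) := one_le_pow₀ (by norm_num)
  rw [← Nat.cast_sum, div_mul_eq_mul_div, le_div_iff₀ hl]
  have h3 := neg_abs_le (Real.log ‖f 0‖)
  have h4 : |Real.log ‖f 0‖| ≤ |Real.log ‖f 0‖| * 8 ^ (k + 1) := le_mul_of_one_le_right (abs_nonneg _) h8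
  nlinarith

/-- dyadic weights -/
lemma dy {x : ℝ} {n : ℕ} (hn : x ≤ 4 ^ n) :
    1 / (1 + x ^ 2) ≤ 16 * ∑ k ∈ range (n + 1), (1 / 16 : ℝ) ^ k * (if x ≤ 4 ^ k then 1 else 0) := by
  have hex : ∃ k : ℕ, x ≤ 4 ^ k := ⟨n, hn⟩
  classical
  set k0 := Nat.find hex with hk0
  have h1 : x ≤ 4 ^ k0 := Nat.find_spec hex
  have h2 : k0 ≤ n := Nat.find_min' hex hn
  have h3 : (1 / 16 : ℝ) ^ k0 ≤ ∑ k ∈ range (n + 1), (1 / 16 : ℝ) ^ k * (if x ≤ 4 ^ k then 1 else 0) := by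
    have := Finset.single_le_sum (f := fun k : ℕ => (1 / 16 : ℝ) ^ k * (if x ≤ 4 ^ k then 1 else 0))
      (fun k _ => by split_ifs <;> positivity) (mem_range.2 (Nat.lt_succ_of_le h2))
    simpa [h1] using this
  refine le_trans ?_ (mul_le_mul_of_nonneg_left h3 (by norm_num))
  rw [div_le_iff₀ (by positivity)]
  rcases Nat.eq_zero_or_pos k0 with h | h
  · rw [h]
    nlinarith
  · have h4 : ¬ x ≤ 4 ^ (k0 - 1) := Nat.find_min hex (by omega)
    push Not at h4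
    obtain ⟨j, hj⟩ : ∃ j, k0 = j + 1 := ⟨k0 - 1, by omega⟩
    rw [hj] at h4 ⊢
    simp only [Nat.add_sub_cancel] at h4
    have h5 : (16:ℝ) ^ j ≤ x ^ 2 := by
      have e : (16:ℝ) ^ j = (4 ^ j) ^ 2 := by rw [← pow_mul, mul_comm j 2, pow_mul]; norm_num
      rw [e]
      exact pow_le_pow_left₀ (by positivity) h4.le 2
    have h6 : (16:ℝ) * (1 / 16) ^ (j + 1) * 16 ^ j = 1 := by
      rw [pow_succ]
      have : (1 / 16 : ℝ) ^ j * 16 ^ j = 1 := by rw [← mul_pow]; norm_num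
      linear_combination this
    nlinarith [show (0:ℝ) < (1 / 16) ^ (j + 1) by positivity]

/-- the weights are summable -/
theorem summ_w {f : ℂ → ℂ} (hf : Differentiable ℂ f) (h0 : f 0 ≠ 0) {K : ℝ} (hK0 : 0 ≤ K)
    (hK : ∀ z, ‖f z‖ ≤ Real.exp (K * (1 + ‖z‖) ^ (3 / 2 : ℝ))) :
    Summable fun w : {w : ℂ // f w = 0} => (mu f w : ℝ) / (1 + ‖(w:ℂ)‖ ^ 2) := by
  classical
  obtain ⟨B, hB, hc⟩ := count hf h0 hK0 hK
  refine summable_of_sum_le (c := 16 * (B * 16)) (fun w => by positivity) fun s => ?_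
  obtain ⟨n, hn⟩ : ∃ n : ℕ, ∀ w ∈ s, ‖(w:ℂ)‖ ≤ 4 ^ n := by
    have : ∀ w ∈ s, ∀ᶠ n : ℕ in atTop, ‖(w:ℂ)‖ ≤ 4 ^ n := fun w _ =>
      (tendsto_pow_atTop_atTop_of_one_lt (by norm_num : (1:ℝ) < 4)).eventually_ge_atTop _
    exact (((Finset.eventually_all s).2 this)).exists
  calc ∑ w ∈ s, (mu f w : ℝ) / (1 + ‖(w:ℂ)‖ ^ 2)
      ≤ ∑ w ∈ s, (mu f w : ℝ) * (16 * ∑ k ∈ range (n + 1), (1 / 16 : ℝ) ^ k * (if ‖(w:ℂ)‖ ≤ 4 ^ k then 1 else 0)) := by
        refine Finset.sum_le_sum fun w hw => ?_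
        rw [div_eq_mul_one_div]
        exact mul_le_mul_of_nonneg_left (dy (hn w hw)) (by positivity)
    _ = 16 * ∑ k ∈ range (n + 1), (1 / 16 : ℝ) ^ k * ∑ w ∈ s, (mu f w : ℝ) * (if ‖(w:ℂ)‖ ≤ 4 ^ k then 1 else 0) := by
        simp_rw [Finset.mul_sum]
        rw [Finset.sum_comm]
        refine Finset.sum_congr rfl fun k _ => Finset.sum_congr rfl fun w _ => by ring
    _ ≤ 16 * ∑ k ∈ range (n + 1), (1 / 16 : ℝ) ^ k * (B * 8 ^ (k + 1)) := by
        refine mul_le_mul_of_nonneg_left (Finset.sum_le_sum fun k _ => ?_) (by norm_num)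
        refine mul_le_mul_of_nonneg_left ?_ (by positivity)
        refine le_trans ?_ (hc k)
        have e : ∑ w ∈ s, (mu f w : ℝ) * (if ‖(w:ℂ)‖ ≤ 4 ^ k then 1 else 0) =
            ∑ w ∈ (s.filter (fun w : {w : ℂ // f w = 0} => ‖(w:ℂ)‖ ≤ 4 ^ k)).map (Function.Embedding.subtype _),
              (mu f w : ℝ) := by
          rw [Finset.sum_map, Finset.sum_filter]
          refine Finset.sum_congr rfl fun w _ => ?_
          split_ifs <;> simp
        rw [e]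
        refine Finset.sum_le_sum_of_subset_of_nonneg ?_ fun _ _ _ => by positivity
        intro w hw
        simp only [Finset.mem_map, Finset.mem_filter, Function.Embedding.subtype_apply] at hw
        obtain ⟨v, ⟨_, hv⟩, rfl⟩ := hw
        exact (mem_ZS hf h0 k _).2 ⟨hv, v.2⟩
    _ ≤ 16 * (B * 16) := by
        refine mul_le_mul_of_nonneg_left ?_ (by norm_num)
        have e : ∀ k : ℕ, (1 / 16 : ℝ) ^ k * (B * 8 ^ (k + 1)) = B * 8 * (1 / 2) ^ k := by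
          intro k
          have : (1 / 16 : ℝ) ^ k * 8 ^ k = (1 / 2) ^ k := by rw [← mul_pow]; norm_num
          rw [pow_succ]
          linear_combination (B * 8) * this
        rw [Finset.sum_congr rfl fun k _ => e k, ← Finset.mul_sum]
        have h2 : ∑ k ∈ range (n + 1), (1 / 2 : ℝ) ^ k ≤ 2 := by
          have := Summable.sum_le_tsum (range (n + 1)) (fun k _ => by positivity) summable_geometric_two
          rw [tsum_geometric_two] at this
          exact this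
        nlinarith

/-- the weights of the differences -/
lemma summ_d {f : ℂ → ℂ} (hf : Differentiable ℂ f) (h0 : f 0 ≠ 0) {K : ℝ} (hK0 : 0 ≤ K)
    (hK : ∀ z, ‖f z‖ ≤ Real.exp (K * (1 + ‖z‖) ^ (3 / 2 : ℝ))) (z : ℂ) :
    Summable fun w : {w : ℂ // f w = 0} => (mu f w : ℂ) * (1 / (z - w) + 1 / w) := by
  refine Summable.of_norm_bounded_eventually ((summ_w hf h0 hK0 hK).mul_left (4 * ‖z‖)) ?_
  have hfin : {w : {w : ℂ // f w = 0} | ‖(w:ℂ)‖ ≤ 2 * ‖z‖ + 1}.Finite := by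
    have := zeros_fin hf ⟨0, h0⟩ (isCompact_closedBall (0:ℂ) (2 * ‖z‖ + 1))
    refine Set.Finite.of_finite_image (f := fun w : {w : ℂ // f w = 0} => (w:ℂ)) (this.subset ?_)
      (Subtype.val_injective.injOn)
    rintro _ ⟨w, hw, rfl⟩
    exact ⟨by simpa using hw, w.2⟩
  filter_upwards [hfin.compl_mem_cofinite] with w hw
  simp only [Set.mem_compl_iff, Set.mem_ofPred_eq, not_le] at hw
  have hz := norm_nonneg z
  have h1 : 0 < ‖(w:ℂ)‖ := by linarith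
  have h2 : ‖(w:ℂ)‖ / 2 ≤ ‖z - w‖ := by
    have := norm_sub_norm_le (w:ℂ) z
    rw [norm_sub_rev] at this
    linarith
  have hw0 : (w:ℂ) ≠ 0 := norm_pos_iff.1 h1
  have hzw : z - w ≠ 0 := norm_pos_iff.1 (by linarith)
  have e : (1:ℂ) / (z - w) + 1 / w = z / ((z - w) * w) := by field_simp; ring
  rw [e, norm_mul, norm_div, norm_mul, Complex.norm_natCast]
  have h3 : ‖z‖ / (‖z - w‖ * ‖(w:ℂ)‖) ≤ 4 * ‖z‖ / (1 + ‖(w:ℂ)‖ ^ 2) := by
    rw [div_le_div_iff₀ (by positivity) (by positivity)]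
    have : 1 + ‖(w:ℂ)‖ ^ 2 ≤ 4 * (‖z - w‖ * ‖(w:ℂ)‖) := by nlinarith
    nlinarith
  calc (mu f w : ℝ) * (‖z‖ / (‖z - w‖ * ‖(w:ℂ)‖)) ≤ (mu f w : ℝ) * (4 * ‖z‖ / (1 + ‖(w:ℂ)‖ ^ 2)) :=
        mul_le_mul_of_nonneg_left h3 (by positivity)
    _ = 4 * ‖z‖ * ((mu f w : ℝ) / (1 + ‖(w:ℂ)‖ ^ 2)) := by ring

lemma logDeriv_factor {f g : ℂ → ℂ} (hg : Differentiable ℂ g) (S : Finset ℂ) (hw0 : ∀ w ∈ S, w ≠ 0)
    (m : ℂ → ℕ) (heq : ∀ z, f z = (∏ w ∈ S, (1 - z / w) ^ m w) * g z) {z : ℂ} (hfz : f z ≠ 0) :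
    logDeriv f z = (∑ w ∈ S, (m w : ℂ) * (1 / (z - w))) + logDeriv g z := by
  have hgz : g z ≠ 0 := fun h => hfz (by rw [heq, h, mul_zero])
  have hpz : (∏ w ∈ S, (1 - z / w) ^ m w) ≠ 0 := fun h => hfz (by rw [heq, h, zero_mul])
  have e : f = fun z => (∏ w ∈ S, (1 - z / w) ^ m w) * g z := funext heq
  rw [e, logDeriv_mul z hpz hgz (by fun_prop) (hg z)]
  congr 1
  have hp := Finset.prod_ne_zero_iff.1 hpz
  rw [show (fun z : ℂ => ∏ w ∈ S, (1 - z / w) ^ m w) = fun z => ∏ w ∈ S, (fun w z => (1 - z / w) ^ m w) w z from rfl,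
    logDeriv_prod (s := S) (f := fun w z => (1 - z / w) ^ m w) (x := z) (fun w hw => hp w hw) (fun w _ => by fun_prop)]
  refine Finset.sum_congr rfl fun w hw => ?_
  rw [logDeriv_fun_pow (f := fun y : ℂ => 1 - y / w) (by fun_prop)]
  rcases Nat.eq_zero_or_pos (m w) with h | h
  · simp [h]
  have hne : 1 - z / w ≠ 0 := by
    intro h1
    have := hp w hw
    rw [h1, zero_pow h.ne'] at this
    exact this rfl
  have hw' := hw0 w hw
  have hzw : z - w ≠ 0 := by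
    intro h1
    apply hne
    rw [sub_eq_zero.1 h1, div_self hw', sub_self]
  congr 1
  rw [logDeriv_apply]
  have hd : deriv (fun y : ℂ => 1 - y / w) z = -(1 / w) := by
    have : HasDerivAt (fun y : ℂ => 1 - y / w) (-(1 / w)) z := by
      simpa using ((hasDerivAt_id z).div_const w).const_sub 1
    exact this.deriv
  rw [hd]
  have hwz : w - z ≠ 0 := by rw [← neg_sub]; exact neg_ne_zero.2 hzw
  field_simp
  ring

lemma logDeriv_entire {g : ℂ → ℂ} (hg : Differentiable ℂ g) {R M : ℝ} (hR : 0 < R)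
    (hnz : ∀ z, ‖z‖ ≤ R → g z ≠ 0) (hb : ∀ z, ‖z‖ ≤ R → ‖g z‖ ≤ Real.exp M) {z : ℂ} (hz : ‖z‖ + 1 < R / 2)
    (hs : 16 * (M - Real.log ‖g 0‖) * ((‖z‖ + 1) / R) ^ 2 ≤ 1 / 4) :
    ‖logDeriv g z - logDeriv g 0‖ ≤ 4 * (16 * (M - Real.log ‖g 0‖) * ((‖z‖ + 1) / R) ^ 2) := by
  obtain ⟨hM, E, hE⟩ := Pool.Agent.Y275.GL.base1 hg hR
    (fun u hu => hnz u (by simpa using (mem_ball_zero_iff.1 hu).le))
    (fun u hu => hb u (by simpa using (mem_ball_zero_iff.1 hu).le))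
  set c := deriv g 0 / g 0 with hc
  set ε := 16 * (M - Real.log ‖g 0‖) * ((‖z‖ + 1) / R) ^ 2 with hε
  have hε0 : 0 ≤ ε := by positivity
  have g0 : g 0 ≠ 0 := hnz 0 (by simpa using hR.le)
  set h : ℂ → ℂ := fun y => g y * cexp (-(c * y)) / g 0 with hh
  have hhd : Differentiable ℂ h := by
    intro y
    have := hg y
    fun_prop
  have h1 : ∀ y : ℂ, ‖y‖ ≤ ‖z‖ + 1 → ‖h y - 1‖ ≤ 2 * ε := by
    intro y hy
    obtain ⟨e1, e2⟩ := hE y (by linarith)
    have e3 : h y = cexp (E y) := by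
      simp only [hh]
      rw [e1, Complex.exp_add, Complex.exp_neg]
      field_simp [Complex.exp_ne_zero]
    have e4 : ‖E y‖ ≤ ε := by
      refine e2.trans ?_
      refine mul_le_mul_of_nonneg_left ?_ (by positivity)
      exact pow_le_pow_left₀ (by positivity) (by gcongr) 2
    rw [e3]
    refine (Complex.norm_exp_sub_one_le (by linarith)).trans ?_
    linarith
  have h2 : ‖deriv h z‖ ≤ 2 * ε := by
    have e1 : deriv h z = deriv (fun y => h y - 1) z := by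
      rw [deriv_sub_const]
    rw [e1]
    have := Complex.norm_deriv_le_of_forall_mem_sphere_norm_le (f := fun y => h y - 1) (c := z) (R := 1) (C := 2 * ε)
      one_pos (by
        have : Differentiable ℂ fun y => h y - 1 := hhd.sub_const 1
        exact this.diffContOnCl) (fun y hy => h1 y (by
          rw [mem_sphere_iff_norm] at hy
          have := norm_le_norm_add_norm_sub' y z
          rw [hy] at this
          linarith))
    simpa using this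
  have h3 : 1 / 2 ≤ ‖h z‖ := by
    have e1 := h1 z (by linarith)
    have e2 := norm_sub_norm_le (1:ℂ) (1 - h z)
    rw [sub_sub_cancel, norm_one, norm_sub_rev] at e2
    linarith
  have hgz : g z ≠ 0 := hnz z (by linarith)
  have h4 : logDeriv h z = logDeriv g z - c := by
    have e : h = fun y => (g y * cexp (-(c * y))) * (g 0)⁻¹ := by
      funext y; simp only [hh]; rw [div_eq_mul_inv]
    rw [e, logDeriv_mul_const (f := fun y => g y * cexp (-(c * y))) (a := (g 0)⁻¹) z (inv_ne_zero g0),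
      logDeriv_mul (f := g) (g := fun y => cexp (-(c * y))) z hgz (Complex.exp_ne_zero _) (hg z) (by fun_prop)]
    rw [logDeriv_apply (f := fun y => cexp (-(c * y)))]
    have hd : HasDerivAt (fun y : ℂ => cexp (-(c * y))) (cexp (-(c * z)) * (-(c * 1))) z :=
      (((hasDerivAt_id z).const_mul c).neg).cexp
    rw [hd.deriv]
    have := Complex.exp_ne_zero (-(c * z))
    field_simp
    ring
  have h5 : logDeriv g z - logDeriv g 0 = logDeriv h z := by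
    rw [h4]; rfl
  rw [h5, logDeriv_apply, norm_div, div_le_iff₀ (by linarith)]
  nlinarith

/-- **partial fractions** -/
theorem pfrac {f : ℂ → ℂ} (hf : Differentiable ℂ f) (h0 : f 0 ≠ 0) {K : ℝ} (hK0 : 0 ≤ K)
    (hK : ∀ z, ‖f z‖ ≤ Real.exp (K * (1 + ‖z‖) ^ (3 / 2 : ℝ))) {z : ℂ} (hz : f z ≠ 0) :
    HasSum (fun w : {w : ℂ // f w = 0} => (mu f w : ℂ) * (1 / (z - w) + 1 / w)) (logDeriv f z - logDeriv f 0) := by
  classical
  have hs := summ_d hf h0 hK0 hK z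
  have hp : 0 < ‖f 0‖ := norm_pos_iff.2 h0
  -- the finite sets
  let T : ℕ → Finset {w : ℂ // f w = 0} := fun k => (ZS hf h0 k).subtype fun w => f w = 0
  have hT : Tendsto T atTop atTop := by
    refine tendsto_atTop_finset_of_monotone ?_ ?_
    · intro i j hij w hw
      simp only [T, Finset.mem_subtype, mem_ZS] at hw ⊢
      exact ⟨hw.1.trans (pow_le_pow_right₀ (by norm_num) hij), hw.2⟩
    · intro w
      obtain ⟨n, hn⟩ := ((tendsto_pow_atTop_atTop_of_one_lt (by norm_num : (1:ℝ) < 4)).eventually_ge_atTop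
        ‖(w:ℂ)‖).exists
      exact ⟨n, by simp only [T, Finset.mem_subtype, mem_ZS]; exact ⟨hn, w.2⟩⟩
  have hlim := hs.hasSum.comp hT
  have hsum : ∀ k, ∑ w ∈ T k, (mu f w : ℂ) * (1 / (z - w) + 1 / w) =
      ∑ w ∈ ZS hf h0 k, (mu f w : ℂ) * (1 / (z - w) + 1 / w) := by
    intro k
    rw [← Finset.sum_subtype_of_mem (p := fun w => f w = 0)
      (fun w : ℂ => (mu f w : ℂ) * (1 / (z - w) + 1 / w)) (s := ZS hf h0 k)
      (fun w hw => ((mem_ZS hf h0 k w).1 hw).2)]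
  set C0 := |Real.log ‖f 0‖| with hC0
  have hC0' : 0 ≤ C0 := abs_nonneg _
  set q : ℕ → ℝ := fun k => 4 * (16 * (K + C0) * 64 * (‖z‖ + 1) ^ 2) * (1 / 2) ^ k with hq
  have hq0 : Tendsto q atTop (𝓝 0) := by
    have := (tendsto_pow_atTop_nhds_zero_of_lt_one (by norm_num : (0:ℝ) ≤ 1 / 2) (by norm_num)).const_mul
      (4 * (16 * (K + C0) * 64 * (‖z‖ + 1) ^ 2))
    simpa [hq] using this
  have hmain : ∀ᶠ k in atTop, ‖∑ w ∈ ZS hf h0 k, (mu f w : ℂ) * (1 / (z - w) + 1 / w) -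
      (logDeriv f z - logDeriv f 0)‖ ≤ q k := by
    have ev1 : ∀ᶠ k : ℕ in atTop, 2 * (‖z‖ + 1) + 1 ≤ 4 ^ k :=
      (tendsto_pow_atTop_atTop_of_one_lt (by norm_num : (1:ℝ) < 4)).eventually_ge_atTop _
    have ev2 : ∀ᶠ k in atTop, q k < 1 := hq0.eventually_lt_const one_pos
    filter_upwards [ev1, ev2] with k hk1 hk2
    obtain ⟨g, hg, hg0, heq, hnz, hM, -⟩ := factor hf h0 (R := 4 ^ k) (by positivity) (ZS hf h0 k) (mem_ZS hf h0 k)
    have hb : ∀ y, ‖y‖ ≤ (4:ℝ) ^ k → ‖g y‖ ≤ Real.exp (K * 8 ^ (k + 1)) := by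
      intro y hy
      refine hM _ (fun y hy => (hK y).trans (Real.exp_le_exp.2 (mul_le_mul_of_nonneg_left
        (grow4 k (norm_nonneg _) ?_) hK0))) y (hy.trans (by linarith [show (0:ℝ) < 4 ^ k by positivity]))
      rw [hy]
      linarith [show (0:ℝ) < 4 ^ k by positivity]
    have h8 : (1:ℝ) ≤ 8 ^ (k + 1) := one_le_pow₀ (by norm_num)
    have hε : 16 * (K * 8 ^ (k + 1) - Real.log ‖g 0‖) * ((‖z‖ + 1) / 4 ^ k) ^ 2 ≤ q k / 4 := by
      rw [hg0]
      have e1 : K * 8 ^ (k + 1) - Real.log ‖f 0‖ ≤ (K + C0) * 8 ^ (k + 1) := by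
        have := neg_abs_le (Real.log ‖f 0‖)
        have h9 : C0 ≤ C0 * 8 ^ (k + 1) := le_mul_of_one_le_right hC0' h8
        rw [← hC0] at this
        nlinarith
      calc 16 * (K * 8 ^ (k + 1) - Real.log ‖f 0‖) * ((‖z‖ + 1) / 4 ^ k) ^ 2
          ≤ 16 * ((K + C0) * 8 ^ (k + 1)) * ((‖z‖ + 1) / 4 ^ k) ^ 2 := by
            refine mul_le_mul_of_nonneg_right ?_ (by positivity)
            linarith
        _ = 16 * (K + C0) * 8 * (‖z‖ + 1) ^ 2 * (8 ^ k / (4 ^ k) ^ 2) := by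
            rw [div_pow, pow_succ]; field_simp
        _ = 16 * (K + C0) * 8 * (‖z‖ + 1) ^ 2 * (1 / 2) ^ k := by
            congr 1
            rw [← pow_mul, mul_comm k 2, pow_mul, ← div_pow]
            norm_num
        _ ≤ q k / 4 := by
            simp only [hq]
            have : 0 ≤ (K + C0) * (‖z‖ + 1) ^ 2 * (1 / 2) ^ k := by positivity
            linarith
    have hld := logDeriv_entire hg (R := 4 ^ k) (M := K * 8 ^ (k + 1)) (by positivity) hnz hb (z := z)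
      (by linarith) (by linarith)
    have hw0 : ∀ w ∈ ZS hf h0 k, w ≠ 0 := by
      rintro w hw rfl
      exact h0 ((mem_ZS hf h0 k 0).1 hw).2
    have l1 := logDeriv_factor hg (ZS hf h0 k) hw0 (mu f) heq hz
    have l2 := logDeriv_factor hg (ZS hf h0 k) hw0 (mu f) heq h0
    have e : ∑ w ∈ ZS hf h0 k, (mu f w : ℂ) * (1 / (z - w) + 1 / w) - (logDeriv f z - logDeriv f 0) =
        -(logDeriv g z - logDeriv g 0) := by
      rw [l1, l2]
      have : ∑ w ∈ ZS hf h0 k, (mu f w : ℂ) * (1 / (z - w) + 1 / w) =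
          ∑ w ∈ ZS hf h0 k, (mu f w : ℂ) * (1 / (z - w)) - ∑ w ∈ ZS hf h0 k, (mu f w : ℂ) * (1 / (0 - w)) := by
        rw [← Finset.sum_sub_distrib]
        refine Finset.sum_congr rfl fun w _ => ?_
        rw [zero_sub, div_neg]
        ring
      rw [this]
      ring
    rw [e, norm_neg]
    linarith
  have hlim2 : Tendsto (fun k => ∑ w ∈ T k, (mu f w : ℂ) * (1 / (z - w) + 1 / w)) atTop
      (𝓝 (logDeriv f z - logDeriv f 0)) := by
    simp_rw [hsum]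
    rw [tendsto_iff_norm_sub_tendsto_zero]
    exact squeeze_zero' (Eventually.of_forall fun _ => norm_nonneg _) hmain hq0
  have := tendsto_nhds_unique hlim hlim2
  rw [← this]
  exact hs.hasSum

end Pool.Agent.U544.LI
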