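import Pool.Agent.U544.LI.Inf

/-!
# The mean value of the exponential as a sum over all relations
-/

set_option autoImplicit false

open Filter Topology MeasureTheory Finset
open scoped Nat

namespace Pool.Agent.U544.LI

variable {ι : Type*} {a γ : ι → ℝ}

/-- `I_k(2 a)` -/
noncomputable def Jk (k : ℕ) (a : ℝ) : ℝ := ∑' n : ℕ, a ^ n / (n)! * (a ^ (n + k) / (n + k)!)

/-- `I_k(2 a) / I_0(2 a)` -/
noncomputable def qq (a : ℝ) (k : ℤ) : ℝ := Jk k.natAbs a / J0 a

/-- the weight of an integral combination -/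
noncomputable def QQ (a : ι → ℝ) (n : ι →₀ ℤ) : ℝ := n.prod fun i k => qq (a i) k

/-- the value of an integral combination -/
noncomputable def val (γ : ι → ℝ) (n : ι →₀ ℤ) : ℝ := n.sum fun i k => (k : ℝ) * γ i

/-- a change of variables -/
def eq1 : ℤ × ℕ ≃ ℕ × ℕ where
  toFun x := (x.2 + (-x.1).toNat, x.2 + x.1.toNat)
  invFun p := ((p.2 : ℤ) - p.1, min p.1 p.2)
  left_inv := by
    rintro ⟨k, n⟩
    simp only [Prod.mk.injEq]
    constructor
    · push_cast
      omega
    · omega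
  right_inv := by
    rintro ⟨m, n⟩
    simp only [Prod.mk.injEq]
    constructor <;> omega

lemma w_eq1 (a : ℝ) (k : ℤ) (n : ℕ) : w a (eq1 (k, n)) = a ^ n / (n)! * (a ^ (n + k.natAbs) / (n + k.natAbs)!) := by
  show a ^ (n + (-k).toNat) / (n + (-k).toNat)! * (a ^ (n + k.toNat) / (n + k.toNat)!) = _
  rcases le_total 0 k with h | h
  · have h1 : (-k).toNat = 0 := by omega
    have h2 : k.toNat = k.natAbs := by omega
    rw [h1, h2, Nat.add_zero]
  · have h1 : (-k).toNat = k.natAbs := by omega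
    have h2 : k.toNat = 0 := by omega
    rw [h1, h2, Nat.add_zero, mul_comm]

lemma sub_eq1 (k : ℤ) (n : ℕ) : ((eq1 (k, n)).1 : ℝ) - ((eq1 (k, n)).2 : ℝ) = -k := by
  show (((n + (-k).toNat : ℕ)) : ℝ) - (((n + k.toNat : ℕ)) : ℝ) = -k
  have h1 : ((n + (-k).toNat : ℕ) : ℤ) - ((n + k.toNat : ℕ) : ℤ) = -k := by omega
  exact_mod_cast h1

lemma summ_Jk (k : ℕ) (a : ℝ) : Summable fun n : ℕ => a ^ n / (n)! * (a ^ (n + k) / (n + k)!) := by
  have h := (summable_w a).comp_injective (i := fun n : ℕ => (n, n + k)) (fun m n h => (Prod.mk.inj h).1)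
  exact h

lemma Jk_zero (a : ℝ) : Jk 0 a = J0 a := by
  unfold Jk J0
  refine tsum_congr fun n => ?_
  rw [Nat.add_zero]
  ring

lemma J0_pos (a : ℝ) : 0 < J0 a := lt_of_lt_of_le one_pos (one_le_J0 a)

lemma Jk_pos {a : ℝ} (ha : 0 < a) (k : ℕ) : 0 < Jk k a := by
  unfold Jk
  refine (summ_Jk k a).tsum_pos (fun n => by positivity) 0 (by positivity)

lemma qq_zero (a : ℝ) : qq a 0 = 1 := by
  unfold qq
  rw [Int.natAbs_zero, Jk_zero, div_self (J0_pos a).ne']

lemma qq_pos {a : ℝ} (ha : 0 < a) (k : ℤ) : 0 < qq a k := div_pos (Jk_pos ha _) (J0_pos a)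

lemma QQ_pos (ha : ∀ i, 0 < a i) (n : ι →₀ ℤ) : 0 < QQ a n :=
  Finset.prod_pos fun i _ => qq_pos (ha i) _

lemma QQ_zero : QQ a (0 : ι →₀ ℤ) = 1 := by simp [QQ]

lemma QQ_neg (n : ι →₀ ℤ) : QQ a (-n) = QQ a n := by
  unfold QQ Finsupp.prod
  rw [Finsupp.support_neg]
  refine Finset.prod_congr rfl fun i _ => ?_
  simp only [Finsupp.coe_neg, Pi.neg_apply, qq, Int.natAbs_neg]

lemma val_neg (n : ι →₀ ℤ) : val γ (-n) = -val γ n := by
  unfold val Finsupp.sum
  rw [Finsupp.support_neg, ← Finset.sum_neg_distrib]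
  refine Finset.sum_congr rfl fun i _ => ?_
  simp

lemma hs_k {a : ℝ} {C : ℝ → ℝ} {B : ℝ} (hC : ∀ ω, |C ω| ≤ B) (ω γ : ℝ) :
    HasSum (fun k : ℤ => Jk k.natAbs a * C (ω - k * γ)) (∑' p : ℕ × ℕ, w a p * C (ω + ((p.1 : ℝ) - p.2) * γ)) := by
  have h1 : Summable fun p : ℕ × ℕ => w a p * C (ω + ((p.1 : ℝ) - p.2) * γ) := summ_step hC _
  have h2 := eq1.hasSum_iff.2 h1.hasSum
  refine h2.prod_fiberwise fun k => ?_
  have h3 := (summ_Jk k.natAbs a).hasSum.mul_right (C (ω - k * γ))
  refine h3.congr_fun fun n => ?_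
  rw [Function.comp_apply, w_eq1, sub_eq1]
  congr 2
  ring

lemma sum_erase (i : ι) (n : ι →₀ ℤ) : (n i : ℝ) * γ i + val γ (n.erase i) = val γ n :=
  Finsupp.add_sum_erase' n i (fun i (k : ℤ) => (k : ℝ) * γ i) (fun i => by simp)

lemma prod_erase (i : ι) (n : ι →₀ ℤ) : qq (a i) (n i) * QQ a (n.erase i) = QQ a n :=
  Finsupp.mul_prod_erase' n i (fun i (k : ℤ) => qq (a i) k) (fun i => qq_zero _)

open Classical in
/-- the terms with support in `F` and value `ω` -/
noncomputable def TT (a γ : ι → ℝ) (F : Finset ι) (ω : ℝ) (n : ι →₀ ℤ) : ℝ :=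
  if n.support ⊆ F ∧ val γ n = ω then QQ a n else 0

lemma TT_nn (ha : ∀ i, 0 < a i) (F : Finset ι) (ω : ℝ) (n : ι →₀ ℤ) : 0 ≤ TT a γ F ω n := by
  unfold TT
  split_ifs
  · exact (QQ_pos ha n).le
  · exact le_rfl

lemma TT_step [DecidableEq ι] {F : Finset ι} {i : ι} (ω : ℝ) (n : ι →₀ ℤ) :
    TT a γ (insert i F) ω n = qq (a i) (n i) * TT a γ F (ω - n i * γ i) (n.erase i) := by
  unfold TT
  have h1 : n.support ⊆ insert i F ↔ (n.erase i).support ⊆ F := by
    rw [Finsupp.support_erase, Finset.subset_insert_iff]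
  have h2 : val γ n = ω ↔ val γ (n.erase i) = ω - n i * γ i := by
    have := sum_erase (γ := γ) i n
    constructor <;> intro h <;> linarith
  rw [← prod_erase i n]
  by_cases h : n.support ⊆ insert i F ∧ val γ n = ω
  · rw [if_pos h, if_pos ⟨h1.1 h.1, h2.1 h.2⟩]
  · rw [if_neg h, if_neg, mul_zero]
    rintro ⟨h3, h4⟩
    exact h ⟨h1.2 h3, h2.2 h4⟩

lemma TT_zero {F : Finset ι} {i : ι} (hi : i ∉ F) (ω : ℝ) {n : ι →₀ ℤ} (hn : n i ≠ 0) : TT a γ F ω n = 0 := by
  unfold TT
  rw [if_neg]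
  rintro ⟨h1, _⟩
  exact hi (h1 (Finsupp.mem_support_iff.2 hn))

theorem rel_fin [DecidableEq ι] (ha : ∀ i, 0 < a i) (F : Finset ι) : ∀ (C : ℝ → ℝ), Good a γ F C → ∀ ω,
    HasSum (TT a γ F ω) (C ω / ∏ i ∈ F, J0 (a i)) := by
  induction F using Finset.induction_on with
  | empty =>
    intro C hC ω
    have h1 : C ω = if ω = 0 then 1 else 0 := tendsto_nhds_unique (hC.bm ω) (good_empty.bm ω)
    rw [Finset.prod_empty, div_one, h1]
    have e : TT a γ ∅ ω = fun n => if n = 0 then (if ω = 0 then (1:ℝ) else 0) else 0 := by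
      funext n
      unfold TT
      by_cases hn : n = 0
      · subst hn
        simp only [Finsupp.support_zero, Finset.subset_empty, true_and, if_true]
        have e2 : val γ (0 : ι →₀ ℤ) = 0 := by simp [val]
        rw [e2, QQ_zero]
        simp only [eq_comm]
      · rw [if_neg hn, if_neg]
        rintro ⟨h2, _⟩
        rw [Finset.subset_empty, Finsupp.support_eq_empty] at h2
        exact hn h2
    rw [e]
    exact hasSum_ite_eq 0 _
  | insert i F hi ih =>
    intro C hC ω
    obtain ⟨C0, hC0⟩ := exists_good (γ := γ) ha F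
    have hst := good_step ha hi hC0
    have e1 : C ω = ∑' p : ℕ × ℕ, w (a i) p * C0 (ω + ((p.1 : ℝ) - p.2) * γ i) :=
      tendsto_nhds_unique (hC.bm ω) (hst.bm ω)
    set P := ∏ j ∈ F, J0 (a j) with hP
    have hP0 : 0 < P := Finset.prod_pos fun j _ => J0_pos _
    have hJ := J0_pos (a i)
    have h1 := (hs_k (a := a i) hC0.bd ω (γ i)).div_const (J0 (a i) * P)
    rw [← e1] at h1
    rw [Finset.prod_insert hi]
    have h2 : HasSum (fun k : ℤ => qq (a i) k * (C0 (ω - k * γ i) / P)) (C ω / (J0 (a i) * P)) := by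
      refine h1.congr_fun fun k => ?_
      unfold qq
      field_simp
    -- the sum over the pairs
    have h3 : ∀ k : ℤ, HasSum (fun n' : ι →₀ ℤ => qq (a i) k * TT a γ F (ω - k * γ i) n')
        (qq (a i) k * (C0 (ω - k * γ i) / P)) := fun k => (ih C0 hC0 _).mul_left _
    have h4 : Summable fun x : ℤ × (ι →₀ ℤ) => qq (a i) x.1 * TT a γ F (ω - x.1 * γ i) x.2 := by
      rw [summable_prod_of_nonneg fun x => mul_nonneg (qq_pos (ha i) _).le (TT_nn ha _ _ _)]
      refine ⟨fun k => (h3 k).summable, ?_⟩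
      refine h2.summable.congr fun k => ?_
      exact (h3 k).tsum_eq.symm
    have h5 : HasSum (fun x : ℤ × (ι →₀ ℤ) => qq (a i) x.1 * TT a γ F (ω - x.1 * γ i) x.2)
        (C ω / (J0 (a i) * P)) := by
      have h6 := h4.hasSum.prod_fiberwise h3
      have h7 := h6.unique h2
      rw [← h7]
      exact h4.hasSum
    have hinj : Function.Injective fun n : ι →₀ ℤ => ((n i, n.erase i) : ℤ × (ι →₀ ℤ)) := by
      intro n m hnm
      simp only [Prod.mk.injEq] at hnm
      ext j
      by_cases hj : j = i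
      · subst hj
        exact hnm.1
      · have := congrArg (fun f : ι →₀ ℤ => f j) hnm.2
        simpa [Finsupp.erase_ne hj] using this
    have h6 := (hinj.hasSum_iff (f := fun x : ℤ × (ι →₀ ℤ) => qq (a i) x.1 * TT a γ F (ω - x.1 * γ i) x.2) (by
      rintro ⟨k, n'⟩ hx
      by_cases hn : n' i = 0
      · exfalso
        apply hx
        refine ⟨n' + Finsupp.single i k, ?_⟩
        simp only [Prod.mk.injEq]
        constructor
        · simp [hn]
        · ext j
          by_cases hj : j = i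
          · subst hj
            simp [hn]
          · rw [Finsupp.erase_ne hj]
            simp [Finsupp.single_apply, Ne.symm hj]
      · show qq (a i) k * TT a γ F (ω - k * γ i) n' = 0
        rw [TT_zero hi _ hn, mul_zero])).2 h5
    refine h6.congr_fun fun n => ?_
    exact TT_step ω n

/-- **The mean value of the exponential as a sum over the relations.** -/
theorem fam' (ha : ∀ i, 0 < a i) (hs : Summable a) {E : ℝ}
    (hE : Tendsto (mean fun u => Real.exp (DD a γ u)) atTop (𝓝 E)) :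
    HasSum (fun n : {n : ι →₀ ℤ // val γ n = 0} => QQ a n) (E / PP a) := by
  classical
  set B : ℝ := 2 * ∑' i, a i with hB
  choose C hC using fun F => exists_good (γ := γ) ha F
  set P : Finset ι → ℝ := fun F => ∏ i ∈ F, J0 (a i) with hP
  have hP0 : ∀ F, 0 < P F := fun F => Finset.prod_pos fun i _ => J0_pos _
  have hPF : ∀ F u, |PF a γ F u| ≤ Real.exp B := by
    intro F u
    unfold PF
    rw [abs_of_pos (Real.exp_pos _), Real.exp_le_exp]
    calc ∑ i ∈ F, 2 * a i * Real.cos (γ i * u) ≤ ∑ i ∈ F, 2 * a i := by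
          refine Finset.sum_le_sum fun i _ => ?_
          exact mul_le_of_le_one_right (by linarith [ha i]) (Real.cos_le_one _)
      _ = 2 * ∑ i ∈ F, a i := by rw [Finset.mul_sum]
      _ ≤ B := by rw [hB]; linarith [sum_le ha hs F]
  -- the finite mean values
  have hbm : ∀ F, Tendsto (mean (PF a γ F)) atTop (𝓝 (C F 0)) := by
    intro F
    refine ((hC F).bm 0).congr fun U => ?_
    unfold mean
    simp
  have hdist : ∀ F, |E - C F 0| ≤ Real.exp B * (2 * ((∑' i, a i) - ∑ i ∈ F, a i)) := by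
    intro F
    refine le_of_tendsto (hE.sub (hbm F)).abs ?_
    filter_upwards [eventually_gt_atTop 0] with U hU
    refine mean_sub (Real.continuous_exp.comp (DD_cont ha hs)) (PF_cont F) (fun u => ?_) hU
    unfold PF
    refine (exp_sub_le (B := B) ?_ ?_).trans ?_
    · exact (le_abs_self _).trans (DD_bound ha hs u)
    · have := hPF F u
      unfold PF at this
      rw [abs_of_pos (Real.exp_pos _), Real.exp_le_exp] at this
      exact this
    · exact mul_le_mul_of_nonneg_left (DD_tail ha hs F u) (Real.exp_pos _).le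
  have h1 : Tendsto (fun F : Finset ι => Real.exp B * (2 * ((∑' i, a i) - ∑ i ∈ F, a i))) atTop (𝓝 0) := by
    have h2 : Tendsto (fun F : Finset ι => ∑ i ∈ F, a i) atTop (𝓝 (∑' i, a i)) := hs.hasSum
    have h3 := ((tendsto_const_nhds (x := ∑' i, a i)).sub h2).const_mul 2
    have h4 := h3.const_mul (Real.exp B)
    simpa using h4
  have hcE : Tendsto (fun F => C F 0) atTop (𝓝 E) := by
    have h2 : Tendsto (fun F => E - C F 0) atTop (𝓝 0) := squeeze_zero_norm (fun F => hdist F) h1
    have h3 := (tendsto_const_nhds (x := E)).sub h2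
    simpa using h3
  -- the product
  obtain ⟨-, -, hsl, -, -⟩ := fam (γ := γ) ha hs
  have hPP : Tendsto P atTop (𝓝 (PP a)) := by
    have h1 : Tendsto (fun F : Finset ι => Real.exp (∑ i ∈ F, Real.log (J0 (a i)))) atTop (𝓝 (PP a)) :=
      (Real.continuous_exp.tendsto _).comp hsl.hasSum
    refine h1.congr fun F => ?_
    rw [← Real.log_prod fun i _ => (J0_pos _).ne', Real.exp_log (hP0 F)]
  have hPP0 : 0 < PP a := Real.exp_pos _
  have hr : Tendsto (fun F => C F 0 / P F) atTop (𝓝 (E / PP a)) := hcE.div hPP hPP0.ne'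
  have hrel : ∀ F, HasSum (TT a γ F 0) (C F 0 / P F) := fun F => rel_fin ha F _ (hC F) 0
  -- the sum over all relations
  set g : (ι →₀ ℤ) → ℝ := fun n => if val γ n = 0 then QQ a n else 0 with hg
  have hg0 : ∀ n, 0 ≤ g n := by
    intro n
    rw [hg]
    simp only
    split_ifs
    · exact (QQ_pos ha n).le
    · exact le_rfl
  have hTg : ∀ F n, TT a γ F 0 n ≤ g n := by
    intro F n
    unfold TT
    rw [hg]
    simp only
    by_cases h : val γ n = 0
    · rw [if_pos h]
      split_ifs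
      · exact le_rfl
      · exact (QQ_pos ha n).le
    · rw [if_neg h, if_neg (fun h2 => h h2.2)]
  have hsle : ∀ s : Finset (ι →₀ ℤ), ∑ n ∈ s, g n ≤ E / PP a := by
    intro s
    refine ge_of_tendsto hr ?_
    filter_upwards [eventually_ge_atTop (s.biUnion fun n => n.support)] with F hF
    have h5 : ∑ n ∈ s, g n = ∑ n ∈ s, TT a γ F 0 n := by
      refine Finset.sum_congr rfl fun n hn => ?_
      have h6 : n.support ⊆ F := (Finset.subset_biUnion_of_mem (fun n : ι →₀ ℤ => n.support) hn).trans hF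
      rw [hg]
      unfold TT
      simp only [h6, true_and]
    rw [h5, ← (hrel F).tsum_eq]
    exact (hrel F).summable.sum_le_tsum s fun n _ => TT_nn ha F 0 n
  have hgs : Summable g := summable_of_sum_le hg0 hsle
  have h7 : ∑' n, g n ≤ E / PP a := hgs.tsum_le_of_sum_le hsle
  have h8 : E / PP a ≤ ∑' n, g n := by
    refine le_of_tendsto' hr fun F => ?_
    rw [← (hrel F).tsum_eq]
    exact (hrel F).summable.tsum_le_tsum (fun n => hTg F n) hgs
  have h9 : HasSum g (E / PP a) := by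
    rw [← le_antisymm h7 h8]
    exact hgs.hasSum
  have e : g = Set.indicator {n : ι →₀ ℤ | val γ n = 0} (QQ a) := by
    funext n
    rw [hg, Set.indicator_apply]
    rfl
  rw [e] at h9
  exact hasSum_subtype_iff_indicator.2 h9

end Pool.Agent.U544.LI
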